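import Pool.Agent.Helper22.ST.Defs

/-!
# ST-A01: the forms `D, W, Gr` of a stretched tetrahedron

`len_tet`: `EuclideanSpace.dist_eq`, `Fin.sum_univ_three`.  The other formulas: all forms are
polynomials in the squares `len j ^ 2 = PP j + h ^ 2 * ZZ j` (`heron x y z` is even in each variable:
`heron x y z = 4 x² y² - (x² + y² - z²)²`), so rewrite everything in terms of `len j ^ 2` and then
`ring` for each edge / each face (`fin_cases`).  Checked numerically.
-/

open Real Set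
open Pool.Agent.Helper1.Tet

namespace Pool.Agent.Helper22.ST

theorem len_tet (x y z : Fin 4 → ℝ) (h : ℝ) (j : Fin 6) :
    len (tet x y z h) j = √(PP x y j + h ^ 2 * ZZ z j) := by
  unfold len
  rw [EuclideanSpace.dist_eq]
  congr 1
  rw [Fin.sum_univ_three]
  simp only [tet, Real.dist_eq, sq_abs, PP, ZZ]
  simp
  ring

theorem sq_len_tet (x y z : Fin 4 → ℝ) (h : ℝ) (j : Fin 6) :
    len (tet x y z h) j ^ 2 = PP x y j + h ^ 2 * ZZ z j := by
  rw [len_tet, Real.sq_sqrt]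
  unfold PP ZZ
  positivity

theorem D_tet (x y z : Fin 4 → ℝ) (h : ℝ) (v : Fin 4) :
    D (len (tet x y z h)) v = 4 * (cr x y v ^ 2 + h ^ 2 * QQ x y z v) := by
  have E : ∀ j, len (tet x y z h) j ^ 2 = PP x y j + h ^ 2 * ZZ z j := sq_len_tet x y z h
  have H : ∀ a b c : ℝ, heron a b c = 4 * a ^ 2 * b ^ 2 - (a ^ 2 + b ^ 2 - c ^ 2) ^ 2 := by
    intro a b c
    unfold heron
    ring
  fin_cases v <;>
  · simp only [D, H, E]
    simp [PP, ZZ, ea, eb, cr, QQ]
    ring

theorem W_tet (x y z : Fin 4 → ℝ) (h : ℝ) (j : Fin 6) :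
    W (len (tet x y z h)) j = -4 * (gm x y j + h ^ 2 * qq' x y z j) := by
  have E : ∀ j, len (tet x y z h) j ^ 2 = PP x y j + h ^ 2 * ZZ z j := sq_len_tet x y z h
  fin_cases j <;>
  · simp only [W, wform, E]
    simp [PP, ZZ, ea, eb, ec, ed, ix, cr, gm, qq']
    ring

theorem Gr_tet (x y z : Fin 4 → ℝ) (h : ℝ) :
    Gr (len (tet x y z h)) = h ^ 2 * dt x y z ^ 2 := by
  have E : ∀ j, len (tet x y z h) j ^ 2 = PP x y j + h ^ 2 * ZZ z j := sq_len_tet x y z h
  simp only [Gr, E]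
  simp [PP, ZZ, ea, eb, dt, cr]
  ring

end Pool.Agent.Helper22.ST
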