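import Pool.Agent.Helper22.ST.Defs

/-!
# ST-A02: polynomial identities for the normals

Lagrange identities for `N_c × N_d = ± dt * (edge vector)`.  For each edge (`fin_cases j`) unfold
everything and `ring`.  `cr_vert`: if the horizontal parts of the two ends of the edge `j` agree then
the two faces at `j` are vertical (`fin_cases j`; `PP = 0` gives `x (ea j) = x (eb j)`, `y (ea j) = y (eb j)`).
`PP_ne`: contrapositive.
-/

open Real Set
open Pool.Agent.Helper1.Tet

namespace Pool.Agent.Helper22.ST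

private theorem cr0 (f g : Fin 4 → ℝ) : cr f g 0 = -(cr f g 1 + cr f g 2 + cr f g 3) := rfl

private theorem cr1 (f g : Fin 4 → ℝ) :
    cr f g 1 = (f 2 - f 0) * (g 3 - g 0) - (g 2 - g 0) * (f 3 - f 0) := rfl

private theorem cr2 (f g : Fin 4 → ℝ) :
    cr f g 2 = (f 3 - f 0) * (g 1 - g 0) - (g 3 - g 0) * (f 1 - f 0) := rfl

private theorem cr3 (f g : Fin 4 → ℝ) :
    cr f g 3 = (f 1 - f 0) * (g 2 - g 0) - (g 1 - g 0) * (f 2 - f 0) := rfl

private theorem dte (x y z : Fin 4 → ℝ) : dt x y z =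
    (x 1 - x 0) * cr y z 1 + (y 1 - y 0) * cr z x 1 + (z 1 - z 0) * cr x y 1 := rfl

private theorem dt_cyc (x y z : Fin 4 → ℝ) : dt y z x = dt x y z := by
  rw [dte, dte]
  ring

private theorem x23 (f g k : Fin 4 → ℝ) :
    cr g k 2 * cr k f 3 - cr k f 2 * cr g k 3 = dt f g k * (k 1 - k 0) := by
  simp only [dte, cr1, cr2, cr3]
  generalize f 1 - f 0 = a1
  generalize f 2 - f 0 = a2
  generalize f 3 - f 0 = a3
  generalize g 1 - g 0 = b1
  generalize g 2 - g 0 = b2
  generalize g 3 - g 0 = b3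
  generalize k 1 - k 0 = c1
  generalize k 2 - k 0 = c2
  generalize k 3 - k 0 = c3
  ring

private theorem x13 (f g k : Fin 4 → ℝ) :
    cr g k 1 * cr k f 3 - cr k f 1 * cr g k 3 = -(dt f g k * (k 2 - k 0)) := by
  simp only [dte, cr1, cr2, cr3]
  generalize f 1 - f 0 = a1
  generalize f 2 - f 0 = a2
  generalize f 3 - f 0 = a3
  generalize g 1 - g 0 = b1
  generalize g 2 - g 0 = b2
  generalize g 3 - g 0 = b3
  generalize k 1 - k 0 = c1
  generalize k 2 - k 0 = c2
  generalize k 3 - k 0 = c3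
  ring

private theorem x12 (f g k : Fin 4 → ℝ) :
    cr g k 1 * cr k f 2 - cr k f 1 * cr g k 2 = dt f g k * (k 3 - k 0) := by
  simp only [dte, cr1, cr2, cr3]
  generalize f 1 - f 0 = a1
  generalize f 2 - f 0 = a2
  generalize f 3 - f 0 = a3
  generalize g 1 - g 0 = b1
  generalize g 2 - g 0 = b2
  generalize g 3 - g 0 = b3
  generalize k 1 - k 0 = c1
  generalize k 2 - k 0 = c2
  generalize k 3 - k 0 = c3
  ring

private theorem crossk (f g k : Fin 4 → ℝ) (j : Fin 6) :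
    cr g k (ec j) * cr k f (ed j) - cr k f (ec j) * cr g k (ed j) =
      (![-1, 1, -1, -1, 1, -1] : Fin 6 → ℝ) j * (dt f g k * (k (ea j) - k (eb j))) := by
  have h23 := x23 f g k
  have h13 := x13 f g k
  have h12 := x12 f g k
  fin_cases j
  · show cr g k 2 * cr k f 3 - cr k f 2 * cr g k 3 = (-1) * (dt f g k * (k 0 - k 1))
    linear_combination h23
  · show cr g k 1 * cr k f 3 - cr k f 1 * cr g k 3 = 1 * (dt f g k * (k 0 - k 2))
    linear_combination h13
  · show cr g k 1 * cr k f 2 - cr k f 1 * cr g k 2 = (-1) * (dt f g k * (k 0 - k 3))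
    linear_combination h12
  · show cr g k 0 * cr k f 3 - cr k f 0 * cr g k 3 = (-1) * (dt f g k * (k 1 - k 2))
    rw [cr0 g k, cr0 k f]
    linear_combination -h13 - h23
  · show cr g k 0 * cr k f 2 - cr k f 0 * cr g k 2 = 1 * (dt f g k * (k 1 - k 3))
    rw [cr0 g k, cr0 k f]
    linear_combination -h12 + h23
  · show cr g k 0 * cr k f 1 - cr k f 0 * cr g k 1 = (-1) * (dt f g k * (k 2 - k 3))
    rw [cr0 g k, cr0 k f]
    linear_combination h12 + h13

private theorem sg_sq (j : Fin 6) : ((![-1, 1, -1, -1, 1, -1] : Fin 6 → ℝ) j) ^ 2 = 1 := by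
  fin_cases j <;> norm_num

theorem ZZ_dt (x y z : Fin 4 → ℝ) (j : Fin 6) :
    ZZ z j * dt x y z ^ 2 = QQ x y z (ec j) * QQ x y z (ed j) - qq' x y z j ^ 2 := by
  have h := crossk x y z j
  have hs := sg_sq j
  unfold ZZ QQ qq'
  generalize (![-1, 1, -1, -1, 1, -1] : Fin 6 → ℝ) j = s at h hs
  generalize cr y z (ec j) = a at h ⊢
  generalize cr y z (ed j) = a' at h ⊢
  generalize cr z x (ec j) = b at h ⊢
  generalize cr z x (ed j) = b' at h ⊢
  generalize dt x y z = D at h ⊢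
  generalize z (ea j) - z (eb j) = t at h ⊢
  linear_combination (-(a * b' - b * a') - s * (D * t)) * h - (D * t) ^ 2 * hs

theorem PP_dt (x y z : Fin 4 → ℝ) (j : Fin 6) :
    PP x y j * dt x y z ^ 2 = cr x y (ed j) ^ 2 * QQ x y z (ec j) +
      cr x y (ec j) ^ 2 * QQ x y z (ed j) - 2 * gm x y j * qq' x y z j := by
  have h1 := crossk y z x j
  have h2 := crossk z x y j
  rw [dt_cyc x y z] at h1
  rw [dt_cyc y z x, dt_cyc x y z] at h2
  have hs := sg_sq j
  unfold PP QQ qq' gm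
  generalize (![-1, 1, -1, -1, 1, -1] : Fin 6 → ℝ) j = s at h1 h2 hs
  generalize cr y z (ec j) = a at h1 h2 ⊢
  generalize cr y z (ed j) = a' at h1 h2 ⊢
  generalize cr z x (ec j) = b at h1 h2 ⊢
  generalize cr z x (ed j) = b' at h1 h2 ⊢
  generalize cr x y (ec j) = c at h1 h2 ⊢
  generalize cr x y (ed j) = c' at h1 h2 ⊢
  generalize dt x y z = D at h1 h2 ⊢
  generalize x (ea j) - x (eb j) = t at h1 h2 ⊢
  generalize y (ea j) - y (eb j) = u at h1 h2 ⊢
  linear_combination (-(b * c' - c * b') - s * (D * t)) * h1 +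
    (-(c * a' - a * c') - s * (D * u)) * h2 - ((D * t) ^ 2 + (D * u) ^ 2) * hs

theorem cr_sum (f g : Fin 4 → ℝ) : cr f g 0 + cr f g 1 + cr f g 2 + cr f g 3 = 0 := by
  rw [cr0]
  ring

private theorem PP_eq {x y : Fin 4 → ℝ} {j : Fin 6} (h : PP x y j = 0) :
    x (ea j) = x (eb j) ∧ y (ea j) = y (eb j) := by
  unfold PP at h
  constructor
  · nlinarith [sq_nonneg (x (ea j) - x (eb j)), sq_nonneg (y (ea j) - y (eb j))]
  · nlinarith [sq_nonneg (x (ea j) - x (eb j)), sq_nonneg (y (ea j) - y (eb j))]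

/-- the normals of the faces at a degenerate edge -/
private theorem cr_of_eq {f g : Fin 4 → ℝ} {j : Fin 6} (h1 : f (ea j) = f (eb j))
    (h2 : g (ea j) = g (eb j)) : cr f g (ec j) = 0 ∧ cr f g (ed j) = 0 := by
  fin_cases j
  · change f 0 = f 1 at h1
    change g 0 = g 1 at h2
    show cr f g 2 = 0 ∧ cr f g 3 = 0
    rw [cr2, cr3, h1, h2]
    exact ⟨by ring, by ring⟩
  · change f 0 = f 2 at h1
    change g 0 = g 2 at h2
    show cr f g 1 = 0 ∧ cr f g 3 = 0
    rw [cr1, cr3, h1, h2]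
    exact ⟨by ring, by ring⟩
  · change f 0 = f 3 at h1
    change g 0 = g 3 at h2
    show cr f g 1 = 0 ∧ cr f g 2 = 0
    rw [cr1, cr2, h1, h2]
    exact ⟨by ring, by ring⟩
  · change f 1 = f 2 at h1
    change g 1 = g 2 at h2
    show cr f g 0 = 0 ∧ cr f g 3 = 0
    rw [cr0, cr1, cr2, cr3, h1, h2]
    exact ⟨by ring, by ring⟩
  · change f 1 = f 3 at h1
    change g 1 = g 3 at h2
    show cr f g 0 = 0 ∧ cr f g 2 = 0
    rw [cr0, cr1, cr2, cr3, h1, h2]
    exact ⟨by ring, by ring⟩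
  · change f 2 = f 3 at h1
    change g 2 = g 3 at h2
    show cr f g 0 = 0 ∧ cr f g 1 = 0
    rw [cr0, cr1, cr2, cr3, h1, h2]
    exact ⟨by ring, by ring⟩

theorem cr_vert (x y : Fin 4 → ℝ) (j : Fin 6) (h : PP x y j = 0) :
    cr x y (ec j) = 0 ∧ cr x y (ed j) = 0 := cr_of_eq (PP_eq h).1 (PP_eq h).2

theorem PP_nonneg (x y : Fin 4 → ℝ) (j : Fin 6) : 0 ≤ PP x y j := by
  unfold PP
  positivity

theorem ZZ_nonneg (z : Fin 4 → ℝ) (j : Fin 6) : 0 ≤ ZZ z j := by
  unfold ZZ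
  positivity

theorem QQ_nonneg (x y z : Fin 4 → ℝ) (v : Fin 4) : 0 ≤ QQ x y z v := by
  unfold QQ
  positivity

private theorem dt_of_face {x y z : Fin 4 → ℝ} {v : Fin 4} (h1 : cr x y v = 0)
    (h2 : cr y z v = 0) (h3 : cr z x v = 0) : dt x y z = 0 := by
  have e2 : dt x y z = (x 2 - x 0) * cr y z 2 + (y 2 - y 0) * cr z x 2 + (z 2 - z 0) * cr x y 2 := by
    simp only [dte, cr1, cr2]
    ring
  have e3 : dt x y z = (x 3 - x 0) * cr y z 3 + (y 3 - y 0) * cr z x 3 + (z 3 - z 0) * cr x y 3 := by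
    simp only [dte, cr1, cr3]
    ring
  have e0 : dt x y z = (x 0 - x 1) * cr y z 0 + (y 0 - y 1) * cr z x 0 + (z 0 - z 1) * cr x y 0 := by
    simp only [dte, cr0, cr1, cr2, cr3]
    ring
  fin_cases v
  · change cr x y 0 = 0 at h1
    change cr y z 0 = 0 at h2
    change cr z x 0 = 0 at h3
    rw [e0, h1, h2, h3]; ring
  · change cr x y 1 = 0 at h1
    change cr y z 1 = 0 at h2
    change cr z x 1 = 0 at h3
    rw [dte, h1, h2, h3]; ring
  · change cr x y 2 = 0 at h1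
    change cr y z 2 = 0 at h2
    change cr z x 2 = 0 at h3
    rw [e2, h1, h2, h3]; ring
  · change cr x y 3 = 0 at h1
    change cr y z 3 = 0 at h2
    change cr z x 3 = 0 at h3
    rw [e3, h1, h2, h3]; ring

/-- if `dt ≠ 0` then no edge is degenerate and no face is degenerate (from `ZZ_dt`, `PP_dt`: if
`PP j = ZZ j = 0` then two vertices coincide and `dt = 0`; if `cr x y v = 0` and `QQ v = 0` then the
normal of the face `v` vanishes and again `dt = 0`, directly from the definition, `fin_cases v`,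
with `cr y z 0 = -(sum)` and `dt = x₁ N₁ + ...` for `v = 1`; for the other `v` use the same formula
with another base point, e.g. `dt = (x 2 - x 0) * cr y z 2 + (y 2 - y 0) * cr z x 2 + ...`) -/
theorem edge_pos (x y z : Fin 4 → ℝ) (hd : dt x y z ≠ 0) {h : ℝ} (hh : 0 < h) (j : Fin 6) :
    0 < PP x y j + h ^ 2 * ZZ z j := by
  have h1 := PP_nonneg x y j
  have h2 := ZZ_nonneg z j
  have h3 : 0 < h ^ 2 := by positivity
  by_contra hcon
  have h4 : PP x y j = 0 := by nlinarith [mul_nonneg h3.le h2]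
  have h5' : h ^ 2 * ZZ z j = 0 := by nlinarith [mul_nonneg h3.le h2]
  have h5 : ZZ z j = 0 := (mul_eq_zero.mp h5').resolve_left h3.ne'
  obtain ⟨h6, h7⟩ := PP_eq h4
  unfold ZZ at h5
  have h8 : z (ea j) = z (eb j) := sub_eq_zero.mp (pow_eq_zero_iff (two_ne_zero)|>.mp h5)
  exact hd (dt_of_face (cr_of_eq h6 h7).1 (cr_of_eq h7 h8).1 (cr_of_eq h8 h6).1)

theorem face_pos (x y z : Fin 4 → ℝ) (hd : dt x y z ≠ 0) {h : ℝ} (hh : 0 < h) (v : Fin 4) :
    0 < cr x y v ^ 2 + h ^ 2 * QQ x y z v := by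
  have h1 := sq_nonneg (cr x y v)
  have h2 := QQ_nonneg x y z v
  have h3 : 0 < h ^ 2 := by positivity
  by_contra hcon
  have h4 : cr x y v ^ 2 = 0 := by nlinarith [mul_nonneg h3.le h2]
  have h5 : h ^ 2 * QQ x y z v = 0 := by nlinarith [mul_nonneg h3.le h2]
  have h6 : QQ x y z v = 0 := (mul_eq_zero.mp h5).resolve_left h3.ne'
  unfold QQ at h6
  have h7 : cr y z v = 0 := by nlinarith [sq_nonneg (cr y z v), sq_nonneg (cr z x v)]
  have h8 : cr z x v = 0 := by nlinarith [sq_nonneg (cr y z v), sq_nonneg (cr z x v)]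
  have h9 : cr x y v = 0 := pow_eq_zero_iff (two_ne_zero)|>.mp h4
  exact hd (dt_of_face h9 h7 h8)

end Pool.Agent.Helper22.ST
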