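import Pool.Agent.Helper22.ST.A01Forms
import Pool.Agent.Helper1.Tet.Dual

/-!
# ST-A03: affine independence

`tet_indep`: as in `Helper1/Tet/Goldberg.lean`, `gold_indep`: `affineIndependent_iff_of_fintype`,
weights `w` with `∑ w = 0`, `∑ w_i p_i = 0`: with `w 0 = -(w 1 + w 2 + w 3)` the three coordinates give
`∑_{i=1}^3 w_i (x i - x 0) = 0`, ... ; multiply by the minors: `w i * (h * dt) = 0`.
`dt_ne`: `len_mem_TT` gives `0 < Gr (len (tet x y z h)) = h² dt²` (`Gr_tet`).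
-/

open Real Set
open Pool.Agent.Helper1.Tet

namespace Pool.Agent.Helper22.ST

theorem tet_indep (x y z : Fin 4 → ℝ) (hd : dt x y z ≠ 0) {h : ℝ} (hh : 0 < h) :
    AffineIndependent ℝ (tet x y z h) := by
  rw [affineIndependent_iff_of_fintype]
  intro w hw hs
  rw [Finset.weightedVSub_eq_linear_combination (hw := hw)] at hs
  rw [Fin.sum_univ_four] at hw hs
  have h0 := congrArg (fun v : E3 => v 0) hs
  have h1 := congrArg (fun v : E3 => v 1) hs
  have h2 := congrArg (fun v : E3 => v 2) hs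
  simp [tet] at h0 h1 h2
  have h2' : w 0 * z 0 + w 1 * z 1 + w 2 * z 2 + w 3 * z 3 = 0 := by
    have : (w 0 * z 0 + w 1 * z 1 + w 2 * z 2 + w 3 * z 3) * h = 0 := by
      linear_combination h2
    rcases mul_eq_zero.1 this with k | k
    · exact k
    · exact absurd k hh.ne'
  have w0 : w 0 = -(w 1 + w 2 + w 3) := by linarith
  rw [w0] at h0 h1 h2'
  have D : dt x y z = (x 1 - x 0) * ((y 2 - y 0) * (z 3 - z 0) - (z 2 - z 0) * (y 3 - y 0)) +
      (y 1 - y 0) * ((z 2 - z 0) * (x 3 - x 0) - (x 2 - x 0) * (z 3 - z 0)) +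
      (z 1 - z 0) * ((x 2 - x 0) * (y 3 - y 0) - (y 2 - y 0) * (x 3 - x 0)) := by
    simp [dt, cr]
  have k1 : w 1 * dt x y z = 0 := by
    rw [D]
    linear_combination ((y 2 - y 0) * (z 3 - z 0) - (z 2 - z 0) * (y 3 - y 0)) * h0 +
      ((z 2 - z 0) * (x 3 - x 0) - (x 2 - x 0) * (z 3 - z 0)) * h1 +
      ((x 2 - x 0) * (y 3 - y 0) - (y 2 - y 0) * (x 3 - x 0)) * h2'
  have k2 : w 2 * dt x y z = 0 := by
    rw [D]
    linear_combination ((y 3 - y 0) * (z 1 - z 0) - (z 3 - z 0) * (y 1 - y 0)) * h0 +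
      ((z 3 - z 0) * (x 1 - x 0) - (x 3 - x 0) * (z 1 - z 0)) * h1 +
      ((x 3 - x 0) * (y 1 - y 0) - (y 3 - y 0) * (x 1 - x 0)) * h2'
  have k3 : w 3 * dt x y z = 0 := by
    rw [D]
    linear_combination ((y 1 - y 0) * (z 2 - z 0) - (z 1 - z 0) * (y 2 - y 0)) * h0 +
      ((z 1 - z 0) * (x 2 - x 0) - (x 1 - x 0) * (z 2 - z 0)) * h1 +
      ((x 1 - x 0) * (y 2 - y 0) - (y 1 - y 0) * (x 2 - x 0)) * h2'
  have e1 : w 1 = 0 := (mul_eq_zero.1 k1).resolve_right hd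
  have e2 : w 2 = 0 := (mul_eq_zero.1 k2).resolve_right hd
  have e3 : w 3 = 0 := (mul_eq_zero.1 k3).resolve_right hd
  have e0 : w 0 = 0 := by rw [w0, e1, e2, e3]; ring
  intro i
  fin_cases i
  · exact e0
  · exact e1
  · exact e2
  · exact e3

theorem dt_ne (x y z : Fin 4 → ℝ) {h : ℝ} (hp : AffineIndependent ℝ (tet x y z h)) :
    dt x y z ≠ 0 := by
  intro h0
  have := (len_mem_TT _ hp).2
  rw [Gr_tet, h0] at this
  simp at this

theorem tet_mem_TT (x y z : Fin 4 → ℝ) (hd : dt x y z ≠ 0) {h : ℝ} (hh : 0 < h) :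
    len (tet x y z h) ∈ TT := len_mem_TT _ (tet_indep x y z hd hh)

end Pool.Agent.Helper22.ST
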