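import Pool.Agent.Helper22.ST.A02Ident
import Pool.Agent.Helper22.ST.A03Indep
import Pool.Agent.Helper1.Tet.TTFacts

/-!
# ST-A04: the dihedral angles of a stretched tetrahedron

Let `α = al l j`, `l = len (tet x y z h) ∈ TT` (`tet_mem_TT`).  By `TT_facts` `α ∈ (0, π)`,
`cos α = W / (√D √D')`, `sin α = 4 l_j √Gr / (√D √D')`, so with `W_tet`, `Gr_tet`, `len_tet`
(`√Gr = h |dt|`, `h > 0`): `cos α / sin α = -(gm + h² qq') / (h |dt| l_j)`.
Now `α - π/2 ∈ (-π/2, π/2)` and `tan (α - π/2) = -cos α / sin α`, so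
`α - π/2 = arctan (tan (α - π/2))` (`Real.arctan_tan`).
-/

open Real Set
open Pool.Agent.Helper1.Tet

namespace Pool.Agent.Helper22.ST

theorem al_form (x y z : Fin 4 → ℝ) (hd : dt x y z ≠ 0) {h : ℝ} (hh : 0 < h) (j : Fin 6) :
    al (len (tet x y z h)) j = π / 2 + arctan ((gm x y j + h ^ 2 * qq' x y z j) /
      (h * |dt x y z| * √(PP x y j + h ^ 2 * ZZ z j))) := by
  obtain ⟨hl, hD, hc, hs, hI, -, -, -, -⟩ := TT_facts (tet_mem_TT x y z hd hh)
  have hlj := hl j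
  have hc' := hc j
  have hs' := hs j
  have hI' := hI j
  have e1 : 0 < √(D (len (tet x y z h)) (ec j)) := Real.sqrt_pos.2 (hD _)
  have e2 : 0 < √(D (len (tet x y z h)) (ed j)) := Real.sqrt_pos.2 (hD _)
  have hdt : 0 < |dt x y z| := abs_pos.2 hd
  have hGr : √(Gr (len (tet x y z h))) = h * |dt x y z| := by
    rw [Gr_tet, ← mul_pow, Real.sqrt_sq_eq_abs, abs_mul, abs_of_pos hh]
  rw [W_tet] at hc'
  rw [hGr] at hs'
  rw [← len_tet]
  set l := len (tet x y z h) j with hl'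
  set α := al (len (tet x y z h)) j with hα
  have h1 : α - π / 2 ∈ Ioo (-(π / 2)) (π / 2) := ⟨by linarith [hI'.1], by linarith [hI'.2]⟩
  have h2 : tan (α - π / 2) = (gm x y j + h ^ 2 * qq' x y z j) / (h * |dt x y z| * l) := by
    rw [tan_eq_sin_div_cos, sin_sub_pi_div_two, cos_sub_pi_div_two, hc', hs']
    field_simp
  have h3 := Real.arctan_tan h1.1 h1.2
  rw [← h2, h3]
  ring

end Pool.Agent.Helper22.ST
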