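import Mathlib

/-!
# ST-A18: analytic functions with infinitely many zeros in a compact interval (Mathlib only)

`Set.Infinite.exists_accPt_of_subset_isCompact` gives an accumulation point `x ∈ Icc a b` of `H`, so
`∃ᶠ t in 𝓝[≠] x, f t = 0`; then `AnalyticOnNhd.eqOn_zero_of_preconnected_of_frequently_eq_zero` (`isPreconnected_Ioi`),
as in `A08Unc`.
-/

open Set

namespace Pool.Agent.Helper22.ST

theorem zero_of_inf {f : ℝ → ℝ} {c : ℝ} (hf : AnalyticOnNhd ℝ f (Ioi c)) {a b : ℝ} (hca : c < a)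
    {H : Set ℝ} (hH : H.Infinite) (hs : H ⊆ Icc a b) (h0 : ∀ h ∈ H, f h = 0) :
    ∀ h, c < h → f h = 0 := by
  obtain ⟨x, hx, hacc⟩ := hH.exists_accPt_of_subset_isCompact isCompact_Icc hs
  have hfr : ∃ᶠ t in nhdsWithin x {x}ᶜ, f t = 0 := by
    rw [accPt_iff_frequently_nhdsNE] at hacc
    exact hacc.mono (fun t ht => h0 t ht)
  intro h hh
  exact hf.eqOn_zero_of_preconnected_of_frequently_eq_zero isPreconnected_Ioi
    (hca.trans_le hx.1) hfr hh

end Pool.Agent.Helper22.ST
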