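import Mathlib

/-!
# ST-A10: linear independence of the functions `√(1 + x² s)` (Mathlib only)

Put `y = x²`: `∑ c s * √(1 + y s)` vanishes for `y > 0`.  Differentiating `k` times,
`∑ c s * s ^ k * (1 + y s) ^ (1 / 2 - k) = 0` for `y > 0`.  At `y = 1` this is
`∑ c s * √(1 + s) * (s / (1 + s)) ^ k = 0` for all `k`, and the numbers `s / (1 + s)` are distinct.
-/

open Set

namespace Pool.Agent.Helper22.ST

private theorem sqrt_indep_deriv (S : Finset ℝ) (hS : ∀ s ∈ S, 0 ≤ s) (c : ℝ → ℝ)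
    (h : ∀ y : ℝ, 0 < y → ∑ s ∈ S, c s * (1 + y * s) ^ (1 / 2 : ℝ) = 0) (k : ℕ) :
    ∀ y : ℝ, 0 < y → ∑ s ∈ S, c s * s ^ k * (1 + y * s) ^ (1 / 2 - k : ℝ) = 0 := by
  induction k with
  | zero =>
    intro y hy
    simpa using h y hy
  | succ k ih =>
    intro y hy
    have hd : HasDerivAt (fun y : ℝ => ∑ s ∈ S, c s * s ^ k * (1 + y * s) ^ (1 / 2 - k : ℝ))
        (∑ s ∈ S, c s * s ^ k * (s * (1 / 2 - k : ℝ) * (1 + y * s) ^ ((1 / 2 - k : ℝ) - 1))) y := by
      apply HasDerivAt.fun_sum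
      intro s hs
      apply HasDerivAt.const_mul
      have h1 : HasDerivAt (fun y : ℝ => 1 + y * s) s y := by
        simpa using ((hasDerivAt_id y).mul_const s).const_add 1
      have hpos : 0 < 1 + y * s := by
        have := mul_nonneg hy.le (hS s hs)
        linarith
      exact h1.rpow_const (Or.inl hpos.ne')
    have hz : HasDerivAt (fun y : ℝ => ∑ s ∈ S, c s * s ^ k * (1 + y * s) ^ (1 / 2 - k : ℝ)) 0 y := by
      apply (hasDerivAt_const y (0 : ℝ)).congr_of_eventuallyEq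
      filter_upwards [Ioi_mem_nhds hy] with z hz
      exact ih z hz
    have e := hd.unique hz
    have hk : (1 / 2 - k : ℝ) ≠ 0 := by
      intro h0
      have h1 : (1 : ℝ) = 2 * k := by linarith
      have h2 : (1 : ℕ) = 2 * k := by exact_mod_cast h1
      omega
    apply mul_left_cancel₀ hk
    rw [mul_zero, ← e, Finset.mul_sum]
    apply Finset.sum_congr rfl
    intro s _
    have e2 : (1 / 2 - (k : ℝ)) - 1 = 1 / 2 - ((k + 1 : ℕ) : ℝ) := by
      push_cast
      ring
    rw [e2, pow_succ]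
    ring

theorem sqrt_indep (S : Finset ℝ) (hS : ∀ s ∈ S, 0 ≤ s) (c : ℝ → ℝ)
    (h : ∀ x : ℝ, 0 < x → ∑ s ∈ S, c s * √(1 + x ^ 2 * s) = 0) : ∀ s ∈ S, c s = 0 := by
  have h1 : ∀ y : ℝ, 0 < y → ∑ s ∈ S, c s * (1 + y * s) ^ (1 / 2 : ℝ) = 0 := by
    intro y hy
    have := h (√y) (Real.sqrt_pos.2 hy)
    rw [Real.sq_sqrt hy.le] at this
    simpa only [Real.sqrt_eq_rpow] using this
  have h2 : ∀ k : ℕ, ∑ s ∈ S, (c s * (1 + s) ^ (1 / 2 : ℝ)) * (s / (1 + s)) ^ k = 0 := by
    intro k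
    rw [← sqrt_indep_deriv S hS c h1 k 1 one_pos]
    apply Finset.sum_congr rfl
    intro s hs
    have hpos : 0 < 1 + s := by
      have := hS s hs
      linarith
    rw [one_mul, Real.rpow_sub hpos, Real.rpow_natCast, div_pow]
    field_simp
  have h3 : ∀ p : Polynomial ℝ,
      ∑ s ∈ S, (c s * (1 + s) ^ (1 / 2 : ℝ)) * p.eval (s / (1 + s)) = 0 := by
    intro p
    simp only [Polynomial.eval_eq_sum_range, Finset.mul_sum]
    rw [Finset.sum_comm]
    apply Finset.sum_eq_zero
    intro i _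
    have := h2 i
    calc ∑ s ∈ S, (c s * (1 + s) ^ (1 / 2 : ℝ)) * (p.coeff i * (s / (1 + s)) ^ i)
        = p.coeff i * ∑ s ∈ S, (c s * (1 + s) ^ (1 / 2 : ℝ)) * (s / (1 + s)) ^ i := by
          rw [Finset.mul_sum]
          apply Finset.sum_congr rfl
          intro s _
          ring
      _ = 0 := by rw [this, mul_zero]
  intro s hs
  have h4 := h3 (∏ r ∈ S.erase s, (Polynomial.X - Polynomial.C (r / (1 + r))))
  rw [Finset.sum_eq_single_of_mem s hs] at h4
  · have hpos : 0 < 1 + s := by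
      have := hS s hs
      linarith
    have h5 : (∏ r ∈ S.erase s, (Polynomial.X - Polynomial.C (r / (1 + r)))).eval (s / (1 + s)) ≠ 0 := by
      rw [Polynomial.eval_prod]
      apply Finset.prod_ne_zero_iff.2
      intro r hr
      rw [Finset.mem_erase] at hr
      have hr0 : 0 < 1 + r := by
        have := hS r hr.2
        linarith
      simp only [Polynomial.eval_sub, Polynomial.eval_X, Polynomial.eval_C]
      rw [sub_ne_zero]
      intro h0
      rw [div_eq_div_iff hpos.ne' hr0.ne'] at h0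
      apply hr.1
      linarith
    have h6 := (mul_eq_zero.1 h4).resolve_right h5
    exact (mul_eq_zero.1 h6).resolve_right (Real.rpow_pos_of_pos hpos _).ne'
  · intro r hr hne
    rw [Polynomial.eval_prod]
    rw [Finset.prod_eq_zero (i := r) (Finset.mem_erase.2 ⟨hne, hr⟩)]
    · rw [mul_zero]
    · simp

end Pool.Agent.Helper22.ST
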