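import Pool.Agent.Helper22.ST.Defs

/-!
# ST: the case of a vertical edge — definitions

Normal form: the vertices `0` and `3` are over the origin at the heights `0` and `a > 0`; the vertices
`1` and `2` are over points at distance `c` and `b` from the origin, at mutual distance `l`, at the
heights `u` and `v`.  `β` is the inner product of the two points, `δ` twice the area of the triangle.
The non-vertical faces: `L = 012` (opposite to 3) and `U = 123` (opposite to 0).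
-/

open Real Set

namespace Pool.Agent.Helper22.ST

/-- data of a tetrahedron with a vertical edge, in normal form -/
structure Dat1 where
  b : ℝ
  c : ℝ
  l : ℝ
  a : ℝ
  u : ℝ
  v : ℝ
  β : ℝ
  δ : ℝ
  bp : 0 < b
  cp : 0 < c
  lp : 0 < l
  ap : 0 < a
  δp : 0 < δ
  hβ : 2 * β = b ^ 2 + c ^ 2 - l ^ 2
  hδ : δ ^ 2 = b ^ 2 * c ^ 2 - β ^ 2

namespace Dat1

variable (d : Dat1)

/-- squared slope of the edge `01` -/
noncomputable def s01 : ℝ := (d.u / d.c) ^ 2
/-- squared slope of the edge `02` -/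
noncomputable def s02 : ℝ := (d.v / d.b) ^ 2
/-- squared slope of the edge `12` -/
noncomputable def s12 : ℝ := ((d.u - d.v) / d.l) ^ 2
/-- squared slope of the edge `13` -/
noncomputable def s13 : ℝ := ((d.u - d.a) / d.c) ^ 2
/-- squared slope of the edge `23` -/
noncomputable def s23 : ℝ := ((d.v - d.a) / d.b) ^ 2
/-- squared gradient of the face `L` -/
noncomputable def gL : ℝ :=
  (d.v ^ 2 * d.c ^ 2 + d.u ^ 2 * d.b ^ 2 - 2 * d.u * d.v * d.β) / d.δ ^ 2
/-- squared gradient of the face `U` -/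
noncomputable def gU : ℝ :=
  ((d.v - d.a) ^ 2 * d.c ^ 2 + (d.u - d.a) ^ 2 * d.b ^ 2 -
    2 * (d.u - d.a) * (d.v - d.a) * d.β) / d.δ ^ 2
/-- face `L`, edge `01` -/
def l1 : ℝ := d.v * d.c ^ 2 - d.u * d.β
/-- face `L`, edge `02` -/
def l2 : ℝ := d.u * d.b ^ 2 - d.v * d.β
/-- face `L`, edge `12` -/
def l3 : ℝ := -(d.l1 + d.l2)
/-- face `U`, edge `13` -/
def n1 : ℝ := -((d.v - d.a) * d.c ^ 2 - (d.u - d.a) * d.β)
/-- face `U`, edge `23` -/
def n2 : ℝ := -((d.u - d.a) * d.b ^ 2 - (d.v - d.a) * d.β)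
/-- face `U`, edge `12` -/
def n3 : ℝ := -(d.n1 + d.n2)

/-- the star relations in the normal form -/
def St : Prop := ∀ s G : ℝ,
  ind (d.s01 = s ∧ d.gL = G) d.l1 + ind (d.s02 = s ∧ d.gL = G) d.l2 +
    ind (d.s12 = s ∧ d.gL = G) d.l3 +
  ind (d.s13 = s ∧ d.gU = G) d.n1 + ind (d.s23 = s ∧ d.gU = G) d.n2 +
    ind (d.s12 = s ∧ d.gU = G) d.n3 = 0

/-- Hill: heights `0, 1, 2, 3` over an equilateral triangle -/
def C1 : Prop := d.b = d.c ∧ d.c = d.l ∧
  ((3 * d.u = d.a ∧ 3 * d.v = 2 * d.a) ∨ (3 * d.u = 2 * d.a ∧ 3 * d.v = d.a))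
/-- half Hill, cut through the middle of the vertical edge -/
def C3 : Prop := d.b = d.c ∧ d.c = d.l ∧
  ((3 * d.u = -d.a ∧ 3 * d.v = d.a) ∨ (3 * d.u = d.a ∧ 3 * d.v = -d.a) ∨
    (3 * d.u = 4 * d.a ∧ 3 * d.v = 2 * d.a) ∨ (3 * d.u = 2 * d.a ∧ 3 * d.v = 4 * d.a))
/-- half Hill, cut through the vertical edge; the vertex `1` is far, the vertex `2` the midpoint -/
def C2 : Prop := d.c = 2 * d.l ∧ d.b ^ 2 = 3 * d.l ^ 2 ∧ 2 * d.v = d.a ∧
  (3 * d.u = d.a ∨ 3 * d.u = 2 * d.a)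
/-- half Hill, cut through the vertical edge; the vertex `2` is far, the vertex `1` the midpoint -/
def C2' : Prop := d.b = 2 * d.l ∧ d.c ^ 2 = 3 * d.l ^ 2 ∧ 2 * d.u = d.a ∧
  (3 * d.v = d.a ∨ 3 * d.v = 2 * d.a)

/-- exchange of the vertices `1` and `2` -/
def swap : Dat1 where
  b := d.c
  c := d.b
  l := d.l
  a := d.a
  u := d.v
  v := d.u
  β := d.β
  δ := d.δ
  bp := d.cp
  cp := d.bp
  lp := d.lp
  ap := d.ap
  δp := d.δp
  hβ := by rw [d.hβ]; ring
  hδ := by rw [d.hδ]; ring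

/-- reflection in the horizontal plane, exchange of the vertices `0` and `3` -/
def flip : Dat1 where
  b := d.b
  c := d.c
  l := d.l
  a := d.a
  u := d.a - d.u
  v := d.a - d.v
  β := d.β
  δ := d.δ
  bp := d.bp
  cp := d.cp
  lp := d.lp
  ap := d.ap
  δp := d.δp
  hβ := d.hβ
  hδ := d.hδ

end Dat1

end Pool.Agent.Helper22.ST
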