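import Pool.Agent.Helper22.ST.DefsII
import Pool.Agent.Helper22.ST.DefsI

/-!
# ST-D00: horizontal similarity with a vertical scaling — definitions and first properties

`Sim3.symm`: `σ⁻¹, 1/t, 1/k`.  `Sim3.trans`: the composition of the permutations, products of the factors.
`Sim3.perm`: `σ`, `t = k = 1`.
-/

open Real Set
open Pool.Agent.Helper1.Tet

namespace Pool.Agent.Helper22.ST

/-- squared horizontal distance -/
def hor (x y : Fin 4 → ℝ) (i j : Fin 4) : ℝ := (x i - x j) ^ 2 + (y i - y j) ^ 2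

/-- the second tetrahedron arises from the first one by relabelling, a horizontal similarity and a
vertical scaling (possibly with a reflection) -/
def Sim3 (x y z x' y' z' : Fin 4 → ℝ) : Prop :=
  ∃ (σ : Equiv.Perm (Fin 4)) (t k : ℝ), 0 < t ∧ k ≠ 0 ∧ ∀ i j,
    hor x y (σ i) (σ j) = t ^ 2 * hor x' y' i j ∧ z (σ i) - z (σ j) = k * (z' i - z' j)

theorem Sim3.symm {x y z x' y' z' : Fin 4 → ℝ} (h : Sim3 x y z x' y' z') :
    Sim3 x' y' z' x y z := by
  obtain ⟨σ, t, k, ht, hk, h⟩ := h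
  refine ⟨σ.symm, t⁻¹, k⁻¹, inv_pos.2 ht, inv_ne_zero hk, fun i j => ?_⟩
  obtain ⟨h1, h2⟩ := h (σ.symm i) (σ.symm j)
  rw [Equiv.apply_symm_apply, Equiv.apply_symm_apply] at h1 h2
  constructor
  · rw [h1]
    field_simp
  · rw [h2]
    field_simp

theorem Sim3.trans {x y z x' y' z' x'' y'' z'' : Fin 4 → ℝ} (h : Sim3 x y z x' y' z')
    (h' : Sim3 x' y' z' x'' y'' z'') : Sim3 x y z x'' y'' z'' := by
  obtain ⟨σ, t, k, ht, hk, h⟩ := h
  obtain ⟨τ, s, l, hs, hl, h'⟩ := h'
  refine ⟨σ * τ, t * s, k * l, mul_pos ht hs, mul_ne_zero hk hl, fun i j => ?_⟩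
  obtain ⟨h1, h2⟩ := h (τ i) (τ j)
  obtain ⟨h3, h4⟩ := h' i j
  rw [Equiv.Perm.mul_apply, Equiv.Perm.mul_apply, h1, h2, h3, h4]
  constructor
  · ring
  · ring

theorem Sim3.perm (x y z : Fin 4 → ℝ) (σ : Equiv.Perm (Fin 4)) :
    Sim3 x y z (x ∘ σ) (y ∘ σ) (z ∘ σ) := by
  refine ⟨σ, 1, 1, one_pos, one_ne_zero, fun i j => ⟨?_, ?_⟩⟩
  · rw [one_pow, one_mul]
    rfl
  · rw [one_mul]
    rfl

/-- first horizontal coordinates of the three families (height `1`) -/
noncomputable def gx : Fin 4 → ℝ := ![1, -1 / 2, -1 / 2, 1]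
/-- second horizontal coordinates of the first and the third family -/
noncomputable def gy : Fin 4 → ℝ := ![0, √3 / 2, -√3 / 2, 0]
/-- second horizontal coordinates of the second family -/
noncomputable def gy2 : Fin 4 → ℝ := ![0, √3 / 2, 0, 0]
/-- heights of the first family -/
noncomputable def gz1 : Fin 4 → ℝ := ![0, 1, 2, 3]
/-- heights of the second family -/
noncomputable def gz2 : Fin 4 → ℝ := ![0, 1, 3 / 2, 3]
/-- heights of the third family -/
noncomputable def gz3 : Fin 4 → ℝ := ![0, 1, 2, 3 / 2]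

/-- the three families of Goldberg (up to horizontal similarity and vertical scaling) -/
def Gold3 (x y z : Fin 4 → ℝ) : Prop :=
  Sim3 x y z gx gy gz1 ∨ Sim3 x y z gx gy2 gz2 ∨ Sim3 x y z gx gy gz3

theorem dt_g1 : dt gx gy gz1 ≠ 0 := by
  have h : dt gx gy gz1 = 9 / 2 * √3 := by
    simp [dt, cr, gx, gy, gz1]
    ring
  rw [h]
  positivity
theorem dt_g2 : dt gx gy2 gz2 ≠ 0 := by
  have h : dt gx gy2 gz2 = 9 / 4 * √3 := by
    simp [dt, cr, gx, gy2, gz2]
    ring
  rw [h]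
  positivity
theorem dt_g3 : dt gx gy gz3 ≠ 0 := by
  have h : dt gx gy gz3 = 9 / 4 * √3 := by
    simp [dt, cr, gx, gy, gz3]
    ring
  rw [h]
  positivity

theorem Gold3.of_sim {x y z x' y' z' : Fin 4 → ℝ} (h : Sim3 x y z x' y' z')
    (h' : Gold3 x' y' z') : Gold3 x y z := by
  rcases h' with h' | h' | h'
  · exact Or.inl (h.trans h')
  · exact Or.inr (Or.inl (h.trans h'))
  · exact Or.inr (Or.inr (h.trans h'))

/-- coordinates of the normal form with a vertical edge -/
noncomputable def Dat1.x1 (d : Dat1) : Fin 4 → ℝ := ![0, d.c, d.β / d.c, 0]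
/-- coordinates of the normal form with a vertical edge -/
noncomputable def Dat1.y1 (d : Dat1) : Fin 4 → ℝ := ![0, 0, d.δ / d.c, 0]
/-- coordinates of the normal form with a vertical edge -/
def Dat1.z1 (d : Dat1) : Fin 4 → ℝ := ![0, d.u, d.v, d.a]

end Pool.Agent.Helper22.ST
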