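import Pool.Agent.Helper22.ST.A03Indep
import Pool.Agent.Helper22.ST.D00Sim
import Pool.Agent.Helper13.HT.Congr
import Pool.Agent.Helper13.HT.Hill

/-!
# ST-D01: tilings and horizontal similarity

`dist_tet_sq`: `EuclideanSpace.dist_eq`, `Fin.sum_univ_three`, `Real.sq_sqrt`.
`dist_sim`: squares: `hor x y (σ i) (σ j) + s² (z (σ i) - z (σ j))² = t² (hor x' y' i j + (s |k| / t)² (z' i - z' j)²)`.
`HT_sim_mem`: `congr_tiles` (Helper13/HT/Congr) from `tet x y z s ∘ σ` to `t • tet x' y' z' (s |k| / t)` (both affinely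
independent by `tet_indep`; `AffineIndependent.comp_embedding` for `σ`; the range does not change:
`σ.surjective.range_comp`), then `TilesSpace.smul` with `t⁻¹` (see the end of Helper13/HT/Hill.lean for `range_smul'`,
`convexHull_smul`, `indep_smul`).
`HT_sim_unc`: `s ↦ s |k| / t` is injective and maps `HT x y z` into `HT x' y' z'`.
-/

open Real Set
open Pool.Agent.Helper1.Tet Pool.Agent.Helper13.HT

namespace Pool.Agent.Helper22.ST

theorem dist_tet_sq (x y z : Fin 4 → ℝ) (s : ℝ) (i j : Fin 4) :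
    dist (tet x y z s i) (tet x y z s j) ^ 2 = hor x y i j + s ^ 2 * (z i - z j) ^ 2 := by
  rw [EuclideanSpace.dist_eq, Real.sq_sqrt (Finset.sum_nonneg fun _ _ => sq_nonneg _),
    Fin.sum_univ_three]
  simp only [tet, hor, Real.dist_eq, sq_abs]
  simp
  ring

theorem dist_sim {x y z x' y' z' : Fin 4 → ℝ} (σ : Equiv.Perm (Fin 4)) (t k : ℝ) (ht : 0 < t)
    (h : ∀ i j, hor x y (σ i) (σ j) = t ^ 2 * hor x' y' i j ∧
      z (σ i) - z (σ j) = k * (z' i - z' j)) (s : ℝ) (i j : Fin 4) :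
    dist (tet x y z s (σ i)) (tet x y z s (σ j)) =
      t * dist (tet x' y' z' (s * |k| / t) i) (tet x' y' z' (s * |k| / t) j) := by
  refine (sq_eq_sq₀ dist_nonneg (mul_nonneg ht.le dist_nonneg)).1 ?_
  rw [mul_pow, dist_tet_sq, dist_tet_sq, (h i j).1, (h i j).2, mul_add]
  congr 1
  rw [show (s * |k| / t) ^ 2 = s ^ 2 * k ^ 2 / t ^ 2 by rw [div_pow, mul_pow s, sq_abs]]
  field_simp

open scoped Pointwise in
theorem HT_sim_mem {x y z x' y' z' : Fin 4 → ℝ} (hd : dt x y z ≠ 0) (hd' : dt x' y' z' ≠ 0)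
    (σ : Equiv.Perm (Fin 4)) (t k : ℝ) (ht : 0 < t) (hk : k ≠ 0)
    (h : ∀ i j, hor x y (σ i) (σ j) = t ^ 2 * hor x' y' i j ∧
      z (σ i) - z (σ j) = k * (z' i - z' j)) {s : ℝ} (hs : s ∈ ST.HT x y z) :
    s * |k| / t ∈ ST.HT x' y' z' := by
  obtain ⟨hs0, hs1⟩ := hs
  have hpos : 0 < s * |k| / t := div_pos (mul_pos hs0 (abs_pos.2 hk)) ht
  refine ⟨hpos, ?_⟩
  have hp : AffineIndependent ℝ (tet x y z s ∘ σ) :=
    (tet_indep x y z hd hs0).comp_embedding σ.toEmbedding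
  have hq := indep_smul ht (tet_indep x' y' z' hd' hpos)
  have hall : ∀ i j, dist ((tet x y z s ∘ σ) i) ((tet x y z s ∘ σ) j) =
      dist (t • tet x' y' z' (s * |k| / t) i) (t • tet x' y' z' (s * |k| / t) j) := by
    intro i j
    rw [dist_smul₀, Real.norm_of_nonneg ht.le]
    exact dist_sim σ t k ht h s i j
  have hT : TilesSpace (convexHull ℝ (range (tet x y z s ∘ σ))) := by
    rw [σ.surjective.range_comp]
    exact hs1
  have h1 := congr_tiles _ _ hp hq hall hT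
  rw [range_smul', convexHull_smul] at h1
  have h2 := h1.smul (inv_pos.2 ht)
  rwa [smul_smul, inv_mul_cancel₀ ht.ne', one_smul] at h2

theorem HT_sim_unc {x y z x' y' z' : Fin 4 → ℝ} (hd : dt x y z ≠ 0) (hd' : dt x' y' z' ≠ 0)
    (h : Sim3 x y z x' y' z') (hu : ¬ (ST.HT x y z).Countable) : ¬ (ST.HT x' y' z').Countable := by
  obtain ⟨σ, t, k, ht, hk, h⟩ := h
  intro hc
  apply hu
  refine MapsTo.countable_of_injOn (f := fun s => s * |k| / t) (t := ST.HT x' y' z') ?_ ?_ hc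
  · intro s hs
    exact HT_sim_mem hd hd' σ t k ht hk h hs
  · intro s _ s' _ hss
    have h1 : s * |k| / t = s' * |k| / t := hss
    rw [div_left_inj' ht.ne'] at h1
    exact mul_right_cancel₀ (abs_ne_zero.2 hk) h1

end Pool.Agent.Helper22.ST
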