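import Pool.Agent.Helper22.ST.A05AlDeriv

/-!
# ST-A14: the mean width at the flat end

Fix `g > 0`.  By `Orth` and `al_deriv` the function `F h = ∑ √(PP j + g² ZZ j) * al (len (tet h)) j` has
derivative `0` on `Ioi 0`, so it is constant there.  All `cr v ≠ 0`, so `gm j ≠ 0`, `PP j ≠ 0`
(`cr_vert`), and for `h → 0+` the argument of `arctan` in `al_form` tends to `+∞` (`gm j > 0`) or `-∞`
(`gm j < 0`): the numerator tends to `gm j`, the denominator to `0+`.  So `al .. j → π` or `0`, and
`F g = ∑_{gm j > 0} π √(..)`; with `HH (len (tet g)) = ∑ len j * (π - al .. j)` and `len_tet` the claim.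
-/

open Real Set
open Pool.Agent.Helper1.Tet

namespace Pool.Agent.Helper22.ST

private theorem al_lim (x y z : Fin 4 → ℝ) (hd : dt x y z ≠ 0) (hc : ∀ v, cr x y v ≠ 0)
    (j : Fin 6) : Filter.Tendsto (fun h => al (len (tet x y z h)) j) (nhdsWithin 0 (Ioi 0))
      (nhds (π - ind (gm x y j < 0) π)) := by
  have hP : 0 < PP x y j := by
    refine lt_of_le_of_ne (PP_nonneg x y j) fun h => ?_
    exact hc _ (cr_vert x y j h.symm).1
  have hg : gm x y j ≠ 0 := mul_ne_zero (hc _) (hc _)
  have hid : Filter.Tendsto (fun h : ℝ => h) (nhdsWithin 0 (Ioi 0)) (nhds 0) :=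
    nhdsWithin_le_nhds
  have hnum : Filter.Tendsto (fun h => gm x y j + h ^ 2 * qq' x y z j) (nhdsWithin 0 (Ioi 0))
      (nhds (gm x y j)) := by
    have := ((hid.pow 2).mul_const (qq' x y z j)).const_add (gm x y j)
    simpa using this
  have hden0 : Filter.Tendsto (fun h => h * |dt x y z| * √(PP x y j + h ^ 2 * ZZ z j))
      (nhdsWithin 0 (Ioi 0)) (nhds 0) := by
    have h1 := ((hid.pow 2).mul_const (ZZ z j)).const_add (PP x y j)
    have h2 := (Real.continuous_sqrt.tendsto _).comp h1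
    have := (hid.mul_const |dt x y z|).mul h2
    simpa using this
  have hden : Filter.Tendsto (fun h => h * |dt x y z| * √(PP x y j + h ^ 2 * ZZ z j))
      (nhdsWithin 0 (Ioi 0)) (nhdsWithin 0 (Ioi 0)) := by
    rw [tendsto_nhdsWithin_iff]
    refine ⟨hden0, ?_⟩
    filter_upwards [self_mem_nhdsWithin] with h hh
    have hh' : 0 < h := hh
    have := edge_pos x y z hd hh' j
    exact mul_pos (mul_pos hh' (abs_pos.2 hd)) (Real.sqrt_pos.2 this)
  have hinv := hden.inv_tendsto_nhdsGT_zero
  have hal : (fun h => π / 2 + arctan ((gm x y j + h ^ 2 * qq' x y z j) *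
      (h * |dt x y z| * √(PP x y j + h ^ 2 * ZZ z j))⁻¹)) =ᶠ[nhdsWithin 0 (Ioi 0)]
      (fun h => al (len (tet x y z h)) j) := by
    filter_upwards [self_mem_nhdsWithin] with h hh
    rw [al_form x y z hd hh j, ← div_eq_mul_inv]
  refine Filter.Tendsto.congr' hal ?_
  rcases lt_or_gt_of_ne hg with h1 | h1
  · rw [ind_pos h1, sub_self]
    have h2 := Filter.Tendsto.neg_mul_atTop h1 hnum hinv
    have h3 := (tendsto_arctan_atBot.mono_right nhdsWithin_le_nhds).comp h2
    have h4 := h3.const_add (π / 2)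
    have e : π / 2 + -(π / 2) = 0 := by ring
    rw [e] at h4
    exact h4
  · rw [ind_neg (not_lt.2 h1.le), sub_zero]
    have h2 := Filter.Tendsto.pos_mul_atTop h1 hnum hinv
    have h3 := (tendsto_arctan_atTop.mono_right nhdsWithin_le_nhds).comp h2
    have h4 := h3.const_add (π / 2)
    have e : π / 2 + π / 2 = π := by ring
    rw [e] at h4
    exact h4

theorem HH_flat (x y z : Fin 4 → ℝ) (hd : dt x y z ≠ 0) (ho : Orth x y z)
    (hc : ∀ v, cr x y v ≠ 0) {g : ℝ} (hg : 0 < g) :
    HH (len (tet x y z g)) = π * ∑ j, ind (gm x y j < 0) (len (tet x y z g) j) := by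
  set F : ℝ → ℝ := fun h => ∑ j, √(PP x y j + g ^ 2 * ZZ z j) * al (len (tet x y z h)) j with hF
  have hder : ∀ h ∈ Ioi (0 : ℝ), HasDerivAt F 0 h := by
    intro h hh
    have h1 : HasDerivAt F (∑ j, √(PP x y j + g ^ 2 * ZZ z j) * dal x y z h j) h := by
      rw [hF]
      exact HasDerivAt.fun_sum fun j _ => (al_deriv x y z hd hh j).const_mul _
    rwa [ho g h hg hh] at h1
  have hconst : ∀ h ∈ Ioi (0 : ℝ), F h = F g := by
    intro h hh
    refine isOpen_Ioi.is_const_of_deriv_eq_zero isPreconnected_Ioi ?_ ?_ hh hg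
    · intro t ht
      exact (hder t ht).differentiableAt.differentiableWithinAt
    · intro t ht
      exact (hder t ht).deriv
  have hlim : Filter.Tendsto F (nhdsWithin 0 (Ioi 0))
      (nhds (∑ j, √(PP x y j + g ^ 2 * ZZ z j) * (π - ind (gm x y j < 0) π))) := by
    rw [hF]
    exact tendsto_finsetSum _ fun j _ => (al_lim x y z hd hc j).const_mul _
  have hlim2 : Filter.Tendsto F (nhdsWithin 0 (Ioi 0)) (nhds (F g)) := by
    refine Filter.Tendsto.congr' ?_ tendsto_const_nhds
    filter_upwards [self_mem_nhdsWithin] with h hh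
    exact (hconst h hh).symm
  have hFg := tendsto_nhds_unique hlim2 hlim
  have h1 : HH (len (tet x y z g)) =
      (∑ j, √(PP x y j + g ^ 2 * ZZ z j) * π) - F g := by
    unfold HH
    rw [hF, ← Finset.sum_sub_distrib]
    refine Finset.sum_congr rfl fun j _ => ?_
    rw [← len_tet]
    ring
  rw [h1, hFg, ← Finset.sum_sub_distrib, Finset.mul_sum]
  refine Finset.sum_congr rfl fun j _ => ?_
  rw [len_tet]
  by_cases h2 : gm x y j < 0
  · rw [ind_pos h2, ind_pos h2]
    ring
  · rw [ind_neg h2, ind_neg h2]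
    ring

end Pool.Agent.Helper22.ST
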