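import Pool.Agent.Helper22.ST.A02Ident
import Pool.Agent.Helper22.ST.A03Indep
import Pool.Agent.Helper22.ST.A14Limit
import Pool.Agent.Helper1.Tet.Perimeter

/-!
# ST-A15: a tetrahedron without vertical faces is impossible

`c = cr x y` has `c 0 + c 1 + c 2 + c 3 = 0` (`cr_sum`), all `c v ≠ 0`.  Cases on the signs (16, two
impossible): exactly one sign differs, at the vertex `v`: the edges with `gm j = c (ec j) c (ed j) < 0` are
those which do not contain `v` (`v ∈ {ec j, ed j}`), so `HH_flat` says `HH = π * tt l v`, against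
`perimeter`; two and two: then the edges with `gm j < 0` are those not in a class `c'` (`cl`), and
`HH = π * qq l c'`, against `perimeter`.  (`l = len (tet x y z 1)`, `tet_mem_TT`.)
-/

open Real Set
open Pool.Agent.Helper1.Tet

namespace Pool.Agent.Helper22.ST

theorem pattern_aux (c : Fin 4 → ℝ) (l : Fin 6 → ℝ) (H : ℝ) (hs : c 0 + c 1 + c 2 + c 3 = 0)
    (h0 : c 0 ≠ 0) (h1 : c 1 ≠ 0) (h2 : c 2 ≠ 0) (h3 : c 3 ≠ 0)
    (hf : H = π * (ind (c 2 * c 3 < 0) (l 0) + ind (c 1 * c 3 < 0) (l 1) +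
      ind (c 1 * c 2 < 0) (l 2) + ind (c 0 * c 3 < 0) (l 3) + ind (c 0 * c 2 < 0) (l 4) +
      ind (c 0 * c 1 < 0) (l 5)))
    (p1 : ∀ v, π * tt l v < H) (p2 : ∀ k, H < π * qq l k) : False := by
  have t0 : tt l 0 = l 3 + l 4 + l 5 := by
    simp [tt, Fin.sum_univ_six, ea, eb]
  have t1 : tt l 1 = l 1 + l 2 + l 5 := by
    simp [tt, Fin.sum_univ_six, ea, eb]
  have t2 : tt l 2 = l 0 + l 2 + l 4 := by
    simp [tt, Fin.sum_univ_six, ea, eb]
  have t3 : tt l 3 = l 0 + l 1 + l 3 := by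
    simp [tt, Fin.sum_univ_six, ea, eb]
  have q0 : qq l 0 = l 1 + l 2 + l 3 + l 4 := by
    simp [qq, Fin.sum_univ_six, cl]
  have q1 : qq l 1 = l 0 + l 2 + l 3 + l 5 := by
    simp [qq, Fin.sum_univ_six, cl]
  have q2 : qq l 2 = l 0 + l 1 + l 4 + l 5 := by
    simp [qq, Fin.sum_univ_six, cl]
  have a0 := p1 0
  have a1 := p1 1
  have a2 := p1 2
  have a3 := p1 3
  have b0 := p2 0
  have b1 := p2 1
  have b2 := p2 2
  rw [t0] at a0
  rw [t1] at a1
  rw [t2] at a2
  rw [t3] at a3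
  rw [q0] at b0
  rw [q1] at b1
  rw [q2] at b2
  have pn : ∀ {a b : ℝ}, 0 < a → b < 0 → a * b < 0 := fun ha hb => mul_neg_of_pos_of_neg ha hb
  have np : ∀ {a b : ℝ}, a < 0 → 0 < b → a * b < 0 := fun ha hb => mul_neg_of_neg_of_pos ha hb
  have pp : ∀ {a b : ℝ}, 0 < a → 0 < b → ¬ a * b < 0 := fun ha hb => not_lt.2 (mul_pos ha hb).le
  have nn : ∀ {a b : ℝ}, a < 0 → b < 0 → ¬ a * b < 0 :=
    fun ha hb => not_lt.2 (mul_pos_of_neg_of_neg ha hb).le
  rcases lt_or_gt_of_ne h0 with g0 | g0 <;> rcases lt_or_gt_of_ne h1 with g1 | g1 <;>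
    rcases lt_or_gt_of_ne h2 with g2 | g2 <;> rcases lt_or_gt_of_ne h3 with g3 | g3
  · linarith
  · rw [ind_pos (np g2 g3), ind_pos (np g1 g3), ind_neg (nn g1 g2), ind_pos (np g0 g3),
      ind_neg (nn g0 g2), ind_neg (nn g0 g1)] at hf
    simp only [add_zero] at hf
    linarith
  · rw [ind_pos (pn g2 g3), ind_neg (nn g1 g3), ind_pos (np g1 g2), ind_neg (nn g0 g3),
      ind_pos (np g0 g2), ind_neg (nn g0 g1)] at hf
    simp only [add_zero] at hf
    linarith
  · rw [ind_neg (pp g2 g3), ind_pos (np g1 g3), ind_pos (np g1 g2), ind_pos (np g0 g3),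
      ind_pos (np g0 g2), ind_neg (nn g0 g1)] at hf
    simp only [add_zero, zero_add] at hf
    linarith
  · rw [ind_neg (nn g2 g3), ind_pos (pn g1 g3), ind_pos (pn g1 g2), ind_neg (nn g0 g3),
      ind_neg (nn g0 g2), ind_pos (np g0 g1)] at hf
    simp only [add_zero, zero_add] at hf
    linarith
  · rw [ind_pos (np g2 g3), ind_neg (pp g1 g3), ind_pos (pn g1 g2), ind_pos (np g0 g3),
      ind_neg (nn g0 g2), ind_pos (np g0 g1)] at hf
    simp only [add_zero, zero_add] at hf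
    linarith
  · rw [ind_pos (pn g2 g3), ind_pos (pn g1 g3), ind_neg (pp g1 g2), ind_neg (nn g0 g3),
      ind_pos (np g0 g2), ind_pos (np g0 g1)] at hf
    simp only [add_zero, zero_add] at hf
    linarith
  · rw [ind_neg (pp g2 g3), ind_neg (pp g1 g3), ind_neg (pp g1 g2), ind_pos (np g0 g3),
      ind_pos (np g0 g2), ind_pos (np g0 g1)] at hf
    simp only [add_zero, zero_add] at hf
    linarith
  · rw [ind_neg (nn g2 g3), ind_neg (nn g1 g3), ind_neg (nn g1 g2), ind_pos (pn g0 g3),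
      ind_pos (pn g0 g2), ind_pos (pn g0 g1)] at hf
    simp only [add_zero, zero_add] at hf
    linarith
  · rw [ind_pos (np g2 g3), ind_pos (np g1 g3), ind_neg (nn g1 g2), ind_neg (pp g0 g3),
      ind_pos (pn g0 g2), ind_pos (pn g0 g1)] at hf
    simp only [add_zero, zero_add] at hf
    linarith
  · rw [ind_pos (pn g2 g3), ind_neg (nn g1 g3), ind_pos (np g1 g2), ind_pos (pn g0 g3),
      ind_neg (pp g0 g2), ind_pos (pn g0 g1)] at hf
    simp only [add_zero, zero_add] at hf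
    linarith
  · rw [ind_neg (pp g2 g3), ind_pos (np g1 g3), ind_pos (np g1 g2), ind_neg (pp g0 g3),
      ind_neg (pp g0 g2), ind_pos (pn g0 g1)] at hf
    simp only [add_zero, zero_add] at hf
    linarith
  · rw [ind_neg (nn g2 g3), ind_pos (pn g1 g3), ind_pos (pn g1 g2), ind_pos (pn g0 g3),
      ind_pos (pn g0 g2), ind_neg (pp g0 g1)] at hf
    simp only [add_zero, zero_add] at hf
    linarith
  · rw [ind_pos (np g2 g3), ind_neg (pp g1 g3), ind_pos (pn g1 g2), ind_neg (pp g0 g3),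
      ind_pos (pn g0 g2), ind_neg (pp g0 g1)] at hf
    simp only [add_zero, zero_add] at hf
    linarith
  · rw [ind_pos (pn g2 g3), ind_pos (pn g1 g3), ind_neg (pp g1 g2), ind_pos (pn g0 g3),
      ind_neg (pp g0 g2), ind_neg (pp g0 g1)] at hf
    simp only [add_zero, zero_add] at hf
    linarith
  · linarith

theorem exists_vert (x y z : Fin 4 → ℝ) (hd : dt x y z ≠ 0) (ho : Orth x y z) :
    ∃ v, cr x y v = 0 := by
  by_contra hcon
  have hc : ∀ v, cr x y v ≠ 0 := fun v hv => hcon ⟨v, hv⟩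
  have hl := tet_mem_TT x y z hd one_pos
  have hf := HH_flat x y z hd ho hc one_pos
  rw [Fin.sum_univ_six] at hf
  obtain ⟨p1, p2⟩ := perimeter hl
  exact pattern_aux (cr x y) (len (tet x y z 1)) _ (cr_sum x y) (hc 0) (hc 1) (hc 2) (hc 3) hf p1 p2

end Pool.Agent.Helper22.ST
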