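import Pool.Agent.Helper22.ST.E05Transfer

/-!
# ST-F01: coordinates with the third axis in the direction of `u`

`exists_coord`: `Orthonormal.exists_orthonormalBasis_extension_of_card_eq` for `v = fun _ : Fin 3 => u`, `s = {2}` gives an orthonormal
basis `b` with `b 2 = u`; `Φ = b.repr`, `(b.repr x) 2 = ⟪b 2, x⟫` (`OrthonormalBasis.repr_apply_apply`).
`coord_tet`: `Φ (p i) = tet .. 1 i` (three coordinates); `coord_stretch`: `Φ (stretch u h x) = stretch e3 h (Φ x)`.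
`dt_coord`: `Φ ∘ p` is affinely independent (`AffineIndependent.map'` for the injective affine map `Φ`), `dt_ne` (A03) with `h = 1`.
`tiles_coord`: `Φ '' (stretch u h '' conv (range p)) = conv (range (tet .. h))`; `TilesSpace` is invariant under isometries
(same argument as `AxT.image`, `AxT.coord`: conjugate the isometries; the family is mapped by `Φ`).
-/

open Real Set
open scoped RealInnerProductSpace
open Pool.Agent.Helper1.Tet

namespace Pool.Agent.Helper22.ST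

theorem exists_coord (u : E3) (hu : ‖u‖ = 1) : ∃ Φ : E3 ≃ₗᵢ[ℝ] E3, ∀ x, (Φ x) 2 = ⟪u, x⟫ := by
  have hv : Orthonormal ℝ (({2} : Set (Fin 3)).domRestrict fun _ : Fin 3 => u) := by
    constructor
    · intro i
      exact hu
    · intro i j hij
      exact absurd (Subsingleton.elim i j) hij
  obtain ⟨b, hb⟩ := hv.exists_orthonormalBasis_extension_of_card_eq (by simp)
  refine ⟨b.repr, fun x => ?_⟩
  rw [b.repr_apply_apply, hb 2 rfl]

/-- the coordinates of the points `p` -/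
noncomputable def cx (Φ : E3 ≃ₗᵢ[ℝ] E3) (p : Fin 4 → E3) : Fin 4 → ℝ := fun i => (Φ (p i)) 0
/-- the coordinates of the points `p` -/
noncomputable def cy (Φ : E3 ≃ₗᵢ[ℝ] E3) (p : Fin 4 → E3) : Fin 4 → ℝ := fun i => (Φ (p i)) 1
/-- the coordinates of the points `p` -/
noncomputable def cz (Φ : E3 ≃ₗᵢ[ℝ] E3) (p : Fin 4 → E3) : Fin 4 → ℝ := fun i => (Φ (p i)) 2

theorem coord_tet (Φ : E3 ≃ₗᵢ[ℝ] E3) (p : Fin 4 → E3) :
    (fun i => Φ (p i)) = tet (cx Φ p) (cy Φ p) (cz Φ p) 1 := by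
  funext i
  ext j
  fin_cases j <;> simp [tet, cx, cy, cz]

theorem coord_stretch {u : E3} (Φ : E3 ≃ₗᵢ[ℝ] E3) (hΦ : ∀ x, (Φ x) 2 = ⟪u, x⟫) (h : ℝ) (x : E3) :
    Φ (stretch u h x) = stretch e3 h (Φ x) := by
  have h1 : Φ u = e3 := by
    refine ext_inner_right ℝ fun y => ?_
    obtain ⟨z, rfl⟩ := Φ.surjective y
    rw [Φ.inner_map_map, inner_e3, hΦ]
  unfold stretch
  rw [map_add, map_smul, h1, inner_e3, hΦ]

theorem dt_coord (Φ : E3 ≃ₗᵢ[ℝ] E3) (p : Fin 4 → E3) (hp : AffineIndependent ℝ p) :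
    dt (cx Φ p) (cy Φ p) (cz Φ p) ≠ 0 := by
  have h1 : AffineIndependent ℝ (fun i => Φ (p i)) :=
    hp.map' (Φ.toLinearEquiv : E3 →ₗ[ℝ] E3).toAffineMap Φ.injective
  rw [coord_tet] at h1
  exact dt_ne _ _ _ h1

private theorem tiles_map (Φ : E3 ≃ₗᵢ[ℝ] E3) {T : Set E3} (hT : TilesSpace T) :
    TilesSpace (Φ '' T) := by
  obtain ⟨F, h1, h2, h3⟩ := hT
  refine ⟨(fun S : Set E3 => Φ '' S) '' F, ?_, ?_, ?_⟩
  · rintro _ ⟨S, hS, rfl⟩
    obtain ⟨g, rfl⟩ := h1 S hS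
    refine ⟨(Φ.toIsometryEquiv.symm.trans g).trans Φ.toIsometryEquiv, ?_⟩
    show Φ '' (g '' T) = _ '' (Φ '' T)
    rw [image_image, image_image]
    refine image_congr fun x _ => ?_
    show Φ (g x) = Φ (g (Φ.symm (Φ x)))
    rw [Φ.symm_apply_apply]
  · refine eq_univ_of_forall fun x => ?_
    have hx : Φ.symm x ∈ ⋃₀ F := by
      rw [h2]
      exact mem_univ _
    obtain ⟨S, hS, hxS⟩ := hx
    exact ⟨Φ '' S, ⟨S, hS, rfl⟩, Φ.symm x, hxS, Φ.apply_symm_apply x⟩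
  · rintro _ ⟨S, hS, rfl⟩ _ ⟨S', hS', rfl⟩ hne
    have hSS : S ≠ S' := fun h => hne (by rw [h])
    have e : ∀ s : Set E3, interior (Φ '' s) = Φ '' interior s :=
      fun s => (Φ.toHomeomorph.image_interior s).symm
    show Disjoint (interior (Φ '' S)) (interior (Φ '' S'))
    rw [e, e, disjoint_image_iff Φ.injective]
    exact h3 hS hS' hSS

theorem tiles_coord {u : E3} (Φ : E3 ≃ₗᵢ[ℝ] E3) (hΦ : ∀ x, (Φ x) 2 = ⟪u, x⟫) (p : Fin 4 → E3)
    (h : ℝ) (hT : TilesSpace (stretch u h '' convexHull ℝ (range p))) :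
    TilesSpace (convexHull ℝ (range (tet (cx Φ p) (cy Φ p) (cz Φ p) h))) := by
  have e1 : Φ '' (stretch u h '' convexHull ℝ (range p)) =
      convexHull ℝ (range (tet (cx Φ p) (cy Φ p) (cz Φ p) h)) := by
    have e2 : Φ '' convexHull ℝ (range fun i => stretch u h (p i)) =
        convexHull ℝ (Φ '' range fun i => stretch u h (p i)) :=
      (Φ.toLinearEquiv : E3 →ₗ[ℝ] E3).image_convexHull _
    rw [stretch_hull, e2, ← range_comp]
    congr 2
    funext i
    show Φ (stretch u h (p i)) = _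
    have e3' := congrFun (coord_tet Φ p) i
    rw [coord_stretch Φ hΦ]
    rw [show Φ (p i) = tet (cx Φ p) (cy Φ p) (cz Φ p) 1 i from e3', tet_stretch, mul_one]
  rw [← e1]
  exact tiles_map Φ hT

end Pool.Agent.Helper22.ST
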