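import Pool.Agent.Helper22.ST.D09Main
import Pool.Agent.Helper22.ST.F01Coord

/-!
# ST-F02: the main theorem

`goldU_iff`: `hor (cx Φ p) (cy Φ p) i j + ((cz Φ p) i - (cz Φ p) j)² = dist (p i) (p j)²` (`Φ` is an isometry) and
`(cz Φ p) i - (cz Φ p) j = ⟪u, p i - p j⟫`.  `gold h`, `gold2 h`, `gold3 h` have the horizontal distances `hor gx gy`, `hor gx gy2`,
`hor gx gy` and the heights `h * gz1`, `h * gz2`, `h * gz3`.  From `(σ, t)` in `SimA` (and `h > 0`): `Sim3` with `σ`, `|t|`, `t h`.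
From `(σ, t, k)` in `Sim3`: `h = |k| / t`, and the factor `t` or `-t` according to the sign of `k`.
-/

open Real Set
open scoped RealInnerProductSpace
open Pool.Agent.Helper1.Tet

namespace Pool.Agent.Helper22.ST

/-- first family -/
noncomputable def gold1' (h : ℝ) : Fin 4 → E3 :=
  ![!₂[1, 0, 0], !₂[-1 / 2, √3 / 2, h], !₂[-1 / 2, -√3 / 2, 2 * h], !₂[1, 0, 3 * h]]

/-- second family -/
noncomputable def gold2' (h : ℝ) : Fin 4 → E3 :=
  ![!₂[1, 0, 0], !₂[-1 / 2, √3 / 2, h], !₂[-1 / 2, 0, 3 / 2 * h], !₂[1, 0, 3 * h]]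

/-- third family -/
noncomputable def gold3' (h : ℝ) : Fin 4 → E3 :=
  ![!₂[1, 0, 0], !₂[-1 / 2, √3 / 2, h], !₂[-1 / 2, -√3 / 2, 2 * h], !₂[1, 0, 3 / 2 * h]]

/-- similar by a similarity which maps the vertical direction to the direction of `u` -/
def SimA (u : E3) (p q : Fin 4 → E3) : Prop :=
  ∃ (σ : Equiv.Perm (Fin 4)) (t : ℝ), t ≠ 0 ∧ ∀ i j,
    dist (p (σ i)) (p (σ j)) = |t| * dist (q i) (q j) ∧
      ⟪u, p (σ i) - p (σ j)⟫ = t * (q i 2 - q j 2)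

/-- member of one of the three families with axis `u` -/
def GoldU (u : E3) (p : Fin 4 → E3) : Prop :=
  ∃ h : ℝ, 0 < h ∧ (SimA u p (gold1' h) ∨ SimA u p (gold2' h) ∨ SimA u p (gold3' h))

private theorem F02_inner {u : E3} (Φ : E3 ≃ₗᵢ[ℝ] E3) (hΦ : ∀ x, (Φ x) 2 = ⟪u, x⟫)
    (p : Fin 4 → E3) (i j : Fin 4) : ⟪u, p i - p j⟫ = cz Φ p i - cz Φ p j := by
  rw [← hΦ, map_sub]
  rfl

private theorem F02_dist (Φ : E3 ≃ₗᵢ[ℝ] E3) (p : Fin 4 → E3) (i j : Fin 4) :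
    dist (p i) (p j) ^ 2 =
      hor (cx Φ p) (cy Φ p) i j + (cz Φ p i - cz Φ p j) ^ 2 := by
  rw [← Φ.dist_map, EuclideanSpace.dist_sq_eq, Fin.sum_univ_three]
  simp only [Real.dist_eq, sq_abs, hor, cx, cy, cz]

private theorem F02_dist' (x y z : Fin 4 → ℝ) (q : Fin 4 → E3) (h : ℝ)
    (hq : ∀ i, q i = !₂[x i, y i, h * z i]) (i j : Fin 4) :
    dist (q i) (q j) ^ 2 = hor x y i j + (h * (z i - z j)) ^ 2 := by
  rw [EuclideanSpace.dist_sq_eq, Fin.sum_univ_three, hq, hq]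
  simp only [Real.dist_eq, sq_abs, hor]
  simp
  ring

private theorem F02_z (x y z : Fin 4 → ℝ) (q : Fin 4 → E3) (h : ℝ)
    (hq : ∀ i, q i = !₂[x i, y i, h * z i]) (i j : Fin 4) :
    q i 2 - q j 2 = h * (z i - z j) := by
  rw [hq, hq]
  simp
  ring

private theorem F02_sim {u : E3} (Φ : E3 ≃ₗᵢ[ℝ] E3) (hΦ : ∀ x, (Φ x) 2 = ⟪u, x⟫)
    (p : Fin 4 → E3) (x y z : Fin 4 → ℝ) (q : ℝ → Fin 4 → E3)
    (hq : ∀ h i, q h i = !₂[x i, y i, h * z i]) :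
    (∃ h : ℝ, 0 < h ∧ SimA u p (q h)) ↔ Sim3 (cx Φ p) (cy Φ p) (cz Φ p) x y z := by
  constructor
  · rintro ⟨h, hh, σ, t, ht, H⟩
    refine ⟨σ, |t|, t * h, abs_pos.2 ht, mul_ne_zero ht hh.ne', fun i j => ?_⟩
    obtain ⟨H1, H2⟩ := H i j
    have h1 : dist (p (σ i)) (p (σ j)) ^ 2 = (|t| * dist (q h i) (q h j)) ^ 2 := by rw [H1]
    rw [F02_inner Φ hΦ, F02_z x y z (q h) h (hq h)] at H2
    rw [F02_dist Φ, mul_pow, F02_dist' x y z (q h) h (hq h), sq_abs, H2] at h1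
    rw [sq_abs]
    constructor
    · linear_combination h1
    · rw [H2]; ring
  · rintro ⟨σ, t, k, ht, hk, H⟩
    have key : ∀ s h : ℝ, 0 < h → s ≠ 0 → s ^ 2 = t ^ 2 → s * h = k →
        ∃ h : ℝ, 0 < h ∧ SimA u p (q h) := by
      intro s h hh hs hst hsk
      refine ⟨h, hh, σ, s, hs, fun i j => ?_⟩
      obtain ⟨H1, H2⟩ := H i j
      constructor
      · have h1 : dist (p (σ i)) (p (σ j)) ^ 2 = (|s| * dist (q h i) (q h j)) ^ 2 := by
          rw [F02_dist Φ, mul_pow, F02_dist' x y z (q h) h (hq h), sq_abs, H1, H2, hst, ← hsk]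
          rw [← hst]
          ring
        exact (sq_eq_sq₀ dist_nonneg (mul_nonneg (abs_nonneg _) dist_nonneg)).1 h1
      · rw [F02_inner Φ hΦ, F02_z x y z (q h) h (hq h), H2, ← hsk]
        ring
    rcases lt_or_gt_of_ne hk with hk' | hk'
    · refine key (-t) (-k / t) (div_pos (neg_pos.2 hk') ht) (neg_ne_zero.2 ht.ne') (by ring) ?_
      field_simp
    · refine key t (k / t) (div_pos hk' ht) ht.ne' rfl ?_
      field_simp

theorem goldU_iff {u : E3} (Φ : E3 ≃ₗᵢ[ℝ] E3) (hΦ : ∀ x, (Φ x) 2 = ⟪u, x⟫) (p : Fin 4 → E3) :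
    GoldU u p ↔ Gold3 (cx Φ p) (cy Φ p) (cz Φ p) := by
  unfold Gold3
  rw [← F02_sim Φ hΦ p gx gy gz1 gold1' ?_, ← F02_sim Φ hΦ p gx gy2 gz2 gold2' ?_,
    ← F02_sim Φ hΦ p gx gy gz3 gold3' ?_]
  · constructor
    · rintro ⟨h, hh, H | H | H⟩
      · exact Or.inl ⟨h, hh, H⟩
      · exact Or.inr (Or.inl ⟨h, hh, H⟩)
      · exact Or.inr (Or.inr ⟨h, hh, H⟩)
    · rintro (⟨h, hh, H⟩ | ⟨h, hh, H⟩ | ⟨h, hh, H⟩)
      · exact ⟨h, hh, Or.inl H⟩
      · exact ⟨h, hh, Or.inr (Or.inl H)⟩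
      · exact ⟨h, hh, Or.inr (Or.inr H)⟩
  · intro h i
    fin_cases i <;> simp [gold3', gx, gy, gz3, mul_comm]
  · intro h i
    fin_cases i <;> simp [gold2', gx, gy2, gz2, mul_comm]
  · intro h i
    fin_cases i <;> simp [gold1', gx, gy, gz1, mul_comm]

theorem goldU_of_unc (p : Fin 4 → E3) (hp : AffineIndependent ℝ p) (u : E3) (hu : ‖u‖ = 1)
    (h : ¬ {h : ℝ | 0 < h ∧ TilesSpace (stretch u h '' convexHull ℝ (range p))}.Countable) :
    GoldU u p := by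
  obtain ⟨Φ, hΦ⟩ := exists_coord u hu
  rw [goldU_iff Φ hΦ]
  refine main_coord _ _ _ (dt_coord Φ p hp) (fun hc => h (hc.mono ?_))
  rintro s ⟨hs, hT⟩
  exact ⟨hs, tiles_coord Φ hΦ p s hT⟩

theorem ax_of_goldU (p : Fin 4 → E3) (hp : AffineIndependent ℝ p) (u : E3) (hu : ‖u‖ = 1)
    (h : GoldU u p) : AxT u (convexHull ℝ (range p)) := by
  obtain ⟨Φ, hΦ⟩ := exists_coord u hu
  rw [goldU_iff Φ hΦ] at h
  have h1 := ax_gold3 (dt_coord Φ p hp) h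
  rw [← coord_tet] at h1
  refine AxT.coord (w := e3) Φ (fun x => by rw [inner_e3, hΦ]) ?_
  have h2 : Φ '' convexHull ℝ (range p) = convexHull ℝ (range fun i => Φ (p i)) := by
    have h3 := (Φ.toLinearEquiv.toLinearMap).image_convexHull (range p)
    rw [← range_comp] at h3
    exact h3
  rw [h2]
  exact h1

theorem tiles_of_ax (p : Fin 4 → E3) (u : E3) (hu : ‖u‖ = 1)
    (h : AxT u (convexHull ℝ (range p))) (s : ℝ) (hs : 0 < s) :
    TilesSpace (stretch u s '' convexHull ℝ (range p)) := (h.stretch hu hs).tiles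

theorem unc_of_all (p : Fin 4 → E3) (u : E3)
    (h : ∀ s : ℝ, 0 < s → TilesSpace (stretch u s '' convexHull ℝ (range p))) :
    ¬ {h : ℝ | 0 < h ∧ TilesSpace (stretch u h '' convexHull ℝ (range p))}.Countable := by
  intro hc
  have h1 : {h : ℝ | 0 < h ∧ TilesSpace (stretch u h '' convexHull ℝ (range p))} = Ioi 0 := by
    ext s
    exact ⟨fun hs => hs.1, fun hs => ⟨hs, h s hs⟩⟩
  rw [h1, ← Cardinal.le_aleph0_iff_set_countable, Cardinal.mk_Ioi_real] at hc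
  exact absurd hc (not_le.2 Cardinal.aleph0_lt_continuum)

end Pool.Agent.Helper22.ST
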