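import Pool.Agent.Helper22.ST.D12MainInf
import Pool.Agent.Helper22.ST.F02Pub

/-!
# ST-F03: the main theorem, compact version
-/

open Real Set
open scoped RealInnerProductSpace
open Pool.Agent.Helper1.Tet

namespace Pool.Agent.Helper22.ST

theorem goldU_of_inf (p : Fin 4 → E3) (hp : AffineIndependent ℝ p) (u : E3) (hu : ‖u‖ = 1)
    {a b : ℝ} (ha : 0 < a)
    (h : {h : ℝ | h ∈ Icc a b ∧ TilesSpace (stretch u h '' convexHull ℝ (range p))}.Infinite) :
    GoldU u p := by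
  obtain ⟨Φ, hΦ⟩ := exists_coord u hu
  rw [goldU_iff Φ hΦ]
  refine main_coord_inf _ _ _ (dt_coord Φ p hp) ⟨a, b, ha, h.mono ?_⟩
  rintro s ⟨hs, hT⟩
  exact ⟨⟨ha.trans_le hs.1, tiles_coord Φ hΦ p s hT⟩, hs⟩

end Pool.Agent.Helper22.ST
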