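import Pool.Agent.Helper22.ST.D01HT

/-!
# ST-D11: infinitely many tiling stretch factors in a compact interval, transfer

The injective map `s ↦ s * |k| / t` maps `HT x y z ∩ Icc a b` into `HT x' y' z' ∩ Icc (a |k| / t) (b |k| / t)` (`HT_sim_mem`).
-/

open Real Set
open Pool.Agent.Helper1.Tet

namespace Pool.Agent.Helper22.ST

/-- infinitely many tiling stretch factors in some compact interval -/
def InfHT (x y z : Fin 4 → ℝ) : Prop := ∃ a b : ℝ, 0 < a ∧ (ST.HT x y z ∩ Icc a b).Infinite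

theorem HT_sim_inf {x y z x' y' z' : Fin 4 → ℝ} (hd : dt x y z ≠ 0) (hd' : dt x' y' z' ≠ 0)
    (h : Sim3 x y z x' y' z') (hu : InfHT x y z) : InfHT x' y' z' := by
  obtain ⟨σ, t, k, ht, hk, h⟩ := h
  obtain ⟨a, b, ha, hinf⟩ := hu
  have hk' : 0 < |k| := abs_pos.2 hk
  refine ⟨a * |k| / t, b * |k| / t, div_pos (mul_pos ha hk') ht, ?_⟩
  have hinj : InjOn (fun s => s * |k| / t) (ST.HT x y z ∩ Icc a b) := by
    intro s _ s' _ hss
    have h1 : s * |k| / t = s' * |k| / t := hss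
    rw [div_left_inj' ht.ne'] at h1
    exact mul_right_cancel₀ hk'.ne' h1
  refine (hinf.image hinj).mono ?_
  rintro _ ⟨s, ⟨hs, hs1, hs2⟩, rfl⟩
  refine ⟨HT_sim_mem hd hd' σ t k ht hk h hs, ?_, ?_⟩
  · exact div_le_div_of_nonneg_right (mul_le_mul_of_nonneg_right hs1 hk'.le) ht.le
  · exact div_le_div_of_nonneg_right (mul_le_mul_of_nonneg_right hs2 hk'.le) ht.le

end Pool.Agent.Helper22.ST
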