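import Pool.Agent.Helper22.ST.A02Ident
import Pool.Agent.Helper22.ST.A10Sqrt

/-!
# ST-A12: separation of the slope classes

Let `e j h = ∑_{v = ec j, ed j} (cr v ² qq' j - gm j QQ v)/(cr v ² + h² QQ v)`, so that
`dal j = e j h / (|dt| √(PP j + h² ZZ j))`.  If `PP j = 0` then `e j h = 0` (`cr_vert`: `cr v = 0`,
`gm j = 0`).  If `PP j ≠ 0`, put `s_j = ZZ j / PP j ≥ 0`:
`√(PP j + g² ZZ j) / √(PP j + h² ZZ j) = √(1 + g² s_j) / √(1 + h² s_j)`.
So `Orth` reads `∑_{j, PP j ≠ 0} (e j h / √(1 + h² s_j)) √(1 + g² s_j) = 0` for all `g > 0`; group by the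
values of `s_j` (`S` = image, `Finset.sum_fiberwise_of_maps_to` or similar) and use `sqrt_indep`;
multiply by `√(1 + h² s) > 0`.  For `s` not a value (in particular `s < 0`) the sum below is `0`
trivially (`ind_neg`; if `ZZ j = s * PP j` and `PP j ≠ 0` then `s = s_j`).
-/

open Real Set
open Pool.Agent.Helper1.Tet

namespace Pool.Agent.Helper22.ST

theorem class_sep (x y z : Fin 4 → ℝ) (hd : dt x y z ≠ 0) (ho : Orth x y z) (s : ℝ) {h : ℝ}
    (hh : 0 < h) : ∑ j, ind (PP x y j ≠ 0 ∧ ZZ z j = s * PP x y j)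
      ((cr x y (ec j) ^ 2 * qq' x y z j - gm x y j * QQ x y z (ec j)) /
        (cr x y (ec j) ^ 2 + h ^ 2 * QQ x y z (ec j)) +
      (cr x y (ed j) ^ 2 * qq' x y z j - gm x y j * QQ x y z (ed j)) /
        (cr x y (ed j) ^ 2 + h ^ 2 * QQ x y z (ed j))) = 0 := by
  classical
  obtain ⟨e, he⟩ : ∃ e : Fin 6 → ℝ, ∀ j, e j =
      ((cr x y (ec j) ^ 2 * qq' x y z j - gm x y j * QQ x y z (ec j)) /
        (cr x y (ec j) ^ 2 + h ^ 2 * QQ x y z (ec j)) +
      (cr x y (ed j) ^ 2 * qq' x y z j - gm x y j * QQ x y z (ed j)) /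
        (cr x y (ed j) ^ 2 + h ^ 2 * QQ x y z (ed j))) := ⟨_, fun _ => rfl⟩
  have hdal : ∀ j, dal x y z h j = e j / (|dt x y z| * √(PP x y j + h ^ 2 * ZZ z j)) := by
    intro j
    rw [he j]
    rfl
  simp only [← he]
  have he0 : ∀ j, PP x y j = 0 → e j = 0 := by
    intro j hj
    obtain ⟨h1, h2⟩ := cr_vert x y j hj
    rw [he j]
    simp [gm, h1, h2]
  rcases lt_or_ge s 0 with hs | hs
  · apply Finset.sum_eq_zero
    intro j _
    apply ind_neg
    rintro ⟨h1, h2⟩
    have h3 : 0 < PP x y j := lt_of_le_of_ne (PP_nonneg x y j) (Ne.symm h1)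
    have h4 := ZZ_nonneg z j
    nlinarith
  obtain ⟨t, ht⟩ : ∃ t : Fin 6 → ℝ, ∀ j, t j = ZZ z j / PP x y j := ⟨_, fun _ => rfl⟩
  have ht0 : ∀ j, 0 ≤ t j := fun j => by
    rw [ht j]
    exact div_nonneg (ZZ_nonneg z j) (PP_nonneg x y j)
  obtain ⟨a, ha⟩ : ∃ a : Fin 6 → ℝ, ∀ j, a j = √(PP x y j) * dal x y z h j := ⟨_, fun _ => rfl⟩
  have ha0 : ∀ j, PP x y j = 0 → a j = 0 := by
    intro j hj
    rw [ha j, hj, Real.sqrt_zero, zero_mul]
  have hmul : ∀ j, PP x y j ≠ 0 → ∀ g : ℝ, PP x y j + g ^ 2 * ZZ z j =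
      PP x y j * (1 + g ^ 2 * t j) := by
    intro j hj g
    rw [ht j]
    field_simp
  have key : ∀ g : ℝ, 0 < g → ∑ j, a j * √(1 + g ^ 2 * t j) = 0 := by
    intro g hg
    rw [← ho g h hg hh]
    apply Finset.sum_congr rfl
    intro j _
    by_cases hj : PP x y j = 0
    · rw [ha0 j hj, hdal j, he0 j hj]
      simp
    · rw [ha j, hmul j hj g, Real.sqrt_mul (PP_nonneg x y j)]
      ring
  have hS : ∀ r ∈ Finset.univ.image t, (∑ j, if t j = r then a j else 0) = 0 := by
    apply sqrt_indep (Finset.univ.image t)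
    · intro r hr
      obtain ⟨j, _, rfl⟩ := Finset.mem_image.mp hr
      exact ht0 j
    · intro g hg
      refine Eq.trans ?_ (key g hg)
      have e1 : ∀ r ∈ Finset.univ.image t, (∑ j, if t j = r then a j else 0) * √(1 + g ^ 2 * r) =
          ∑ j, if t j = r then a j * √(1 + g ^ 2 * t j) else 0 := by
        intro r _
        rw [Finset.sum_mul]
        apply Finset.sum_congr rfl
        intro j _
        by_cases hj : t j = r
        · rw [if_pos hj, if_pos hj, hj]
        · rw [if_neg hj, if_neg hj, zero_mul]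
      rw [Finset.sum_congr rfl e1, Finset.sum_comm]
      apply Finset.sum_congr rfl
      intro j _
      rw [Finset.sum_ite_eq, if_pos (Finset.mem_image_of_mem t (Finset.mem_univ j))]
  have hA : (∑ j, if t j = s then a j else 0) = 0 := by
    by_cases hr : s ∈ Finset.univ.image t
    · exact hS s hr
    · apply Finset.sum_eq_zero
      intro j _
      rw [if_neg]
      intro hj
      exact hr (hj ▸ Finset.mem_image_of_mem t (Finset.mem_univ j))
  have hpos : 0 < 1 + h ^ 2 * s := by positivity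
  have e2 : ∀ j, ind (PP x y j ≠ 0 ∧ ZZ z j = s * PP x y j) (e j) =
      (|dt x y z| * √(1 + h ^ 2 * s)) * (if t j = s then a j else 0) := by
    intro j
    by_cases hj : PP x y j = 0
    · rw [ind_neg (fun hc => hc.1 hj), ha0 j hj, ite_self, mul_zero]
    · have h1 : t j = s ↔ ZZ z j = s * PP x y j := by
        rw [ht j, div_eq_iff hj]
      by_cases hts : t j = s
      · rw [if_pos hts, ind_pos ⟨hj, h1.1 hts⟩, ha j, hdal j, hmul j hj h,
          Real.sqrt_mul (PP_nonneg x y j), hts]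
        have h2 : 0 < √(PP x y j) :=
          Real.sqrt_pos.2 (lt_of_le_of_ne (PP_nonneg x y j) (Ne.symm hj))
        have h3 : 0 < √(1 + h ^ 2 * s) := Real.sqrt_pos.2 hpos
        have h4 : 0 < |dt x y z| := abs_pos.2 hd
        field_simp
      · rw [if_neg hts, ind_neg (fun hc => hts (h1.2 hc.2)), mul_zero]
  rw [Finset.sum_congr rfl (fun j _ => e2 j), ← Finset.mul_sum, hA, mul_zero]

end Pool.Agent.Helper22.ST
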