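import Pool.Agent.Helper22.ST.A11Rat
import Pool.Agent.Helper22.ST.A12Class

/-!
# ST-A13: the star relations

For `v ∈ {ec j, ed j}` with `cr x y v = 0` the term of `class_sep` is `0` (`gm j = 0`).  For
`cr x y v ≠ 0` put `G_v = QQ v / cr v ² ≥ 0`; then `PP j ≠ 0` (`cr_vert`) and
`(cr² qq' - gm QQ)/(cr² + h² QQ) = (qq' j - gm j G_v)/(1 + h² G_v)`.
So for every `s` and every `h > 0` the sum over the pairs `(j, v)`, `v ∈ {ec j, ed j}`, `cr v ≠ 0`,
`ZZ j = s PP j`, of `(qq' j - gm j G_v)/(1 + h² G_v)` is `0`; group by the values of `G_v` (only four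
faces: `S` = image of the `v` with `cr v ≠ 0`) and use `rat_indep`.  If `G` is not a value all summands of
`Star` at `(s, G)` are `0`.
-/

open Real Set
open Pool.Agent.Helper1.Tet

namespace Pool.Agent.Helper22.ST

private theorem ind_add' (p : Prop) (a b : ℝ) : ind p (a + b) = ind p a + ind p b := by
  by_cases hp : p
  · rw [ind_pos hp, ind_pos hp, ind_pos hp]
  · rw [ind_neg hp, ind_neg hp, ind_neg hp, add_zero]

private theorem ind_zero' (p : Prop) : ind p 0 = 0 := by
  by_cases hp : p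
  · rw [ind_pos hp]
  · rw [ind_neg hp]

private theorem key (S : Finset ℝ) (c Q m q h : ℝ) (P B : Prop) (hh : 0 < h) (hQ : 0 ≤ Q)
    (hS : Q / c ^ 2 ∈ S) (hP : c ≠ 0 → P) (hm : c = 0 → m = 0) :
    ∑ G ∈ S, ind (c ≠ 0 ∧ B ∧ Q / c ^ 2 = G) (q - m * G) / (1 + h ^ 2 * G) =
      ind (P ∧ B) ((c ^ 2 * q - m * Q) / (c ^ 2 + h ^ 2 * Q)) := by
  by_cases hc : c = 0
  · rw [Finset.sum_eq_zero, hc, hm hc]
    · rw [show ((0 : ℝ) ^ 2 * q - 0 * Q) / (0 ^ 2 + h ^ 2 * Q) = 0 by simp, ind_zero']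
    · intro G _
      rw [ind_neg (fun h2 => h2.1 hc), zero_div]
  · by_cases hB : B
    · rw [Finset.sum_eq_single (Q / c ^ 2)]
      · rw [ind_pos ⟨hc, hB, rfl⟩, ind_pos ⟨hP hc, hB⟩]
        have hc2 : 0 < c ^ 2 := by positivity
        have h1 : 1 + h ^ 2 * (Q / c ^ 2) ≠ 0 := by positivity
        have h2 : c ^ 2 + h ^ 2 * Q ≠ 0 := by positivity
        have h3 : c ^ 2 * (1 + h ^ 2 * (Q / c ^ 2)) = c ^ 2 + h ^ 2 * Q := by
          field_simp
        have h4 : c ^ 2 * (q - m * (Q / c ^ 2)) = c ^ 2 * q - m * Q := by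
          field_simp
        rw [← h3, ← h4, mul_div_mul_left _ _ hc2.ne']
      · intro G _ hG
        rw [ind_neg (fun h2 => hG h2.2.2.symm), zero_div]
      · intro h2
        exact absurd hS h2
    · rw [Finset.sum_eq_zero, ind_neg (fun h2 => hB h2.2)]
      intro G _
      rw [ind_neg (fun h2 => hB h2.2.1), zero_div]

theorem star_of_orth (x y z : Fin 4 → ℝ) (hd : dt x y z ≠ 0) (ho : Orth x y z) : Star x y z := by
  classical
  intro s G
  have hmem : ∀ v, QQ x y z v / cr x y v ^ 2 ∈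
      Finset.univ.image (fun v => QQ x y z v / cr x y v ^ 2) :=
    fun v => Finset.mem_image_of_mem _ (Finset.mem_univ v)
  have hS0 : ∀ G ∈ Finset.univ.image (fun v => QQ x y z v / cr x y v ^ 2), 0 ≤ G := by
    intro G hG
    obtain ⟨v, _, rfl⟩ := Finset.mem_image.1 hG
    exact div_nonneg (QQ_nonneg x y z v) (sq_nonneg _)
  have hmain := rat_indep (Finset.univ.image (fun v => QQ x y z v / cr x y v ^ 2)) hS0
    (fun G => ∑ j, (ind (cr x y (ec j) ≠ 0 ∧ ZZ z j = s * PP x y j ∧
        QQ x y z (ec j) / cr x y (ec j) ^ 2 = G) (qq' x y z j - gm x y j * G) +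
      ind (cr x y (ed j) ≠ 0 ∧ ZZ z j = s * PP x y j ∧
        QQ x y z (ed j) / cr x y (ed j) ^ 2 = G) (qq' x y z j - gm x y j * G)))
    (by
      intro h hh
      have hcs := class_sep x y z hd ho s hh
      refine Eq.trans ?_ hcs
      have e1 : ∀ G ∈ Finset.univ.image (fun v => QQ x y z v / cr x y v ^ 2),
          (∑ j, (ind (cr x y (ec j) ≠ 0 ∧ ZZ z j = s * PP x y j ∧
            QQ x y z (ec j) / cr x y (ec j) ^ 2 = G) (qq' x y z j - gm x y j * G) +
          ind (cr x y (ed j) ≠ 0 ∧ ZZ z j = s * PP x y j ∧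
            QQ x y z (ed j) / cr x y (ed j) ^ 2 = G) (qq' x y z j - gm x y j * G))) /
              (1 + h ^ 2 * G) =
          ∑ j, (ind (cr x y (ec j) ≠ 0 ∧ ZZ z j = s * PP x y j ∧
            QQ x y z (ec j) / cr x y (ec j) ^ 2 = G) (qq' x y z j - gm x y j * G) /
              (1 + h ^ 2 * G) +
          ind (cr x y (ed j) ≠ 0 ∧ ZZ z j = s * PP x y j ∧
            QQ x y z (ed j) / cr x y (ed j) ^ 2 = G) (qq' x y z j - gm x y j * G) /
              (1 + h ^ 2 * G)) := by
        intro G _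
        rw [Finset.sum_div]
        refine Finset.sum_congr rfl (fun j _ => ?_)
        rw [add_div]
      rw [Finset.sum_congr rfl e1, Finset.sum_comm]
      refine Finset.sum_congr rfl (fun j _ => ?_)
      rw [Finset.sum_add_distrib, ind_add']
      congr 1
      · refine key _ _ _ _ _ _ _ _ hh (QQ_nonneg x y z _) (hmem _) ?_ ?_
        · intro hc hP
          exact hc (cr_vert x y j hP).1
        · intro hc
          unfold gm
          rw [hc, zero_mul]
      · refine key _ _ _ _ _ _ _ _ hh (QQ_nonneg x y z _) (hmem _) ?_ ?_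
        · intro hc hP
          exact hc (cr_vert x y j hP).2
        · intro hc
          unfold gm
          rw [hc, mul_zero])
  have htm : ∀ (v : Fin 4) (j : Fin 6), tm x y z s G v j =
      -ind (cr x y v ≠ 0 ∧ ZZ z j = s * PP x y j ∧ QQ x y z v / cr x y v ^ 2 = G)
        (qq' x y z j - gm x y j * G) := by
    intro v j
    unfold tm
    rw [show gm x y j * G - qq' x y z j = (-1) * (qq' x y z j - gm x y j * G) by ring, ind_mul,
      neg_one_mul]
    congr 1
    apply ind_congr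
    constructor
    · rintro ⟨h1, h2, h3⟩
      refine ⟨h1, h2, ?_⟩
      rw [h3]
      field_simp
    · rintro ⟨h1, h2, h3⟩
      refine ⟨h1, h2, ?_⟩
      rw [← h3]
      field_simp
  have hsum : ∑ j, (tm x y z s G (ec j) j + tm x y z s G (ed j) j) =
      -∑ j, (ind (cr x y (ec j) ≠ 0 ∧ ZZ z j = s * PP x y j ∧
        QQ x y z (ec j) / cr x y (ec j) ^ 2 = G) (qq' x y z j - gm x y j * G) +
      ind (cr x y (ed j) ≠ 0 ∧ ZZ z j = s * PP x y j ∧
        QQ x y z (ed j) / cr x y (ed j) ^ 2 = G) (qq' x y z j - gm x y j * G)) := by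
    rw [← Finset.sum_neg_distrib]
    refine Finset.sum_congr rfl (fun j _ => ?_)
    rw [htm, htm]
    ring
  rw [hsum]
  by_cases hG : G ∈ Finset.univ.image (fun v => QQ x y z v / cr x y v ^ 2)
  · rw [hmain G hG, neg_zero]
  · rw [Finset.sum_eq_zero, neg_zero]
    intro j _
    have hn : ∀ v : Fin 4, ¬ (cr x y v ≠ 0 ∧ ZZ z j = s * PP x y j ∧
        QQ x y z v / cr x y v ^ 2 = G) := by
      rintro v ⟨_, _, h3⟩
      apply hG
      rw [← h3]
      exact hmem v
    rw [ind_neg (hn _), ind_neg (hn _), add_zero]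

end Pool.Agent.Helper22.ST
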