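import Pool.Agent.Helper22.ST.B04Alone

/-!
# ST-B05: the three faces

`St` at `(s, GU)` with `GU ≠ G1, G2`: only the terms of `U` remain (`ind_neg` for the others,
`ind_congr` to drop `GU = GU`).  Then `alone_face` with `(wi, wj) = (w1, w3)`, `m = m13`, `y = y13`.
For `L1, L2` multiply the relation by `-1` (`ind_mul` or `ind_neg/ind_pos` by cases).
-/

open Real Set

namespace Pool.Agent.Helper22.ST.Dat

variable (d : Dat)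

private theorem ind_and_self {α : Type} (p : Prop) (g : α) (a : ℝ) :
    ind (p ∧ g = g) a = ind p a :=
  ind_congr ⟨fun h => h.1, fun h => ⟨h, rfl⟩⟩ a

private theorem ind_and_ne {α : Type} (p : Prop) {g g' : α} (hg : g ≠ g') (a : ℝ) :
    ind (p ∧ g = g') a = 0 :=
  ind_neg (fun h => hg h.2) a

private theorem ind_negv (p : Prop) (a : ℝ) : ind p (-a) = -ind p a := by
  by_cases hp : p
  · rw [ind_pos hp, ind_pos hp]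
  · rw [ind_neg hp, ind_neg hp, neg_zero]

theorem aloneU (hS : d.St) (h1 : d.GU ≠ d.G1) (h2 : d.GU ≠ d.G2) :
    (d.t1 = 0 ∧ d.t3 = 0) ∨
    (d.y13 = 0 ∧ d.w1 = -d.w3 ∧ d.t1 = -d.t3 ∧ d.t1 ≠ 0) ∨
    (d.u1 = 0 ∧ d.r3 = d.w3 - d.w1 ∧ d.t1 = 2 * d.t3 ∧ d.t3 ≠ 0 ∧ d.s3 = d.m13 ^ 2) ∨
    (d.u3 = 0 ∧ d.r1 = d.w3 - d.w1 ∧ d.t3 = 2 * d.t1 ∧ d.t1 ≠ 0 ∧ d.s1 = d.m13 ^ 2) := by
  have hw : d.w1 < d.w3 := d.w12.trans d.w23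
  have key := alone_face d.w1 d.w3 d.t1 d.t3 d.m13 d.y13 d.r1 d.r3 hw d.b1 d.b3 d.r1p d.r3p d.r1q
    d.r3q (by
      intro s
      have h := hS s d.GU
      rw [ind_and_self, ind_and_self, ind_and_self, ind_and_ne _ h1.symm, ind_and_ne _ h1.symm,
        ind_and_ne _ h1.symm, ind_and_ne _ h2.symm, ind_and_ne _ h2.symm, ind_and_ne _ h2.symm] at h
      have h' : ind (d.s1 = s) d.u1 + ind (d.s3 = s) d.u3 + ind (d.m13 ^ 2 = s) d.u0 = 0 := by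
        linarith
      exact h')
  rcases key with k | k | ⟨k1, k2, k3, k4, k5⟩ | ⟨k1, k2, k3, k4, k5⟩
  · exact Or.inl k
  · exact Or.inr (Or.inl k)
  · refine Or.inr (Or.inr (Or.inl ⟨?_, k2, k3, k4, k5⟩))
    show -(d.m13 - d.y13 * d.w1) = 0
    rw [k1, neg_zero]
  · exact Or.inr (Or.inr (Or.inr ⟨k1, k2, k3, k4, k5⟩))

theorem aloneL1 (hS : d.St) (h1 : d.G1 ≠ d.GU) (h2 : d.G1 ≠ d.G2) :
    (d.t1 = 0 ∧ d.t2 = 0) ∨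
    (d.y12 = 0 ∧ d.w1 = -d.w2 ∧ d.t1 = -d.t2 ∧ d.t1 ≠ 0) ∨
    (d.p1 = 0 ∧ d.r2 = d.w2 - d.w1 ∧ d.t1 = 2 * d.t2 ∧ d.t2 ≠ 0 ∧ d.s2 = d.m12 ^ 2) ∨
    (d.p2 = 0 ∧ d.r1 = d.w2 - d.w1 ∧ d.t2 = 2 * d.t1 ∧ d.t1 ≠ 0 ∧ d.s1 = d.m12 ^ 2) := by
  have key := alone_face d.w1 d.w2 d.t1 d.t2 d.m12 d.y12 d.r1 d.r2 d.w12 d.a1 d.a2 d.r1p d.r2p d.r1q
    d.r2q (by
      intro s
      have h := hS s d.G1
      rw [ind_and_self, ind_and_self, ind_and_self, ind_and_ne _ h1.symm, ind_and_ne _ h1.symm,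
        ind_and_ne _ h1.symm, ind_and_ne _ h2.symm, ind_and_ne _ h2.symm, ind_and_ne _ h2.symm] at h
      have h3 : ind (d.s1 = s) d.p1 + ind (d.s2 = s) d.p2 + ind (d.m12 ^ 2 = s) d.p0 = 0 := by
        linarith
      have h4 : ind (d.s1 = s) (-(d.m12 - d.y12 * d.w1)) = -ind (d.s1 = s) d.p1 := ind_negv _ _
      have h5 : ind (d.s2 = s) d.p2 = -ind (d.s2 = s) (d.m12 - d.y12 * d.w2) := ind_negv _ _
      have h6 : ind (d.m12 ^ 2 = s) d.p0 = -ind (d.m12 ^ 2 = s) ((d.w2 - d.w1) * d.y12) :=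
        ind_negv _ _
      have h7 : ind (d.s1 = s) (-(d.m12 - d.y12 * d.w1)) + ind (d.s2 = s) (d.m12 - d.y12 * d.w2) +
          ind (d.m12 ^ 2 = s) ((d.w2 - d.w1) * d.y12) = 0 := by
        rw [h4]
        linarith
      exact h7)
  rcases key with k | k | ⟨k1, k2, k3, k4, k5⟩ | ⟨k1, k2, k3, k4, k5⟩
  · exact Or.inl k
  · exact Or.inr (Or.inl k)
  · exact Or.inr (Or.inr (Or.inl ⟨k1, k2, k3, k4, k5⟩))
  · refine Or.inr (Or.inr (Or.inr ⟨?_, k2, k3, k4, k5⟩))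
    show -(d.m12 - d.y12 * d.w2) = 0
    rw [k1, neg_zero]

theorem aloneL2 (hS : d.St) (h1 : d.G2 ≠ d.GU) (h2 : d.G2 ≠ d.G1) :
    (d.t2 = 0 ∧ d.t3 = 0) ∨
    (d.y23 = 0 ∧ d.w2 = -d.w3 ∧ d.t2 = -d.t3 ∧ d.t2 ≠ 0) ∨
    (d.q2 = 0 ∧ d.r3 = d.w3 - d.w2 ∧ d.t2 = 2 * d.t3 ∧ d.t3 ≠ 0 ∧ d.s3 = d.m23 ^ 2) ∨
    (d.q3 = 0 ∧ d.r2 = d.w3 - d.w2 ∧ d.t3 = 2 * d.t2 ∧ d.t2 ≠ 0 ∧ d.s2 = d.m23 ^ 2) := by
  have key := alone_face d.w2 d.w3 d.t2 d.t3 d.m23 d.y23 d.r2 d.r3 d.w23 d.c2 d.c3 d.r2p d.r3p d.r2q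
    d.r3q (by
      intro s
      have h := hS s d.G2
      rw [ind_and_ne _ h1.symm, ind_and_ne _ h1.symm, ind_and_ne _ h1.symm, ind_and_ne _ h2.symm,
        ind_and_ne _ h2.symm, ind_and_ne _ h2.symm, ind_and_self, ind_and_self, ind_and_self] at h
      have h3 : ind (d.s2 = s) d.q2 + ind (d.s3 = s) d.q3 + ind (d.m23 ^ 2 = s) d.q0 = 0 := by
        linarith
      have h4 : ind (d.s2 = s) (-(d.m23 - d.y23 * d.w2)) = -ind (d.s2 = s) d.q2 := ind_negv _ _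
      have h5 : ind (d.s3 = s) d.q3 = -ind (d.s3 = s) (d.m23 - d.y23 * d.w3) := ind_negv _ _
      have h6 : ind (d.m23 ^ 2 = s) d.q0 = -ind (d.m23 ^ 2 = s) ((d.w3 - d.w2) * d.y23) :=
        ind_negv _ _
      have h7 : ind (d.s2 = s) (-(d.m23 - d.y23 * d.w2)) + ind (d.s3 = s) (d.m23 - d.y23 * d.w3) +
          ind (d.m23 ^ 2 = s) ((d.w3 - d.w2) * d.y23) = 0 := by
        rw [h4]
        linarith
      exact h7)
  rcases key with k | k | ⟨k1, k2, k3, k4, k5⟩ | ⟨k1, k2, k3, k4, k5⟩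
  · exact Or.inl k
  · exact Or.inr (Or.inl k)
  · exact Or.inr (Or.inr (Or.inl ⟨k1, k2, k3, k4, k5⟩))
  · refine Or.inr (Or.inr (Or.inr ⟨?_, k2, k3, k4, k5⟩))
    show -(d.m23 - d.y23 * d.w3) = 0
    rw [k1, neg_zero]

end Pool.Agent.Helper22.ST.Dat
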