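import Pool.Agent.Helper22.ST.B02Geo
import Pool.Agent.Helper22.ST.B05AloneD

/-!
# ST-B06: three different gradients (memo 4.1)

`aloneU, aloneL1, aloneL2` give for each of the pairs `(t1,t3), (t1,t2), (t2,t3)`: both zero, or
`a = -b`, or `a = 2 b`, or `b = 2 a`.  All 64 combinations force `t1 = t2 = t3 = 0` (`linarith` after
`rcases`; for each combination the three equations are independent), against `not_all`.
-/

open Real Set

namespace Pool.Agent.Helper22.ST.Dat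

variable (d : Dat)

theorem case1 (hS : d.St) (h1 : d.GU ≠ d.G1) (h2 : d.GU ≠ d.G2) (h3 : d.G1 ≠ d.G2) : False := by
  have hU := d.aloneU hS h1 h2
  have hL1 := d.aloneL1 hS h1.symm h3
  have hL2 := d.aloneL2 hS h2.symm h3.symm
  refine d.not_all ?_ ?_ ?_ <;>
  · rcases hU with ⟨a1, a2⟩ | ⟨-, -, a1, -⟩ | ⟨-, -, a1, -, -⟩ | ⟨-, -, a1, -, -⟩ <;>
    rcases hL1 with ⟨b1, b2⟩ | ⟨-, -, b1, -⟩ | ⟨-, -, b1, -, -⟩ | ⟨-, -, b1, -, -⟩ <;>
    rcases hL2 with ⟨c1, c2⟩ | ⟨-, -, c1, -⟩ | ⟨-, -, c1, -, -⟩ | ⟨-, -, c1, -, -⟩ <;>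
    linarith

end Pool.Agent.Helper22.ST.Dat
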