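import Pool.Agent.Helper22.ST.B08Case2a

/-!
# ST-B09: `G1 = G2 ≠ GU`, base `A1` of the face `U` (memo 4.2, (iii))

`b = w3 - w1`, `b1 = w2 - w1`, `b2 = w3 - w2`, `r3 = b`, `t1 = 2 t3`, `s3 = m13²`.  `p1 < 0`, `p2 > 0`, `q3 < 0`.
(1) `s1 ≠ s3`: `4 t3²/r1² = t3²/b²` would give `r1 = 2 b`, against `r1_lt3`.
(2) `group12` at `s = s3`, `ρ = √(G1 - s3) > 0`, `q3 = -(b ρ)`.
 If `s2 ≠ s3`: `b ρ = ind (m12² = s3) p0 + ind (m23² = s3) q0` with `|p0| = b1 ρ`, `|q0| = b2 ρ`: both must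
 be in the class, so `m12² = m23² = s3 = m13²`, against `m_sq`.
 So `s2 = s3`, and `m23² ≠ s3` (`faceL2`, `t3 ≠ 0`).
 If `m12² = s3 = m13²`: `m12 < m13` gives `m12 = -m13`, i.e. `(t2 - t1)/b1 = -(t3 - t1)/b = t3/b`,
 `t2 = t3 (2 + b1/b)`; with `s2 = s3`, `|t2| b = |t3| r2`: `r2 = 2 b + b1`, against `r2_lt` (`r3 = b`, `r1 < 2 b`).
 So `m12² ≠ s3`: `-b ρ + 2 r2 ρ = 0`: `2 r2 = b` and `4 t2² = t3²`.
(3) `group12` at `s = s1` (`s1 ≠ s3 = s2`), `ρ1 = √(G1 - s1) > 0`: `r1 = ± [m12² = s1] b1 ± [m23² = s1] b2`.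
 `s1 r1² = 4 t3²`.  `t2 = t3/2`: `m12 b1 = -3/2 t3`, `m23 b2 = t3/2`: `m12² = s1` iff `4 b1 = 3 r1`,
 `m23² = s1` iff `4 b2 = r1`.  Only the case `b1 + b2 = r1` with both is possible: `r1 = b = r3`, `r2 = b/2`,
 `b1 = 3b/4`, against `stewart`.  `t2 = -t3/2`: `m12 b1 = -5/2 t3`, `m23 b2 = 3/2 t3`: `4 b1 = 5 r1`,
 `4 b2 = 3 r1`: `r1 = b1`, `r1 = b2`, `r1 = b1 ± b2`, `r1 = b2 - b1` are all impossible.
-/

open Real Set

namespace Pool.Agent.Helper22.ST.Dat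

variable (d : Dat)

private theorem rt_pos {x L R : ℝ} (h : x ^ 2 = L ^ 2 * R) (hx : x ≠ 0) : 0 < R := by
  have h1 : 0 < x ^ 2 := by positivity
  rw [h] at h1
  by_contra hc
  have h2 : L ^ 2 * R ≤ 0 := mul_nonpos_of_nonneg_of_nonpos (sq_nonneg _) (not_lt.1 hc)
  linarith

private theorem ind_le_aux {p : Prop} {x B : ℝ} (hB : 0 ≤ B) (h : p → x ≤ B) : ind p x ≤ B := by
  by_cases hp : p
  · rw [ind_pos hp]
    exact h hp
  · rw [ind_neg hp]
    exact hB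

private theorem eq_of_sq' {a b : ℝ} (ha : 0 < a) (hb : 0 < b) (h : a ^ 2 = b ^ 2) : a = b := by
  rcases sq_eq_sq_iff_eq_or_eq_neg.1 h with h | h
  · exact h
  · linarith

private theorem part2 (hS : d.St) (h : d.G1 = d.G2) (h' : d.GU ≠ d.G1)
    (hr : d.r3 = d.w3 - d.w1) (ht : d.t1 = 2 * d.t3) (h0 : d.t3 ≠ 0) (hs : d.s3 = d.m13 ^ 2)
    (h13 : d.s1 ≠ d.s3) : d.s2 = d.s3 ∧ 2 * d.r2 = d.r3 ∧ (2 * d.t2) ^ 2 = d.t3 ^ 2 := by
  have hlt := d.case2_lt hS h h'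
  have hq3 := d.q3_neg (h ▸ hlt.le)
  have w12 := d.w12
  have w23 := d.w23
  have hR : 0 < d.G1 - d.s3 := by
    rw [h]
    exact rt_pos d.q3_sq hq3.ne
  have hρp : 0 < √(d.G1 - d.s3) := Real.sqrt_pos.2 hR
  have hρq : √(d.G1 - d.s3) ^ 2 = d.G1 - d.s3 := Real.sq_sqrt hR.le
  have hg := d.group12 hS h h' d.s3
  rw [ind_neg h13, ind_pos rfl] at hg
  have eq3 : d.q3 = -(d.r3 * √(d.G1 - d.s3)) := by
    have e0 : d.q3 ^ 2 = d.r3 ^ 2 * (d.G1 - d.s3) := by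
      rw [d.q3_sq, ← h]
    rcases len_or e0 d.r3p hR.le with e | e
    · have : 0 < d.r3 * √(d.G1 - d.s3) := mul_pos d.r3p hρp
      linarith
    · exact e
  generalize √(d.G1 - d.s3) = ρ at hρp hρq eq3
  have b12 : d.m12 ^ 2 = d.s3 → d.p0 ≤ (d.w2 - d.w1) * ρ := by
    intro e
    have e0 := d.p0_sq
    rw [e, ← hρq, ← mul_pow] at e0
    exact abs_le_of_sq_le_sq' e0.le (mul_nonneg (by linarith) hρp.le) |>.2
  have b23 : d.m23 ^ 2 = d.s3 → d.q0 ≤ (d.w3 - d.w2) * ρ := by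
    intro e
    have e0 := d.q0_sq
    rw [e, ← h, ← hρq, ← mul_pow] at e0
    exact abs_le_of_sq_le_sq' e0.le (mul_nonneg (by linarith) hρp.le) |>.2
  have c12 : 0 < (d.w2 - d.w1) * ρ := mul_pos (by linarith) hρp
  have c23 : 0 < (d.w3 - d.w2) * ρ := mul_pos (by linarith) hρp
  have hs2 : d.s2 = d.s3 := by
    by_contra hne
    rw [ind_neg hne] at hg
    by_cases e12 : d.m12 ^ 2 = d.s3
    · by_cases e23 : d.m23 ^ 2 = d.s3
      · exact d.m_sq ⟨e12.trans hs, hs.symm.trans e23.symm⟩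
      · rw [ind_neg e23, ind_pos e12, eq3, hr] at hg
        have := b12 e12
        nlinarith
    · rw [ind_neg e12] at hg
      have := ind_le_aux c23.le b23
      rw [eq3, hr] at hg
      nlinarith
  rw [ind_pos hs2] at hg
  have n23 : ¬ d.m23 ^ 2 = d.s3 := fun e => h0 (d.faceL2 hs2 (hs2.trans e.symm)).2
  rw [ind_neg n23] at hg
  -- `t2² r3² = t3² r2²`
  have hc : d.t2 ^ 2 * d.r3 ^ 2 = d.t3 ^ 2 * d.r2 ^ 2 := by
    rw [← d.s2_mul, ← d.s3_mul, hs2]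
    ring
  have h0' : 0 < d.t3 ^ 2 := by positivity
  have n12 : ¬ d.m12 ^ 2 = d.s3 := by
    intro e
    have e1 : d.m12 = -d.m13 := by
      rcases sq_eq_sq_iff_eq_or_eq_neg.1 (e.trans hs) with e2 | e2
      · have := d.m12_lt
        linarith
      · exact e2
    have e2 : d.m13 * d.r3 = -d.t3 := by
      rw [hr]
      linear_combination d.b1 - d.b3 - ht
    have e3 : d.t2 * d.r3 = d.t3 * (2 * d.r3 + (d.w2 - d.w1)) := by
      have e4 : d.t2 = d.t1 - d.m13 * (d.w2 - d.w1) := by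
        linear_combination d.a2 - d.a1 + (d.w2 - d.w1) * e1
      rw [e4, ht]
      linear_combination (-(d.w2 - d.w1)) * e2
    have e5 : d.t3 ^ 2 * ((2 * d.r3 + (d.w2 - d.w1)) ^ 2 - d.r2 ^ 2) = 0 := by
      have e6 : (d.t2 * d.r3) ^ 2 = d.t2 ^ 2 * d.r3 ^ 2 := by ring
      rw [e3, hc] at e6
      linear_combination e6
    have e7 : (2 * d.r3 + (d.w2 - d.w1)) ^ 2 - d.r2 ^ 2 = 0 :=
      (mul_eq_zero.1 e5).resolve_left h0'.ne'
    have e8 : 2 * d.r3 + (d.w2 - d.w1) = d.r2 :=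
      eq_of_sq' (by linarith [d.r3p]) d.r2p (by linarith)
    have e9 := d.r1_lt3
    rcases d.r2_lt with e10 | e10
    · linarith
    · linarith [d.r3p]
  rw [ind_neg n12, eq3] at hg
  have e1 : d.p2 ^ 2 = d.r2 ^ 2 * ρ ^ 2 := by
    rw [d.p2_sq, hs2, hρq]
  have e2 : (2 * d.r2) ^ 2 = d.r3 ^ 2 := by
    have e3 : 2 * d.p2 = d.r3 * ρ := by linarith
    have e4 : ((2 * d.r2) ^ 2 - d.r3 ^ 2) * ρ ^ 2 = 0 := by
      have e5 : (2 * d.p2) ^ 2 = (d.r3 * ρ) ^ 2 := by rw [e3]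
      linear_combination e5 - 4 * e1
    have e6 : (2 * d.r2) ^ 2 - d.r3 ^ 2 = 0 :=
      (mul_eq_zero.1 e4).resolve_right (by positivity)
    linarith
  have e3 := eq_of_sq' (by linarith [d.r2p]) d.r3p e2
  refine ⟨hs2, e3, ?_⟩
  have e4 : ((2 * d.t2) ^ 2 - d.t3 ^ 2) * d.r2 ^ 2 = 0 := by
    rw [← e3] at hc
    linear_combination hc
  have e5 : (2 * d.t2) ^ 2 - d.t3 ^ 2 = 0 :=
    (mul_eq_zero.1 e4).resolve_right (pow_ne_zero 2 d.r2p.ne')
  linarith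

private theorem rel_aux {m b t k s r : ℝ} (hb : 0 < b) (hr : 0 < r) (hk : 0 < k) (ht : t ≠ 0)
    (h1 : (m * b) ^ 2 = (k * t) ^ 2) (h2 : s * r ^ 2 = (2 * t) ^ 2) (h3 : m ^ 2 = s) :
    k * r = 2 * b := by
  apply eq_of_sq' (mul_pos hk hr) (by linarith)
  have h4 : t ^ 2 * ((k * r) ^ 2 - (2 * b) ^ 2) = 0 := by
    rw [← h3] at h2
    linear_combination b ^ 2 * h2 - r ^ 2 * h1
  have h5 : (k * r) ^ 2 - (2 * b) ^ 2 = 0 := (mul_eq_zero.1 h4).resolve_left (pow_ne_zero 2 ht)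
  linarith

theorem case2_iii (hS : d.St) (h : d.G1 = d.G2) (h' : d.GU ≠ d.G1)
    (hr : d.r3 = d.w3 - d.w1) (ht : d.t1 = 2 * d.t3) (h0 : d.t3 ≠ 0) (hs : d.s3 = d.m13 ^ 2) :
    False := by
  have hlt := d.case2_lt hS h h'
  have hp1 := d.p1_neg hlt.le
  have w12 := d.w12
  have w23 := d.w23
  have hr3 := d.r3p
  have hr1 := d.r1p
  have h1q : d.s1 * d.r1 ^ 2 = (2 * d.t3) ^ 2 := by rw [d.s1_mul, ht]
  have h13 : d.s1 ≠ d.s3 := by
    intro e
    have h3q := d.s3_mul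
    rw [e] at h1q
    have e1 : d.t3 ^ 2 * ((2 * d.r3) ^ 2 - d.r1 ^ 2) = 0 := by
      linear_combination d.r3 ^ 2 * (-h1q) + d.r1 ^ 2 * h3q
    have e2 : (2 * d.r3) ^ 2 - d.r1 ^ 2 = 0 := (mul_eq_zero.1 e1).resolve_left (pow_ne_zero 2 h0)
    have e3 := eq_of_sq' (by linarith) hr1 (show (2 * d.r3) ^ 2 = d.r1 ^ 2 by linarith)
    have e4 := d.r1_lt3
    linarith
  obtain ⟨hs2, hr2, ht2⟩ := d.part2 hS h h' hr ht h0 hs h13
  have hg := d.group12 hS h h' d.s1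
  have n2 : ¬ d.s2 = d.s1 := fun e => h13 (e.symm.trans hs2)
  have n3 : ¬ d.s3 = d.s1 := fun e => h13 e.symm
  rw [ind_pos rfl, ind_neg n2, ind_neg n3] at hg
  have hR : 0 < d.G1 - d.s1 := rt_pos d.p1_sq hp1.ne
  have hρp : 0 < √(d.G1 - d.s1) := Real.sqrt_pos.2 hR
  have ep1 : d.p1 = -(d.r1 * √(d.G1 - d.s1)) := by
    rcases len_or d.p1_sq d.r1p hR.le with e | e
    · have : 0 < d.r1 * √(d.G1 - d.s1) := mul_pos d.r1p hρp
      linarith
    · exact e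
  have b1p : 0 < d.w2 - d.w1 := sub_pos.2 w12
  have b2p : 0 < d.w3 - d.w2 := sub_pos.2 w23
  have b12 : d.m12 ^ 2 = d.s1 → d.p0 = (d.w2 - d.w1) * √(d.G1 - d.s1) ∨
      d.p0 = -((d.w2 - d.w1) * √(d.G1 - d.s1)) := by
    intro e
    have e0 := d.p0_sq
    rw [e] at e0
    exact len_or e0 b1p hR.le
  have b23 : d.m23 ^ 2 = d.s1 → d.q0 = (d.w3 - d.w2) * √(d.G1 - d.s1) ∨
      d.q0 = -((d.w3 - d.w2) * √(d.G1 - d.s1)) := by
    intro e
    have e0 := d.q0_sq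
    rw [e, ← h] at e0
    exact len_or e0 b2p hR.le
  generalize √(d.G1 - d.s1) = ρ at hρp ep1 b12 b23
  have m1 : d.m12 * (d.w2 - d.w1) = d.t2 - 2 * d.t3 := by
    linear_combination d.a1 - d.a2 - ht
  have m2 : d.m23 * (d.w3 - d.w2) = d.t3 - d.t2 := by
    linear_combination d.c2 - d.c3
  -- the consequences of the class relation
  have key : (d.m12 ^ 2 = d.s1 ∧ d.r1 = d.w2 - d.w1) ∨ (d.m23 ^ 2 = d.s1 ∧ d.r1 = d.w3 - d.w2) ∨
      (d.m12 ^ 2 = d.s1 ∧ d.m23 ^ 2 = d.s1 ∧ (d.r1 = (d.w2 - d.w1) + (d.w3 - d.w2) ∨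
        d.r1 = (d.w2 - d.w1) - (d.w3 - d.w2) ∨ d.r1 = (d.w3 - d.w2) - (d.w2 - d.w1))) := by
    by_cases e12 : d.m12 ^ 2 = d.s1
    · by_cases e23 : d.m23 ^ 2 = d.s1
      · refine Or.inr (Or.inr ⟨e12, e23, ?_⟩)
        rw [ind_pos e12, ind_pos e23, ep1] at hg
        rcases b12 e12 with e | e <;> rcases b23 e23 with e' | e' <;> rw [e, e'] at hg
        · left
          apply mul_right_cancel₀ hρp.ne'
          linarith
        · right; left
          apply mul_right_cancel₀ hρp.ne'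
          linarith
        · right; right
          apply mul_right_cancel₀ hρp.ne'
          linarith
        · exfalso
          have := mul_pos hr1 hρp
          have := mul_pos b1p hρp
          have := mul_pos b2p hρp
          linarith
      · refine Or.inl ⟨e12, ?_⟩
        rw [ind_pos e12, ind_neg e23, ep1] at hg
        rcases b12 e12 with e | e <;> rw [e] at hg
        · apply mul_right_cancel₀ hρp.ne'
          linarith
        · exfalso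
          have := mul_pos hr1 hρp
          have := mul_pos b1p hρp
          linarith
    · by_cases e23 : d.m23 ^ 2 = d.s1
      · refine Or.inr (Or.inl ⟨e23, ?_⟩)
        rw [ind_neg e12, ind_pos e23, ep1] at hg
        rcases b23 e23 with e' | e' <;> rw [e'] at hg
        · apply mul_right_cancel₀ hρp.ne'
          linarith
        · exfalso
          have := mul_pos hr1 hρp
          have := mul_pos b2p hρp
          linarith
      · exfalso
        rw [ind_neg e12, ind_neg e23] at hg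
        linarith
  rcases sq_eq_sq_iff_eq_or_eq_neg.1 ht2 with e | e
  · -- `t2 = t3 / 2`
    have k1 : d.m12 ^ 2 = d.s1 → 3 / 2 * d.r1 = 2 * (d.w2 - d.w1) := fun e' =>
      rel_aux (k := 3 / 2) b1p hr1 (by norm_num) h0
        (by rw [m1, show d.t2 = d.t3 / 2 by linarith]; ring) h1q e'
    have k2 : d.m23 ^ 2 = d.s1 → 1 / 2 * d.r1 = 2 * (d.w3 - d.w2) := fun e' =>
      rel_aux (k := 1 / 2) b2p hr1 (by norm_num) h0
        (by rw [m2, show d.t2 = d.t3 / 2 by linarith]; ring) h1q e'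
    rcases key with ⟨f1, f2⟩ | ⟨f1, f2⟩ | ⟨f1, f2, f3 | f3 | f3⟩
    · have := k1 f1
      linarith
    · have := k2 f1
      linarith
    · have g1 := k1 f1
      have g2 := k2 f2
      have g3 := d.stewart
      have g4 : d.r1 = d.r3 := by linarith
      have g5 : d.r2 = d.r3 / 2 := by linarith
      have g6 : d.w2 - d.w1 = 3 / 4 * d.r3 := by linarith
      have g7 : d.w3 - d.w2 = 1 / 4 * d.r3 := by linarith
      rw [g6, g7, g4, g5, ← hr] at g3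
      have g8 : d.r3 ^ 3 = 0 := by linarith
      exact absurd g8 (pow_ne_zero 3 hr3.ne')
    · have := k1 f1
      have := k2 f2
      linarith
    · have := k1 f1
      have := k2 f2
      linarith
  · have k1 : d.m12 ^ 2 = d.s1 → 5 / 2 * d.r1 = 2 * (d.w2 - d.w1) := fun e' =>
      rel_aux (k := 5 / 2) b1p hr1 (by norm_num) h0
        (by rw [m1, show d.t2 = -d.t3 / 2 by linarith]; ring) h1q e'
    have k2 : d.m23 ^ 2 = d.s1 → 3 / 2 * d.r1 = 2 * (d.w3 - d.w2) := fun e' =>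
      rel_aux (k := 3 / 2) b2p hr1 (by norm_num) h0
        (by rw [m2, show d.t2 = -d.t3 / 2 by linarith]; ring) h1q e'
    rcases key with ⟨f1, f2⟩ | ⟨f1, f2⟩ | ⟨f1, f2, f3 | f3 | f3⟩
    · have := k1 f1
      linarith
    · have := k2 f1
      linarith
    · have := k1 f1
      have := k2 f2
      linarith
    · have := k1 f1
      have := k2 f2
      linarith
    · have := k1 f1
      have := k2 f2
      linarith

end Pool.Agent.Helper22.ST.Dat
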