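import Pool.Agent.Helper22.ST.B03Mirror
import Pool.Agent.Helper22.ST.B09Case2b

/-!
# ST-B10: `G1 = G2 ≠ GU` is impossible (memo 4.2)

`aloneU`; the first three alternatives are `case2_i`, `case2_ii`, `case2_iii`; the fourth (`r1 = w3 - w1`,
`t3 = 2 t1`) is `case2_iii` for `d.mirror` (`mirror_*`).
-/

open Real Set

namespace Pool.Agent.Helper22.ST.Dat

variable (d : Dat)

theorem case2 (hS : d.St) (h : d.G1 = d.G2) (h' : d.GU ≠ d.G1) : False := by
  rcases d.aloneU hS h' (h ▸ h') with ⟨e1, e3⟩ | ⟨-, e1, e2, e3⟩ | ⟨-, e1, e2, e3, e4⟩ |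
    ⟨-, e1, e2, e3, e4⟩
  · exact d.case2_i hS h h' e1 e3
  · exact d.case2_ii hS h h' e1 e2 e3
  · exact d.case2_iii hS h h' e1 e2 e3 e4
  · refine d.mirror.case2_iii (d.mirror_St hS) ?_ ?_ ?_ ?_ ?_ ?_
    · rw [mirror_G1, mirror_G2, h]
    · rw [mirror_GU, mirror_G1, ← h]
      exact h'
    · show d.r1 = -d.w1 - -d.w3
      linarith
    · exact e2
    · exact e3
    · rw [mirror_s3, mirror_m13]
      exact e4

end Pool.Agent.Helper22.ST.Dat
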