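import Pool.Agent.Helper22.ST.B01Facts

/-!
# ST-B07: the class relations of the groups

Put `G = G1`, resp. `GU`, in `St` and use `p2 = q2`, `u1 = p1`, `u3 = q3` (`p2_eq_q2` etc.):
`ind p a + ind p a = ind p (2 a)`.
`len_or`: `x² = (L √R)²`.
-/

set_option autoImplicit false

open Real Set

namespace Pool.Agent.Helper22.ST

theorem len_or {x L R : ℝ} (h : x ^ 2 = L ^ 2 * R) (hL : 0 < L) (hR : 0 ≤ R) :
    x = L * √R ∨ x = -(L * √R) := by
  have h1 : x ^ 2 = (L * √R) ^ 2 := by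
    rw [mul_pow, Real.sq_sqrt hR, h]
  exact sq_eq_sq_iff_eq_or_eq_neg.1 h1

theorem b07_ind_left {p q : Prop} (hq : q) (a : ℝ) : ind (p ∧ q) a = ind p a :=
  ind_congr ⟨fun h => h.1, fun h => ⟨h, hq⟩⟩ a

theorem b07_ind_zero {p q : Prop} (hq : ¬ q) (a : ℝ) : ind (p ∧ q) a = 0 :=
  ind_neg (fun h => hq h.2) a

namespace Dat

variable (d : Dat)

theorem group12 (hS : d.St) (h : d.G1 = d.G2) (h' : d.GU ≠ d.G1) (s : ℝ) :
    ind (d.s1 = s) d.p1 + ind (d.s2 = s) (2 * d.p2) + ind (d.s3 = s) d.q3 +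
      ind (d.m12 ^ 2 = s) d.p0 + ind (d.m23 ^ 2 = s) d.q0 = 0 := by
  have hs := hS s d.G1
  have e := d.p2_eq_q2 h
  rw [b07_ind_zero h', b07_ind_zero h', b07_ind_zero h', b07_ind_left rfl, b07_ind_left rfl,
    b07_ind_left rfl, b07_ind_left h.symm, b07_ind_left h.symm, b07_ind_left h.symm, ← e] at hs
  rw [ind_mul]
  linarith

theorem groupU1 (hS : d.St) (h : d.GU = d.G1) (h' : d.G2 ≠ d.GU) (s : ℝ) :
    ind (d.s1 = s) (2 * d.u1) + ind (d.s3 = s) d.u3 + ind (d.s2 = s) d.p2 +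
      ind (d.m13 ^ 2 = s) d.u0 + ind (d.m12 ^ 2 = s) d.p0 = 0 := by
  have hs := hS s d.GU
  have e := d.u1_eq_p1 h
  rw [b07_ind_left rfl, b07_ind_left rfl, b07_ind_left rfl, b07_ind_left h.symm,
    b07_ind_left h.symm, b07_ind_left h.symm, b07_ind_zero h', b07_ind_zero h',
    b07_ind_zero h', ← e] at hs
  rw [ind_mul]
  linarith

theorem groupAll (hS : d.St) (h : d.GU = d.G1) (h' : d.G1 = d.G2) (s : ℝ) :
    ind (d.s1 = s) (2 * d.u1) + ind (d.s2 = s) (2 * d.p2) + ind (d.s3 = s) (2 * d.u3) +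
      ind (d.m13 ^ 2 = s) d.u0 + ind (d.m12 ^ 2 = s) d.p0 + ind (d.m23 ^ 2 = s) d.q0 = 0 := by
  have hs := hS s d.GU
  have e := d.u1_eq_p1 h
  have e2 := d.p2_eq_q2 h'
  have e3 := d.u3_eq_q3 (h.trans h')
  have h2 : d.G2 = d.GU := (h.trans h').symm
  rw [b07_ind_left rfl, b07_ind_left rfl, b07_ind_left rfl, b07_ind_left h.symm,
    b07_ind_left h.symm, b07_ind_left h.symm, b07_ind_left h2, b07_ind_left h2,
    b07_ind_left h2, ← e, ← e2, ← e3] at hs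
  rw [ind_mul, ind_mul, ind_mul]
  linarith

end Dat

end Pool.Agent.Helper22.ST
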