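import Pool.Agent.Helper22.ST.B02Geo
import Pool.Agent.Helper22.ST.B05AloneD
import Pool.Agent.Helper22.ST.B07Group

/-!
# ST-B11: `GU = G1 < G2` is impossible (memo 4.3)

`q2 > 0` (`q2_pos`), `q3 < 0` (`q3_neg`).  `aloneL2`: `t2 = t3 = 0` gives `G2 = 0` (`G2_zero`), no (`G2 > GU ≥ 0`);
the alternatives with `q2 = 0` or `q3 = 0` are impossible; so `y23 = 0`, `w2 = -w3`, `t2 = -t3 ≠ 0`, `w3 > 0`,
`r2 = r3`, `s2 = s3`.
`u3² = r3² (GU - s3) = r2² (G1 - s2) = p2²`; `u3 + p2 = (m13 - m12) r3² > 0`, because with `y23 = 0`, `m23 =: M`: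
`u3 = M - (M - m13) r3²` (`u3_add_q3`, `q3 = -M`), `p2 = (M - m12) r2² - M`.  So `u3 = p2 > 0`.
`u1 < 0` (`u1_neg`), `w1 < w2 = -w3 < 0`: `r1 > |w1| > w2 - w1`, `2 |w1| > w3 - w1`, `r1 > r3` (`w1² > w3²`).
`groupU1` at `s1` and at `s3`; `ρ1 = √(GU - s1) > 0`, `ρ3 = √(GU - s3) > 0`, `u1 = -(r1 ρ1)`, `u3 = p2 = r3 ρ3`.
If `s1 = s3`: `m13² ≠ s1` (`faceU`; `t3 ≠ 0`), `m12² ≠ s1` (`faceL1`; `t2 ≠ 0`): `-2 r1 ρ1 + 2 r3 ρ3 = 0`: `r1 = r3`, no.
If `s1 ≠ s3`: class `s1`: `2 r1 ρ1 = ind (m13² = s1) u0 + ind (m12² = s1) p0`.  None: no.  Only `m12²`: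
`2 r1 = w2 - w1`, no.  Only `m13²`: `2 r1 = w3 - w1`, no.  Both: then neither is in the class `s3`, and `groupU1` at
`s3` says `u3 + p2 = 0`, no.
-/

open Real Set

namespace Pool.Agent.Helper22.ST.Dat

variable (d : Dat)

theorem case3 (hS : d.St) (h : d.GU = d.G1) (h' : d.GU < d.G2) : False := by
  have hne1 : d.G2 ≠ d.GU := h'.ne'
  have hne2 : d.G2 ≠ d.G1 := by rw [← h]; exact h'.ne'
  have hq2 : 0 < d.q2 := d.q2_pos (by rw [← h]; exact h'.le)
  have hq3 : d.q3 < 0 := d.q3_neg h'.le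
  rcases d.aloneL2 hS hne1 hne2 with ⟨h2, h3⟩ | ⟨hy, hw, ht, ht2⟩ | ⟨hq, -⟩ | ⟨hq, -⟩
  · have hz := (d.G2_zero h2 h3).1
    have := d.GU_nonneg
    linarith
  · have hw3 : 0 < d.w3 := by linarith [d.w23]
    have hr : d.r2 = d.r3 := by
      have h1 : d.r2 ^ 2 = d.r3 ^ 2 := by rw [d.r2q, d.r3q, hw]; ring
      exact (pow_left_inj₀ d.r2p.le d.r3p.le two_ne_zero).1 h1
    have hs : d.s2 = d.s3 := by
      simp only [s2, s3]
      rw [ht, hr, neg_div, neg_sq]
    -- u3 + p2 > 0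
    have hsum : d.u3 + d.p2 = (d.m13 - d.m12) * d.r3 ^ 2 := by
      have h1 := d.u3_add_q3
      have h2 := d.p2_add_q2
      have e1 : d.q3 = -d.m23 := by simp only [q3]; rw [hy]; ring
      have e2 : d.q2 = d.m23 := by simp only [q2]; rw [hy]; ring
      rw [e1] at h1
      rw [e2, hr] at h2
      linear_combination h1 + h2
    have hpos : 0 < d.u3 + d.p2 := by
      rw [hsum]
      exact mul_pos (sub_pos.2 d.m12_lt) (pow_pos d.r3p 2)
    have hup : d.u3 = d.p2 := by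
      refine eq_of_sq hpos.ne' ?_
      rw [d.u3_sq, d.p2_sq, h, hs, hr]
    have hu1 : d.u1 < 0 := d.u1_neg h.ge
    have hu1n : d.u1 ≠ 0 := hu1.ne
    have hu1q : 0 < d.u1 ^ 2 := by positivity
    have hR1 : 0 < d.GU - d.s1 := by
      have h1 := d.u1_sq
      rw [h1] at hu1q
      by_contra hcon
      have h2 := mul_nonpos_of_nonneg_of_nonpos (sq_nonneg d.r1) (not_lt.1 hcon)
      linarith
    have hw1 : d.w1 < d.w2 := d.w12
    have habs := d.abs_w1
    have hneg : -d.w1 < d.r1 := by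
      have := neg_abs_le d.w1
      linarith
    have hb1 : d.w2 - d.w1 < d.r1 := by linarith
    have hb1p : 0 < d.w2 - d.w1 := by linarith
    have hb : d.w3 - d.w1 < 2 * d.r1 := by linarith
    have hbp : 0 < d.w3 - d.w1 := by linarith [d.w23]
    have g1 := d.groupU1 hS h hne1 d.s1
    have g3 := d.groupU1 hS h hne1 d.s3
    by_cases h13 : d.s1 = d.s3
    · have n1 : ¬ (d.m13 ^ 2 = d.s1) := by
        intro hc
        have := (d.faceU h13 hc.symm).2
        apply ht2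
        rw [ht, this, neg_zero]
      have n2 : ¬ (d.m12 ^ 2 = d.s1) := by
        intro hc
        exact ht2 (d.faceL1 (by rw [hs]; exact h13) hc.symm).2
      rw [ind_pos rfl, ind_pos h13.symm, ind_pos (by rw [hs]; exact h13.symm), ind_neg n1,
        ind_neg n2] at g1
      have hu : d.u1 = -d.u3 := by linarith
      have hsq : d.u1 ^ 2 = d.u3 ^ 2 := by rw [hu]; ring
      rw [d.u1_sq, d.u3_sq, ← h13] at hsq
      have hrr := mul_right_cancel₀ hR1.ne' hsq
      rw [d.r1q, d.r3q] at hrr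
      nlinarith
    · have n3 : ¬ (d.s3 = d.s1) := fun hc => h13 hc.symm
      have n2 : ¬ (d.s2 = d.s1) := by rw [hs]; exact n3
      rw [ind_pos rfl, ind_neg n3, ind_neg n2] at g1
      by_cases c1 : d.m13 ^ 2 = d.s1
      · by_cases c2 : d.m12 ^ 2 = d.s1
        · rw [ind_neg h13, ind_pos rfl, ind_pos hs, ind_neg (by rw [c1]; exact h13),
            ind_neg (by rw [c2]; exact h13)] at g3
          linarith
        · rw [ind_pos c1, ind_neg c2] at g1
          have hu : d.u0 = -(2 * d.u1) := by linarith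
          have hsq : d.u0 ^ 2 = 4 * d.u1 ^ 2 := by rw [hu]; ring
          rw [d.u0_sq, d.u1_sq, c1, ← mul_assoc] at hsq
          have hrr := mul_right_cancel₀ hR1.ne' hsq
          nlinarith
      · by_cases c2 : d.m12 ^ 2 = d.s1
        · rw [ind_neg c1, ind_pos c2] at g1
          have hu : d.p0 = -(2 * d.u1) := by linarith
          have hsq : d.p0 ^ 2 = 4 * d.u1 ^ 2 := by rw [hu]; ring
          rw [d.p0_sq, d.u1_sq, c2, ← h, ← mul_assoc] at hsq
          have hrr := mul_right_cancel₀ hR1.ne' hsq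
          nlinarith
        · rw [ind_neg c1, ind_neg c2] at g1
          linarith
  · linarith
  · linarith

end Pool.Agent.Helper22.ST.Dat
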