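import Pool.Agent.Helper22.ST.B02Geo
import Pool.Agent.Helper22.ST.B05AloneD
import Pool.Agent.Helper22.ST.B07Group

/-!
# ST-B12: `GU = G1 > G2`, alternatives (i), (ii) of `aloneL2` (memo 4.4)

`u1 < 0`, `u3 < 0` (`u3_neg`), `p2 > 0` (`p2_pos`), `groupU1`.
(i) `t2 = t3 = 0`: `s2 = s3 = 0`, `t1 ≠ 0` (`not_all`), so `s1 ≠ 0`, `m12 ≠ 0`, `m13 ≠ 0` (`t1 - t2 = ..`).
 Class `s = 0`: `u3 + p2 = 0`, and `u3² = r3² GU`, `p2² = r2² GU`, so `r2 = r3`, `w2 = -w3`, `w3 > 0`.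
 `m12² ≠ m13²` (`m12 (w2 - w1) = -t1 = m13 (w3 - w1)`, `t1 ≠ 0`, different positive factors).
 Class `s1` (`ρ = √(GU - s1) > 0`): `2 r1 = ± (w2 - w1)` or `± (w3 - w1)` (or nothing): no, since
 `w1 < w2 = -w3 < 0` gives `w2 - w1 < |w1| < r1` and `w3 - w1 < 2 |w1| < 2 r1`.
(ii) `w2 = -w3`, `t2 = -t3 ≠ 0`: `r2 = r3`, `s2 = s3`.  If `s1 = s2`: `m12² ≠ s1` (`faceL1`), `m13² ≠ s1`
 (`faceU`), class `s1`: `2 u1 + u3 + p2 = 0` with `u3 = -r3 ρ`, `p2 = r3 ρ`: `u1 = 0`, no.  If `s1 ≠ s2`: class `s1`: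
 `2 r1 ρ = ind .. u0 + ind .. p0 ≤ (w3 - w1) ρ + (w2 - w1) ρ = -2 w1 ρ < 2 r1 ρ`.
-/

open Real Set

namespace Pool.Agent.Helper22.ST.Dat

variable (d : Dat)

private theorem b12_abs {x L R : ℝ} (hL : 0 ≤ L) (hR : 0 ≤ R) (h : x ^ 2 = L ^ 2 * R) :
    |x| ≤ L * √R := by
  refine abs_le_of_sq_le_sq ?_ (mul_nonneg hL (Real.sqrt_nonneg R))
  rw [mul_pow, Real.sq_sqrt hR, h]

theorem case4_i (hS : d.St) (h : d.GU = d.G1) (h' : d.G2 < d.GU) (h2 : d.t2 = 0)
    (h3 : d.t3 = 0) : False := by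
  have hu1 := d.u1_neg h.ge
  have hu3 := d.u3_neg h'.le
  have hp2 := d.p2_pos (h ▸ h'.le)
  have hg := d.groupU1 hS h h'.ne
  have hs2 : d.s2 = 0 := by
    unfold s2
    rw [h2, zero_div]
    ring
  have hs3 : d.s3 = 0 := by
    unfold s3
    rw [h3, zero_div]
    ring
  have ht1 : d.t1 ≠ 0 := fun ht => d.not_all ht h2 h3
  have hs1 : d.s1 ≠ 0 := by
    unfold s1
    exact pow_ne_zero 2 (div_ne_zero ht1 d.r1p.ne')
  have e12 : d.t1 = -(d.m12 * (d.w2 - d.w1)) := by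
    linear_combination d.a1 - d.a2 + h2
  have e13 : d.t1 = -(d.m13 * (d.w3 - d.w1)) := by
    linear_combination d.b1 - d.b3 + h3
  have hm12 : d.m12 ≠ 0 := by
    intro hm
    rw [hm] at e12
    apply ht1
    linarith
  have hm13 : d.m13 ≠ 0 := by
    intro hm
    rw [hm] at e13
    apply ht1
    linarith
  -- class 0
  have hc0 := hg 0
  rw [ind_neg hs1, ind_pos hs3, ind_pos hs2, ind_neg (pow_ne_zero 2 hm13),
    ind_neg (pow_ne_zero 2 hm12)] at hc0
  have hsq : d.u3 ^ 2 = d.p2 ^ 2 := by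
    have : d.u3 = -d.p2 := by linarith
    rw [this, neg_sq]
  rw [d.u3_sq, d.p2_sq, hs2, hs3, sub_zero, sub_zero, ← h] at hsq
  have hGU : d.GU ≠ 0 := by
    intro hG
    have h4 := d.u3_sq
    rw [hs3, hG, sub_zero, mul_zero] at h4
    have h5 : d.u3 = 0 := by simpa using h4
    rw [h5] at hu3
    exact lt_irrefl _ hu3
  have hr : d.r3 ^ 2 = d.r2 ^ 2 := mul_right_cancel₀ hGU hsq
  have hw : d.w2 = -d.w3 := by
    rw [d.r3q, d.r2q] at hr
    have h4 : (d.w3 - d.w2) * (d.w3 + d.w2) = 0 := by linear_combination hr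
    rcases mul_eq_zero.1 h4 with h5 | h5
    · have := d.w23
      exfalso
      linarith
    · linarith
  have w12 := d.w12
  have w23 := d.w23
  have hr1 := (abs_lt.1 d.abs_w1).1
  have hne : d.m12 ^ 2 ≠ d.m13 ^ 2 := by
    intro he
    have h4 : d.m12 ^ 2 * ((d.w3 - d.w1) ^ 2 - (d.w2 - d.w1) ^ 2) = 0 := by
      have h5 : d.m12 ^ 2 * (d.w2 - d.w1) ^ 2 = d.m13 ^ 2 * (d.w3 - d.w1) ^ 2 := by
        have h6 : d.m12 * (d.w2 - d.w1) = d.m13 * (d.w3 - d.w1) := by linarith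
        rw [← mul_pow, ← mul_pow, h6]
      rw [← he] at h5
      linear_combination -h5
    rcases mul_eq_zero.1 h4 with h5 | h5
    · exact pow_ne_zero 2 hm12 h5
    · have h6 : (d.w3 - d.w2) * (d.w3 + d.w2 - 2 * d.w1) = 0 := by linear_combination h5
      rcases mul_eq_zero.1 h6 with h7 | h7
      · linarith
      · linarith
  have hR : 0 < d.GU - d.s1 := by
    have h4 := d.u1_sq
    have h5 : 0 < d.u1 ^ 2 := by have hz := hu1.ne; positivity
    rw [h4] at h5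
    exact (pos_iff_pos_of_mul_pos h5).1 (pow_pos d.r1p 2)
  have hc1 := hg d.s1
  rw [ind_pos rfl, ind_neg (fun hh => hs1 (by rw [← hh, hs3])),
    ind_neg (fun hh => hs1 (by rw [← hh, hs2]))] at hc1
  by_cases k13 : d.m13 ^ 2 = d.s1
  · rw [ind_pos k13, ind_neg (fun hh => hne (hh.trans k13.symm))] at hc1
    have h4 : d.u0 ^ 2 = 4 * d.u1 ^ 2 := by
      have : d.u0 = -(2 * d.u1) := by linarith
      rw [this]
      ring
    rw [d.u0_sq, d.u1_sq, k13] at h4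
    have h5 : (d.w3 - d.w1) ^ 2 = 4 * d.r1 ^ 2 := by
      apply mul_right_cancel₀ hR.ne'
      linear_combination h4
    nlinarith
  · rw [ind_neg k13] at hc1
    by_cases k12 : d.m12 ^ 2 = d.s1
    · rw [ind_pos k12] at hc1
      have h4 : d.p0 ^ 2 = 4 * d.u1 ^ 2 := by
        have : d.p0 = -(2 * d.u1) := by linarith
        rw [this]
        ring
      rw [d.p0_sq, d.u1_sq, k12, ← h] at h4
      have h5 : (d.w2 - d.w1) ^ 2 = 4 * d.r1 ^ 2 := by
        apply mul_right_cancel₀ hR.ne'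
        linear_combination h4
      nlinarith
    · rw [ind_neg k12] at hc1
      linarith

theorem case4_ii (hS : d.St) (h : d.GU = d.G1) (h' : d.G2 < d.GU) (hw : d.w2 = -d.w3)
    (ht : d.t2 = -d.t3) (h0 : d.t2 ≠ 0) : False := by
  have hu1 := d.u1_neg h.ge
  have hu3 := d.u3_neg h'.le
  have hp2 := d.p2_pos (h ▸ h'.le)
  have hg := d.groupU1 hS h h'.ne
  have hr : d.r2 = d.r3 := by
    have h4 : d.r2 ^ 2 = d.r3 ^ 2 := by
      rw [d.r2q, d.r3q, hw]
      ring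
    exact (pow_left_inj₀ d.r2p.le d.r3p.le two_ne_zero).1 h4
  have hs : d.s2 = d.s3 := by
    unfold s2 s3
    rw [hr, ht]
    ring
  have hc1 := hg d.s1
  rw [ind_pos rfl] at hc1
  by_cases k : d.s1 = d.s2
  · have n12 : d.m12 ^ 2 ≠ d.s1 := fun hh => h0 (d.faceL1 k hh.symm).2
    have n13 : d.m13 ^ 2 ≠ d.s1 := fun hh => by
      have h4 := (d.faceU (k.trans hs) hh.symm).2
      apply h0
      rw [ht, h4, neg_zero]
    rw [ind_pos (hs.symm.trans k.symm), ind_pos k.symm, ind_neg n13, ind_neg n12] at hc1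
    have h4 : d.u3 ^ 2 = d.p2 ^ 2 := by
      rw [d.u3_sq, d.p2_sq, hr, hs, h]
    have h5 : d.u3 = -d.p2 := by
      rcases sq_eq_sq_iff_eq_or_eq_neg.1 h4 with h6 | h6
      · linarith
      · exact h6
    linarith
  · rw [ind_neg (fun hh => k (hh.symm.trans hs.symm)), ind_neg (fun hh => k hh.symm)] at hc1
    have w12 := d.w12
    have w23 := d.w23
    have hr1 := (abs_lt.1 d.abs_w1).1
    have hR : 0 < d.GU - d.s1 := by
      have h4 := d.u1_sq
      have h5 : 0 < d.u1 ^ 2 := by have hz := hu1.ne; positivity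
      rw [h4] at h5
      exact (pos_iff_pos_of_mul_pos h5).1 (pow_pos d.r1p 2)
    have hρ := Real.sqrt_pos.2 hR
    have hu : |d.u1| = d.r1 * √(d.GU - d.s1) := by
      have h4 := d.u1_sq
      have h5 : |d.u1| ^ 2 = (d.r1 * √(d.GU - d.s1)) ^ 2 := by
        rw [sq_abs, mul_pow, Real.sq_sqrt hR.le, h4]
      exact (pow_left_inj₀ (abs_nonneg _) (mul_nonneg d.r1p.le hρ.le) two_ne_zero).1 h5
    rw [abs_of_neg hu1] at hu
    have h13 : ind (d.m13 ^ 2 = d.s1) d.u0 ≤ (d.w3 - d.w1) * √(d.GU - d.s1) := by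
      by_cases k13 : d.m13 ^ 2 = d.s1
      · rw [ind_pos k13]
        refine (le_abs_self _).trans (b12_abs (by linarith) hR.le ?_)
        rw [d.u0_sq, k13]
      · rw [ind_neg k13]
        exact mul_nonneg (by linarith) hρ.le
    have h12 : ind (d.m12 ^ 2 = d.s1) d.p0 ≤ (d.w2 - d.w1) * √(d.GU - d.s1) := by
      by_cases k12 : d.m12 ^ 2 = d.s1
      · rw [ind_pos k12]
        refine (le_abs_self _).trans (b12_abs (by linarith) hR.le ?_)
        rw [d.p0_sq, k12, h]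
      · rw [ind_neg k12]
        exact mul_nonneg (by linarith) hρ.le
    have h4 : 2 * d.r1 * √(d.GU - d.s1) ≤ (-2 * d.w1) * √(d.GU - d.s1) := by
      have h5 : (d.w3 - d.w1) * √(d.GU - d.s1) + (d.w2 - d.w1) * √(d.GU - d.s1) =
          (-2 * d.w1) * √(d.GU - d.s1) := by
        rw [hw]
        ring
      linarith
    have h6 := le_of_mul_le_mul_right h4 hρ
    linarith

end Pool.Agent.Helper22.ST.Dat
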