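import Pool.Agent.Helper22.ST.B02Geo
import Pool.Agent.Helper22.ST.B05AloneD
import Pool.Agent.Helper22.ST.B07Group

/-!
# ST-B13: `GU = G1 > G2`, base `A2` of the face `L2` (memo 4.4, (iii))

`b = w3 - w1`, `b1 = w2 - w1`, `b2 = w3 - w2`.  Hypotheses `q2 = 0`, `r3 = b2`, `t2 = 2 t3`, `t3 ≠ 0`, `s3 = m23²`.
`q2_sq`: `G2 = s2`; `q3 ≠ 0` (`q_sum`, otherwise `y23 = 0`, `m23 = 0`, ...; or: `q3 < 0`? use `q2 = 0` and
`p2_add_q2`, `q_sum`: if `q3 = 0` then `q0 = 0`, `y23 = 0`, `q2 = m23 = 0`, `t3 = 0`, no), so `s3 < G2 = s2`, `s2 ≠ s3`.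
`w2 = w3 - r3 < 0` (`abs_w3`), so `w1 < w2 < 0`: `r1 > -w1 > b1` and `r1 > r2`.
`u1 < 0, u3 < 0, p2 > 0`; `groupU1` at `s3`, `ρ = √(GU - s3) > 0`: `u3 = -(r3 ρ)`, if `s1 = s3` then `u1 = -(r1 ρ)`,
`|u0| = b ρ` if `m13² = s3`, `|p0| = b1 ρ` if `m12² = s3`:
`r3 + [s1 = s3] 2 r1 = ± [m13² = s3] b ± [m12² = s3] b1`.
* both `m13², m12²`: `m12² = m13² = m23²`, `m_sq`.
* only `m13²`: `s1 ≠ s3` (`faceU`; `t3 ≠ 0`), so `b = r3 = b2`, no.
* only `m12²`: `s1 = s3` would give `b1 = r3 + 2 r1`, no (`b1 < r1`).  So `b1 = r3 = b2`, and `m12² = m23²`,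
 `m12 < m23`: `m12 = -m23`, `t2 - t1 = -(t3 - t2)`, `t1 = t3`, so `m13 = 0`.  `groupU1` at `s1`
 (`s1 ≠ s3`, `ρ1 = √(GU - s1)`): `2 r1 = [s2 = s1] r2 ± [m13² = s1] b ± [m12² = s1] b1`; `m12² = s3 ≠ s1`;
 `m13² = s1` means `s1 = 0`, `t1 = 0`, `t3 = 0`, no; so `2 r1 = r2` or `2 r1 = 0`, no.
* neither: `r3 + .. = 0`, no.
-/

open Real Set

namespace Pool.Agent.Helper22.ST.Dat

variable (d : Dat)

/-- the class relation at `s3`: only `m12 ^ 2` has the value `s3`, and then `w2 - w1 = r3` -/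
private theorem cls3 (hS : d.St) (h : d.GU = d.G1) (h' : d.G2 < d.GU)
    (hr : d.r3 = d.w3 - d.w2) (h0 : d.t3 ≠ 0) (hs : d.s3 = d.m23 ^ 2)
    (h32 : d.s3 < d.s2) (h2G : d.s2 < d.GU) (hb1 : d.w2 - d.w1 < d.r1) :
    d.s1 ≠ d.s3 ∧ d.m12 ^ 2 = d.s3 ∧ d.w2 - d.w1 = d.r3 := by
  have hu1 : d.u1 < 0 := d.u1_neg h.ge
  have hu3 : d.u3 < 0 := d.u3_neg h'.le
  have hR : 0 < d.GU - d.s3 := by linarith
  have hρ : 0 < √(d.GU - d.s3) := Real.sqrt_pos.2 hR
  have r1p := d.r1p
  have r3p := d.r3p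
  have w12 := d.w12
  have w23 := d.w23
  have hg := d.groupU1 hS h h'.ne d.s3
  rw [ind_pos (rfl : d.s3 = d.s3), ind_neg (h32.ne' : ¬ d.s2 = d.s3), add_zero] at hg
  have e3 : d.u3 = -(d.r3 * √(d.GU - d.s3)) := by
    rcases len_or d.u3_sq r3p hR.le with e | e
    · exfalso
      have := mul_pos r3p hρ
      linarith
    · exact e
  by_cases h13 : d.m13 ^ 2 = d.s3
  · exfalso
    by_cases h12 : d.m12 ^ 2 = d.s3
    · exact d.m_sq ⟨h12.trans h13.symm, h13.trans hs⟩
    · have h1 : ¬ d.s1 = d.s3 := fun h1 => h0 (d.faceU h1 (h1.trans h13.symm)).2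
      rw [ind_neg h1, ind_pos h13, ind_neg h12] at hg
      have e0 := d.u0_sq
      rw [h13] at e0
      have hb : 0 < d.w3 - d.w1 := by linarith
      rcases len_or e0 hb hR.le with e | e
      · rw [e3, e] at hg
        have h5 : (d.w3 - d.w1 - d.r3) * √(d.GU - d.s3) = 0 := by linarith
        rcases mul_eq_zero.1 h5 with h6 | h6
        · linarith
        · exact hρ.ne' h6
      · rw [e3, e] at hg
        have h5 := mul_pos r3p hρ
        have h6 := mul_pos hb hρ
        linarith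
  · by_cases h12 : d.m12 ^ 2 = d.s3
    · have e0 := d.p0_sq
      rw [h12, ← h] at e0
      have hb : 0 < d.w2 - d.w1 := by linarith
      by_cases h1 : d.s1 = d.s3
      · exfalso
        have e1' := d.u1_sq
        rw [h1] at e1'
        have e1 : d.u1 = -(d.r1 * √(d.GU - d.s3)) := by
          rcases len_or e1' r1p hR.le with e | e
          · exfalso
            have := mul_pos r1p hρ
            linarith
          · exact e
        rw [ind_pos h1, ind_neg h13, ind_pos h12, e1, e3] at hg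
        have h5 := mul_pos r3p hρ
        have h6 := mul_pos hb hρ
        have h7 : (d.w2 - d.w1) * √(d.GU - d.s3) < d.r1 * √(d.GU - d.s3) :=
          mul_lt_mul_of_pos_right hb1 hρ
        rcases len_or e0 hb hR.le with e | e
        · rw [e] at hg
          linarith
        · rw [e] at hg
          linarith
      · refine ⟨h1, h12, ?_⟩
        rw [ind_neg h1, ind_neg h13, ind_pos h12, e3] at hg
        rcases len_or e0 hb hR.le with e | e
        · rw [e] at hg
          have h5 : (d.w2 - d.w1 - d.r3) * √(d.GU - d.s3) = 0 := by linarith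
          rcases mul_eq_zero.1 h5 with h6 | h6
          · linarith
          · exact absurd h6 hρ.ne'
        · exfalso
          rw [e] at hg
          have h5 := mul_pos r3p hρ
          have h6 := mul_pos hb hρ
          linarith
    · exfalso
      rw [ind_neg h13, ind_neg h12] at hg
      by_cases h1 : d.s1 = d.s3
      · rw [ind_pos h1] at hg
        linarith
      · rw [ind_neg h1] at hg
        linarith

theorem case4_iii (hS : d.St) (h : d.GU = d.G1) (h' : d.G2 < d.GU) (hq : d.q2 = 0)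
    (hr : d.r3 = d.w3 - d.w2) (ht : d.t2 = 2 * d.t3) (h0 : d.t3 ≠ 0) (hs : d.s3 = d.m23 ^ 2) :
    False := by
  have hu1 : d.u1 < 0 := d.u1_neg h.ge
  have r1p := d.r1p
  have r2p := d.r2p
  have r3p := d.r3p
  have w12 := d.w12
  have w23 := d.w23
  have hG2 : d.G2 = d.s2 := by
    have e := d.q2_sq
    rw [hq] at e
    have e2 : d.r2 ^ 2 * (d.G2 - d.s2) = 0 := by linarith
    rcases mul_eq_zero.1 e2 with e3 | e3
    · exact absurd e3 (pow_pos r2p 2).ne'
    · linarith
  have hq3 : d.q3 ≠ 0 := by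
    intro e
    have e1 := d.q_sum
    rw [hq, e] at e1
    have e2 : d.q0 = 0 := by linarith
    have e3 : (d.w3 - d.w2) * d.y23 = 0 := by
      unfold q0 at e2
      linarith
    have e4 : d.y23 = 0 := by
      rcases mul_eq_zero.1 e3 with e4 | e4
      · linarith
      · exact e4
    have e5 : d.m23 = 0 := by
      have e6 := hq
      unfold q2 at e6
      rw [e4] at e6
      linarith
    apply h0
    rw [d.c3, e4, e5]
    ring
  have h32 : d.s3 < d.s2 := by
    have e := d.q3_sq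
    have e1 : 0 < d.q3 ^ 2 := by positivity
    rw [e] at e1
    have e2 := (mul_pos_iff_of_pos_left (pow_pos r3p 2)).1 e1
    linarith
  have h2G : d.s2 < d.GU := by rw [← hG2]; exact h'
  have hw3 := (abs_lt.1 d.abs_w3).2
  have hw1 := (abs_lt.1 d.abs_w1).1
  have hw2 : d.w2 < 0 := by linarith
  have hb1 : d.w2 - d.w1 < d.r1 := by linarith
  have hr12 : d.r2 ^ 2 < d.r1 ^ 2 := by
    rw [d.r1q, d.r2q]
    nlinarith
  obtain ⟨h1, h12, hb⟩ := cls3 d hS h h' hr h0 hs h32 h2G hb1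
  have hm : d.m12 = -d.m23 := by
    have e : (d.m12 - d.m23) * (d.m12 + d.m23) = 0 := by
      have e1 := h12.trans hs
      linear_combination e1
    rcases mul_eq_zero.1 e with e1 | e1
    · have := d.hm
      linarith
    · linarith
  have ht13 : d.t1 = d.t3 := by
    have a1 := d.a1
    have a2 := d.a2
    have c2 := d.c2
    have c3 := d.c3
    have e1 : d.t2 - d.t1 = d.m12 * (d.w2 - d.w1) := by linear_combination a2 - a1
    have e2 : d.t3 - d.t2 = d.m23 * (d.w3 - d.w2) := by linear_combination c3 - c2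
    rw [hm, hb] at e1
    rw [← hr] at e2
    linarith
  have hm13 : d.m13 = 0 := by
    have e1 : d.m13 * (d.w3 - d.w1) = 0 := by
      have b1 := d.b1
      have b3 := d.b3
      linear_combination b1 - b3 - ht13
    rcases mul_eq_zero.1 e1 with e | e
    · exact e
    · linarith
  have hg := d.groupU1 hS h h'.ne d.s1
  have n3 : ¬ d.s3 = d.s1 := fun e => h1 e.symm
  have n12 : ¬ d.m12 ^ 2 = d.s1 := fun e => h1 (e.symm.trans h12)
  have n13 : ¬ d.m13 ^ 2 = d.s1 := by
    intro e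
    rw [hm13] at e
    have e1 := d.s1_mul
    rw [← e] at e1
    have e2 : d.t1 ^ 2 = 0 := by rw [← e1]; ring
    apply h0
    rw [← ht13]
    exact pow_eq_zero_iff (two_ne_zero) |>.1 e2
  rw [ind_pos (rfl : d.s1 = d.s1), ind_neg n3, ind_neg n12, ind_neg n13] at hg
  by_cases e21 : d.s2 = d.s1
  · rw [ind_pos e21] at hg
    have e1 := d.u1_sq
    have e2 := d.p2_sq
    rw [← h, e21] at e2
    have e3 : d.p2 = -(2 * d.u1) := by linarith
    rw [e3] at e2
    have e4 : 0 < d.GU - d.s1 := by rw [← e21]; linarith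
    have e5 : (4 * d.r1 ^ 2 - d.r2 ^ 2) * (d.GU - d.s1) = 0 := by
      linear_combination e2 - 4 * e1
    rcases mul_eq_zero.1 e5 with e6 | e6
    · have := pow_pos r1p 2
      linarith
    · linarith
  · rw [ind_neg e21] at hg
    linarith

end Pool.Agent.Helper22.ST.Dat
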