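import Pool.Agent.Helper22.ST.B14Case4c

/-!
# ST-B15: `GU = G1 > G2`, base `A3` of the face `L2` (memo 4.4, (iv)), contradictions

`b = w3 - w1`, `b1 = w2 - w1`, `b2 = w3 - w2 = r2`, `t3 = 2 t2`, `t2 ≠ 0`, `s2 = m23²`, and `case4_iv_cls`.
`groupU1` at `s1` (`ρ1 = √(GU - s1) > 0`, `s1 ≠ s3`): `2 r1 = [s2 = s1] r2 ± [m13² = s1] b ± [m12² = s1] b1`,
and not both `s2 = s1` and `m12² = s1` (`faceL1`; `t2 ≠ 0`).
(1) `m13² = s3`, `m12² ≠ s3`, `r3 = b`: `t3² = (t3 - t1)²`: `t1 = 0` or `t1 = 2 t3 = 4 t2`.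
 `t1 = 0`: `s1 = 0`, but `s2 ≠ 0`, `m12 ≠ 0` (`m12 b1 = t2`), `m13² = s3 ≠ s1`: `2 r1 = 0`, no.
 `t1 = 4 t2`: `s2 = s1` gives `r1 = 4 r2` and `2 r1 = r2`, no; `m12² = s1` (`m12 b1 = -3 t2`) gives `9/b1² = 16/r1²`
 and `2 r1 = b1`, no; none: no.
(2) `m13² = m12² = s3`: `2 r1 = [s2 = s1] r2`: `s2 = s1`, `r2 = 2 r1`, `t2² = 4 t1²`.
 `t2 = 2 t1`, `t3 = 4 t1`: `9/b² = 1/b1²`: `b = 3 b1`, `b2 = 2 b1 = r2`, `r1 = b1`, `r2 = r1 + b1`, against `r2_lt1`.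
 `t2 = -2 t1`, `t3 = -4 t1`: `25/b² = 9/b1²`: `3 b = 5 b1`, `3 b2 = 2 b1`, `b2 = r2 = 2 r1`, `b1 = 3 r1 = r1 + r2`,
 against `tri12`.
(3) `m12² = s3`, `m13² ≠ s3`, `b1 = r3`: `4 t2² = (t2 - t1)²`: `t1 = -t2` or `t1 = 3 t2`.
 `groupU1` at `s2` (`ρ2 = √(GU - s2) > 0`; `s3 ≠ s2`, `m12² = s3 ≠ s2`): `r2 - [s1 = s2] 2 r1 ± [m13² = s2] b = 0`.
 `s1 ≠ s2`: `r2 = b`, but `r2 = b2 < b`, no.  `s1 = s2`, `t1 = -t2`: `r1 = r2`: `r2 = 2 r1` no, so `m13² = s2`,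
 `m13 b = t3 - t1 = 3 t2`: `b = 3 r2`, `-r2 ± 3 r2 = 0`, no.  `s1 = s2`, `t1 = 3 t2`: `r1 = 3 r2`: `r2 = 2 r1` no,
 `m13 b = -t2`: `b = r2`, no.
-/

open Real Set

namespace Pool.Agent.Helper22.ST.Dat

variable (d : Dat)

private theorem u0_or (d : Dat) {s ρ : ℝ} (hρ : ρ = √(d.GU - s)) (hn : 0 ≤ d.GU - s)
    (hm : d.m13 ^ 2 = s) : d.u0 = (d.w3 - d.w1) * ρ ∨ d.u0 = -((d.w3 - d.w1) * ρ) := by
  have hb : 0 < d.w3 - d.w1 := by linarith [d.w12, d.w23]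
  have := d.u0_sq
  rw [hm] at this
  rw [hρ]
  exact len_or this hb hn

private theorem p0_or (d : Dat) {s ρ : ℝ} (h : d.GU = d.G1) (hρ : ρ = √(d.GU - s))
    (hn : 0 ≤ d.GU - s) (hm : d.m12 ^ 2 = s) :
    d.p0 = (d.w2 - d.w1) * ρ ∨ d.p0 = -((d.w2 - d.w1) * ρ) := by
  have hb : 0 < d.w2 - d.w1 := by linarith [d.w12]
  have := d.p0_sq
  rw [hm, ← h] at this
  rw [hρ]
  exact len_or this hb hn

private theorem grp1 (d : Dat) (hS : d.St) (h : d.GU = d.G1) (h' : d.G2 < d.GU)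
    (hne : d.s1 ≠ d.s3) : ∃ α e f : ℝ, -(2 * d.r1) + α + e + f = 0 ∧
      ((d.s2 = d.s1 ∧ α = d.r2) ∨ (d.s2 ≠ d.s1 ∧ α = 0)) ∧
      ((d.m13 ^ 2 = d.s1 ∧ (e = d.w3 - d.w1 ∨ e = -(d.w3 - d.w1))) ∨
        (d.m13 ^ 2 ≠ d.s1 ∧ e = 0)) ∧
      ((d.m12 ^ 2 = d.s1 ∧ (f = d.w2 - d.w1 ∨ f = -(d.w2 - d.w1))) ∨
        (d.m12 ^ 2 ≠ d.s1 ∧ f = 0)) := by
  have hu : d.u1 < 0 := d.u1_neg h.symm.le
  have hp : 0 < d.p2 := d.p2_pos (by rw [← h]; exact h'.le)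
  have hsq := d.u1_sq
  have hpos : 0 < d.GU - d.s1 := by
    have h1 : 0 < d.r1 ^ 2 * (d.GU - d.s1) := by
      rw [← hsq]; nlinarith
    exact (mul_pos_iff_of_pos_left (pow_pos d.r1p 2)).1 h1
  obtain ⟨ρ, hρ⟩ : ∃ ρ, ρ = √(d.GU - d.s1) := ⟨_, rfl⟩
  have hρ0 : 0 < ρ := by rw [hρ]; exact Real.sqrt_pos.2 hpos
  have hu1 : d.u1 = -(d.r1 * ρ) := by
    rcases len_or hsq d.r1p hpos.le with h1 | h1
    · exfalso
      rw [← hρ] at h1
      have := mul_pos d.r1p hρ0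
      linarith
    · rw [← hρ] at h1
      exact h1
  have rel := groupU1 d hS h h'.ne d.s1
  rw [ind_pos rfl, ind_neg (fun hh => hne hh.symm)] at rel
  -- the term of `p2`
  obtain ⟨α, hα, hα'⟩ : ∃ α, ind (d.s2 = d.s1) d.p2 = α * ρ ∧
      ((d.s2 = d.s1 ∧ α = d.r2) ∨ (d.s2 ≠ d.s1 ∧ α = 0)) := by
    by_cases hc : d.s2 = d.s1
    · refine ⟨d.r2, ?_, Or.inl ⟨hc, rfl⟩⟩
      rw [ind_pos hc]
      have h2 := d.p2_sq
      rw [hc, ← h] at h2
      rcases len_or h2 d.r2p hpos.le with h1 | h1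
      · rw [h1, hρ]
      · exfalso
        rw [← hρ] at h1
        have := mul_pos d.r2p hρ0
        linarith
    · exact ⟨0, by rw [ind_neg hc, zero_mul], Or.inr ⟨hc, rfl⟩⟩
  obtain ⟨e, he, he'⟩ : ∃ e, ind (d.m13 ^ 2 = d.s1) d.u0 = e * ρ ∧
      ((d.m13 ^ 2 = d.s1 ∧ (e = d.w3 - d.w1 ∨ e = -(d.w3 - d.w1))) ∨
        (d.m13 ^ 2 ≠ d.s1 ∧ e = 0)) := by
    by_cases hc : d.m13 ^ 2 = d.s1
    · rcases u0_or d hρ hpos.le hc with h1 | h1
      · exact ⟨d.w3 - d.w1, by rw [ind_pos hc, h1], Or.inl ⟨hc, Or.inl rfl⟩⟩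
      · exact ⟨-(d.w3 - d.w1), by rw [ind_pos hc, h1, neg_mul], Or.inl ⟨hc, Or.inr rfl⟩⟩
    · exact ⟨0, by rw [ind_neg hc, zero_mul], Or.inr ⟨hc, rfl⟩⟩
  obtain ⟨f, hf, hf'⟩ : ∃ f, ind (d.m12 ^ 2 = d.s1) d.p0 = f * ρ ∧
      ((d.m12 ^ 2 = d.s1 ∧ (f = d.w2 - d.w1 ∨ f = -(d.w2 - d.w1))) ∨
        (d.m12 ^ 2 ≠ d.s1 ∧ f = 0)) := by
    by_cases hc : d.m12 ^ 2 = d.s1
    · rcases p0_or d h hρ hpos.le hc with h1 | h1
      · exact ⟨d.w2 - d.w1, by rw [ind_pos hc, h1], Or.inl ⟨hc, Or.inl rfl⟩⟩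
      · exact ⟨-(d.w2 - d.w1), by rw [ind_pos hc, h1, neg_mul], Or.inl ⟨hc, Or.inr rfl⟩⟩
    · exact ⟨0, by rw [ind_neg hc, zero_mul], Or.inr ⟨hc, rfl⟩⟩
  refine ⟨α, e, f, ?_, hα', he', hf'⟩
  rw [hα, he, hf, hu1] at rel
  have : ρ * (-(2 * d.r1) + α + e + f) = 0 := by linear_combination rel
  rcases mul_eq_zero.1 this with h1 | h1
  · exact absurd h1 hρ0.ne'
  · exact h1

private theorem grp2 (d : Dat) (hS : d.St) (h : d.GU = d.G1) (h' : d.G2 < d.GU)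
    (hne : d.s2 ≠ d.s3) : ∃ α e f : ℝ, α + d.r2 + e + f = 0 ∧
      ((d.s1 = d.s2 ∧ α = -(2 * d.r1)) ∨ (d.s1 ≠ d.s2 ∧ α = 0)) ∧
      ((d.m13 ^ 2 = d.s2 ∧ (e = d.w3 - d.w1 ∨ e = -(d.w3 - d.w1))) ∨
        (d.m13 ^ 2 ≠ d.s2 ∧ e = 0)) ∧
      ((d.m12 ^ 2 = d.s2 ∧ (f = d.w2 - d.w1 ∨ f = -(d.w2 - d.w1))) ∨
        (d.m12 ^ 2 ≠ d.s2 ∧ f = 0)) := by
  have hu : d.u1 < 0 := d.u1_neg h.symm.le
  have hp : 0 < d.p2 := d.p2_pos (by rw [← h]; exact h'.le)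
  have hsq := d.p2_sq
  rw [← h] at hsq
  have hpos : 0 < d.GU - d.s2 := by
    have h1 : 0 < d.r2 ^ 2 * (d.GU - d.s2) := by
      rw [← hsq]; exact pow_pos hp 2
    exact (mul_pos_iff_of_pos_left (pow_pos d.r2p 2)).1 h1
  obtain ⟨ρ, hρ⟩ : ∃ ρ, ρ = √(d.GU - d.s2) := ⟨_, rfl⟩
  have hρ0 : 0 < ρ := by rw [hρ]; exact Real.sqrt_pos.2 hpos
  have hp2 : d.p2 = d.r2 * ρ := by
    rcases len_or hsq d.r2p hpos.le with h1 | h1
    · rw [← hρ] at h1
      exact h1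
    · exfalso
      rw [← hρ] at h1
      have := mul_pos d.r2p hρ0
      linarith
  have rel := groupU1 d hS h h'.ne d.s2
  rw [ind_pos (p := d.s2 = d.s2) rfl, ind_neg (p := d.s3 = d.s2) (fun hh => hne hh.symm)] at rel
  obtain ⟨α, hα, hα'⟩ : ∃ α, ind (d.s1 = d.s2) (2 * d.u1) = α * ρ ∧
      ((d.s1 = d.s2 ∧ α = -(2 * d.r1)) ∨ (d.s1 ≠ d.s2 ∧ α = 0)) := by
    by_cases hc : d.s1 = d.s2
    · refine ⟨-(2 * d.r1), ?_, Or.inl ⟨hc, rfl⟩⟩
      rw [ind_pos hc]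
      have h2 := d.u1_sq
      rw [hc] at h2
      rcases len_or h2 d.r1p hpos.le with h1 | h1
      · exfalso
        rw [← hρ] at h1
        have := mul_pos d.r1p hρ0
        linarith
      · rw [h1, hρ]
        ring
    · exact ⟨0, by rw [ind_neg hc, zero_mul], Or.inr ⟨hc, rfl⟩⟩
  obtain ⟨e, he, he'⟩ : ∃ e, ind (d.m13 ^ 2 = d.s2) d.u0 = e * ρ ∧
      ((d.m13 ^ 2 = d.s2 ∧ (e = d.w3 - d.w1 ∨ e = -(d.w3 - d.w1))) ∨
        (d.m13 ^ 2 ≠ d.s2 ∧ e = 0)) := by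
    by_cases hc : d.m13 ^ 2 = d.s2
    · rcases u0_or d hρ hpos.le hc with h1 | h1
      · exact ⟨d.w3 - d.w1, by rw [ind_pos hc, h1], Or.inl ⟨hc, Or.inl rfl⟩⟩
      · exact ⟨-(d.w3 - d.w1), by rw [ind_pos hc, h1, neg_mul], Or.inl ⟨hc, Or.inr rfl⟩⟩
    · exact ⟨0, by rw [ind_neg hc, zero_mul], Or.inr ⟨hc, rfl⟩⟩
  obtain ⟨f, hf, hf'⟩ : ∃ f, ind (d.m12 ^ 2 = d.s2) d.p0 = f * ρ ∧
      ((d.m12 ^ 2 = d.s2 ∧ (f = d.w2 - d.w1 ∨ f = -(d.w2 - d.w1))) ∨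
        (d.m12 ^ 2 ≠ d.s2 ∧ f = 0)) := by
    by_cases hc : d.m12 ^ 2 = d.s2
    · rcases p0_or d h hρ hpos.le hc with h1 | h1
      · exact ⟨d.w2 - d.w1, by rw [ind_pos hc, h1], Or.inl ⟨hc, Or.inl rfl⟩⟩
      · exact ⟨-(d.w2 - d.w1), by rw [ind_pos hc, h1, neg_mul], Or.inl ⟨hc, Or.inr rfl⟩⟩
    · exact ⟨0, by rw [ind_neg hc, zero_mul], Or.inr ⟨hc, rfl⟩⟩
  refine ⟨α, e, f, ?_, hα', he', hf'⟩
  rw [hα, he, hf, hp2] at rel
  have : ρ * (α + d.r2 + e + f) = 0 := by linear_combination rel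
  rcases mul_eq_zero.1 this with h1 | h1
  · exact absurd h1 hρ0.ne'
  · exact h1

private theorem eqSq4 {a b : ℝ} (ha : 0 < a) (hb : 0 < b) (h : a ^ 2 = b ^ 2) : a = b := by
  exact (sq_eq_sq₀ ha.le hb.le).1 h

theorem case4_iv (hS : d.St) (h : d.GU = d.G1) (h' : d.G2 < d.GU) (hq : d.q3 = 0)
    (hr : d.r2 = d.w3 - d.w2) (ht : d.t3 = 2 * d.t2) (h0 : d.t2 ≠ 0) (hs : d.s2 = d.m23 ^ 2) :
    False := by
  obtain ⟨hne, hne2, hcls⟩ := d.case4_iv_cls hS h h' hq hr ht h0 hs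
  have hr1 := d.r1p
  have hr2 := d.r2p
  have hr3 := d.r3p
  have hb1 : 0 < d.w2 - d.w1 := by linarith [d.w12]
  have hb2 : 0 < d.w3 - d.w2 := by linarith [d.w23]
  have hb : 0 < d.w3 - d.w1 := by linarith
  have e12 : d.m12 * (d.w2 - d.w1) = d.t2 - d.t1 := by rw [d.a1, d.a2]; ring
  have e13 : d.m13 * (d.w3 - d.w1) = d.t3 - d.t1 := by rw [d.b1, d.b3]; ring
  have h1m := d.s1_mul
  have h2m := d.s2_mul
  have h3m := d.s3_mul
  have t2sq : 0 < d.t2 ^ 2 := by positivity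
  have s2pos : 0 < d.s2 := by
    have : 0 < d.s2 * d.r2 ^ 2 := by rw [h2m]; exact t2sq
    exact (mul_pos_iff_of_pos_right (pow_pos hr2 2)).1 this
  have notboth : ¬ (d.s2 = d.s1 ∧ d.m12 ^ 2 = d.s1) := by
    rintro ⟨ha, hb'⟩
    exact h0 (d.faceL1 ha.symm hb'.symm).2
  rcases hcls with ⟨hm13, hm12, hr3b⟩ | ⟨hm13, hm12⟩ | ⟨hm13, hm12, hr3b⟩
  · -- case (1)
    obtain ⟨α, e, f, hsum, hα, he, hf⟩ := grp1 d hS h h' hne
    have he0 : e = 0 := by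
      rcases he with ⟨hc, _⟩ | ⟨_, hc⟩
      · exact absurd (hc.symm.trans hm13) hne
      · exact hc
    have hsq : d.t3 ^ 2 = (d.t3 - d.t1) ^ 2 := by
      rw [← h3m, ← e13, ← hm13, hr3b]; ring
    have ht1 : d.t1 = 0 ∨ d.t1 = 4 * d.t2 := by
      have : d.t1 * (d.t1 - 4 * d.t2) = 0 := by
        have h3 := ht
        rw [h3] at hsq
        linear_combination -hsq
      rcases mul_eq_zero.1 this with h1 | h1
      · exact Or.inl h1
      · exact Or.inr (by linarith)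
    rcases ht1 with ht1 | ht1
    · have hs1 : d.s1 = 0 := by
        have : d.s1 * d.r1 ^ 2 = 0 := by rw [h1m, ht1]; ring
        rcases mul_eq_zero.1 this with h1 | h1
        · exact h1
        · exact absurd h1 (pow_pos hr1 2).ne'
      have hα0 : α = 0 := by
        rcases hα with ⟨hc, _⟩ | ⟨_, hc⟩
        · rw [hs1] at hc
          exact absurd hc s2pos.ne'
        · exact hc
      have hf0 : f = 0 := by
        rcases hf with ⟨hc, _⟩ | ⟨_, hc⟩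
        · exfalso
          rw [hs1] at hc
          have hm0 : d.m12 = 0 := by
            exact pow_eq_zero_iff (two_ne_zero) |>.1 hc
          rw [hm0, ht1] at e12
          exact h0 (by linarith)
        · exact hc
      rw [hα0, he0, hf0] at hsum
      linarith
    · rcases hα with ⟨hc, hα⟩ | ⟨hc, hα⟩
      · have hf0 : f = 0 := by
          rcases hf with ⟨hc', _⟩ | ⟨_, hc'⟩
          · exact absurd ⟨hc, hc'⟩ notboth
          · exact hc'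
        rw [hα, he0, hf0] at hsum
        have h16 : d.r1 ^ 2 = (4 * d.r2) ^ 2 := by
          have h4 : d.s2 * d.r1 ^ 2 = d.s2 * (4 * d.r2) ^ 2 := by
            rw [hc, h1m, ht1]
            rw [hc] at h2m
            linear_combination -16 * h2m
          exact mul_left_cancel₀ s2pos.ne' h4
        have := eqSq4 hr1 (by linarith) h16
        linarith
      · rcases hf with ⟨hc', hf⟩ | ⟨hc', hf⟩
        · have h2r : 2 * d.r1 = d.w2 - d.w1 := by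
            rcases hf with hf | hf
            · rw [hα, he0, hf] at hsum; linarith
            · rw [hα, he0, hf] at hsum; linarith
          have k1 : d.m12 ^ 2 * (d.w2 - d.w1) ^ 2 = 9 * d.t2 ^ 2 := by
            have : d.m12 ^ 2 * (d.w2 - d.w1) ^ 2 = (d.m12 * (d.w2 - d.w1)) ^ 2 := by ring
            rw [this, e12, ht1]; ring
          rw [hc', ← h2r] at k1
          rw [ht1] at h1m
          nlinarith
        · rw [hα, he0, hf] at hsum
          linarith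
  · -- case (2)
    obtain ⟨α, e, f, hsum, hα, he, hf⟩ := grp1 d hS h h' hne
    have he0 : e = 0 := by
      rcases he with ⟨hc, _⟩ | ⟨_, hc⟩
      · exact absurd (hc.symm.trans hm13) hne
      · exact hc
    have hf0 : f = 0 := by
      rcases hf with ⟨hc, _⟩ | ⟨_, hc⟩
      · exact absurd (hc.symm.trans hm12) hne
      · exact hc
    rcases hα with ⟨hc, hα⟩ | ⟨hc, hα⟩
    · rw [hα, he0, hf0] at hsum
      have hr21 : d.r2 = 2 * d.r1 := by linarith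
      have ht21 : d.t2 ^ 2 = (2 * d.t1) ^ 2 := by
        rw [← h2m, hc, hr21]
        linear_combination 4 * h1m
      have hmm : (d.t3 - d.t1) ^ 2 * (d.w2 - d.w1) ^ 2 =
          (d.t2 - d.t1) ^ 2 * (d.w3 - d.w1) ^ 2 := by
        rw [← e12, ← e13]
        linear_combination (d.w2 - d.w1) ^ 2 * (d.w3 - d.w1) ^ 2 * (hm13.trans hm12.symm)
      rcases sq_eq_sq_iff_eq_or_eq_neg.1 ht21 with h2 | h2
      · have ht1 : d.t1 ≠ 0 := by
          intro h1; rw [h1] at h2; exact h0 (by linarith)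
        have : (d.w3 - d.w1) ^ 2 = (3 * (d.w2 - d.w1)) ^ 2 := by
          have h3 : d.t1 ^ 2 * (d.w3 - d.w1) ^ 2 = d.t1 ^ 2 * (3 * (d.w2 - d.w1)) ^ 2 := by
            rw [ht, h2] at hmm
            linear_combination -hmm
          exact mul_left_cancel₀ (pow_ne_zero 2 ht1) h3
        have h3 := eqSq4 hb (by linarith) this
        have := d.r2_lt1
        linarith
      · have ht1 : d.t1 ≠ 0 := by
          intro h1; rw [h1] at h2; exact h0 (by linarith)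
        have : (3 * (d.w3 - d.w1)) ^ 2 = (5 * (d.w2 - d.w1)) ^ 2 := by
          have h3 : d.t1 ^ 2 * (3 * (d.w3 - d.w1)) ^ 2 = d.t1 ^ 2 * (5 * (d.w2 - d.w1)) ^ 2 := by
            rw [ht, h2] at hmm
            linear_combination -hmm
          exact mul_left_cancel₀ (pow_ne_zero 2 ht1) h3
        have h3 := eqSq4 (by linarith) (by linarith) this
        have := d.tri12
        linarith
    · rw [hα, he0, hf0] at hsum
      linarith
  · -- case (3)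
    obtain ⟨α, e, f, hsum, hα, he, hf⟩ := grp2 d hS h h' hne2
    have hf0 : f = 0 := by
      rcases hf with ⟨hc, _⟩ | ⟨_, hc⟩
      · exact absurd (hc.symm.trans hm12) hne2
      · exact hc
    have hsq : d.t3 ^ 2 = (d.t2 - d.t1) ^ 2 := by
      rw [← h3m, ← e12, ← hm12, ← hr3b]; ring
    rw [ht] at hsq
    rcases sq_eq_sq_iff_eq_or_eq_neg.1 hsq with h2 | h2
    · have ht1 : d.t1 = -d.t2 := by linarith
      rcases hα with ⟨hc, hα⟩ | ⟨hc, hα⟩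
      · have hrr : d.r1 = d.r2 := by
          apply eqSq4 hr1 hr2
          have h4 : d.s2 * d.r1 ^ 2 = d.s2 * d.r2 ^ 2 := by
            rw [h2m]
            rw [hc] at h1m
            rw [h1m, ht1]; ring
          exact mul_left_cancel₀ s2pos.ne' h4
        rcases he with ⟨hc', he⟩ | ⟨hc', he⟩
        · have hb3 : d.w3 - d.w1 = 3 * d.r2 := by
            apply eqSq4 hb (by linarith)
            have h4 : d.s2 * (d.w3 - d.w1) ^ 2 = d.s2 * (3 * d.r2) ^ 2 := by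
              have k1 : d.s2 * (d.w3 - d.w1) ^ 2 = (d.t3 - d.t1) ^ 2 := by
                rw [← hc', ← e13]; ring
              rw [k1, ht, ht1]
              linear_combination -9 * h2m
            exact mul_left_cancel₀ s2pos.ne' h4
          rcases he with he | he
          · rw [hα, he, hf0] at hsum; linarith
          · rw [hα, he, hf0] at hsum; linarith
        · rw [hα, he, hf0] at hsum
          linarith
      · rcases he with ⟨hc', he⟩ | ⟨hc', he⟩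
        · rcases he with he | he
          · rw [hα, he, hf0] at hsum; linarith
          · rw [hα, he, hf0] at hsum; linarith
        · rw [hα, he, hf0] at hsum
          linarith
    · have ht1 : d.t1 = 3 * d.t2 := by linarith
      rcases hα with ⟨hc, hα⟩ | ⟨hc, hα⟩
      · have hrr : d.r1 = 3 * d.r2 := by
          apply eqSq4 hr1 (by linarith)
          have h4 : d.s2 * d.r1 ^ 2 = d.s2 * (3 * d.r2) ^ 2 := by
            rw [hc] at h1m
            rw [h1m, ht1]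
            linear_combination -9 * h2m
          exact mul_left_cancel₀ s2pos.ne' h4
        rcases he with ⟨hc', he⟩ | ⟨hc', he⟩
        · have hb3 : d.w3 - d.w1 = d.r2 := by
            apply eqSq4 hb hr2
            have h4 : d.s2 * (d.w3 - d.w1) ^ 2 = d.s2 * d.r2 ^ 2 := by
              have k1 : d.s2 * (d.w3 - d.w1) ^ 2 = (d.t3 - d.t1) ^ 2 := by
                rw [← hc', ← e13]; ring
              rw [k1, ht, ht1, h2m]
              ring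
            exact mul_left_cancel₀ s2pos.ne' h4
          linarith
        · rw [hα, he, hf0] at hsum
          linarith
      · rcases he with ⟨hc', he⟩ | ⟨hc', he⟩
        · rcases he with he | he
          · rw [hα, he, hf0] at hsum; linarith
          · rw [hα, he, hf0] at hsum; linarith
        · rw [hα, he, hf0] at hsum
          linarith

end Pool.Agent.Helper22.ST.Dat
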