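import Pool.Agent.Helper22.ST.B03Mirror
import Pool.Agent.Helper22.ST.B11Case3
import Pool.Agent.Helper22.ST.B12Case4a
import Pool.Agent.Helper22.ST.B13Case4b
import Pool.Agent.Helper22.ST.B15Case4d

/-!
# ST-B16: exactly two of the gradients agree, one of them `GU` (memo 4.3-4.5)

`caseU1`: `G2 > GU`: `case3`; `G2 < GU`: `aloneL2` and `case4_i .. case4_iv`.
`caseU2`: `caseU1` for `d.mirror`.
-/

open Real Set

namespace Pool.Agent.Helper22.ST.Dat

variable (d : Dat)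

theorem caseU1 (hS : d.St) (h : d.GU = d.G1) (h' : d.G2 ≠ d.GU) : False := by
  rcases lt_or_gt_of_ne h' with hlt | hgt
  · rcases d.aloneL2 hS h' (fun e => h' (e.trans h.symm)) with
      ⟨h2, h3⟩ | ⟨-, hw, ht, h0⟩ | ⟨hq, hr, ht, h0, hs⟩ | ⟨hq, hr, ht, h0, hs⟩
    · exact d.case4_i hS h hlt h2 h3
    · exact d.case4_ii hS h hlt hw ht h0
    · exact d.case4_iii hS h hlt hq hr ht h0 hs
    · exact d.case4_iv hS h hlt hq hr ht h0 hs
  · exact d.case3 hS h hgt

theorem caseU2 (hS : d.St) (h : d.GU = d.G2) (h' : d.G1 ≠ d.GU) : False := by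
  refine d.mirror.caseU1 (d.mirror_St hS) ?_ ?_
  · rw [d.mirror_GU, d.mirror_G1]
    exact h
  · rw [d.mirror_GU, d.mirror_G2]
    exact h'

end Pool.Agent.Helper22.ST.Dat
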