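import Pool.Agent.Helper22.ST.B20Lens

/-!
# ST-B21: three equal gradients, (A) and (B) of memo 4.6

`case6_A`: suppose `s1 = s3`.  `m13² ≠ s1` (`faceU` and `t13_6`).  First relation of `lens`.
If `s2 = s1`: `m12² ≠ s1` (`faceL1`, `t12_6`), `m23² ≠ s1` (`faceL2` with `s2 = s3`, `t23_6`), so
`2 r1 = 2 r2 - 2 r3`, against `r2_lt`.  If `s2 ≠ s1`: `2 r1 ≤ -2 r3 + (w2 - w1) + (w3 - w2)`, against `tri13`.
`case6_B`: suppose `s2 ≠ s1`, `s2 ≠ s3` (and `s1 ≠ s3`).  Each of `m13², m12², m23²` is in at most one of the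
classes `s1`, `s3`; adding the two relations of `lens`:
`2 r1 + 2 r3 ≤ (w3 - w1) + (w2 - w1) + (w3 - w2) = 2 (w3 - w1)`, against `tri13`.
(Cases: `by_cases` for the six conditions, `ind_pos/ind_neg`, `nlinarith/linarith` after `rcases` of the signs.)
-/

open Real Set

namespace Pool.Agent.Helper22.ST.Dat

variable (d : Dat)

private theorem ind_le {p : Prop} {e a : ℝ} (he : e = 1 ∨ e = -1) (ha : 0 < a) :
    ind p (e * a) ≤ a := by
  by_cases hp : p
  · rw [ind_pos hp]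
    rcases he with h | h <;> rw [h] <;> linarith
  · rw [ind_neg hp]
    exact ha.le

private theorem ind_le2 {p q : Prop} {e a : ℝ} (he : e = 1 ∨ e = -1) (ha : 0 < a)
    (hpq : ¬ (p ∧ q)) : ind p (e * a) + ind q (e * a) ≤ a := by
  by_cases hp : p
  · rw [ind_neg (p := q) (fun hq => hpq ⟨hp, hq⟩), add_zero]
    exact ind_le he ha
  · rw [ind_neg hp, zero_add]
    exact ind_le he ha

theorem case6_A (hS : d.St) (h : d.GU = d.G1) (h' : d.G1 = d.G2) : d.s1 ≠ d.s3 := by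
  intro hs
  obtain ⟨e13, e12, e23, he13, he12, he23, -, -, -, h1, -⟩ := d.lens hS h h'
  have h13 : ¬ (d.m13 ^ 2 = d.s1) := fun h0 => d.t13_6 h h' (d.faceU hs h0.symm)
  rw [ind_pos hs.symm, ind_neg h13] at h1
  by_cases hs2 : d.s2 = d.s1
  · have h12 : ¬ (d.m12 ^ 2 = d.s1) := fun h0 => d.t12_6 h h' (d.faceL1 hs2.symm h0.symm)
    have h23 : ¬ (d.m23 ^ 2 = d.s1) := fun h0 =>
      d.t23_6 h h' (d.faceL2 (hs2.trans hs) (hs2.trans h0.symm))
    rw [ind_pos hs2, ind_neg h12, ind_neg h23] at h1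
    have e1 := d.r1p
    have e3 := d.r3p
    rcases d.r2_lt with h2 | h2 <;> linarith
  · rw [ind_neg hs2] at h1
    have k1 := ind_le (p := d.m12 ^ 2 = d.s1) he12 (sub_pos.2 d.w12)
    have k2 := ind_le (p := d.m23 ^ 2 = d.s1) he23 (sub_pos.2 d.w23)
    have k3 := d.tri13
    have e1 := d.r1p
    have e3 := d.r3p
    linarith

theorem case6_B (hS : d.St) (h : d.GU = d.G1) (h' : d.G1 = d.G2) : d.s2 = d.s1 ∨ d.s2 = d.s3 := by
  by_contra hcon
  push Not at hcon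
  obtain ⟨ha, hb⟩ := hcon
  have hc := d.case6_A hS h h'
  obtain ⟨e13, e12, e23, he13, he12, he23, -, -, -, h1, h3⟩ := d.lens hS h h'
  rw [ind_neg ha, ind_neg hc.symm] at h1
  rw [ind_neg hb, ind_neg hc] at h3
  have k1 := ind_le2 (p := d.m13 ^ 2 = d.s1) (q := d.m13 ^ 2 = d.s3) he13
    (sub_pos.2 (d.w12.trans d.w23)) (fun h0 => hc (h0.1.symm.trans h0.2))
  have k2 := ind_le2 (p := d.m12 ^ 2 = d.s1) (q := d.m12 ^ 2 = d.s3) he12
    (sub_pos.2 d.w12) (fun h0 => hc (h0.1.symm.trans h0.2))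
  have k3 := ind_le2 (p := d.m23 ^ 2 = d.s1) (q := d.m23 ^ 2 = d.s3) he23
    (sub_pos.2 d.w23) (fun h0 => hc (h0.1.symm.trans h0.2))
  have k4 := d.tri13
  linarith

end Pool.Agent.Helper22.ST.Dat
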