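import Pool.Agent.Helper22.ST.B22Sit

/-!
# ST-B23: the cases C1, C3, C4, C5 of memo 4.6

`b = w3 - w1`, `b1 = w2 - w1`, `b2 = w3 - w2`.  `Sit` gives the relations `R1`, `R3`.
`eq12`: if `m13² ≠ s1` and `m23² ≠ s1` then `R1` says `r1 = r2`.
`C1` (`s3`: only 13): `R3`: `2 r3 = e13 b`, so `b = 2 r3`.  If `m23² ≠ s1` then `r1 = r2` (`m13² = s3 ≠ s1`).
 If `m23² = s1`: `m12²` differs from `s3`, `m13² = s3`, `m23² = s1`, so `y12 = 0` (`y12s`) and `y12_L` gives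
 `r1 = r2` (the other alternative is against `t12`).  In both cases `r1_eq_r2` says `b < 2 r3`, no.
`C3` (`s3`: only 23): `R3`: `b2 = 2 r3`.  If `m13² ≠ s1` then `r1 = r2`; if `m13² = s1` then again
 `y12 = 0` and `r1 = r2`.  `r1_eq_r2` says `b2 < r3`, no.
`C4` (`s3`: 13 and 12): `m12² = m13²`, `m12 < m13`: `m12 = -m13`, `m13 > 0`; `y12² = y13²` (`GU1`).
 `y12 = -y13`: `t1 = m12 w1 + y12 = -(m13 w1 + y13) = -t1`, so `t1 = 0`, `s1 = 0 = s2`, `t2 = 0`, against `t12`.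
 `y12 = y13`: `2 m13 w1 = y12 - y13 = 0`, `w1 = 0`, so `0 < w2 < w3 < r3`, `R3` (`m23² ≠ s3` by `m_sq`):
 `2 r3 ≤ b + b1 = w3 + w2 < 2 r3`, no.
`C5` (`s3`: 13 and 23): `m13 = -m23` (`m13 < m23`), `y13² = y23²`.  `y13 = -y23`: `t3 = -t3 = 0`, `s3 = 0 = m13² = m23²`,
 no.  `y13 = y23`: `w3 = 0`; `R1` (`m13² = s3 ≠ s1`, `m23² = s3 ≠ s1`): `r1 = r2`, `r1_eq_r2`: `0 < w2 < w3 = 0`, no.
-/

open Real Set

namespace Pool.Agent.Helper22.ST

variable {d : Dat} {e13 e12 e23 : ℝ}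

/-- a sign times a nonnegative number is at most the number -/
private theorem sgn_le {e a : ℝ} (he : e = 1 ∨ e = -1) (ha : 0 ≤ a) : e * a ≤ a := by
  rcases he with h | h <;> rw [h] <;> linarith

theorem Sit.eq12 (c : Sit d e13 e12 e23) (h1 : d.m13 ^ 2 ≠ d.s1) (h2 : d.m23 ^ 2 ≠ d.s1) :
    d.r1 = d.r2 := by
  have h := c.R1
  rw [ind_neg h1, ind_neg h2] at h
  linarith

/-- `y12 = 0` gives `r1 = r2` -/
private theorem Sit.eq12' (c : Sit d e13 e12 e23) (h : d.y12 = 0) : d.r1 = d.r2 :=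
  (d.y12_L h c.s12).resolve_right c.t12

theorem Sit.C1 (c : Sit d e13 e12 e23) (h1 : d.m13 ^ 2 = d.s3) (h2 : d.m12 ^ 2 ≠ d.s3)
    (h3 : d.m23 ^ 2 ≠ d.s3) : False := by
  have hR := c.R3
  rw [ind_pos h1, ind_neg h2, ind_neg h3] at hR
  have hb : 0 < d.w3 - d.w1 := sub_pos.2 (d.w12.trans d.w23)
  have hle := sgn_le c.e13q hb.le
  have hr : d.r1 = d.r2 := by
    by_cases h4 : d.m23 ^ 2 = d.s1
    · refine c.eq12' (c.y12s h2 (fun h5 => h2 (h5.trans h1)) (fun h5 => c.n12 (h5.trans h4)))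
    · exact c.eq12 (fun h5 => c.s13 (h5.symm.trans h1)) h4
  have h6 := (d.r1_eq_r2 hr).2.2.2.2.2
  linarith

theorem Sit.C3 (c : Sit d e13 e12 e23) (h1 : d.m13 ^ 2 ≠ d.s3) (h2 : d.m12 ^ 2 ≠ d.s3)
    (h3 : d.m23 ^ 2 = d.s3) : False := by
  have hR := c.R3
  rw [ind_neg h1, ind_neg h2, ind_pos h3] at hR
  have hb : 0 < d.w3 - d.w2 := sub_pos.2 d.w23
  have hle := sgn_le c.e23q hb.le
  have hr : d.r1 = d.r2 := by
    by_cases h4 : d.m13 ^ 2 = d.s1
    · refine c.eq12' (c.y12s h2 (fun h5 => c.n12 (h5.trans h4)) (fun h5 => h2 (h5.trans h3)))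
    · exact c.eq12 h4 (fun h5 => c.s13 (h5.symm.trans h3))
  have h6 := (d.r1_eq_r2 hr).2.2.2.2.1
  have h7 := d.r3p
  linarith

theorem Sit.C4 (c : Sit d e13 e12 e23) (h1 : d.m13 ^ 2 = d.s3) (h2 : d.m12 ^ 2 = d.s3) : False := by
  have hlt := d.m12_lt
  have hm : d.m12 = -d.m13 := by
    rcases sq_eq_sq_iff_eq_or_eq_neg.1 (h2.trans h1.symm) with h | h
    · exact absurd h hlt.ne
    · exact h
  have hy : d.y12 ^ 2 = d.y13 ^ 2 := by
    have h := c.GU1
    simp only [Dat.GU, Dat.G1] at h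
    linarith [h2.trans h1.symm]
  rcases sq_eq_sq_iff_eq_or_eq_neg.1 hy with h | h
  · have hw : d.m13 * d.w1 = 0 := by
      have h4 := d.a1
      have h5 := d.b1
      rw [hm, h] at h4
      linarith
    have hw1 : d.w1 = 0 := by
      rcases mul_eq_zero.1 hw with h4 | h4
      · rw [h4] at hm
        rw [h4] at hlt
        linarith
      · exact h4
    have h23 : d.m23 ^ 2 ≠ d.s3 := fun h4 => d.m_sq ⟨h2.trans h1.symm, h1.trans h4.symm⟩
    have hR := c.R3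
    rw [ind_pos h1, ind_pos h2, ind_neg h23] at hR
    have h12 := d.w12
    have h23' := d.w23
    have e1 := sgn_le c.e13q (sub_nonneg.2 (d.w12.trans d.w23).le)
    have e2 := sgn_le c.e12q (sub_nonneg.2 d.w12.le)
    have h5 := (abs_lt.1 d.abs_w3).2
    linarith
  · have ht1 : d.t1 = 0 := by
      have h4 := d.a1
      have h5 := d.b1
      rw [hm, h] at h4
      linarith
    refine c.t12 ⟨ht1, ?_⟩
    have h6 := d.s1_mul
    have h7 := d.s2_mul
    rw [ht1] at h6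
    have h8 : d.s1 = 0 := by
      have h9 : d.s1 * d.r1 ^ 2 = 0 := by rw [h6]; ring
      exact (mul_eq_zero.1 h9).resolve_right (pow_ne_zero 2 d.r1p.ne')
    rw [← c.s12, h8, zero_mul] at h7
    exact pow_eq_zero_iff two_ne_zero |>.1 h7.symm

theorem Sit.C5 (c : Sit d e13 e12 e23) (h1 : d.m13 ^ 2 = d.s3) (h3 : d.m23 ^ 2 = d.s3) : False := by
  have hlt := d.m13_lt
  have hm : d.m13 = -d.m23 := by
    rcases sq_eq_sq_iff_eq_or_eq_neg.1 (h1.trans h3.symm) with h | h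
    · exact absurd h hlt.ne
    · exact h
  have hy : d.y13 ^ 2 = d.y23 ^ 2 := by
    have h := c.GU1.trans c.G12
    simp only [Dat.GU, Dat.G2] at h
    linarith [h1.trans h3.symm]
  rcases sq_eq_sq_iff_eq_or_eq_neg.1 hy with h | h
  · have hw : d.m23 * d.w3 = 0 := by
      have h4 := d.b3
      have h5 := d.c3
      rw [hm, h] at h4
      linarith
    have hw3 : d.w3 = 0 := by
      rcases mul_eq_zero.1 hw with h4 | h4
      · rw [h4] at hm
        rw [h4] at hlt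
        linarith
      · exact h4
    have hr : d.r1 = d.r2 :=
      c.eq12 (fun h5 => c.s13 (h5.symm.trans h1)) (fun h5 => c.s13 (h5.symm.trans h3))
    have h6 := (d.r1_eq_r2 hr).2.1
    have h7 := d.w23
    linarith
  · have ht3 : d.t3 = 0 := by
      have h4 := d.b3
      have h5 := d.c3
      rw [hm, h] at h4
      linarith
    have h6 := d.s3_mul
    rw [ht3] at h6
    have h8 : d.s3 = 0 := by
      have h9 : d.s3 * d.r3 ^ 2 = 0 := by rw [h6]; ring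
      exact (mul_eq_zero.1 h9).resolve_right (pow_ne_zero 2 d.r3p.ne')
    have h10 : d.m23 = 0 := pow_eq_zero_iff two_ne_zero |>.1 (h3.trans h8)
    rw [h10] at hm hlt
    linarith

end Pool.Agent.Helper22.ST
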