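import Pool.Agent.Helper22.ST.B22Sit

/-!
# ST-B24: the case C6 of memo 4.6

`s3`: 12 and 23, not 13.  `m12² = m23²`, `m12 < m23`: `m12 = -μ`, `m23 = μ > 0`; `y12² = y23²` (`G12`).
`y12 = -y23`: `t2 = m12 w2 + y12 = -(m23 w2 + y23) = -t2`, so `t2 = 0`, `s2 = 0 = s1`, `t1 = 0`, against `t12`.
`y12 = y23 =: th`: `2 μ w2 = y12 - y23 = 0`, so `w2 = 0`, `r2 = 1`, `t2 = th ≠ 0` (the same argument).
Signs: `-y12 = e12 |th|`, `-y23 = e23 |th|`: `e12 = e23`; `R3` (13 is not in the class): `2 r3 = e12 (w2 - w1) + e23 (w3 - w2)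
= e12 (w3 - w1)`: `e12 = 1`, `w3 - w1 = 2 r3`, `th = -|th| < 0`.
`R1`: `m23² = s3 ≠ s1`; `r1 > 1 = r2` (`w1 < 0`), so `m13² = s1` (otherwise `r1 = r2`).
`t1 = th - μ w1`, `t3 = th + μ w3`, `m13 (w3 - w1) = t3 - t1 = μ (w3 + w1)`.
`s2 = m13²`: `th² (w3 - w1)² = μ² (w3 + w1)²`; as `w1 < 0 < w3`, `(w3 + w1)² < (w3 - w1)²`, so `th² < μ²`.
`s3 = μ²`: `(th + μ w3)² = μ² r3²`: `th = μ (r3 - w3) > 0`, no (`th < 0`), or `th = -μ (r3 + w3)`, `r3 > 1`:
`th² > μ²`, no.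
-/

open Real Set

namespace Pool.Agent.Helper22.ST

variable {d : Dat} {e13 e12 e23 : ℝ}

theorem Sit.C6 (c : Sit d e13 e12 e23) (h1 : d.m13 ^ 2 ≠ d.s3) (h2 : d.m12 ^ 2 = d.s3)
    (h3 : d.m23 ^ 2 = d.s3) : False := by
  obtain ⟨-, G12, s12, s13, t12, -, -, e12q, e23q, -, y12e, y23e, R1, R3, -, -, -⟩ := c
  have hm := d.hm
  have hmm : d.m12 = -d.m23 := by
    rcases sq_eq_sq_iff_eq_or_eq_neg.1 (h2.trans h3.symm) with h | h
    · exact absurd h hm.ne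
    · exact h
  have hμ : 0 < d.m23 := by rw [hmm] at hm; linarith
  -- `t2 = 0` is impossible
  have ht2 : d.t2 ≠ 0 := by
    intro h
    apply t12
    have h4 := d.s1_mul
    rw [s12, Dat.s2, h, zero_div] at h4
    refine ⟨?_, h⟩
    have h5 : d.t1 ^ 2 = 0 := by rw [← h4]; ring
    simpa using h5
  have hy2 : d.y12 ^ 2 = d.y23 ^ 2 := by
    have h4 : d.m12 ^ 2 + d.y12 ^ 2 = d.m23 ^ 2 + d.y23 ^ 2 := G12
    rw [h2, h3] at h4
    linarith
  have ha2 := d.a2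
  have hc2 := d.c2
  rw [hmm] at ha2
  have hy : d.y12 = d.y23 := by
    rcases sq_eq_sq_iff_eq_or_eq_neg.1 hy2 with h | h
    · exact h
    · exfalso
      apply ht2
      rw [h] at ha2
      linarith
  have hw2 : d.w2 = 0 := by
    have h4 : d.m23 * d.w2 = 0 := by rw [hy] at ha2; linarith
    exact (mul_eq_zero.1 h4).resolve_left hμ.ne'
  have hth : d.t2 = d.y23 := by rw [hc2, hw2, mul_zero, zero_add]
  have hr2 : d.r2 = 1 := by
    have h4 := d.r2q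
    rw [hw2] at h4
    have h5 : d.r2 ^ 2 = 1 ^ 2 := by rw [h4]; ring
    exact (pow_left_inj₀ d.r2p.le zero_le_one two_ne_zero).1 h5
  have hth0 : d.y23 ≠ 0 := fun h => ht2 (hth.trans h)
  have habs : 0 < |d.y23| := abs_pos.2 hth0
  have hee : e12 = e23 := by
    rw [hy, y23e] at y12e
    exact (mul_right_cancel₀ habs.ne' y12e).symm
  have w1n : d.w1 < 0 := by have := d.w12; rwa [hw2] at this
  have w3p : 0 < d.w3 := by have := d.w23; rwa [hw2] at this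
  rw [ind_neg h1, ind_pos h2, ind_pos h3, hee, hw2] at R3
  have he : e23 = 1 := by
    rcases e23q with h | h
    · exact h
    · exfalso
      rw [h] at R3
      have := d.r3p
      linarith
  have hthn : d.y23 < 0 := by
    rw [he] at y23e
    linarith
  have hs23 : ¬ d.m23 ^ 2 = d.s1 := fun h => s13 (h.symm.trans h3)
  have hr1 : 1 < d.r1 := by
    have h4 := d.r1q
    have h5 : 0 < d.w1 ^ 2 := by
      rw [sq]
      exact mul_pos_of_neg_of_neg w1n w1n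
    have h6 : (1 : ℝ) ^ 2 < d.r1 ^ 2 := by rw [h4]; linarith
    exact lt_of_pow_lt_pow_left₀ 2 d.r1p.le h6
  have hm13 : d.m13 ^ 2 = d.s1 := by
    by_contra h
    rw [ind_neg h, ind_neg hs23, hr2] at R1
    linarith
  -- the slope of the edge A2
  have h5 : d.y23 ^ 2 = d.m13 ^ 2 := by
    rw [hm13, s12, Dat.s2, hr2, hth, div_one]
  have h6 : d.m13 * (d.w3 - d.w1) = d.m23 * (d.w3 + d.w1) := by
    have e1 := d.b3
    have e2 := d.b1
    have e3 := d.a1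
    have e4 := d.c3
    rw [hmm, hy] at e3
    linear_combination e2 - e1 + e4 - e3
  have h7 : d.y23 ^ 2 * (d.w3 - d.w1) ^ 2 = d.m23 ^ 2 * (d.w3 + d.w1) ^ 2 := by
    rw [h5, ← mul_pow, h6, mul_pow]
  have h8 : d.y23 ^ 2 < d.m23 ^ 2 := by
    have h9 : (d.w3 + d.w1) ^ 2 < (d.w3 - d.w1) ^ 2 := by nlinarith
    have h10 : 0 < d.m23 ^ 2 := by positivity
    have h11 : d.m23 ^ 2 * (d.w3 + d.w1) ^ 2 < d.m23 ^ 2 * (d.w3 - d.w1) ^ 2 :=
      mul_lt_mul_of_pos_left h9 h10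
    rw [← h7] at h11
    exact lt_of_mul_lt_mul_right h11 (sq_nonneg _)
  have h12 : (d.m23 * d.w3 + d.y23) ^ 2 = (d.m23 * d.r3) ^ 2 := by
    have h13 := d.s3_mul
    rw [← h3, d.c3] at h13
    rw [mul_pow, h13]
  have hr3 := d.r3p
  have hw3 := (abs_lt.1 d.abs_w3).2
  rcases sq_eq_sq_iff_eq_or_eq_neg.1 h12 with h | h
  · have : 0 < d.m23 * (d.r3 - d.w3) := mul_pos hμ (by linarith)
    linarith
  · have h13 : d.y23 = -(d.m23 * (d.r3 + d.w3)) := by linarith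
    have h14 : 1 ≤ d.r3 := by
      have h15 : (1 : ℝ) ^ 2 ≤ d.r3 ^ 2 := by
        rw [d.r3q]
        have := sq_nonneg d.w3
        linarith
      exact le_of_sq_le_sq h15 hr3.le
    have h17 : 1 < (d.r3 + d.w3) ^ 2 := one_lt_pow₀ (by linarith) two_ne_zero
    have h10 : 0 < d.m23 ^ 2 := pow_pos hμ 2
    have h16 : d.m23 ^ 2 * 1 < d.m23 ^ 2 * (d.r3 + d.w3) ^ 2 := mul_lt_mul_of_pos_left h17 h10
    have h18 : d.y23 ^ 2 = d.m23 ^ 2 * (d.r3 + d.w3) ^ 2 := by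
      rw [h13, neg_sq, mul_pow]
    rw [← h18, mul_one] at h16
    exact lt_asymm h8 h16

end Pool.Agent.Helper22.ST
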