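import Mathlib

/-!
# ST-B26: a system of equations without solution (Mathlib only; memo 4.6, C2, `D1 = {13}`)

`w2 ≠ 0` (otherwise `t2 w3 = 0`, `w3 = 0 = w2`).  Put `b = w3 - w1 = 2 (r1 - r2) > 0`, so `r1 > r2`.
From `h12`: `t1 r2 = e t2 r1` with `e = 1` or `-1`.  `t3 w2 = t2 w3`.
`h13`: `t1² b² = (t3 - t1)² r1²`; multiply by `r2²`, use `t1² r2² = t2² r1²`, divide by `r1²`:
`t2² b² = (t3 - t1)² r2²`, so `|t3 r2 - t1 r2| = |t2| b`, i.e. `|t3 r2 - e t2 r1| = 2 |t2| (r1 - r2)`.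
`h2`: `|t2 r2 - e t2 r1| = 2 |t3| r2`.
`e = -1`: `2 t3 r2 = ± t2 (r1 + r2)`.
 `+`: `(r1 + r2) / 2 + r1 = 2 (r1 - r2)`: `r1 = 5 r2`, `t3 = 3 t2`, `w3 = 3 w2 > w2`, `v := w2 > 0`; `b = 8 r2`,
 `w2 - w1 = b - 2 v = 8 r2 - 2 v = 2 r3`, `r3 = 4 r2 - v`, `1 + 9 v² = 16 (1 + v²) - 8 r2 v + v²`,
 `8 r2 v = 15 + 8 v²`, squares: `64 (1 + v²) v² = 225 + 240 v² + 64 v⁴`, no.
 `-`: `|r1 - r2| / 2 = 2 (r1 - r2)`: `r1 = r2`, no.
`e = 1`: `2 t3 r2 = ± t2 (r1 - r2)`.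
 `+`: `(r1 + r2) / 2 = 2 (r1 - r2)`: `3 r1 = 5 r2`, `3 t3 = t2`, `3 w3 = w2 < w3`, `w3 = -v`, `w2 = -3 v`, `v > 0`;
 `r2 = 3 k`, `r1 = 5 k`, `b = 4 k`, `w2 - w1 = b - (w3 - w2) = 4 k - 2 v = 2 r3`: `r3 = 2 k - v`:
 `4 k (k - v) = 1`, `9 (k² - v²) = 1`, so `9 (k + v) = 4 k` (`k ≠ v`), no.
 `-`: `(3 r1 - r2) / 2 = 2 (r1 - r2)`: `r1 = 3 r2`, `t3 = -t2`, `w3 = -w2`, `r3 = r2`, `b = 4 r2`,
 `w2 - w1 = 2 r2`, `w3 - w2 = 2 r2 = 2 w3`: `r2 = w3`, `r2² = w2²`, no.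
-/

open Real Set

namespace Pool.Agent.Helper22.ST

private lemma c2_13_a {w1 w2 w3 r1 r2 r3 : ℝ} (w23 : w2 < w3)
    (r2q : r2 ^ 2 = 1 + w2 ^ 2) (r3q : r3 ^ 2 = 1 + w3 ^ 2) (hb : w2 - w1 = 2 * r3)
    (hb' : 2 * (r1 - r2) = w3 - w1) (h1 : r1 = 5 * r2) (h3 : w3 = 3 * w2) : False := by
  subst h1
  subst h3
  have hw : 0 < w2 := by linarith
  have e1 : r3 = 4 * r2 - w2 := by linarith
  rw [e1] at r3q
  have e2 : 8 * (r2 * w2) = 15 + 8 * w2 ^ 2 := by nlinarith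
  have e3 : (8 * (r2 * w2)) ^ 2 = 64 * (1 + w2 ^ 2) * w2 ^ 2 := by
    rw [← r2q]
    ring
  rw [e2] at e3
  nlinarith [sq_nonneg w2]

private lemma c2_13_b {w1 w2 w3 r1 r2 r3 : ℝ} (w23 : w2 < w3) (r2p : 0 < r2)
    (r2q : r2 ^ 2 = 1 + w2 ^ 2) (r3q : r3 ^ 2 = 1 + w3 ^ 2) (hb : w2 - w1 = 2 * r3)
    (hb' : 2 * (r1 - r2) = w3 - w1) (h1 : 3 * r1 = 5 * r2) (h3 : w2 = 3 * w3) : False := by
  obtain ⟨k, rfl⟩ : ∃ k, r2 = 3 * k := ⟨r2 / 3, by ring⟩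
  have e0 : r1 = 5 * k := by linarith
  subst e0
  subst h3
  have hv : w3 < 0 := by linarith
  have hk : 0 < k := by linarith
  have e1 : r3 = 2 * k + w3 := by linarith
  rw [e1] at r3q
  have e2 : 4 * k * (k + w3) = 1 := by nlinarith
  have e3 : 9 * (k + w3) * (k - w3) = 1 := by nlinarith
  have e4 : (k + w3) * (5 * k - 9 * w3) = 0 := by nlinarith
  rcases mul_eq_zero.1 e4 with h | h
  · rw [h] at e2
    norm_num at e2
  · linarith

private lemma c2_13_c {w1 w2 w3 r1 r2 r3 : ℝ} (r2p : 0 < r2) (r3p : 0 < r3)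
    (r2q : r2 ^ 2 = 1 + w2 ^ 2) (r3q : r3 ^ 2 = 1 + w3 ^ 2) (hb : w2 - w1 = 2 * r3)
    (hb' : 2 * (r1 - r2) = w3 - w1) (h1 : r1 = 3 * r2) (h3 : w3 = -w2) : False := by
  subst h1
  subst h3
  have e1 : (r3 - r2) * (r3 + r2) = 0 := by nlinarith
  have e2 : r3 = r2 := by
    rcases mul_eq_zero.1 e1 with h | h
    · linarith
    · linarith
  have e3 : r2 = -w2 := by linarith
  rw [e3] at r2q
  nlinarith

theorem c2_13 (w1 w2 w3 t1 t2 t3 r1 r2 r3 : ℝ) (w12 : w1 < w2) (w23 : w2 < w3) (r1p : 0 < r1)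
    (r2p : 0 < r2) (r3p : 0 < r3) (r1q : r1 ^ 2 = 1 + w1 ^ 2) (r2q : r2 ^ 2 = 1 + w2 ^ 2)
    (r3q : r3 ^ 2 = 1 + w3 ^ 2) (hb : w2 - w1 = 2 * r3) (hb' : 2 * (r1 - r2) = w3 - w1)
    (h0 : t2 * w3 = t3 * w2) (h2 : (t2 - t1) ^ 2 = 4 * t3 ^ 2)
    (h12 : t1 ^ 2 * r2 ^ 2 = t2 ^ 2 * r1 ^ 2)
    (h13 : t1 ^ 2 * (w3 - w1) ^ 2 = (t3 - t1) ^ 2 * r1 ^ 2) (ht : t2 ≠ 0) : False := by
  have hbpos : 0 < w3 - w1 := by linarith
  have hr12 : r2 < r1 := by linarith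
  have A : t1 * r2 = t2 * r1 ∨ t1 * r2 = -(t2 * r1) := by
    have h : (t1 * r2 - t2 * r1) * (t1 * r2 + t2 * r1) = 0 := by nlinarith
    rcases mul_eq_zero.1 h with h | h
    · left; linarith
    · right; linarith
  have h13' : t2 ^ 2 * (w3 - w1) ^ 2 = ((t3 - t1) * r2) ^ 2 := by
    have h1 : r1 ^ 2 * (t2 ^ 2 * (w3 - w1) ^ 2) = r1 ^ 2 * ((t3 - t1) * r2) ^ 2 := by
      calc r1 ^ 2 * (t2 ^ 2 * (w3 - w1) ^ 2) = (t2 ^ 2 * r1 ^ 2) * (w3 - w1) ^ 2 := by ring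
        _ = (t1 ^ 2 * r2 ^ 2) * (w3 - w1) ^ 2 := by rw [h12]
        _ = r2 ^ 2 * (t1 ^ 2 * (w3 - w1) ^ 2) := by ring
        _ = r2 ^ 2 * ((t3 - t1) ^ 2 * r1 ^ 2) := by rw [h13]
        _ = r1 ^ 2 * ((t3 - t1) * r2) ^ 2 := by ring
    exact mul_left_cancel₀ (by positivity) h1
  have B : t3 * r2 - t1 * r2 = 2 * t2 * (r1 - r2) ∨ t3 * r2 - t1 * r2 = -(2 * t2 * (r1 - r2)) := by
    have h : ((t3 * r2 - t1 * r2) - 2 * t2 * (r1 - r2)) *
        ((t3 * r2 - t1 * r2) + 2 * t2 * (r1 - r2)) = 0 := by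
      rw [← hb'] at h13'
      nlinarith
    rcases mul_eq_zero.1 h with h | h
    · left; linarith
    · right; linarith
  have C : t2 * r2 - t1 * r2 = 2 * (t3 * r2) ∨ t2 * r2 - t1 * r2 = -(2 * (t3 * r2)) := by
    have h : ((t2 - t1) - 2 * t3) * ((t2 - t1) + 2 * t3) = 0 := by nlinarith
    rcases mul_eq_zero.1 h with h | h
    · left
      have : t2 - t1 = 2 * t3 := by linarith
      calc t2 * r2 - t1 * r2 = (t2 - t1) * r2 := by ring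
        _ = 2 * (t3 * r2) := by rw [this]; ring
    · right
      have : t2 - t1 = -(2 * t3) := by linarith
      calc t2 * r2 - t1 * r2 = (t2 - t1) * r2 := by ring
        _ = -(2 * (t3 * r2)) := by rw [this]; ring
  have D : ∀ x : ℝ, t2 * x = 0 → x = 0 := fun x hx => (mul_eq_zero.1 hx).resolve_left ht
  rcases A with A | A <;> rcases B with B | B <;> rcases C with C | C
  · have h := D (7 * r1 - 5 * r2) (by linarith)
    linarith
  · have h := D (5 * r1 - 3 * r2) (by linarith)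
    linarith
  · have h := D (r1 - 3 * r2) (by linarith)
    have e1 : r1 = 3 * r2 := by linarith
    have e2 : r2 * (t3 + t2) = 0 := by
      rw [e1] at A B
      linarith
    have e3 : t3 = -t2 := by
      have := (mul_eq_zero.1 e2).resolve_left r2p.ne'
      linarith
    have e4 : w3 = -w2 := by
      rw [e3] at h0
      have := D (w3 + w2) (by linarith)
      linarith
    exact c2_13_c r2p r3p r2q r3q hb hb' e1 e4
  · have h := D (3 * r1 - 5 * r2) (by linarith)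
    have e1 : 3 * r1 = 5 * r2 := by linarith
    have e2 : r2 * (3 * t3 - t2) = 0 := by
      have h5 : t2 * (3 * r1) = t2 * (5 * r2) := by rw [e1]
      linarith
    have e3 : t2 = 3 * t3 := by
      have := (mul_eq_zero.1 e2).resolve_left r2p.ne'
      linarith
    have ht3 : t3 ≠ 0 := by
      rintro rfl
      exact ht (by linarith)
    have e4 : w2 = 3 * w3 := by
      rw [e3] at h0
      have h6 : t3 * (3 * w3 - w2) = 0 := by linarith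
      have := (mul_eq_zero.1 h6).resolve_left ht3
      linarith
    exact c2_13_b w23 r2p r2q r3q hb hb' e1 e4
  · have h := D (r1 - 5 * r2) (by linarith)
    have e1 : r1 = 5 * r2 := by linarith
    have e2 : r2 * (t3 - 3 * t2) = 0 := by
      rw [e1] at A B
      linarith
    have e3 : t3 = 3 * t2 := by
      have := (mul_eq_zero.1 e2).resolve_left r2p.ne'
      linarith
    have e4 : w3 = 3 * w2 := by
      rw [e3] at h0
      have := D (w3 - 3 * w2) (by linarith)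
      linarith
    exact c2_13_a w23 r2q r3q hb hb' e1 e4
  · have h := D (r1 - r2) (by linarith)
    linarith
  · have h := D (7 * r1 - 3 * r2) (by linarith)
    linarith
  · have h := D (r1 - r2) (by linarith)
    linarith

end Pool.Agent.Helper22.ST
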