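import Mathlib

/-!
# ST-B27: a system of equations without solution (Mathlib only; memo 4.6, C2, `D1 = {23}`)

`w1 ≠ 0` (otherwise `t1 w3 = 0`, `w3 = 0 = w1`).  `b = w3 - w1 = 2 r3 + b2`, `b2 = w3 - w2 = 2 |r1 - r2| > 0`.
From `h12`: `t2 r1 = e t1 r2` with `e = 1` or `-1`.  `t3 w1 = t1 w3`.
`h23` (divide by `r2²`, `t2² r1² = t1² r2²`): `t1² b2² = (t3 - t2)² r1²`: `|t3 r1 - e t1 r2| = 2 |t1| |r1 - r2|`.
`h2`: `|e t1 r2 - t1 r1| = 2 |t3| r1`.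
`e = 1`: `2 t3 r1 = t1 (r2 - r1)`: `r1 + r2 = 4 |r1 - r2|`: `3 r1 = 5 r2`, `5 t3 = -t1`; or `5 r1 = 3 r2`, `3 t3 = t1`.
 `2 t3 r1 = t1 (r1 - r2)`: `|r1 - 3 r2| = 4 |r1 - r2|`: `r2 = 3 r1`, `t3 = -t1`; or `5 r1 = 7 r2`, `7 t3 = t1`.
`e = -1`: `2 t3 r1 = -t1 (r1 + r2)`: `|r1 - r2| = 4 |r1 - r2|`, no (`b2 > 0`).
 `2 t3 r1 = t1 (r1 + r2)`: `r1 + 3 r2 = 4 |r1 - r2|`: `3 r1 = 7 r2`, `7 t3 = 5 t1`; or `r2 = 5 r1`, `t3 = 3 t1`.
And `w3 : w1 = t3 : t1`, `w1 < w3`.  Recall `w1 < w2 < w3`, so `r2² < max (r1²) (r3²)`.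
* `5 w3 = -w1`, `v = w3 > 0`, `w1 = -5 v`, `r1 = 5 k`, `r2 = 3 k`, `k > v`: `b2 = 4 k > 4 v`, `b = 6 v`, so
 `2 r3 = b - b2 < 2 v < 2 r3`, no.
* `3 w3 = w1`: `w1 < w3 < 0`, `r3 < r1 < r2`, no.   * `w3 = -w1`: `r3 = r1 < r2`, no.
* `7 w3 = w1`: `w3 = -v`, `w1 = -7 v`, `r1 = 7 k`, `r2 = 5 k`, `k > v`: `b = 6 v`, `b2 = 4 k > 4 v`, `2 r3 < 2 v`, no.
* `7 w3 = 5 w1`: `w1 = -7 v`, `w3 = -5 v`, `v > 0`, `r1 = 7 k`, `r2 = 3 k`, `k > v`: `b = 2 v`, `b2 = 8 k > b`, no.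
* `w3 = 3 w1`, `w1 = v > 0`: `r3 < 3 r1 < 5 r1 = r2`, `r1 < r2`, no.
-/

open Real Set

namespace Pool.Agent.Helper22.ST

theorem c2_23 (w1 w2 w3 t1 t2 t3 r1 r2 r3 : ℝ) (w12 : w1 < w2) (w23 : w2 < w3) (r1p : 0 < r1)
    (r2p : 0 < r2) (r3p : 0 < r3) (r1q : r1 ^ 2 = 1 + w1 ^ 2) (r2q : r2 ^ 2 = 1 + w2 ^ 2)
    (r3q : r3 ^ 2 = 1 + w3 ^ 2) (hb : w2 - w1 = 2 * r3)
    (hb' : 4 * (r1 - r2) ^ 2 = (w3 - w2) ^ 2) (h0 : t1 * w3 = t3 * w1)
    (h2 : (t2 - t1) ^ 2 = 4 * t3 ^ 2) (h12 : t1 ^ 2 * r2 ^ 2 = t2 ^ 2 * r1 ^ 2)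
    (h23 : t2 ^ 2 * (w3 - w2) ^ 2 = (t3 - t2) ^ 2 * r2 ^ 2) (ht : t1 ≠ 0) : False := by
  obtain ⟨u2, hu2⟩ : ∃ u, t2 = u * t1 := ⟨t2 / t1, by field_simp⟩
  obtain ⟨u3, hu3⟩ : ∃ u, t3 = u * t1 := ⟨t3 / t1, by field_simp⟩
  subst hu2 hu3
  have ht2 : t1 ^ 2 ≠ 0 := pow_ne_zero 2 ht
  have k0 : w3 = u3 * w1 := mul_left_cancel₀ ht (by linear_combination h0)
  have k2 : (u2 - 1) ^ 2 = 4 * u3 ^ 2 := mul_left_cancel₀ ht2 (by linear_combination h2)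
  have k12 : r2 ^ 2 = u2 ^ 2 * r1 ^ 2 := mul_left_cancel₀ ht2 (by linear_combination h12)
  have k23 : u2 ^ 2 * (w3 - w2) ^ 2 = (u3 - u2) ^ 2 * r2 ^ 2 :=
    mul_left_cancel₀ ht2 (by linear_combination h23)
  have hu : u2 ≠ 0 := by
    rintro rfl
    have : r2 ^ 2 = 0 := by rw [k12]; ring
    exact (pow_pos r2p 2).ne' this
  have k23' : (w3 - w2) ^ 2 = (u3 - u2) ^ 2 * r1 ^ 2 := by
    refine mul_left_cancel₀ (pow_ne_zero 2 hu) ?_
    rw [k23, k12]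
    ring
  have hw : 0 < w3 - w2 := by linarith
  -- `w3 - w2 = 2 |r1 - r2|`
  have hab : w3 - w2 = 2 * (r1 - r2) ∨ w3 - w2 = -(2 * (r1 - r2)) := by
    have : (w3 - w2 - 2 * (r1 - r2)) * (w3 - w2 + 2 * (r1 - r2)) = 0 := by
      linear_combination -hb'
    rcases mul_eq_zero.1 this with h | h
    · left; linarith
    · right; linarith
  have hr12 : r1 ≠ r2 := by
    rintro rfl
    rcases hab with h | h <;> linarith
  have e1 : w1 ^ 2 < r1 ^ 2 := by linarith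
  have e2 : w2 ^ 2 < r2 ^ 2 := by linarith
  have e3 : w3 ^ 2 < r3 ^ 2 := by linarith
  have a1 : |w1| < r1 := by
    have := sq_lt_sq.1 e1
    rwa [abs_of_pos r1p] at this
  have a3 : |w3| < r3 := by
    have := sq_lt_sq.1 e3
    rwa [abs_of_pos r3p] at this
  have b1 := abs_lt.1 a1
  have b3 := abs_lt.1 a3
  have hs : ∀ c : ℝ, u3 * r1 = c * r1 → w3 = c * w1 := by
    intro c h
    have h1 : u3 = c := mul_right_cancel₀ r1p.ne' h
    rw [k0, h1]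
  have hpm : u2 * r1 = r2 ∨ u2 * r1 = -r2 := by
    have : (u2 * r1 - r2) * (u2 * r1 + r2) = 0 := by linear_combination -k12
    rcases mul_eq_zero.1 this with h | h
    · left; linarith
    · right; linarith
  rcases hpm with he | he
  · have f1 : (2 * (u3 * r1) - (r2 - r1)) * (2 * (u3 * r1) + (r2 - r1)) = 0 := by
      rw [← he]
      linear_combination -(r1 ^ 2) * k2
    have f2 : (u3 * r1 - r2 - 2 * (r1 - r2)) * (u3 * r1 - r2 + 2 * (r1 - r2)) = 0 := by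
      have : (w3 - w2) ^ 2 = (u3 * r1 - r2) ^ 2 := by
        rw [k23', ← he]
        ring
      linear_combination -this - hb'
    rcases mul_eq_zero.1 f1 with g1 | g1 <;> rcases mul_eq_zero.1 f2 with g2 | g2
    · -- `3 r2 = 5 r1`, `u3 = 1 / 3`
      have q := hs (1 / 3) (by linarith)
      have w3n : w3 < 0 := by linarith
      nlinarith
    · -- `3 r1 = 5 r2`, `u3 = - 1 / 5`
      have q := hs (-(1 / 5)) (by linarith)
      rcases hab with h | h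
      · linarith
      · linarith
    · -- `r2 = 3 r1`, `u3 = -1`
      have q := hs (-1) (by linarith)
      have w3p : 0 < w3 := by linarith
      nlinarith
    · -- `5 r1 = 7 r2`, `u3 = 1 / 7`
      have q := hs (1 / 7) (by linarith)
      rcases hab with h | h
      · linarith
      · linarith
  · have f1 : (2 * (u3 * r1) - (-r2 - r1)) * (2 * (u3 * r1) + (-r2 - r1)) = 0 := by
      rw [← he]
      linear_combination -(r1 ^ 2) * k2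
    have f2 : (u3 * r1 + r2 - 2 * (r1 - r2)) * (u3 * r1 + r2 + 2 * (r1 - r2)) = 0 := by
      have : (w3 - w2) ^ 2 = (u3 * r1 + r2) ^ 2 := by
        rw [k23', show u3 * r1 + r2 = u3 * r1 - u2 * r1 by rw [he]; ring]
        ring
      linear_combination -this - hb'
    rcases mul_eq_zero.1 f1 with g1 | g1 <;> rcases mul_eq_zero.1 f2 with g2 | g2
    · exact hr12 (by linarith)
    · exact hr12 (by linarith)
    · -- `3 r1 = 7 r2`, `u3 = 5 / 7`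
      have q := hs (5 / 7) (by linarith)
      rcases hab with h | h
      · linarith
      · linarith
    · -- `r2 = 5 r1`, `u3 = 3`
      have q := hs 3 (by linarith)
      have w1p : 0 < w1 := by linarith
      nlinarith

end Pool.Agent.Helper22.ST
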