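import Pool.Agent.Helper22.ST.B25C2a
import Pool.Agent.Helper22.ST.B26Pure13
import Pool.Agent.Helper22.ST.B27Pure23

/-!
# ST-B28: the case C2 of memo 4.6 (`s3`: only 12), `D1 = {13}`, `D1 = {23}`, assembly

`C2_len`: `w2 - w1 = 2 r3`.  `s3 = m12²`: `t3² (w2 - w1)² = (t2 - t1)² r3²` (`m12 (w2 - w1) = t2 - t1`), so
`(t2 - t1)² = 4 t3²`.  `s1 = s2`: `t1² r2² = t2² r1²`; so `t1 ≠ 0`, `t2 ≠ 0` (`t12`).
`C2_13`: `m13² = s1`, `m23² ≠ s1`.  `m23²` differs from `s1, s3, m12² = s3, m13² = s1`: `y23 = 0` (`y23s`),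
 `t2 w3 = m23 w2 w3 = t3 w2`.  `s1 = m13²`: `t1² (w3 - w1)² = (t3 - t1)² r1²`.
 `R1`: `2 (r1 - r2) = e13 (w3 - w1)`; `e13 = -1` is impossible: then `r1 < r2`, so `r2 < r3` (`r2_lt`), and
 `2 r1 = 2 r2 - (w3 - w1) < 2 r3 - (w2 - w1) = 0`.  Apply `c2_13`.
`C2_23`: `m23² = s1`, `m13² ≠ s1`.  `m13²` differs from `s1, s3, m12², m23²`: `y13 = 0` (`y13s`), `t1 w3 = t3 w1`.
 `s2 = m23²`: `t2² (w3 - w2)² = (t3 - t2)² r2²`.  `R1` squared: `4 (r1 - r2)² = (w3 - w2)²`.  Apply `c2_23`.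
-/

open Real Set

namespace Pool.Agent.Helper22.ST

variable {d : Dat} {e13 e12 e23 : ℝ}

private theorem Sit.b28sq (c : Sit d e13 e12 e23) (h1 : d.m13 ^ 2 ≠ d.s3) (h2 : d.m12 ^ 2 = d.s3)
    (h3 : d.m23 ^ 2 ≠ d.s3) : (d.t2 - d.t1) ^ 2 = 4 * d.t3 ^ 2 := by
  have L := c.C2_len h1 h2 h3
  have E : d.t2 - d.t1 = d.m12 * (2 * d.r3) := by
    rw [← L]
    linear_combination d.a2 - d.a1
  rw [E]
  linear_combination 4 * d.r3 ^ 2 * h2 + 4 * d.s3_mul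

private theorem Sit.b28t12 (c : Sit d e13 e12 e23) : d.t1 ^ 2 * d.r2 ^ 2 = d.t2 ^ 2 * d.r1 ^ 2 := by
  have s12 := c.s12
  linear_combination -d.r2 ^ 2 * d.s1_mul + d.r1 ^ 2 * d.s2_mul + d.r1 ^ 2 * d.r2 ^ 2 * s12

private theorem Sit.b28t2 (c : Sit d e13 e12 e23) : d.t2 ≠ 0 := by
  intro h
  have h1 := c.b28t12
  rw [h] at h1
  have h2 : d.t1 ^ 2 * d.r2 ^ 2 = 0 := by rw [h1]; ring
  rcases mul_eq_zero.1 h2 with h3 | h3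
  · exact c.t12 ⟨pow_eq_zero_iff (two_ne_zero) |>.1 h3, h⟩
  · exact absurd h3 (pow_ne_zero 2 d.r2p.ne')

private theorem Sit.b28t1 (c : Sit d e13 e12 e23) : d.t1 ≠ 0 := by
  intro h
  have h1 := c.b28t12
  rw [h] at h1
  have h2 : d.t2 ^ 2 * d.r1 ^ 2 = 0 := by rw [← h1]; ring
  rcases mul_eq_zero.1 h2 with h3 | h3
  · exact c.t12 ⟨h, pow_eq_zero_iff (two_ne_zero) |>.1 h3⟩
  · exact absurd h3 (pow_ne_zero 2 d.r1p.ne')

theorem Sit.C2_13 (c : Sit d e13 e12 e23) (h1 : d.m13 ^ 2 ≠ d.s3) (h2 : d.m12 ^ 2 = d.s3)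
    (h3 : d.m23 ^ 2 ≠ d.s3) (a : d.m13 ^ 2 = d.s1) (b : d.m23 ^ 2 ≠ d.s1) : False := by
  have L := c.C2_len h1 h2 h3
  have hy : d.y23 = 0 := c.y23s b h3 (fun h => h3 (h.trans h2)) (fun h => b (h.trans a))
  have h0 : d.t2 * d.w3 = d.t3 * d.w2 := by
    linear_combination d.w3 * d.c2 - d.w2 * d.c3 + (d.w3 - d.w2) * hy
  have hR := c.R1
  rw [ind_pos a, ind_neg b, add_zero] at hR
  have hb' : 2 * (d.r1 - d.r2) = d.w3 - d.w1 := by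
    rcases c.e13q with e | e
    · rw [e, one_mul] at hR
      exact hR
    · exfalso
      rw [e] at hR
      have w12 := d.w12
      have w23 := d.w23
      have r1p := d.r1p
      rcases d.r2_lt with h | h
      · linarith
      · linarith
  exact c2_13 d.w1 d.w2 d.w3 d.t1 d.t2 d.t3 d.r1 d.r2 d.r3 d.w12 d.w23 d.r1p d.r2p d.r3p d.r1q
    d.r2q d.r3q L hb' h0 (c.b28sq h1 h2 h3) c.b28t12
    (by
      have E : d.t3 - d.t1 = d.m13 * (d.w3 - d.w1) := by linear_combination d.b3 - d.b1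
      rw [E]
      linear_combination -(d.w3 - d.w1) ^ 2 * d.s1_mul - d.r1 ^ 2 * (d.w3 - d.w1) ^ 2 * a)
    c.b28t2

theorem Sit.C2_23 (c : Sit d e13 e12 e23) (h1 : d.m13 ^ 2 ≠ d.s3) (h2 : d.m12 ^ 2 = d.s3)
    (h3 : d.m23 ^ 2 ≠ d.s3) (a : d.m13 ^ 2 ≠ d.s1) (b : d.m23 ^ 2 = d.s1) : False := by
  have L := c.C2_len h1 h2 h3
  have hy : d.y13 = 0 := c.y13s a h1 (fun h => h1 (h.trans h2)) (fun h => a (h.trans b))
  have h0 : d.t1 * d.w3 = d.t3 * d.w1 := by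
    linear_combination d.w3 * d.b1 - d.w1 * d.b3 + (d.w3 - d.w1) * hy
  have hR := c.R1
  rw [ind_neg a, ind_pos b, zero_add] at hR
  have hb' : 4 * (d.r1 - d.r2) ^ 2 = (d.w3 - d.w2) ^ 2 := by
    have e2 : e23 ^ 2 = 1 := by
      rcases c.e23q with e | e <;> rw [e] <;> norm_num
    linear_combination (2 * (d.r1 - d.r2) + e23 * (d.w3 - d.w2)) * hR + (d.w3 - d.w2) ^ 2 * e2
  have s12 := c.s12
  exact c2_23 d.w1 d.w2 d.w3 d.t1 d.t2 d.t3 d.r1 d.r2 d.r3 d.w12 d.w23 d.r1p d.r2p d.r3p d.r1q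
    d.r2q d.r3q L hb' h0 (c.b28sq h1 h2 h3) c.b28t12
    (by
      have E : d.t3 - d.t2 = d.m23 * (d.w3 - d.w2) := by linear_combination d.c3 - d.c2
      rw [E]
      linear_combination -(d.w3 - d.w2) ^ 2 * d.s2_mul - d.r2 ^ 2 * (d.w3 - d.w2) ^ 2 * b
        - d.r2 ^ 2 * (d.w3 - d.w2) ^ 2 * s12)
    c.b28t1

theorem Sit.C2 (c : Sit d e13 e12 e23) (h1 : d.m13 ^ 2 ≠ d.s3) (h2 : d.m12 ^ 2 = d.s3)
    (h3 : d.m23 ^ 2 ≠ d.s3) : False := by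
  by_cases a : d.m13 ^ 2 = d.s1
  · by_cases b : d.m23 ^ 2 = d.s1
    · exact c.C2_both h1 h2 h3 a b
    · exact c.C2_13 h1 h2 h3 a b
  · by_cases b : d.m23 ^ 2 = d.s1
    · exact c.C2_23 h1 h2 h3 a b
    · exact c.C2_none h1 h2 h3 a b

end Pool.Agent.Helper22.ST
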