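import Pool.Agent.Helper22.ST.B03Mirror
import Pool.Agent.Helper22.ST.B06Case1
import Pool.Agent.Helper22.ST.B10Case2
import Pool.Agent.Helper22.ST.B16Case45
import Pool.Agent.Helper22.ST.B21Case6a
import Pool.Agent.Helper22.ST.B23C1345
import Pool.Agent.Helper22.ST.B24C6
import Pool.Agent.Helper22.ST.B28C2b

/-!
# ST-B29: exactly one vertical face is impossible

`case6_s1`: `d.sit`; cases on `m13² = s3`, `m12² = s3`, `m23² = s3`: none contradicts `R3` (`2 r3 > 0`);
13 and 12 (with or without 23): `C4`; 13 and 23: `C5`; only 13: `C1`; 12 and 23 without 13: `C6`; only 12: `C2`;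
only 23: `C3`.
`case6`: `case6_A`, `case6_B`; if `s2 = s1` then `case6_s1`; if `s2 = s3` then `case6_s1` for `d.mirror`
(`mirror_*`).
`no_one_vert`: cases on the equalities of `GU, G1, G2`: `case1`, `case2` (`G1 = G2 ≠ GU`), `caseU1`, `caseU2`, `case6`.
-/

open Real Set

namespace Pool.Agent.Helper22.ST.Dat

variable (d : Dat)

theorem case6_s1 (hS : d.St) (h : d.GU = d.G1) (h' : d.G1 = d.G2) (a : d.s1 = d.s2)
    (a' : d.s1 ≠ d.s3) : False := by
  obtain ⟨e13, e12, e23, c⟩ := d.sit hS h h' a a'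
  by_cases c13 : d.m13 ^ 2 = d.s3
  · by_cases c12 : d.m12 ^ 2 = d.s3
    · exact c.C4 c13 c12
    · by_cases c23 : d.m23 ^ 2 = d.s3
      · exact c.C5 c13 c23
      · exact c.C1 c13 c12 c23
  · by_cases c12 : d.m12 ^ 2 = d.s3
    · by_cases c23 : d.m23 ^ 2 = d.s3
      · exact c.C6 c13 c12 c23
      · exact c.C2 c13 c12 c23
    · by_cases c23 : d.m23 ^ 2 = d.s3
      · exact c.C3 c13 c12 c23
      · have h3 := c.R3
        rw [ind_neg c13, ind_neg c12, ind_neg c23] at h3
        linarith [d.r3p]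

theorem case6 (hS : d.St) (h : d.GU = d.G1) (h' : d.G1 = d.G2) : False := by
  have hA := d.case6_A hS h h'
  rcases d.case6_B hS h h' with hB | hB
  · exact d.case6_s1 hS h h' hB.symm hA
  · refine d.mirror.case6_s1 (d.mirror_St hS) ?_ ?_ ?_ ?_
    · rw [mirror_GU, mirror_G1]
      exact h.trans h'
    · rw [mirror_G1, mirror_G2]
      exact h'.symm
    · rw [mirror_s1, mirror_s2]
      exact hB.symm
    · rw [mirror_s1, mirror_s3]
      exact hA.symm

theorem no_one_vert : ¬ d.St := by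
  intro hS
  by_cases h1 : d.GU = d.G1
  · by_cases h3 : d.G1 = d.G2
    · exact d.case6 hS h1 h3
    · exact d.caseU1 hS h1 (fun e => h3 (h1.symm.trans e.symm))
  · by_cases h2 : d.GU = d.G2
    · exact d.caseU2 hS h2 (fun e => h1 e.symm)
    · by_cases h3 : d.G1 = d.G2
      · exact d.case2 hS h3 h1
      · exact d.case1 hS h1 h2 h3

end Pool.Agent.Helper22.ST.Dat
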