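import Pool.Agent.Helper22.ST.B04Alone

/-!
# ST-C03: a face at the vertical edge whose gradient has its own length

Triangle with sides `b, c, l`, `2 β = b² + c² - l²`, `δ² = b² c² - β² > 0`, so `|b - c| < l < b + c`.
`x1 = v c² - u β`, `x2 = u b² - v β`, `x3 = -(x1 + x2)`; with
`g = (v² c² + u² b² - 2 u v β)/δ²`: `x1² = δ² c² (g - (u/c)²)`, `x2² = δ² b² (g - (v/b)²)`,
`x3² = δ² l² (g - ((u-v)/l)²)`.  Apply `alone3` (B04):
* all zero: `u b² c² = v β c² = u β²`, so `u δ² = 0`, `u = 0`, and then `v c² = 0`.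
* `x1 = 0`, `(v/b)² = ((u-v)/l)²`, `x2 ≠ 0`, `x2² = x3²`: `b = l`, `v² = (u - v)²`: `u = 0` (then `v c² = 0`, `x2 = 0`,
  no) or `u = 2 v`.
* `x2 = 0`: `c = l`, `v = 2 u`.
* `x3 = 0`, `(u/c)² = (v/b)²`, `x1² = x2² ≠ 0`: `b = c`, `u² = v²`; `x1 + x2 = 0`: `(u + v)(c² - β) = 0` and
  `c² - β = l²/2 > 0`: `u = -v`.
* all three slopes equal to `m²`: `|u| = c m`, `|v| = b m`, `|u - v| = l m` and the strict triangle
  inequalities: `m = 0`.
-/

open Real Set

namespace Pool.Agent.Helper22.ST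

private theorem sqd' {r s : ℝ} (hr : 0 < r) {t : ℝ} (h : (t / r) ^ 2 = s) :
    t ^ 2 = s * r ^ 2 := by
  rw [div_pow, div_eq_iff (by positivity)] at h
  exact h

private theorem side {b l N D s x : ℝ} (bp : 0 < b) (lp : 0 < l)
    (h1 : x ^ 2 = b ^ 2 * N - D * (s * b ^ 2)) (h2 : x ^ 2 = l ^ 2 * N - D * (s * l ^ 2))
    (h3 : x ≠ 0) : b = l := by
  have e : (b ^ 2 - l ^ 2) * (N - D * s) = 0 := by linear_combination h2 - h1
  rcases mul_eq_zero.1 e with e | e
  · exact (sq_eq_sq₀ bp.le lp.le).1 (by linarith)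
  · exfalso
    apply h3
    have : x ^ 2 = 0 := by rw [h1]; linear_combination b ^ 2 * e
    exact pow_eq_zero_iff (two_ne_zero) |>.1 this

theorem alone_tri (b c l u v β δ : ℝ) (bp : 0 < b) (cp : 0 < c) (lp : 0 < l) (δp : 0 < δ)
    (hβ : 2 * β = b ^ 2 + c ^ 2 - l ^ 2) (hδ : δ ^ 2 = b ^ 2 * c ^ 2 - β ^ 2)
    (h : ∀ s, ind ((u / c) ^ 2 = s) (v * c ^ 2 - u * β) + ind ((v / b) ^ 2 = s) (u * b ^ 2 - v * β) +
      ind (((u - v) / l) ^ 2 = s) (-((v * c ^ 2 - u * β) + (u * b ^ 2 - v * β))) = 0) :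
    (u = 0 ∧ v = 0) ∨ (b = c ∧ u = -v) ∨ (b = l ∧ u = 2 * v) ∨ (c = l ∧ v = 2 * u) := by
  have δ2 : 0 < δ ^ 2 := by positivity
  have hl : l ^ 2 = b ^ 2 + c ^ 2 - 2 * β := by linarith
  set N : ℝ := v ^ 2 * c ^ 2 + u ^ 2 * b ^ 2 - 2 * u * v * β with hN
  have X1 : (v * c ^ 2 - u * β) ^ 2 = c ^ 2 * N - δ ^ 2 * u ^ 2 := by rw [hN, hδ]; ring
  have X2 : (u * b ^ 2 - v * β) ^ 2 = b ^ 2 * N - δ ^ 2 * v ^ 2 := by rw [hN, hδ]; ring
  have X3 : ((v * c ^ 2 - u * β) + (u * b ^ 2 - v * β)) ^ 2 = l ^ 2 * N - δ ^ 2 * (u - v) ^ 2 := by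
    rw [hN, hδ, hl]; ring
  rcases alone3 (v * c ^ 2 - u * β) (u * b ^ 2 - v * β)
    (-((v * c ^ 2 - u * β) + (u * b ^ 2 - v * β))) ((u / c) ^ 2) ((v / b) ^ 2)
    (((u - v) / l) ^ 2) (by ring) h with ⟨h1, h2, -⟩ | ⟨h1, h2, h3⟩ | ⟨h1, h2, h3⟩ |
    ⟨h1, h2, h3⟩ | ⟨h1, h2⟩
  · left
    have hu : u = 0 := by
      have e : u * δ ^ 2 = 0 := by rw [hδ]; linear_combination c ^ 2 * h2 + β * h1
      exact (mul_eq_zero.1 e).resolve_right δ2.ne'
    refine ⟨hu, ?_⟩
    rw [hu] at h1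
    have e : v * c ^ 2 = 0 := by linarith
    exact (mul_eq_zero.1 e).resolve_right (by positivity)
  · right; right; left
    have hv := sqd' bp rfl (t := v)
    have huv := sqd' lp h2.symm (t := u - v)
    have hbl := side bp lp (by rw [← hv]; exact X2)
      (by rw [← huv, ← X3, h1]; ring) h3
    refine ⟨hbl, ?_⟩
    have e : u * (u - 2 * v) = 0 := by
      rw [← hbl, ← hv] at huv
      linear_combination huv
    rcases mul_eq_zero.1 e with e | e
    · exfalso
      apply h3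
      rw [e] at h1 ⊢
      have e1 : v * c ^ 2 = 0 := by linarith
      have e2 : v = 0 := (mul_eq_zero.1 e1).resolve_right (by positivity)
      rw [e2]; ring
    · linarith
  · right; right; right
    have hv := sqd' cp rfl (t := u)
    have huv := sqd' lp h2.symm (t := u - v)
    have hbl := side cp lp (by rw [← hv]; exact X1)
      (by rw [← huv, ← X3, h1]; ring) h3
    refine ⟨hbl, ?_⟩
    have e : v * (v - 2 * u) = 0 := by
      rw [← hbl, ← hv] at huv
      linear_combination huv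
    rcases mul_eq_zero.1 e with e | e
    · exfalso
      apply h3
      rw [e] at h1 ⊢
      have e1 : u * b ^ 2 = 0 := by linarith
      have e2 : u = 0 := (mul_eq_zero.1 e1).resolve_right (by positivity)
      rw [e2]; ring
    · linarith
  · right; left
    have hu := sqd' cp rfl (t := u)
    have hv := sqd' bp h2.symm (t := v)
    have hbc := side cp bp (by rw [← hu]; exact X1)
      (by
        rw [← hv, ← X2]
        linear_combination (u * b ^ 2 - v * β - (v * c ^ 2 - u * β)) * h1) h3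
    refine ⟨hbc.symm, ?_⟩
    have e : (u + v) * l ^ 2 = 0 := by
      rw [hl, ← hbc]
      rw [← hbc] at h1
      linear_combination -2 * h1
    rcases mul_eq_zero.1 e with e | e
    · linarith
    · exact absurd e (by positivity)
  · left
    have hu := sqd' cp (h1.trans h2) (t := u)
    have hv := sqd' bp h2 (t := v)
    have huv := sqd' lp rfl (t := u - v)
    set s := ((u - v) / l) ^ 2 with hs
    have e : u * v = s * β := by
      rw [hl] at huv
      linear_combination (hu + hv - huv) / 2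
    have e2 : s ^ 2 * δ ^ 2 = 0 := by
      rw [hδ]
      linear_combination (u * v + s * β) * e - v ^ 2 * hu - s * c ^ 2 * hv
    have s0 : s = 0 := by
      have := (mul_eq_zero.1 e2).resolve_right δ2.ne'
      exact pow_eq_zero_iff (two_ne_zero) |>.1 this
    rw [s0] at hu hv
    constructor
    · have : u ^ 2 = 0 := by rw [hu]; ring
      exact pow_eq_zero_iff (two_ne_zero) |>.1 this
    · have : v ^ 2 = 0 := by rw [hv]; ring
      exact pow_eq_zero_iff (two_ne_zero) |>.1 this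

end Pool.Agent.Helper22.ST
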