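import Pool.Agent.Helper22.ST.DefsI
import Pool.Agent.Helper22.ST.C03Alone

/-!
# ST-C04: vertical edge, different gradients (memo 5.1)

`aloneL`: `St` at `(s, gL)`, the terms with `gU` vanish; `alone_tri`.
`aloneU`: `St` at `(s, gU)`; `alone_tri` for `u - a`, `v - a` (the relation times `-1`; `(u-a)-(v-a) = u - v`).
`diff`: 16 combinations: `u = v = 0` or `u = v = a` are impossible with any of the others (`a > 0`);
`b = c, u = -v` with `b = l, u - a = 2 (v - a)`: `(u, v) = (-a/3, a/3)`; with `c = l, v - a = 2 (u - a)`: `(a/3, -a/3)`;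
`b = l, u = 2 v` with `b = c, u - a = -(v - a)`: `(4a/3, 2a/3)`; with `c = l, v - a = 2 (u - a)`: `(2a/3, a/3)`: `C1`;
`c = l, v = 2 u` with `b = c, ..`: `(2a/3, 4a/3)`; with `b = l, u - a = 2 (v - a)`: `(a/3, 2a/3)`: `C1`; the
combinations of the same type are impossible.
-/

open Real Set

namespace Pool.Agent.Helper22.ST.Dat1

variable (d : Dat1)

private theorem ind_neg_val (p : Prop) (x : ℝ) : ind p (-x) = -ind p x := by
  by_cases hp : p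
  · rw [ind_pos hp, ind_pos hp]
  · rw [ind_neg hp, ind_neg hp, neg_zero]

theorem aloneL (hS : d.St) (h : d.gL ≠ d.gU) :
    (d.u = 0 ∧ d.v = 0) ∨ (d.b = d.c ∧ d.u = -d.v) ∨ (d.b = d.l ∧ d.u = 2 * d.v) ∨
      (d.c = d.l ∧ d.v = 2 * d.u) := by
  refine alone_tri d.b d.c d.l d.u d.v d.β d.δ d.bp d.cp d.lp d.δp d.hβ d.hδ (fun s => ?_)
  have key := hS s d.gL
  rw [ind_congr (show (d.s01 = s ∧ d.gL = d.gL) ↔ d.s01 = s from ⟨fun q => q.1, fun q => ⟨q, rfl⟩⟩),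
    ind_congr (show (d.s02 = s ∧ d.gL = d.gL) ↔ d.s02 = s from ⟨fun q => q.1, fun q => ⟨q, rfl⟩⟩),
    ind_congr (show (d.s12 = s ∧ d.gL = d.gL) ↔ d.s12 = s from ⟨fun q => q.1, fun q => ⟨q, rfl⟩⟩),
    ind_neg (p := d.s13 = s ∧ d.gU = d.gL) (fun q => h q.2.symm),
    ind_neg (p := d.s23 = s ∧ d.gU = d.gL) (fun q => h q.2.symm),
    ind_neg (p := d.s12 = s ∧ d.gU = d.gL) (fun q => h q.2.symm), add_zero, add_zero,
    add_zero] at key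
  exact key

theorem aloneU (hS : d.St) (h : d.gL ≠ d.gU) :
    (d.u - d.a = 0 ∧ d.v - d.a = 0) ∨ (d.b = d.c ∧ d.u - d.a = -(d.v - d.a)) ∨
      (d.b = d.l ∧ d.u - d.a = 2 * (d.v - d.a)) ∨ (d.c = d.l ∧ d.v - d.a = 2 * (d.u - d.a)) := by
  refine alone_tri d.b d.c d.l (d.u - d.a) (d.v - d.a) d.β d.δ d.bp d.cp d.lp d.δp d.hβ d.hδ
    (fun s => ?_)
  have key := hS s d.gU
  rw [ind_congr (show (d.s13 = s ∧ d.gU = d.gU) ↔ d.s13 = s from ⟨fun q => q.1, fun q => ⟨q, rfl⟩⟩),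
    ind_congr (show (d.s23 = s ∧ d.gU = d.gU) ↔ d.s23 = s from ⟨fun q => q.1, fun q => ⟨q, rfl⟩⟩),
    ind_congr (show (d.s12 = s ∧ d.gU = d.gU) ↔ d.s12 = s from ⟨fun q => q.1, fun q => ⟨q, rfl⟩⟩),
    ind_neg (p := d.s01 = s ∧ d.gL = d.gU) (fun q => h q.2),
    ind_neg (p := d.s02 = s ∧ d.gL = d.gU) (fun q => h q.2),
    ind_neg (p := d.s12 = s ∧ d.gL = d.gU) (fun q => h q.2), add_zero, add_zero,
    zero_add] at key
  have e3 : d.n3 = -(-(((d.v - d.a) * d.c ^ 2 - (d.u - d.a) * d.β) +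
      ((d.u - d.a) * d.b ^ 2 - (d.v - d.a) * d.β))) := by
    unfold n3 n1 n2
    ring
  have e1 : d.n1 = -((d.v - d.a) * d.c ^ 2 - (d.u - d.a) * d.β) := rfl
  have e2 : d.n2 = -((d.u - d.a) * d.b ^ 2 - (d.v - d.a) * d.β) := rfl
  rw [e1, e2, e3, ind_neg_val, ind_neg_val, ind_neg_val] at key
  have e4 : d.u - d.a - (d.v - d.a) = d.u - d.v := by ring
  rw [e4]
  have key2 : ind (((d.u - d.a) / d.c) ^ 2 = s) ((d.v - d.a) * d.c ^ 2 - (d.u - d.a) * d.β) +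
      ind (((d.v - d.a) / d.b) ^ 2 = s) ((d.u - d.a) * d.b ^ 2 - (d.v - d.a) * d.β) +
      ind (((d.u - d.v) / d.l) ^ 2 = s)
        (-(((d.v - d.a) * d.c ^ 2 - (d.u - d.a) * d.β) +
          ((d.u - d.a) * d.b ^ 2 - (d.v - d.a) * d.β))) =
      -(-ind (d.s13 = s) ((d.v - d.a) * d.c ^ 2 - (d.u - d.a) * d.β) +
        -ind (d.s23 = s) ((d.u - d.a) * d.b ^ 2 - (d.v - d.a) * d.β) +
        -ind (d.s12 = s)
        (-(((d.v - d.a) * d.c ^ 2 - (d.u - d.a) * d.β) +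
          ((d.u - d.a) * d.b ^ 2 - (d.v - d.a) * d.β)))) := by
    unfold s13 s23 s12
    ring
  rw [key2, key, neg_zero]

theorem diff (hS : d.St) (h : d.gL ≠ d.gU) : d.C1 ∨ d.C3 := by
  have ha := d.ap
  rcases d.aloneL hS h with ⟨u0, v0⟩ | ⟨bc, uv⟩ | ⟨bl, uv⟩ | ⟨cl, uv⟩
  · rcases d.aloneU hS h with ⟨p0, q0⟩ | ⟨_, p0⟩ | ⟨_, p0⟩ | ⟨_, p0⟩
    all_goals exfalso
    all_goals rw [u0] at p0
    · linarith
    all_goals rw [v0] at p0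
    all_goals linarith
  · rcases d.aloneU hS h with ⟨p0, q0⟩ | ⟨_, p0⟩ | ⟨bl, p0⟩ | ⟨cl, p0⟩
    · exfalso; linarith
    · exfalso; linarith
    · exact Or.inr ⟨bc, bc.symm.trans bl, Or.inl ⟨by linarith, by linarith⟩⟩
    · exact Or.inr ⟨bc, cl, Or.inr (Or.inl ⟨by linarith, by linarith⟩)⟩
  · rcases d.aloneU hS h with ⟨p0, q0⟩ | ⟨bc, p0⟩ | ⟨_, p0⟩ | ⟨cl, p0⟩
    · exfalso; linarith
    · exact Or.inr ⟨bc, bc.symm.trans bl, Or.inr (Or.inr (Or.inl ⟨by linarith, by linarith⟩))⟩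
    · exfalso; linarith
    · exact Or.inl ⟨bl.trans cl.symm, cl, Or.inr ⟨by linarith, by linarith⟩⟩
  · rcases d.aloneU hS h with ⟨p0, q0⟩ | ⟨bc, p0⟩ | ⟨bl, p0⟩ | ⟨_, p0⟩
    · exfalso; linarith
    · exact Or.inr ⟨bc, cl, Or.inr (Or.inr (Or.inr ⟨by linarith, by linarith⟩))⟩
    · exact Or.inl ⟨bl.trans cl.symm, cl, Or.inl ⟨by linarith, by linarith⟩⟩
    · exfalso; linarith

end Pool.Agent.Helper22.ST.Dat1
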