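import Pool.Agent.Helper22.ST.C05Eq

/-!
# ST-C06: vertical edge, equal gradients, only the edge `01` has the slope of `12` (memo 5.2)

`cls12`: `2 l = e1 c`: `e1 = 1`, `c = 2 l`, `l1 ≥ 0`, `l1² = 4 l3²` (`l1_sq`, `l3_sq`): `l1 = -2 l3`, so
`l2 = -l3 - l1 = l3 < 0` (`only01_l`).
`s01 = s12`: `u² = 4 (u - v)²`: `u = 2 v` or `3 u = 2 v`.
`cls02` (`s02 ≠ s12`, `s01 = s12 ≠ s02`):
* `s13 = s02` and `s23 = s02`: `b = f1 c + f2 b`: only `f1 = 1, f2 = -1`, `c = 2 b`: `b = l`, `c = b + l`, against `tri_c`.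
* only `s13 = s02`: `b = f1 c`: `b = c`, `f1 = 1`, `n1 ≥ 0`, `n1² = l2²` (`n1_sq`, `l2_sq`): `n1 = -l2 = -l3`, so `n2 = 0`
  (`n_sum`, `l3_eq`).  `2 β = 4l² + 4l² - l²`: `8 (u - a) = 7 (v - a)`, and `s13 = s02`: `(u - a)² = v²`;
  `u = 2 v`: `9 v = a`, no; `3 u = 2 v`: `5 u = -2 a`, no.
* only `s23 = s02`: `b = f2 b`: `f2 = 1`, `n2 ≥ 0`, `n2² = l2²`: `n2 = -l3`, `n1 = 0`; `(v - a)² = v²`: `2 v = a`.
  `u = 2 v = a`: `n1 = -(v - a) c² ≠ 0`, no.  `3 u = 2 v = a`: `n1 = 0` says `(v - a) c² = (u - a) β`: `4 β = 3 c²`,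
  so `b² = 3 l²`: `C2`.
* none: `b = 0`, no.
-/

open Real Set

namespace Pool.Agent.Helper22.ST.Dat1

variable (d : Dat1)

theorem only01_l (hS : d.St) (h : d.gL = d.gU) (h1 : d.s01 = d.s12) (h2 : d.s02 ≠ d.s12)
    (h3 : d.s13 ≠ d.s12) (h4 : d.s23 ≠ d.s12) : d.c = 2 * d.l ∧ d.l1 = -2 * d.l3 ∧ d.l2 = d.l3 := by
  obtain ⟨e1, e2, f1, f2, he1, -, -, -, hl1, -, -, -, hr⟩ := d.cls12 hS h
  rw [ind_pos h1, ind_neg h2, ind_neg h3, ind_neg h4] at hr
  have hl := d.lp
  have hc := d.cp
  have hn := d.l3_neg h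
  rcases he1 with he | he
  · rw [he] at hr hl1
    have hcl : d.c = 2 * d.l := by linarith
    have hp : 0 ≤ d.l1 := by
      rw [hl1, one_mul]
      exact abs_nonneg _
    have hsq : d.l1 ^ 2 = (2 * d.l3) ^ 2 := by
      rw [mul_pow, d.l1_sq, d.l3_sq, h1, hcl]
      ring
    have hl13 : d.l1 = -2 * d.l3 := by
      rcases sq_eq_sq_iff_eq_or_eq_neg.1 hsq with hh | hh
      · exfalso; linarith
      · linarith
    refine ⟨hcl, hl13, ?_⟩
    have hs := d.l_sum
    linarith
  · exfalso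
    rw [he] at hr
    linarith

/-- from `x ≥ 0`, `y < 0`, `x² = y²` -/
private theorem only01_aux {x y : ℝ} (hx : 0 ≤ x) (hy : y < 0) (h : x ^ 2 = y ^ 2) : x = -y := by
  rcases sq_eq_sq_iff_eq_or_eq_neg.1 h with hh | hh
  · exfalso; linarith
  · exact hh

theorem only01 (hS : d.St) (h : d.gL = d.gU) (h1 : d.s01 = d.s12) (h2 : d.s02 ≠ d.s12)
    (h3 : d.s13 ≠ d.s12) (h4 : d.s23 ≠ d.s12) : d.C2 := by
  obtain ⟨hcl, hl13, hl23⟩ := d.only01_l hS h h1 h2 h3 h4
  have hl := d.lp
  have hc := d.cp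
  have hb := d.bp
  have ha := d.ap
  have hn := d.l3_neg h
  have hl2 : d.l2 < 0 := by rw [hl23]; exact hn
  have h12 : d.s01 ≠ d.s02 := by rw [h1]; exact Ne.symm h2
  obtain ⟨f1, f2, hf1, hf2, hn1, hn2, hr⟩ := d.cls02 hS h h2 h12 hl2
  have hn3 := d.l3_eq h
  have hns := d.n_sum
  have e01 := d.s01_mul
  have e02 := d.s02_mul
  have e12 := d.s12_mul
  have e13 := d.s13_mul
  have e23 := d.s23_mul
  have hβ := d.hβ
  have huv : (d.u - 2 * d.v) * (3 * d.u - 2 * d.v) = 0 := by
    have hh : d.u ^ 2 = 4 * (d.u - d.v) ^ 2 := by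
      rw [← e01, ← e12, h1, hcl]
      ring
    linear_combination -hh
  by_cases k1 : d.s13 = d.s02
  · exfalso
    by_cases k2 : d.s23 = d.s02
    · rw [ind_pos k1, ind_pos k2] at hr
      have htc := d.tri_c
      rcases hf1 with hf1 | hf1 <;> rcases hf2 with hf2 | hf2 <;> rw [hf1, hf2] at hr
      · linarith
      · linarith
      · linarith
      · linarith
    · rw [ind_pos k1, ind_neg k2] at hr
      rcases hf1 with hf1 | hf1
      · rw [hf1] at hr hn1
        have hbc : d.b = d.c := by linarith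
        have hp : 0 ≤ d.n1 := by
          rw [hn1, one_mul]
          exact abs_nonneg _
        have hsq : d.n1 ^ 2 = d.l2 ^ 2 := by
          rw [d.n1_sq, d.l2_sq, k1, h, hbc]
        have hn1' := only01_aux hp hl2 hsq
        have hn2z : d.n2 = 0 := by linarith
        unfold n2 at hn2z
        have hb2 : d.b = 2 * d.l := by rw [hbc, hcl]
        have hβ' : 2 * d.β = 7 * d.l ^ 2 := by
          rw [hβ, hb2, hcl]; ring
        have hl2p : 0 < d.l ^ 2 := by positivity
        have hk : d.l ^ 2 * (8 * (d.u - d.a) - 7 * (d.v - d.a)) = 0 := by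
          rw [hb2] at hn2z
          linear_combination -2 * hn2z + (d.v - d.a) * hβ'
        have hk' : 8 * (d.u - d.a) - 7 * (d.v - d.a) = 0 :=
          (mul_eq_zero.1 hk).resolve_left hl2p.ne'
        have hv : (d.u - d.a) ^ 2 = d.v ^ 2 := by
          rw [← e13, ← e02, k1, hbc]
        rcases mul_eq_zero.1 huv with hh | hh
        · have h9 : d.a = 9 * d.v := by linarith
          have hu : d.u = 2 * d.v := by linarith
          rw [h9, hu] at hv
          have h0 : d.v ^ 2 = 0 := by linear_combination hv / 48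
          have h00 : d.v = 0 := pow_eq_zero_iff two_ne_zero |>.1 h0
          rw [h00] at h9
          linarith
        · have h9 : 2 * d.a = -5 * d.u := by linarith
          have hv' : 2 * d.v = 3 * d.u := by linarith
          have h0 : d.u ^ 2 = 0 := by
            linear_combination (1 / 10 : ℝ) * hv + (1 / 40 : ℝ) * (2 * d.v + 3 * d.u) * hv' -
              (1 / 40 : ℝ) * (2 * d.a - 5 * d.u - 4 * d.u) * h9
          have h00 : d.u = 0 := pow_eq_zero_iff two_ne_zero |>.1 h0
          rw [h00] at h9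
          linarith
      · rw [hf1] at hr
        linarith
  · by_cases k2 : d.s23 = d.s02
    · rw [ind_neg k1, ind_pos k2] at hr
      rcases hf2 with hf2 | hf2
      · rw [hf2] at hn2
        have hp : 0 ≤ d.n2 := by
          rw [hn2, one_mul]
          exact abs_nonneg _
        have hsq : d.n2 ^ 2 = d.l2 ^ 2 := by
          rw [d.n2_sq, d.l2_sq, k2, h]
        have hn2' := only01_aux hp hl2 hsq
        have hn1z : d.n1 = 0 := by linarith
        unfold n1 at hn1z
        have hv : (d.v - d.a) ^ 2 = d.v ^ 2 := by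
          rw [← e23, ← e02, k2]
        have hv2 : 2 * d.v = d.a := by
          have hh : d.a * (d.a - 2 * d.v) = 0 := by linear_combination hv
          have := (mul_eq_zero.1 hh).resolve_left ha.ne'
          linarith
        rcases mul_eq_zero.1 huv with hh | hh
        · exfalso
          have hu : d.u - d.a = 0 := by linarith
          rw [hu] at hn1z
          have hc2 : 0 < d.c ^ 2 := by positivity
          have hh2 : d.a * d.c ^ 2 = 0 := by
            linear_combination 2 * hn1z + d.c ^ 2 * hv2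
          have := mul_pos ha hc2
          linarith
        · have hu : 3 * d.u = d.a := by linarith
          have hβc : d.a * (4 * d.β - 3 * d.c ^ 2) = 0 := by
            linear_combination -6 * hn1z - 3 * d.c ^ 2 * hv2 + 2 * d.β * hu
          have hβc' : 4 * d.β - 3 * d.c ^ 2 = 0 := (mul_eq_zero.1 hβc).resolve_left ha.ne'
          refine ⟨hcl, ?_, hv2, Or.inl hu⟩
          rw [hcl] at hβc' hβ
          linear_combination (1 / 2 : ℝ) * hβc' - hβ
      · rw [hf2] at hr
        linarith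
    · exfalso
      rw [ind_neg k1, ind_neg k2] at hr
      linarith

end Pool.Agent.Helper22.ST.Dat1
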