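import Pool.Agent.Helper22.ST.C05Eq

/-!
# ST-C07: vertical edge, equal gradients, two edges with the slope of `12` (memo 5.2)

`both1` (`01` and `13`): `cls12`: `2 l = e1 c + f1 c`: `e1 = f1 = 1`, `c = l`; `l1 ≥ 0`, `l1² = l3²`: `l1 = -l3`, so `l2 = 0`;
 `n1 = -n3 = -l3`, `n2 = 0`.  `s01 = s13`: `u² = (u - a)²`: `2 u = a`.  `s01 = s12`: `u² = (u - v)²`: `v = 0`, then
 `l2 = u b² ≠ 0`, no; or `v = 2 u = a`, then `n2 = -(u - a) b² ≠ 0`, no.
`cross` (`01` and `23`): `cls12`: `2 l = e1 c + f2 b`: `e1 = f2 = 1` (`tri_b`, `tri_c`: `|c - b| < l`), `b + c = 2 l`.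
 With `ρ = -l3 / l > 0`: `l1 = c ρ`, `l2 = (l - c) ρ`, `n2 = b ρ`, `n1 = (l - b) ρ = (c - l) ρ`.
 Suppose `c ≠ l`.  `groupI` at `s02` (`s02 ≠ s12 = s01 = s23` by `not_L`): `l2 + ind (s13 = s02) n1 = 0`, `l2 ≠ 0`:
 `s13 = s02`; `l2² = n1² ≠ 0` and `l2_sq`, `n1_sq`: `b = c`, so `c = l`.  Contradiction.  So `b = c = l`, `l2 = n1 = 0`,
 `2 β = l²`: `v = 2 u`, `u - a = 2 (v - a)`: `3 u = a`, `3 v = 2 a`: `C1`.
-/

open Real Set

namespace Pool.Agent.Helper22.ST.Dat1

variable (d : Dat1)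

theorem both1 (hS : d.St) (h : d.gL = d.gU) (h1 : d.s01 = d.s12) (h3 : d.s13 = d.s12) : False := by
  obtain ⟨e1, e2, f1, f2, he1, he2, hf1, hf2, hl1, hl2, hn1, hn2, hs⟩ := d.cls12 hS h
  have hl := d.lp
  have hc := d.cp
  have hb := d.bp
  have ha := d.ap
  have g2 : ¬ (d.s02 = d.s12) := fun h2 => d.not_L h ⟨h1, h2⟩
  have g4 : ¬ (d.s23 = d.s12) := fun h4 => d.not_U h ⟨h3, h4⟩
  rw [ind_pos h1, ind_neg g2, ind_pos h3, ind_neg g4] at hs
  have hcl : d.c = d.l ∧ e1 = 1 ∧ f1 = 1 := by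
    rcases he1 with rfl | rfl <;> rcases hf1 with rfl | rfl
    · exact ⟨by linarith, rfl, rfl⟩
    · exfalso; linarith
    · exfalso; linarith
    · exfalso; linarith
  obtain ⟨hcl, rfl, rfl⟩ := hcl
  have hl3 := d.l3_neg h
  have hn3 := d.l3_eq h
  have p1 : 0 ≤ d.l1 := by
    rw [hl1, one_mul]
    exact abs_nonneg _
  have p2 : 0 ≤ d.n1 := by
    rw [hn1, one_mul]
    exact abs_nonneg _
  have q1 : d.l1 ^ 2 = d.l3 ^ 2 := by
    rw [d.l1_sq, d.l3_sq, h1, hcl]
  have q2 : d.n1 ^ 2 = d.l3 ^ 2 := by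
    rw [d.n1_sq, d.l3_sq, h3, hcl, h]
  have r1 : d.l1 = -d.l3 := by
    have : (d.l1 + d.l3) * (d.l1 - d.l3) = 0 := by linear_combination q1
    rcases mul_eq_zero.1 this with h5 | h5
    · linarith
    · exfalso; linarith
  have r2 : d.n1 = -d.l3 := by
    have : (d.n1 + d.l3) * (d.n1 - d.l3) = 0 := by linear_combination q2
    rcases mul_eq_zero.1 this with h5 | h5
    · linarith
    · exfalso; linarith
  have t1 : d.l2 = 0 := by
    have := d.l_sum
    linarith
  have t2 : d.n2 = 0 := by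
    have := d.n_sum
    linarith
  have u1 : 2 * d.u = d.a := by
    have e1 := d.s01_mul
    have e2 := d.s13_mul
    rw [h1] at e1
    rw [h3] at e2
    have : d.a * (2 * d.u - d.a) = 0 := by linear_combination e2 - e1
    rcases mul_eq_zero.1 this with h5 | h5
    · exfalso; linarith
    · linarith
  have u2 : d.v = 0 ∨ d.v = 2 * d.u := by
    have e1 := d.s01_mul
    have e2 := d.s12_mul
    rw [h1, hcl] at e1
    have : d.v * (2 * d.u - d.v) = 0 := by linear_combination e2 - e1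
    rcases mul_eq_zero.1 this with h5 | h5
    · exact Or.inl h5
    · right; linarith
  have hb2 : 0 < d.b ^ 2 := by positivity
  rcases u2 with u2 | u2
  · have : d.u * d.b ^ 2 = 0 := by
      have h6 : d.u * d.b ^ 2 - d.v * d.β = 0 := t1
      rw [u2] at h6
      linarith
    rcases mul_eq_zero.1 this with h5 | h5
    · linarith
    · linarith
  · have : (d.u - d.a) * d.b ^ 2 = 0 := by
      have h6 : -((d.u - d.a) * d.b ^ 2 - (d.v - d.a) * d.β) = 0 := t2
      rw [u2, u1] at h6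
      linarith
    rcases mul_eq_zero.1 this with h5 | h5
    · linarith
    · linarith

theorem cross (hS : d.St) (h : d.gL = d.gU) (h1 : d.s01 = d.s12) (h4 : d.s23 = d.s12) : d.C1 := by
  obtain ⟨e1, e2, f1, f2, he1, he2, hf1, hf2, hl1, hl2, hn1, hn2, hs⟩ := d.cls12 hS h
  have hl := d.lp
  have hc := d.cp
  have hb := d.bp
  have ha := d.ap
  have g2 : ¬ (d.s02 = d.s12) := fun h2 => d.not_L h ⟨h1, h2⟩
  have g3 : ¬ (d.s13 = d.s12) := fun h3 => d.not_U h ⟨h3, h4⟩
  rw [ind_pos h1, ind_neg g2, ind_neg g3, ind_pos h4] at hs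
  have tb := d.tri_b
  have tc := d.tri_c
  have hcl : d.b + d.c = 2 * d.l ∧ e1 = 1 ∧ f2 = 1 := by
    rcases he1 with rfl | rfl <;> rcases hf2 with rfl | rfl
    · exact ⟨by linarith, rfl, rfl⟩
    · exfalso; linarith
    · exfalso; linarith
    · exfalso; linarith
  obtain ⟨hbc, rfl, rfl⟩ := hcl
  have hl3 := d.l3_neg h
  have hn3 := d.l3_eq h
  have p1 : 0 ≤ d.l1 := by
    rw [hl1, one_mul]
    exact abs_nonneg _
  have p2 : 0 ≤ d.n2 := by
    rw [hn2, one_mul]
    exact abs_nonneg _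
  have q1 : (d.l1 * d.l) ^ 2 = (d.l3 * d.c) ^ 2 := by
    rw [mul_pow, mul_pow, d.l1_sq, d.l3_sq, h1]
    ring
  have q2 : (d.n2 * d.l) ^ 2 = (d.l3 * d.b) ^ 2 := by
    rw [mul_pow, mul_pow, d.n2_sq, d.l3_sq, h4, h]
    ring
  have r1 : d.l1 * d.l = -(d.l3 * d.c) := by
    have : (d.l1 * d.l + d.l3 * d.c) * (d.l1 * d.l - d.l3 * d.c) = 0 := by linear_combination q1
    rcases mul_eq_zero.1 this with h5 | h5
    · linarith
    · have h6 : 0 ≤ d.l1 * d.l := mul_nonneg p1 hl.le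
      have h7 : d.l3 * d.c < 0 := mul_neg_of_neg_of_pos hl3 hc
      exfalso; linarith
  have r2 : d.n2 * d.l = -(d.l3 * d.b) := by
    have : (d.n2 * d.l + d.l3 * d.b) * (d.n2 * d.l - d.l3 * d.b) = 0 := by linear_combination q2
    rcases mul_eq_zero.1 this with h5 | h5
    · linarith
    · have h6 : 0 ≤ d.n2 * d.l := mul_nonneg p2 hl.le
      have h7 : d.l3 * d.b < 0 := mul_neg_of_neg_of_pos hl3 hb
      exfalso; linarith
  have ls := d.l_sum
  have ns := d.n_sum
  have t1 : d.l2 * d.l = d.l3 * (d.c - d.l) := by linear_combination d.l * ls - r1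
  have t2 : d.n1 * d.l = d.l3 * (d.l - d.c) := by
    linear_combination d.l * ns - r2 - d.l * hn3 + d.l3 * hbc
  have hceq : d.c = d.l := by
    by_contra hne
    have hl2 : d.l2 ≠ 0 := by
      intro h5
      rw [h5, zero_mul] at t1
      rcases mul_eq_zero.1 t1.symm with h6 | h6
      · linarith
      · exact hne (by linarith)
    have hg := d.groupI hS h d.s02
    have k1 : ¬ (d.s01 = d.s02) := fun h5 => g2 (h5.symm.trans h1)
    have k2 : ¬ (d.s12 = d.s02) := fun h5 => g2 h5.symm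
    have k3 : ¬ (d.s23 = d.s02) := fun h5 => g2 (h5.symm.trans h4)
    rw [ind_neg k1, ind_pos rfl, ind_neg k2, ind_neg k3] at hg
    have k4 : d.s13 = d.s02 := by
      by_contra h5
      rw [ind_neg h5] at hg
      exact hl2 (by linarith)
    have m1 := d.l2_sq
    have m2 := d.n1_sq
    rw [k4, ← h] at m2
    rw [ind_pos k4] at hg
    have m3 : d.l2 ^ 2 = d.n1 ^ 2 := by
      have : d.l2 = -d.n1 := by linarith
      rw [this]
      ring
    have m4 : (d.b ^ 2 - d.c ^ 2) * (d.δ ^ 2 * (d.gL - d.s02)) = 0 := by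
      linear_combination m3 - m1 + m2
    rcases mul_eq_zero.1 m4 with h5 | h5
    · have : (d.b - d.c) * (d.b + d.c) = 0 := by linear_combination h5
      rcases mul_eq_zero.1 this with h6 | h6
      · exact hne (by linarith)
      · linarith
    · have : d.l2 ^ 2 = 0 := by
        rw [m1]
        linear_combination d.b ^ 2 * h5
      exact hl2 (pow_eq_zero_iff (two_ne_zero) |>.1 this)
  have hbeq : d.b = d.l := by linarith
  have t3 : d.l2 = 0 := by
    rw [hceq, sub_self, mul_zero] at t1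
    exact (mul_eq_zero.1 t1).resolve_right hl.ne'
  have t4 : d.n1 = 0 := by
    rw [hceq, sub_self, mul_zero] at t2
    exact (mul_eq_zero.1 t2).resolve_right hl.ne'
  have hβ : 2 * d.β = d.l ^ 2 := by
    rw [d.hβ, hbeq, hceq]
    ring
  have hl2pos : 0 < d.l ^ 2 := by positivity
  have w1 : d.v = 2 * d.u := by
    have h6 : d.u * d.b ^ 2 - d.v * d.β = 0 := t3
    rw [hbeq] at h6
    have : (2 * d.u - d.v) * d.l ^ 2 = 0 := by linear_combination 2 * h6 + d.v * hβ
    rcases mul_eq_zero.1 this with h5 | h5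
    · linarith
    · linarith
  have w2 : 2 * (d.v - d.a) = d.u - d.a := by
    have h6 : -((d.v - d.a) * d.c ^ 2 - (d.u - d.a) * d.β) = 0 := t4
    rw [hceq] at h6
    have : (2 * (d.v - d.a) - (d.u - d.a)) * d.l ^ 2 = 0 := by
      linear_combination (-2) * h6 + (d.u - d.a) * hβ
    rcases mul_eq_zero.1 this with h5 | h5
    · linarith
    · linarith
  exact ⟨hbeq.trans hceq.symm, hceq, Or.inl ⟨by linarith, by linarith⟩⟩

end Pool.Agent.Helper22.ST.Dat1
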