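import Pool.Agent.Helper22.ST.C02Sym
import Pool.Agent.Helper22.ST.C04Diff
import Pool.Agent.Helper22.ST.C06Only01
import Pool.Agent.Helper22.ST.C07Two

/-!
# ST-C08: the classification with a vertical edge

`gL ≠ gU`: `diff`.  `gL = gU`: cases on `s01 = s12`, `s02 = s12`, `s13 = s12`, `s23 = s12`:
none: `cls12` says `2 l = 0`, no.  Only `01`: `only01`.  Only `02`: `only01` for `d.swap`, `swap_C2`.
Only `13`: `only01` for `d.flip`, `flip_C2`.  Only `23`: `only01` for `d.flip.swap`.  `01` and `02`: `not_L`; `13` and `23`: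
`not_U`.  `01` and `13`: `both1`; `02` and `23`: `both1` for `d.swap`; `01` and `23`: `cross`; `02` and `13`: `cross` for `d.swap`.
(All `swap_*`, `flip_*` are rewriting rules.)
-/

open Real Set

namespace Pool.Agent.Helper22.ST.Dat1

variable (d : Dat1)

theorem classify (hS : d.St) : d.C1 ∨ d.C3 ∨ d.C2 ∨ d.C2' := by
  by_cases h : d.gL = d.gU
  swap
  · rcases d.diff hS h with h1 | h3
    · exact Or.inl h1
    · exact Or.inr (Or.inl h3)
  have hsw : d.swap.gL = d.swap.gU := by rw [swap_gL, swap_gU, h]
  have hfl : d.flip.gL = d.flip.gU := by rw [flip_gL, flip_gU, h]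
  have hfs : d.flip.swap.gL = d.flip.swap.gU := by rw [swap_gL, swap_gU, flip_gL, flip_gU, h]
  have Ssw := d.swap_St hS
  have Sfl := d.flip_St hS
  have Sfs := d.flip.swap_St Sfl
  by_cases h01 : d.s01 = d.s12
  · have h02 : d.s02 ≠ d.s12 := fun q => d.not_L h ⟨h01, q⟩
    by_cases h13 : d.s13 = d.s12
    · exact (d.both1 hS h h01 h13).elim
    · by_cases h23 : d.s23 = d.s12
      · exact Or.inl (d.cross hS h h01 h23)
      · exact Or.inr (Or.inr (Or.inl (d.only01 hS h h01 h02 h13 h23)))
  · by_cases h02 : d.s02 = d.s12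
    · by_cases h23 : d.s23 = d.s12
      · refine (d.swap.both1 Ssw hsw ?_ ?_).elim
        · rw [swap_s01, swap_s12, h02]
        · rw [swap_s13, swap_s12, h23]
      · by_cases h13 : d.s13 = d.s12
        · refine Or.inl (d.swap_C1 (d.swap.cross Ssw hsw ?_ ?_))
          · rw [swap_s01, swap_s12, h02]
          · rw [swap_s23, swap_s12, h13]
        · refine Or.inr (Or.inr (Or.inr (d.swap_C2 (d.swap.only01 Ssw hsw ?_ ?_ ?_ ?_))))
          · rw [swap_s01, swap_s12, h02]
          · rw [swap_s02, swap_s12]
            exact h01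
          · rw [swap_s13, swap_s12]
            exact h23
          · rw [swap_s23, swap_s12]
            exact h13
    · by_cases h13 : d.s13 = d.s12
      · have h23 : d.s23 ≠ d.s12 := fun q => d.not_U h ⟨h13, q⟩
        refine Or.inr (Or.inr (Or.inl (d.flip_C2 (d.flip.only01 Sfl hfl ?_ ?_ ?_ ?_))))
        · rw [flip_s01, flip_s12, h13]
        · rw [flip_s02, flip_s12]
          exact h23
        · rw [flip_s13, flip_s12]
          exact h01
        · rw [flip_s23, flip_s12]
          exact h02
      · by_cases h23 : d.s23 = d.s12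
        · refine Or.inr (Or.inr (Or.inr (d.flip_C2' (d.flip.swap_C2
            (d.flip.swap.only01 Sfs hfs ?_ ?_ ?_ ?_)))))
          · rw [swap_s01, flip_s02, swap_s12, flip_s12, h23]
          · rw [swap_s02, flip_s01, swap_s12, flip_s12]
            exact h13
          · rw [swap_s13, flip_s23, swap_s12, flip_s12]
            exact h02
          · rw [swap_s23, flip_s13, swap_s12, flip_s12]
            exact h01
        · exfalso
          obtain ⟨e1, e2, f1, f2, -, -, -, -, -, -, -, -, hr⟩ := d.cls12 hS h
          rw [ind_neg h01, ind_neg h02, ind_neg h13, ind_neg h23] at hr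
          have := d.lp
          linarith

end Pool.Agent.Helper22.ST.Dat1
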