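import Pool.Agent.Helper22.ST.D00Sim

/-!
# ST-D03: sorting

`sorted_dat`: `w1 < w2 < w3`.  `m_ij = (t j - t i)/(w j - w i)`, `y_ij = t i - m_ij w i`, `r i = √(1 + w i²)`.
The condition says `m12 ≠ m23` (indeed `(t2 - t1)(w3 - w1) - (t3 - t1)(w2 - w1) = (m12 - m23)(w2 - w1)(w3 - w2)`).
If `m12 < m23` take the data as they are, `σ = 1`, `t = k = 1`.  If `m12 > m23` take `-t i` and `k = -1`.
`sort_dat`: six orders; in each case a permutation `σ` of `Fin 4` fixing `0` with `σ 1, σ 2, σ 3` the indices in increasing order of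
`w`; `Sim3` with `t = k = 1` to the sorted tuple (`fin_cases i; fin_cases j; simp`), then `sorted_dat`, `Sim3.trans`.
The condition of `sorted_dat` is antisymmetric in the indices.
-/

open Real Set
open Pool.Agent.Helper1.Tet

namespace Pool.Agent.Helper22.ST

private theorem D03Sort_mk (w1 w2 w3 t1 t2 t3 : ℝ) (h12 : w1 < w2) (h23 : w2 < w3)
    (h : (t2 - t1) / (w2 - w1) < (t3 - t2) / (w3 - w2)) :
    ∃ d : Dat, d.xx = ![0, w1, w2, w3] ∧ d.zz = ![0, t1, t2, t3] := by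
  have e12 : w2 - w1 ≠ 0 := (sub_pos.2 h12).ne'
  have e23 : w3 - w2 ≠ 0 := (sub_pos.2 h23).ne'
  have e13 : w3 - w1 ≠ 0 := (sub_pos.2 (h12.trans h23)).ne'
  have hp : ∀ w : ℝ, 0 < 1 + w ^ 2 := fun w => by positivity
  refine ⟨{ w1 := w1, w2 := w2, w3 := w3, t1 := t1, t2 := t2, t3 := t3
            m12 := (t2 - t1) / (w2 - w1)
            m13 := (t3 - t1) / (w3 - w1)
            m23 := (t3 - t2) / (w3 - w2)
            y12 := t1 - (t2 - t1) / (w2 - w1) * w1
            y13 := t1 - (t3 - t1) / (w3 - w1) * w1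
            y23 := t2 - (t3 - t2) / (w3 - w2) * w2
            r1 := √(1 + w1 ^ 2), r2 := √(1 + w2 ^ 2), r3 := √(1 + w3 ^ 2)
            w12 := h12
            w23 := h23
            a1 := by ring
            a2 := by field_simp; ring
            b1 := by ring
            b3 := by field_simp; ring
            c2 := by ring
            c3 := by field_simp; ring
            hm := h
            r1p := Real.sqrt_pos.2 (hp w1)
            r2p := Real.sqrt_pos.2 (hp w2)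
            r3p := Real.sqrt_pos.2 (hp w3)
            r1q := Real.sq_sqrt (hp w1).le
            r2q := Real.sq_sqrt (hp w2).le
            r3q := Real.sq_sqrt (hp w3).le }, rfl, rfl⟩

theorem sorted_dat (w1 w2 w3 t1 t2 t3 : ℝ) (h12 : w1 < w2) (h23 : w2 < w3)
    (h : (t2 - t1) * (w3 - w1) ≠ (t3 - t1) * (w2 - w1)) :
    ∃ d : Dat, Sim3 ![0, w1, w2, w3] yy ![0, t1, t2, t3] d.xx yy d.zz := by
  have p12 : 0 < w2 - w1 := sub_pos.2 h12
  have p23 : 0 < w3 - w2 := sub_pos.2 h23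
  have hne : (t2 - t1) / (w2 - w1) ≠ (t3 - t2) / (w3 - w2) := by
    intro he
    rw [div_eq_div_iff p12.ne' p23.ne'] at he
    apply h
    linear_combination he
  rcases lt_or_gt_of_ne hne with hlt | hgt
  · obtain ⟨d, hx, hz⟩ := D03Sort_mk w1 w2 w3 t1 t2 t3 h12 h23 hlt
    refine ⟨d, ?_⟩
    rw [hx, hz]
    exact ⟨1, 1, 1, one_pos, one_ne_zero, fun i j => ⟨by simp, by simp⟩⟩
  · have hlt : ((-t2) - (-t1)) / (w2 - w1) < ((-t3) - (-t2)) / (w3 - w2) := by
      have e1 : ((-t2) - (-t1)) / (w2 - w1) = -((t2 - t1) / (w2 - w1)) := by ring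
      have e2 : ((-t3) - (-t2)) / (w3 - w2) = -((t3 - t2) / (w3 - w2)) := by ring
      rw [e1, e2]
      exact neg_lt_neg hgt
    obtain ⟨d, hx, hz⟩ := D03Sort_mk w1 w2 w3 (-t1) (-t2) (-t3) h12 h23 hlt
    refine ⟨d, ?_⟩
    rw [hx, hz]
    have hneg : ∀ i, (![0, -t1, -t2, -t3] : Fin 4 → ℝ) i = -((![0, t1, t2, t3] : Fin 4 → ℝ) i) := by
      intro i
      fin_cases i <;> simp
    refine ⟨1, 1, -1, one_pos, by norm_num, fun i j => ⟨by simp, ?_⟩⟩
    rw [hneg, hneg, Equiv.Perm.one_apply, Equiv.Perm.one_apply]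
    ring

private theorem D03Sort_perm {w1 w2 w3 t1 t2 t3 v1 v2 v3 s1 s2 s3 : ℝ} (σ : Equiv.Perm (Fin 4))
    (hx : (![0, w1, w2, w3] : Fin 4 → ℝ) ∘ σ = ![0, v1, v2, v3]) (hy : yy ∘ σ = yy)
    (hz : (![0, t1, t2, t3] : Fin 4 → ℝ) ∘ σ = ![0, s1, s2, s3])
    (h : ∃ d : Dat, Sim3 ![0, v1, v2, v3] yy ![0, s1, s2, s3] d.xx yy d.zz) :
    ∃ d : Dat, Sim3 ![0, w1, w2, w3] yy ![0, t1, t2, t3] d.xx yy d.zz := by
  obtain ⟨d, hd⟩ := h
  refine ⟨d, Sim3.trans ?_ hd⟩
  have h1 := Sim3.perm ![0, w1, w2, w3] yy ![0, t1, t2, t3] σ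
  rwa [hx, hy, hz] at h1

theorem sort_dat (w1 w2 w3 t1 t2 t3 : ℝ) (h12 : w1 ≠ w2) (h23 : w2 ≠ w3) (h13 : w1 ≠ w3)
    (h : (t2 - t1) * (w3 - w1) ≠ (t3 - t1) * (w2 - w1)) :
    ∃ d : Dat, Sim3 ![0, w1, w2, w3] yy ![0, t1, t2, t3] d.xx yy d.zz := by
  rcases lt_or_gt_of_ne h12 with a | a <;> rcases lt_or_gt_of_ne h23 with b | b
  · exact sorted_dat w1 w2 w3 t1 t2 t3 a b h
  · rcases lt_or_gt_of_ne h13 with c | c
    · -- 1 3 2
      refine D03Sort_perm (Equiv.swap 2 3) ?_ ?_ ?_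
        (sorted_dat w1 w3 w2 t1 t3 t2 c b (fun he => h (by linear_combination -he)))
      all_goals
        funext i
        fin_cases i <;> rfl
    · -- 3 1 2
      refine D03Sort_perm (Equiv.swap 1 2 * Equiv.swap 1 3) ?_ ?_ ?_
        (sorted_dat w3 w1 w2 t3 t1 t2 c a (fun he => h (by linear_combination he)))
      all_goals
        funext i
        fin_cases i <;> rfl
  · rcases lt_or_gt_of_ne h13 with c | c
    · -- 2 1 3
      refine D03Sort_perm (Equiv.swap 1 2) ?_ ?_ ?_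
        (sorted_dat w2 w1 w3 t2 t1 t3 a c (fun he => h (by linear_combination -he)))
      all_goals
        funext i
        fin_cases i <;> rfl
    · -- 2 3 1
      refine D03Sort_perm (Equiv.swap 1 2 * Equiv.swap 2 3) ?_ ?_ ?_
        (sorted_dat w2 w3 w1 t2 t3 t1 b c (fun he => h (by linear_combination he)))
      all_goals
        funext i
        fin_cases i <;> rfl
  · -- 3 2 1
    refine D03Sort_perm (Equiv.swap 1 3) ?_ ?_ ?_
      (sorted_dat w3 w2 w1 t3 t2 t1 b a (fun he => h (by linear_combination -he)))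
    all_goals
      funext i
      fin_cases i <;> rfl

end Pool.Agent.Helper22.ST
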