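import Pool.Agent.Helper22.ST.D02NormII
import Pool.Agent.Helper22.ST.D03Sort

/-!
# ST-D04: normal form without vertical edges, assembly

`relabel0`: for `σ = Equiv.swap 0 v`: `fin_cases v`; `cr (x ∘ σ) (y ∘ σ) 0 = ± cr x y v`, `dt (x ∘ σ) (y ∘ σ) (z ∘ σ) = ± dt x y z`
(unfold, `simp`, `ring`); the new `PP` are the old ones in another order.
`normII`: relabel (`Sim3.perm`), `line_form`, `sort_dat`, `Sim3.trans`.
-/

open Real Set
open Pool.Agent.Helper1.Tet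

namespace Pool.Agent.Helper22.ST

private theorem D04_hor (x y : Fin 4 → ℝ) (hne : ∀ j, PP x y j ≠ 0) :
    ∀ i j : Fin 4, i ≠ j → hor x y i j ≠ 0 := by
  have hs : ∀ i j, hor x y i j = hor x y j i := by
    intro i j
    unfold hor
    ring
  have h01 : hor x y 0 1 ≠ 0 := hne 0
  have h02 : hor x y 0 2 ≠ 0 := hne 1
  have h03 : hor x y 0 3 ≠ 0 := hne 2
  have h12 : hor x y 1 2 ≠ 0 := hne 3
  have h13 : hor x y 1 3 ≠ 0 := hne 4
  have h23 : hor x y 2 3 ≠ 0 := hne 5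
  have h10 : hor x y 1 0 ≠ 0 := by rw [hs]; exact h01
  have h20 : hor x y 2 0 ≠ 0 := by rw [hs]; exact h02
  have h30 : hor x y 3 0 ≠ 0 := by rw [hs]; exact h03
  have h21 : hor x y 2 1 ≠ 0 := by rw [hs]; exact h12
  have h31 : hor x y 3 1 ≠ 0 := by rw [hs]; exact h13
  have h32 : hor x y 3 2 ≠ 0 := by rw [hs]; exact h23
  intro i j hij
  fin_cases i <;> fin_cases j <;> first
    | exact absurd rfl hij
    | assumption

private theorem D04_PP (x y : Fin 4 → ℝ) (hne : ∀ j, PP x y j ≠ 0) (σ : Equiv.Perm (Fin 4)) :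
    ∀ j, PP (x ∘ σ) (y ∘ σ) j ≠ 0 := by
  intro j
  have h : ea j ≠ eb j := by
    fin_cases j <;> decide
  exact D04_hor x y hne (σ (ea j)) (σ (eb j)) (fun e => h (σ.injective e))

private theorem D04_cr (x y : Fin 4 → ℝ) (v : Fin 4) (hv : cr x y v = 0) :
    cr (x ∘ Equiv.swap 0 v) (y ∘ Equiv.swap 0 v) 0 = 0 := by
  have s0 : Equiv.swap (0 : Fin 4) v 0 = v := Equiv.swap_apply_left 0 v
  fin_cases v
  · have h : Equiv.swap (0 : Fin 4) 0 = 1 := Equiv.swap_self 0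
    show cr (x ∘ Equiv.swap (0 : Fin 4) 0) (y ∘ Equiv.swap (0 : Fin 4) 0) 0 = 0
    rw [h]
    exact hv
  · have a0 : Equiv.swap (0 : Fin 4) 1 0 = 1 := by decide
    have a1 : Equiv.swap (0 : Fin 4) 1 1 = 0 := by decide
    have a2 : Equiv.swap (0 : Fin 4) 1 2 = 2 := by decide
    have a3 : Equiv.swap (0 : Fin 4) 1 3 = 3 := by decide
    change (x 2 - x 0) * (y 3 - y 0) - (y 2 - y 0) * (x 3 - x 0) = 0 at hv
    show -(((x (Equiv.swap (0 : Fin 4) 1 2) - x (Equiv.swap (0 : Fin 4) 1 0)) *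
        (y (Equiv.swap (0 : Fin 4) 1 3) - y (Equiv.swap (0 : Fin 4) 1 0)) -
        (y (Equiv.swap (0 : Fin 4) 1 2) - y (Equiv.swap (0 : Fin 4) 1 0)) *
        (x (Equiv.swap (0 : Fin 4) 1 3) - x (Equiv.swap (0 : Fin 4) 1 0))) +
      ((x (Equiv.swap (0 : Fin 4) 1 3) - x (Equiv.swap (0 : Fin 4) 1 0)) *
        (y (Equiv.swap (0 : Fin 4) 1 1) - y (Equiv.swap (0 : Fin 4) 1 0)) -
        (y (Equiv.swap (0 : Fin 4) 1 3) - y (Equiv.swap (0 : Fin 4) 1 0)) *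
        (x (Equiv.swap (0 : Fin 4) 1 1) - x (Equiv.swap (0 : Fin 4) 1 0))) +
      ((x (Equiv.swap (0 : Fin 4) 1 1) - x (Equiv.swap (0 : Fin 4) 1 0)) *
        (y (Equiv.swap (0 : Fin 4) 1 2) - y (Equiv.swap (0 : Fin 4) 1 0)) -
        (y (Equiv.swap (0 : Fin 4) 1 1) - y (Equiv.swap (0 : Fin 4) 1 0)) *
        (x (Equiv.swap (0 : Fin 4) 1 2) - x (Equiv.swap (0 : Fin 4) 1 0)))) = 0
    rw [a0, a1, a2, a3]
    linear_combination -hv
  · have a0 : Equiv.swap (0 : Fin 4) 2 0 = 2 := by decide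
    have a1 : Equiv.swap (0 : Fin 4) 2 1 = 1 := by decide
    have a2 : Equiv.swap (0 : Fin 4) 2 2 = 0 := by decide
    have a3 : Equiv.swap (0 : Fin 4) 2 3 = 3 := by decide
    change (x 3 - x 0) * (y 1 - y 0) - (y 3 - y 0) * (x 1 - x 0) = 0 at hv
    show -(((x (Equiv.swap (0 : Fin 4) 2 2) - x (Equiv.swap (0 : Fin 4) 2 0)) *
        (y (Equiv.swap (0 : Fin 4) 2 3) - y (Equiv.swap (0 : Fin 4) 2 0)) -
        (y (Equiv.swap (0 : Fin 4) 2 2) - y (Equiv.swap (0 : Fin 4) 2 0)) *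
        (x (Equiv.swap (0 : Fin 4) 2 3) - x (Equiv.swap (0 : Fin 4) 2 0))) +
      ((x (Equiv.swap (0 : Fin 4) 2 3) - x (Equiv.swap (0 : Fin 4) 2 0)) *
        (y (Equiv.swap (0 : Fin 4) 2 1) - y (Equiv.swap (0 : Fin 4) 2 0)) -
        (y (Equiv.swap (0 : Fin 4) 2 3) - y (Equiv.swap (0 : Fin 4) 2 0)) *
        (x (Equiv.swap (0 : Fin 4) 2 1) - x (Equiv.swap (0 : Fin 4) 2 0))) +
      ((x (Equiv.swap (0 : Fin 4) 2 1) - x (Equiv.swap (0 : Fin 4) 2 0)) *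
        (y (Equiv.swap (0 : Fin 4) 2 2) - y (Equiv.swap (0 : Fin 4) 2 0)) -
        (y (Equiv.swap (0 : Fin 4) 2 1) - y (Equiv.swap (0 : Fin 4) 2 0)) *
        (x (Equiv.swap (0 : Fin 4) 2 2) - x (Equiv.swap (0 : Fin 4) 2 0)))) = 0
    rw [a0, a1, a2, a3]
    linear_combination -hv
  · have a0 : Equiv.swap (0 : Fin 4) 3 0 = 3 := by decide
    have a1 : Equiv.swap (0 : Fin 4) 3 1 = 1 := by decide
    have a2 : Equiv.swap (0 : Fin 4) 3 2 = 2 := by decide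
    have a3 : Equiv.swap (0 : Fin 4) 3 3 = 0 := by decide
    change (x 1 - x 0) * (y 2 - y 0) - (y 1 - y 0) * (x 2 - x 0) = 0 at hv
    show -(((x (Equiv.swap (0 : Fin 4) 3 2) - x (Equiv.swap (0 : Fin 4) 3 0)) *
        (y (Equiv.swap (0 : Fin 4) 3 3) - y (Equiv.swap (0 : Fin 4) 3 0)) -
        (y (Equiv.swap (0 : Fin 4) 3 2) - y (Equiv.swap (0 : Fin 4) 3 0)) *
        (x (Equiv.swap (0 : Fin 4) 3 3) - x (Equiv.swap (0 : Fin 4) 3 0))) +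
      ((x (Equiv.swap (0 : Fin 4) 3 3) - x (Equiv.swap (0 : Fin 4) 3 0)) *
        (y (Equiv.swap (0 : Fin 4) 3 1) - y (Equiv.swap (0 : Fin 4) 3 0)) -
        (y (Equiv.swap (0 : Fin 4) 3 3) - y (Equiv.swap (0 : Fin 4) 3 0)) *
        (x (Equiv.swap (0 : Fin 4) 3 1) - x (Equiv.swap (0 : Fin 4) 3 0))) +
      ((x (Equiv.swap (0 : Fin 4) 3 1) - x (Equiv.swap (0 : Fin 4) 3 0)) *
        (y (Equiv.swap (0 : Fin 4) 3 2) - y (Equiv.swap (0 : Fin 4) 3 0)) -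
        (y (Equiv.swap (0 : Fin 4) 3 1) - y (Equiv.swap (0 : Fin 4) 3 0)) *
        (x (Equiv.swap (0 : Fin 4) 3 2) - x (Equiv.swap (0 : Fin 4) 3 0)))) = 0
    rw [a0, a1, a2, a3]
    linear_combination -hv

private theorem D04_dtf (x y z : Fin 4 → ℝ) : dt x y z =
    (x 1 - x 0) * ((y 2 - y 0) * (z 3 - z 0) - (z 2 - z 0) * (y 3 - y 0)) +
    (y 1 - y 0) * ((z 2 - z 0) * (x 3 - x 0) - (x 2 - x 0) * (z 3 - z 0)) +
    (z 1 - z 0) * ((x 2 - x 0) * (y 3 - y 0) - (y 2 - y 0) * (x 3 - x 0)) := rfl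

private theorem D04_dt (x y z : Fin 4 → ℝ) (v : Fin 4) (hd : dt x y z ≠ 0) :
    dt (x ∘ Equiv.swap 0 v) (y ∘ Equiv.swap 0 v) (z ∘ Equiv.swap 0 v) ≠ 0 := by
  rw [D04_dtf] at hd
  rw [D04_dtf]
  simp only [Function.comp_apply]
  intro he
  apply hd
  fin_cases v
  · have a0 : Equiv.swap (0 : Fin 4) 0 0 = 0 := by decide
    have a1 : Equiv.swap (0 : Fin 4) 0 1 = 1 := by decide
    have a2 : Equiv.swap (0 : Fin 4) 0 2 = 2 := by decide
    have a3 : Equiv.swap (0 : Fin 4) 0 3 = 3 := by decide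
    simp only [Fin.zero_eta, a0, a1, a2, a3] at he
    linear_combination he
  · have a0 : Equiv.swap (0 : Fin 4) 1 0 = 1 := by decide
    have a1 : Equiv.swap (0 : Fin 4) 1 1 = 0 := by decide
    have a2 : Equiv.swap (0 : Fin 4) 1 2 = 2 := by decide
    have a3 : Equiv.swap (0 : Fin 4) 1 3 = 3 := by decide
    simp only [Fin.mk_one, a0, a1, a2, a3] at he
    linear_combination -he
  · have a0 : Equiv.swap (0 : Fin 4) 2 0 = 2 := by decide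
    have a1 : Equiv.swap (0 : Fin 4) 2 1 = 1 := by decide
    have a2 : Equiv.swap (0 : Fin 4) 2 2 = 0 := by decide
    have a3 : Equiv.swap (0 : Fin 4) 2 3 = 3 := by decide
    simp only [Fin.reduceFinMk, a0, a1, a2, a3] at he
    linear_combination -he
  · have a0 : Equiv.swap (0 : Fin 4) 3 0 = 3 := by decide
    have a1 : Equiv.swap (0 : Fin 4) 3 1 = 1 := by decide
    have a2 : Equiv.swap (0 : Fin 4) 3 2 = 2 := by decide
    have a3 : Equiv.swap (0 : Fin 4) 3 3 = 0 := by decide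
    simp only [Fin.reduceFinMk, a0, a1, a2, a3] at he
    linear_combination -he

theorem relabel0 (x y z : Fin 4 → ℝ) (hd : dt x y z ≠ 0) (v : Fin 4) (hv : cr x y v = 0)
    (hne : ∀ j, PP x y j ≠ 0) : ∃ σ : Equiv.Perm (Fin 4), dt (x ∘ σ) (y ∘ σ) (z ∘ σ) ≠ 0 ∧
      cr (x ∘ σ) (y ∘ σ) 0 = 0 ∧ ∀ j, PP (x ∘ σ) (y ∘ σ) j ≠ 0 :=
  ⟨Equiv.swap 0 v, D04_dt x y z v hd, D04_cr x y v hv, D04_PP x y hne _⟩

theorem normII (x y z : Fin 4 → ℝ) (hd : dt x y z ≠ 0) (v : Fin 4) (hv : cr x y v = 0)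
    (hne : ∀ j, PP x y j ≠ 0) : ∃ d : Dat, Sim3 x y z d.xx yy d.zz := by
  obtain ⟨σ, h1, h2, h3⟩ := relabel0 x y z hd v hv hne
  obtain ⟨w1, w2, w3, t1, t2, t3, a12, a23, a13, hc, hs⟩ := line_form _ _ _ h1 h2 h3
  obtain ⟨d, hd'⟩ := sort_dat w1 w2 w3 t1 t2 t3 a12 a23 a13 hc
  exact ⟨d, ((Sim3.perm x y z σ).trans hs).trans hd'⟩

end Pool.Agent.Helper22.ST
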