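import Pool.Agent.Helper22.ST.D00Sim

/-!
# ST-D05: normal form with a vertical edge

`normI_03`: `x 3 = x 0`, `y 3 = y 0`, so `cr x y 1 = cr x y 2 = 0` and `dt x y z = (z 3 - z 0) cr x y 3`.
Put `B = P 1 - P 0`, `C = P 2 - P 0` (horizontal parts), `c = |B|`, `b = |C|`, `l = |B - C|`, `β = B·C`,
`δ = |B × C| = |cr x y 3| ≠ 0` (so `b, c, l > 0`), `a = z 3 - z 0`, `u = z 1 - z 0`, `v = z 2 - z 0`.  Lagrange: `δ² = b² c² - β²`.
`Sim3` with `σ = 1`, `t = k = 1`: `hor` of the normal form: `01`: `c²`, `02`: `(β² + δ²)/c² = b²`, `12`: `(c - β/c)² + δ²/c² = l²`.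
`normI`: an edge `j` with `PP x y j = 0`; its ends have different heights (otherwise two vertices coincide and `dt = 0`); relabel by a
permutation `σ` with `σ 0` the lower and `σ 3` the higher end (12 cases: `fin_cases j`, order of the ends), `Sim3.perm`,
`dt (x ∘ σ) (y ∘ σ) (z ∘ σ) = ± dt x y z`.
-/

open Real Set
open Pool.Agent.Helper1.Tet

namespace Pool.Agent.Helper22.ST

private theorem d05_symm (x y : Fin 4 → ℝ) (i j : Fin 4) : hor x y i j = hor x y j i := by
  unfold hor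
  ring

private theorem d05_self (x y : Fin 4 → ℝ) (i : Fin 4) : hor x y i i = 0 := by
  unfold hor
  ring

private theorem d05_swap (x y z : Fin 4 → ℝ) (i j : Fin 4) (h : i ≠ j) :
    dt (x ∘ Equiv.swap i j) (y ∘ Equiv.swap i j) (z ∘ Equiv.swap i j) = -dt x y z := by
  fin_cases i <;> fin_cases j <;> first
    | exact absurd rfl h
    | (simp [dt, cr, Equiv.swap_apply_def]; ring)

private theorem d05_perm (σ : Equiv.Perm (Fin 4)) : ∀ x y z : Fin 4 → ℝ, dt x y z ≠ 0 →
    dt (x ∘ σ) (y ∘ σ) (z ∘ σ) ≠ 0 := by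
  refine Equiv.Perm.swap_induction_on σ ?_ ?_
  · intro x y z h
    exact h
  · intro f i j hij ih x y z h
    have h1 := ih (x ∘ Equiv.swap i j) (y ∘ Equiv.swap i j) (z ∘ Equiv.swap i j) (by
      rw [d05_swap x y z i j hij]
      exact neg_ne_zero.2 h)
    exact h1

theorem normI_03 (x y z : Fin 4 → ℝ) (hd : dt x y z ≠ 0) (h : hor x y 0 3 = 0) (hz : z 0 < z 3) :
    ∃ d : Dat1, Sim3 x y z d.x1 d.y1 d.z1 := by
  have hx : x 3 = x 0 := by
    unfold hor at h
    nlinarith [sq_nonneg (x 0 - x 3), sq_nonneg (y 0 - y 3)]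
  have hy : y 3 = y 0 := by
    unfold hor at h
    nlinarith [sq_nonneg (x 0 - x 3), sq_nonneg (y 0 - y 3)]
  obtain ⟨p, hp⟩ : ∃ p, p = x 1 - x 0 := ⟨_, rfl⟩
  obtain ⟨q, hq⟩ : ∃ q, q = y 1 - y 0 := ⟨_, rfl⟩
  obtain ⟨r, hr⟩ : ∃ r, r = x 2 - x 0 := ⟨_, rfl⟩
  obtain ⟨t, ht⟩ : ∃ t, t = y 2 - y 0 := ⟨_, rfl⟩
  have hD : p * t - q * r ≠ 0 := by
    intro h0
    apply hd
    have e : dt x y z = (p * t - q * r) * (z 3 - z 0) := by
      simp only [dt, cr, Matrix.cons_val_one, Matrix.cons_val_zero, hx, hy, hp, hq, hr, ht]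
      ring
    rw [e, h0, zero_mul]
  have hc : 0 < p ^ 2 + q ^ 2 := by
    rcases (add_nonneg (sq_nonneg p) (sq_nonneg q)).lt_or_eq with h0 | h0
    · exact h0
    · exfalso
      apply hD
      have h1 : p = 0 := by nlinarith [sq_nonneg p, sq_nonneg q]
      have h2 : q = 0 := by nlinarith [sq_nonneg p, sq_nonneg q]
      rw [h1, h2]
      ring
  have hb : 0 < r ^ 2 + t ^ 2 := by
    rcases (add_nonneg (sq_nonneg r) (sq_nonneg t)).lt_or_eq with h0 | h0
    · exact h0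
    · exfalso
      apply hD
      have h1 : r = 0 := by nlinarith [sq_nonneg r, sq_nonneg t]
      have h2 : t = 0 := by nlinarith [sq_nonneg r, sq_nonneg t]
      rw [h1, h2]
      ring
  have hl : 0 < (p - r) ^ 2 + (q - t) ^ 2 := by
    rcases (add_nonneg (sq_nonneg (p - r)) (sq_nonneg (q - t))).lt_or_eq with h0 | h0
    · exact h0
    · exfalso
      apply hD
      have h1 : p - r = 0 := by nlinarith [sq_nonneg (p - r), sq_nonneg (q - t)]
      have h2 : q - t = 0 := by nlinarith [sq_nonneg (p - r), sq_nonneg (q - t)]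
      have h3 : p = r := by linarith
      have h4 : q = t := by linarith
      rw [h3, h4]
      ring
  obtain ⟨d, hdc, hdb, hdl, hdβ, hdδ, hda, hdu, hdv⟩ : ∃ d : Dat1, d.c = √(p ^ 2 + q ^ 2) ∧
      d.b = √(r ^ 2 + t ^ 2) ∧ d.l = √((p - r) ^ 2 + (q - t) ^ 2) ∧ d.β = p * r + q * t ∧
      d.δ = |p * t - q * r| ∧ d.a = z 3 - z 0 ∧ d.u = z 1 - z 0 ∧ d.v = z 2 - z 0 := by
    refine ⟨{ b := √(r ^ 2 + t ^ 2), c := √(p ^ 2 + q ^ 2), l := √((p - r) ^ 2 + (q - t) ^ 2),
              a := z 3 - z 0, u := z 1 - z 0, v := z 2 - z 0, β := p * r + q * t,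
              δ := |p * t - q * r|, bp := Real.sqrt_pos.2 hb, cp := Real.sqrt_pos.2 hc,
              lp := Real.sqrt_pos.2 hl, ap := sub_pos.2 hz, δp := abs_pos.2 hD,
              hβ := ?_, hδ := ?_ }, rfl, rfl, rfl, rfl, rfl, rfl, rfl, rfl⟩
    · rw [Real.sq_sqrt hb.le, Real.sq_sqrt hc.le, Real.sq_sqrt hl.le]
      ring
    · rw [Real.sq_sqrt hb.le, Real.sq_sqrt hc.le, sq_abs]
      ring
  have cp := d.cp
  have h01 : hor x y 0 1 = hor d.x1 d.y1 0 1 := by
    have e : hor d.x1 d.y1 0 1 = d.c ^ 2 := by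
      simp [hor, Dat1.x1, Dat1.y1]
    rw [e, hdc, Real.sq_sqrt hc.le, hp, hq]
    unfold hor
    ring
  have h02 : hor x y 0 2 = hor d.x1 d.y1 0 2 := by
    have e : hor d.x1 d.y1 0 2 = d.b ^ 2 := by
      have e1 : hor d.x1 d.y1 0 2 = (d.β / d.c) ^ 2 + (d.δ / d.c) ^ 2 := by
        simp [hor, Dat1.x1, Dat1.y1]
      rw [e1, div_pow, div_pow, ← add_div, d.hδ, div_eq_iff (by positivity)]
      ring
    rw [e, hdb, Real.sq_sqrt hb.le, hr, ht]
    unfold hor
    ring
  have h12 : hor x y 1 2 = hor d.x1 d.y1 1 2 := by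
    have e : hor d.x1 d.y1 1 2 = d.l ^ 2 := by
      have e1 : hor d.x1 d.y1 1 2 = (d.c - d.β / d.c) ^ 2 + (d.δ / d.c) ^ 2 := by
        simp [hor, Dat1.x1, Dat1.y1]
      have e2 : (d.δ / d.c) ^ 2 = d.b ^ 2 - (d.β / d.c) ^ 2 := by
        rw [div_pow, div_pow, d.hδ]
        field_simp
      have e3 : d.c * (d.β / d.c) = d.β := by
        field_simp
      rw [e1, e2]
      linear_combination (-2) * e3 - d.hβ
    rw [e, hdl, Real.sq_sqrt hl.le, hp, hq, hr, ht]
    unfold hor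
    ring
  have hx1 : d.x1 3 = d.x1 0 := by simp [Dat1.x1]
  have hy1 : d.y1 3 = d.y1 0 := by simp [Dat1.y1]
  have g3 : ∀ i, hor x y i 3 = hor x y i 0 := by
    intro i
    unfold hor
    rw [hx, hy]
  have g3' : ∀ i, hor d.x1 d.y1 i 3 = hor d.x1 d.y1 i 0 := by
    intro i
    unfold hor
    rw [hx1, hy1]
  have k0 : ∀ i, hor x y i 0 = hor d.x1 d.y1 i 0 := by
    intro i
    fin_cases i
    · exact (d05_self x y 0).trans (d05_self _ _ 0).symm
    · exact (d05_symm x y 1 0).trans (h01.trans (d05_symm _ _ 0 1))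
    · exact (d05_symm x y 2 0).trans (h02.trans (d05_symm _ _ 0 2))
    · exact (d05_symm x y 3 0).trans ((g3 0).trans ((d05_self x y 0).trans
        ((d05_self _ _ 0).symm.trans ((g3' 0).symm.trans (d05_symm _ _ 0 3)))))
  have k1 : ∀ i, hor x y i 1 = hor d.x1 d.y1 i 1 := by
    intro i
    fin_cases i
    · exact h01
    · exact (d05_self x y 1).trans (d05_self _ _ 1).symm
    · exact (d05_symm x y 2 1).trans (h12.trans (d05_symm _ _ 1 2))
    · exact (d05_symm x y 3 1).trans ((g3 1).trans ((k0 1).trans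
        ((g3' 1).symm.trans (d05_symm _ _ 1 3))))
  have k2 : ∀ i, hor x y i 2 = hor d.x1 d.y1 i 2 := by
    intro i
    fin_cases i
    · exact h02
    · exact h12
    · exact (d05_self x y 2).trans (d05_self _ _ 2).symm
    · exact (d05_symm x y 3 2).trans ((g3 2).trans ((k0 2).trans
        ((g3' 2).symm.trans (d05_symm _ _ 2 3))))
  have kz : ∀ i, z i - z 0 = d.z1 i := by
    intro i
    fin_cases i
    · simp [Dat1.z1]
    · exact hdu.symm
    · exact hdv.symm
    · exact hda.symm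
  refine ⟨d, 1, 1, 1, one_pos, one_ne_zero, fun i j => ⟨?_, ?_⟩⟩
  · rw [one_pow, one_mul]
    show hor x y i j = hor d.x1 d.y1 i j
    fin_cases j
    · exact k0 i
    · exact k1 i
    · exact k2 i
    · exact (g3 i).trans ((k0 i).trans (g3' i).symm)
  · rw [one_mul]
    show z i - z j = d.z1 i - d.z1 j
    rw [← kz i, ← kz j]
    ring

theorem normI (x y z : Fin 4 → ℝ) (hd : dt x y z ≠ 0) (j : Fin 6) (hj : PP x y j = 0) :
    ∃ d : Dat1, Sim3 x y z d.x1 d.y1 d.z1 := by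
  have main : ∀ i k : Fin 4, i ≠ k → hor x y i k = 0 → z i < z k →
      ∃ d : Dat1, Sim3 x y z d.x1 d.y1 d.z1 := by
    intro i k hik h hz
    obtain ⟨σ, h0, h3⟩ : ∃ σ : Equiv.Perm (Fin 4), σ 0 = i ∧ σ 3 = k := by
      refine ⟨Equiv.swap 0 i * Equiv.swap 3 (Equiv.swap 0 i k), ?_, ?_⟩
      · have hm : (0 : Fin 4) ≠ Equiv.swap 0 i k := by
          intro h1
          have h2 := congrArg (Equiv.swap 0 i) h1
          rw [Equiv.swap_apply_self, Equiv.swap_apply_left] at h2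
          exact hik h2
        rw [Equiv.Perm.mul_apply, Equiv.swap_apply_of_ne_of_ne (by decide) hm,
          Equiv.swap_apply_left]
      · rw [Equiv.Perm.mul_apply, Equiv.swap_apply_left, Equiv.swap_apply_self]
    obtain ⟨d, hsim⟩ := normI_03 (x ∘ σ) (y ∘ σ) (z ∘ σ) (d05_perm σ x y z hd)
      (by
        show hor x y (σ 0) (σ 3) = 0
        rw [h0, h3]
        exact h)
      (by
        show z (σ 0) < z (σ 3)
        rw [h0, h3]
        exact hz)
    exact ⟨d, (Sim3.perm x y z σ).trans hsim⟩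
  have hne : ∀ i k : Fin 4, i ≠ k → hor x y i k = 0 → z i ≠ z k := by
    intro i k hik h hz
    have hx : x k = x i := by
      unfold hor at h
      nlinarith [sq_nonneg (x i - x k), sq_nonneg (y i - y k)]
    have hy : y k = y i := by
      unfold hor at h
      nlinarith [sq_nonneg (x i - x k), sq_nonneg (y i - y k)]
    obtain ⟨σ, h0, h3⟩ : ∃ σ : Equiv.Perm (Fin 4), σ 0 = i ∧ σ 3 = k := by
      refine ⟨Equiv.swap 0 i * Equiv.swap 3 (Equiv.swap 0 i k), ?_, ?_⟩
      · have hm : (0 : Fin 4) ≠ Equiv.swap 0 i k := by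
          intro h1
          have h2 := congrArg (Equiv.swap 0 i) h1
          rw [Equiv.swap_apply_self, Equiv.swap_apply_left] at h2
          exact hik h2
        rw [Equiv.Perm.mul_apply, Equiv.swap_apply_of_ne_of_ne (by decide) hm,
          Equiv.swap_apply_left]
      · rw [Equiv.Perm.mul_apply, Equiv.swap_apply_left, Equiv.swap_apply_self]
    refine d05_perm σ x y z hd ?_
    have e1 : (x ∘ σ) 3 = (x ∘ σ) 0 := by
      show x (σ 3) = x (σ 0)
      rw [h0, h3, hx]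
    have e2 : (y ∘ σ) 3 = (y ∘ σ) 0 := by
      show y (σ 3) = y (σ 0)
      rw [h0, h3, hy]
    have e3 : (z ∘ σ) 3 = (z ∘ σ) 0 := by
      show z (σ 3) = z (σ 0)
      rw [h0, h3, hz]
    simp only [dt, cr, Matrix.cons_val_one, Matrix.cons_val_zero, e1, e2, e3]
    ring
  have hj' : hor x y (ea j) (eb j) = 0 := hj
  have hjn0 : ∀ j : Fin 6, ea j ≠ eb j := by decide
  have hjn := hjn0 j
  rcases lt_or_gt_of_ne (hne _ _ hjn hj') with h1 | h1
  · exact main _ _ hjn hj' h1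
  · exact main _ _ hjn.symm ((d05_symm x y _ _).trans hj') h1

end Pool.Agent.Helper22.ST
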