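import Pool.Agent.Helper22.ST.D00Sim

/-!
# ST-D06: the star relations in the normal form without vertical edge

Coordinates: `P 0 = (0,0)`, `P i = (w_i, 1)`.  `cr xx yy 0 = 0`, `cr xx yy 1 = w2 - w3`, `cr xx yy 2 = w3 - w1`, `cr xx yy 3 = w1 - w2`.
With `κ = (w2 - w1)(w3 - w2)(m23 - m12) > 0` (and `(m13 - m12)(w3 - w1) = (m23 - m12)(w3 - w2)`,
`(m23 - m13)(w3 - w1) = (m23 - m12)(w2 - w1)`) the terms `gm j * G - qq' j` are, for `G` the squared gradient of the face: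
edge 0 = `01` (faces 2, 3): `κ u1` (face 2 = U), `κ p1` (face 3 = L1);
edge 1 = `02` (faces 1, 3): `κ q2` (face 1 = L2), `κ p2` (face 3 = L1);
edge 2 = `03` (faces 1, 2): `κ q3` (face 1 = L2), `κ u3` (face 2 = U);
edge 3 = `12` (faces 0, 3): `κ p0` (face 3);  edge 4 = `13` (faces 0, 2): `κ u0` (face 2);
edge 5 = `23` (faces 0, 1): `κ q0` (face 1); the face 0 does not contribute (`cr = 0`).
`QQ 1 = G2 (cr 1)²`, `QQ 2 = GU (cr 2)²`, `QQ 3 = G1 (cr 3)²`.  `PP, ZZ` of the edges: `(r1², t1²)`, `(r2², t2²)`, `(r3², t3²)`,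
`((w1-w2)², (t1-t2)²)`, ...  So `tm .. s G v j = κ * ind (slope² = s ∧ gradient² = G) (term)` for the nine pairs
(`ind_congr`, `ind_mul`), and `Star` at `(s, G)` is `κ` times `St` at `(s, G)`.
It is convenient to first prove the nine lemmas for the values of the terms (`unfold`, `simp`, substitute
`t1 = m12 w1 + y12` etc., `field_simp`/`linear_combination`), best after eliminating `m13, y13, m23, y23, t3, ...`:
e.g. all in terms of `w1, w2, w3, m12, y12, m23` with `t1 = m12 w1 + y12`, `t2 = m12 w2 + y12`, `y23 = t2 - m23 w2`,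
`t3 = m23 w3 + y23`, `m13 (w3 - w1) = t3 - t1`, `y13 = t1 - m13 w1`.
-/

open Real Set
open Pool.Agent.Helper1.Tet

namespace Pool.Agent.Helper22.ST

private theorem tmL {x y z : Fin 4 → ℝ} {s G : ℝ} {v : Fin 4} {j : Fin 6} {p : Prop} {κ val : ℝ}
    (h : (cr x y v ≠ 0 ∧ ZZ z j = s * PP x y j ∧ QQ x y z v = G * cr x y v ^ 2) ↔ p)
    (hv : p → gm x y j * G - qq' x y z j = κ * val) : tm x y z s G v j = κ * ind p val := by
  unfold tm
  by_cases hp : p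
  · rw [ind_pos (h.2 hp), ind_pos hp, hv hp]
  · rw [ind_neg (fun hq => hp (h.1 hq)), ind_neg hp, mul_zero]

private theorem tm0 {x y z : Fin 4 → ℝ} {s G : ℝ} {v : Fin 4} {j : Fin 6}
    (h : cr x y v = 0) : tm x y z s G v j = 0 := by
  unfold tm
  exact ind_neg (fun hq => hq.1 h) _

private theorem condL {c Q G Z P s A B : ℝ} (hc : c ≠ 0) (hQ : Q = B * c ^ 2) (hP : P ≠ 0)
    (hZ : Z = A * P) : (c ≠ 0 ∧ Z = s * P ∧ Q = G * c ^ 2) ↔ (A = s ∧ B = G) := by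
  subst hQ hZ
  have hc2 : c ^ 2 ≠ 0 := pow_ne_zero 2 hc
  constructor
  · rintro ⟨-, h1, h2⟩
    exact ⟨mul_right_cancel₀ hP h1, mul_right_cancel₀ hc2 h2⟩
  · rintro ⟨h1, h2⟩
    exact ⟨hc, by rw [h1], by rw [h2]⟩

private theorem cxy0 (d : Dat) : cr d.xx yy 0 = 0 := by
  simp [cr, Dat.xx, yy]
private theorem cxy1 (d : Dat) : cr d.xx yy 1 = d.w2 - d.w3 := by
  simp [cr, Dat.xx, yy]
private theorem cxy2 (d : Dat) : cr d.xx yy 2 = d.w3 - d.w1 := by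
  simp [cr, Dat.xx, yy]
private theorem cxy3 (d : Dat) : cr d.xx yy 3 = d.w1 - d.w2 := by
  simp [cr, Dat.xx, yy]
private theorem cyz0 (d : Dat) : cr yy d.zz 0 = 0 := by
  simp [cr, Dat.zz, yy]
private theorem cyz1 (d : Dat) : cr yy d.zz 1 = -d.m23 * (d.w2 - d.w3) := by
  have h1 := d.c2
  have h2 := d.c3
  simp [cr, Dat.zz, yy]
  linear_combination h2 - h1
private theorem cyz2 (d : Dat) : cr yy d.zz 2 = -d.m13 * (d.w3 - d.w1) := by
  have h1 := d.b1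
  have h2 := d.b3
  simp [cr, Dat.zz, yy]
  linear_combination h1 - h2
private theorem cyz3 (d : Dat) : cr yy d.zz 3 = -d.m12 * (d.w1 - d.w2) := by
  have h1 := d.a1
  have h2 := d.a2
  simp [cr, Dat.zz, yy]
  linear_combination h2 - h1
private theorem czx1 (d : Dat) : cr d.zz d.xx 1 = -d.y23 * (d.w2 - d.w3) := by
  have h1 := d.c2
  have h2 := d.c3
  simp [cr, Dat.zz, Dat.xx]
  linear_combination d.w3 * h1 - d.w2 * h2
private theorem czx2 (d : Dat) : cr d.zz d.xx 2 = -d.y13 * (d.w3 - d.w1) := by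
  have h1 := d.b1
  have h2 := d.b3
  simp [cr, Dat.zz, Dat.xx]
  linear_combination d.w1 * h2 - d.w3 * h1
private theorem czx3 (d : Dat) : cr d.zz d.xx 3 = -d.y12 * (d.w1 - d.w2) := by
  have h1 := d.a1
  have h2 := d.a2
  simp [cr, Dat.zz, Dat.xx]
  linear_combination d.w2 * h1 - d.w1 * h2

/-- the common factor -/
private def kap (d : Dat) : ℝ := (d.w2 - d.w1) * (d.w3 - d.w2) * (d.m23 - d.m12)

private theorem kap_pos (d : Dat) : 0 < kap d :=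
  mul_pos (mul_pos (sub_pos.2 d.w12) (sub_pos.2 d.w23)) (sub_pos.2 d.hm)

private theorem rel1 (d : Dat) : d.y13 - d.y12 = -(d.m13 - d.m12) * d.w1 := by
  linear_combination d.a1 - d.b1
private theorem rel2 (d : Dat) : d.y23 - d.y12 = -(d.m23 - d.m12) * d.w2 := by
  linear_combination d.a2 - d.c2
private theorem rel3 (d : Dat) : d.y23 - d.y13 = -(d.m23 - d.m13) * d.w3 := by
  linear_combination d.b3 - d.c3
private theorem rel4 (d : Dat) :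
    (d.m13 - d.m12) * (d.w3 - d.w1) = (d.m23 - d.m12) * (d.w3 - d.w2) := by
  linear_combination rel2 d - rel1 d - rel3 d
private theorem rel5 (d : Dat) :
    (d.m23 - d.m13) * (d.w3 - d.w1) = (d.m23 - d.m12) * (d.w2 - d.w1) := by
  linear_combination -rel4 d

private theorem czx0 (d : Dat) : cr d.zz d.xx 0 = kap d := by
  have h : cr d.zz d.xx 0 = -(cr d.zz d.xx 1 + cr d.zz d.xx 2 + cr d.zz d.xx 3) := by
    simp [cr]
  rw [h, czx1, czx2, czx3, kap]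
  linear_combination (d.w3 - d.w1) * rel1 d + (d.w2 - d.w3) * rel2 d - d.w1 * rel4 d

theorem dt_dat (d : Dat) : dt d.xx yy d.zz ≠ 0 := by
  have h : dt d.xx yy d.zz = -kap d := by
    unfold dt
    rw [cyz1, czx1, cxy1, kap]
    simp [Dat.xx, yy, Dat.zz]
    linear_combination (d.w2 - d.w3) * d.a1 - (d.w2 - d.w3) * rel2 d
  rw [h]
  exact neg_ne_zero.2 (kap_pos d).ne'

theorem star_dat (d : Dat) (h : Star d.xx yy d.zz) : d.St := by
  intro s G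
  have hw12 := d.w12
  have hw23 := d.w23
  have n1 : cr d.xx yy 1 ≠ 0 := by rw [cxy1]; exact sub_ne_zero.2 d.w23.ne
  have n2 : cr d.xx yy 2 ≠ 0 := by rw [cxy2]; exact sub_ne_zero.2 (d.w12.trans d.w23).ne'
  have n3 : cr d.xx yy 3 ≠ 0 := by rw [cxy3]; exact sub_ne_zero.2 d.w12.ne
  have Q1 : QQ d.xx yy d.zz 1 = d.G2 * cr d.xx yy 1 ^ 2 := by
    unfold QQ Dat.G2; rw [cyz1, czx1, cxy1]; ring
  have Q2 : QQ d.xx yy d.zz 2 = d.GU * cr d.xx yy 2 ^ 2 := by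
    unfold QQ Dat.GU; rw [cyz2, czx2, cxy2]; ring
  have Q3 : QQ d.xx yy d.zz 3 = d.G1 * cr d.xx yy 3 ^ 2 := by
    unfold QQ Dat.G1; rw [cyz3, czx3, cxy3]; ring
  have P0 : PP d.xx yy 0 = d.r1 ^ 2 := by
    rw [d.r1q]; simp [PP, ea, eb, Dat.xx, yy]; ring
  have P1 : PP d.xx yy 1 = d.r2 ^ 2 := by
    rw [d.r2q]; simp [PP, ea, eb, Dat.xx, yy]; ring
  have P2 : PP d.xx yy 2 = d.r3 ^ 2 := by
    rw [d.r3q]; simp [PP, ea, eb, Dat.xx, yy]; ring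
  have P3 : PP d.xx yy 3 = (d.w1 - d.w2) ^ 2 := by
    simp [PP, ea, eb, Dat.xx, yy]
  have P4 : PP d.xx yy 4 = (d.w1 - d.w3) ^ 2 := by
    simp [PP, ea, eb, Dat.xx, yy]
  have P5 : PP d.xx yy 5 = (d.w2 - d.w3) ^ 2 := by
    simp [PP, ea, eb, Dat.xx, yy]
  have N0 : PP d.xx yy 0 ≠ 0 := by rw [P0]; exact pow_ne_zero 2 d.r1p.ne'
  have N1 : PP d.xx yy 1 ≠ 0 := by rw [P1]; exact pow_ne_zero 2 d.r2p.ne'
  have N2 : PP d.xx yy 2 ≠ 0 := by rw [P2]; exact pow_ne_zero 2 d.r3p.ne'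
  have N3 : PP d.xx yy 3 ≠ 0 := by rw [P3]; exact pow_ne_zero 2 (sub_ne_zero.2 d.w12.ne)
  have N4 : PP d.xx yy 4 ≠ 0 := by
    rw [P4]; exact pow_ne_zero 2 (sub_ne_zero.2 (d.w12.trans d.w23).ne)
  have N5 : PP d.xx yy 5 ≠ 0 := by rw [P5]; exact pow_ne_zero 2 (sub_ne_zero.2 d.w23.ne)
  have Z0 : ZZ d.zz 0 = d.s1 * PP d.xx yy 0 := by
    have := d.r1p.ne'
    rw [P0]; simp [ZZ, ea, eb, Dat.zz, Dat.s1]; field_simp
  have Z1 : ZZ d.zz 1 = d.s2 * PP d.xx yy 1 := by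
    have := d.r2p.ne'
    rw [P1]; simp [ZZ, ea, eb, Dat.zz, Dat.s2]; field_simp
  have Z2 : ZZ d.zz 2 = d.s3 * PP d.xx yy 2 := by
    have := d.r3p.ne'
    rw [P2]; simp [ZZ, ea, eb, Dat.zz, Dat.s3]; field_simp
  have Z3 : ZZ d.zz 3 = d.m12 ^ 2 * PP d.xx yy 3 := by
    have e : ZZ d.zz 3 = (d.t1 - d.t2) ^ 2 := by simp [ZZ, ea, eb, Dat.zz]
    rw [P3, e, d.a1, d.a2]; ring
  have Z4 : ZZ d.zz 4 = d.m13 ^ 2 * PP d.xx yy 4 := by
    have e : ZZ d.zz 4 = (d.t1 - d.t3) ^ 2 := by simp [ZZ, ea, eb, Dat.zz]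
    rw [P4, e, d.b1, d.b3]; ring
  have Z5 : ZZ d.zz 5 = d.m23 ^ 2 * PP d.xx yy 5 := by
    have e : ZZ d.zz 5 = (d.t2 - d.t3) ^ 2 := by simp [ZZ, ea, eb, Dat.zz]
    rw [P5, e, d.c2, d.c3]; ring
  have e01 : ec 0 = 2 := rfl
  have e02 : ed 0 = 3 := rfl
  have e11 : ec 1 = 1 := rfl
  have e12 : ed 1 = 3 := rfl
  have e21 : ec 2 = 1 := rfl
  have e22 : ed 2 = 2 := rfl
  have e31 : ec 3 = 0 := rfl
  have e32 : ed 3 = 3 := rfl
  have e41 : ec 4 = 0 := rfl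
  have e42 : ed 4 = 2 := rfl
  have e51 : ec 5 = 0 := rfl
  have e52 : ed 5 = 1 := rfl
  have T02 : tm d.xx yy d.zz s G 2 0 = kap d * ind (d.s1 = s ∧ d.GU = G) d.u1 := by
    refine tmL (condL n2 Q2 N0 Z0) (fun hp => ?_)
    rw [← hp.2, gm, qq', e01, e02, cxy2, cxy3, cyz2, cyz3, czx2, czx3, kap, Dat.GU, Dat.u1]
    linear_combination (d.w3 - d.w1) * (d.w1 - d.w2) * d.y13 * rel1 d +
      (d.w1 - d.w2) * (d.m13 - d.y13 * d.w1) * rel4 d
  have T03 : tm d.xx yy d.zz s G 3 0 = kap d * ind (d.s1 = s ∧ d.G1 = G) d.p1 := by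
    refine tmL (condL n3 Q3 N0 Z0) (fun hp => ?_)
    rw [← hp.2, gm, qq', e01, e02, cxy2, cxy3, cyz2, cyz3, czx2, czx3, kap, Dat.G1, Dat.p1]
    linear_combination -(d.w3 - d.w1) * (d.w1 - d.w2) * d.y12 * rel1 d -
      (d.w1 - d.w2) * (d.m12 - d.y12 * d.w1) * rel4 d
  have T11 : tm d.xx yy d.zz s G 1 1 = kap d * ind (d.s2 = s ∧ d.G2 = G) d.q2 := by
    refine tmL (condL n1 Q1 N1 Z1) (fun hp => ?_)
    rw [← hp.2, gm, qq', e11, e12, cxy1, cxy3, cyz1, cyz3, czx1, czx3, kap, Dat.G2, Dat.q2]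
    linear_combination (d.w2 - d.w3) * (d.w1 - d.w2) * d.y23 * rel2 d
  have T13 : tm d.xx yy d.zz s G 3 1 = kap d * ind (d.s2 = s ∧ d.G1 = G) d.p2 := by
    refine tmL (condL n3 Q3 N1 Z1) (fun hp => ?_)
    rw [← hp.2, gm, qq', e11, e12, cxy1, cxy3, cyz1, cyz3, czx1, czx3, kap, Dat.G1, Dat.p2]
    linear_combination -(d.w2 - d.w3) * (d.w1 - d.w2) * d.y12 * rel2 d
  have T21 : tm d.xx yy d.zz s G 1 2 = kap d * ind (d.s3 = s ∧ d.G2 = G) d.q3 := by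
    refine tmL (condL n1 Q1 N2 Z2) (fun hp => ?_)
    rw [← hp.2, gm, qq', e21, e22, cxy1, cxy2, cyz1, cyz2, czx1, czx2, kap, Dat.G2, Dat.q3]
    linear_combination (d.w2 - d.w3) * (d.w3 - d.w1) * d.y23 * rel3 d +
      (d.w2 - d.w3) * (d.m23 - d.y23 * d.w3) * rel5 d
  have T22 : tm d.xx yy d.zz s G 2 2 = kap d * ind (d.s3 = s ∧ d.GU = G) d.u3 := by
    refine tmL (condL n2 Q2 N2 Z2) (fun hp => ?_)
    rw [← hp.2, gm, qq', e21, e22, cxy1, cxy2, cyz1, cyz2, czx1, czx2, kap, Dat.GU, Dat.u3]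
    linear_combination -(d.w2 - d.w3) * (d.w3 - d.w1) * d.y13 * rel3 d -
      (d.w2 - d.w3) * (d.m13 - d.y13 * d.w3) * rel5 d
  have T33 : tm d.xx yy d.zz s G 3 3 = kap d * ind (d.m12 ^ 2 = s ∧ d.G1 = G) d.p0 := by
    refine tmL (condL n3 Q3 N3 Z3) (fun hp => ?_)
    rw [gm, qq', e31, e32, cxy0, cxy3, cyz0, cyz3, czx0, czx3, Dat.p0]
    ring
  have T42 : tm d.xx yy d.zz s G 2 4 = kap d * ind (d.m13 ^ 2 = s ∧ d.GU = G) d.u0 := by
    refine tmL (condL n2 Q2 N4 Z4) (fun hp => ?_)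
    rw [gm, qq', e41, e42, cxy0, cxy2, cyz0, cyz2, czx0, czx2, Dat.u0]
    ring
  have T51 : tm d.xx yy d.zz s G 1 5 = kap d * ind (d.m23 ^ 2 = s ∧ d.G2 = G) d.q0 := by
    refine tmL (condL n1 Q1 N5 Z5) (fun hp => ?_)
    rw [gm, qq', e51, e52, cxy0, cxy1, cyz0, cyz1, czx0, czx1, Dat.q0]
    ring
  have hS := h s G
  rw [Fin.sum_univ_six, e01, e02, e11, e12, e21, e22, e31, e32, e41, e42, e51, e52,
    T02, T03, T11, T13, T21, T22, T33, T42, T51, tm0 (cxy0 d), tm0 (cxy0 d), tm0 (cxy0 d)] at hS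
  refine mul_left_cancel₀ (kap_pos d).ne' ?_
  rw [mul_zero, ← hS]
  ring

end Pool.Agent.Helper22.ST
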