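import Pool.Agent.Helper22.ST.D00Sim

/-!
# ST-D07: the star relations in the normal form with a vertical edge

`P 0 = P 3 = 0`, `P 1 = (c, 0)`, `P 2 = (β/c, δ/c)`; `cr x1 y1 1 = cr x1 y1 2 = 0`, `cr x1 y1 3 = δ`, `cr x1 y1 0 = -δ`.
The terms `gm j * G - qq' j` with `G` the squared gradient of the face (common factor `a > 0`):
edge 0 = `01`, face 3 = L: `a l1`;  edge 1 = `02`, face 3: `a l2`;  edge 3 = `12`, face 3: `a l3`, face 0 = U: `a n3`;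
edge 4 = `13`, face 0: `a n1`;  edge 5 = `23`, face 0: `a n2`; all other pairs have `cr = 0` (edge 2 = `03` does not contribute).
`QQ 3 = gL δ²`, `QQ 0 = gU δ²`.  `PP, ZZ`: `01`: `(c², u²)`, `02`: `(b², v²)`, `12`: `(l², (u-v)²)`, `13`: `(c², (u-a)²)`,
`23`: `(b², (v-a)²)` (use `hδ`, `hβ`).  So `Star` at `(s, G)` is `a` times `St` at `(s, G)` (`ind_congr`, `ind_mul`).
`dt_dat1`: `dt = a δ` up to sign.
-/

open Real Set
open Pool.Agent.Helper1.Tet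

namespace Pool.Agent.Helper22.ST

private theorem d07tmL {x y z : Fin 4 → ℝ} {s G : ℝ} {v : Fin 4} {j : Fin 6} {p : Prop} {κ val : ℝ}
    (h : (cr x y v ≠ 0 ∧ ZZ z j = s * PP x y j ∧ QQ x y z v = G * cr x y v ^ 2) ↔ p)
    (hv : p → gm x y j * G - qq' x y z j = κ * val) : tm x y z s G v j = κ * ind p val := by
  unfold tm
  by_cases hp : p
  · rw [ind_pos (h.2 hp), ind_pos hp, hv hp]
  · rw [ind_neg (fun hq => hp (h.1 hq)), ind_neg hp, mul_zero]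

private theorem d07tm0 {x y z : Fin 4 → ℝ} {s G : ℝ} {v : Fin 4} {j : Fin 6}
    (h : cr x y v = 0) : tm x y z s G v j = 0 := by
  unfold tm
  exact ind_neg (fun hq => hq.1 h) _

private theorem d07condL {c Q G Z P s A B : ℝ} (hc : c ≠ 0) (hQ : Q = B * c ^ 2) (hP : P ≠ 0)
    (hZ : Z = A * P) : (c ≠ 0 ∧ Z = s * P ∧ Q = G * c ^ 2) ↔ (A = s ∧ B = G) := by
  subst hQ hZ
  have hc2 : c ^ 2 ≠ 0 := pow_ne_zero 2 hc
  constructor
  · rintro ⟨-, h1, h2⟩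
    exact ⟨mul_right_cancel₀ hP h1, mul_right_cancel₀ hc2 h2⟩
  · rintro ⟨h1, h2⟩
    exact ⟨hc, by rw [h1], by rw [h2]⟩

private theorem d07xy0 (d : Dat1) : cr d.x1 d.y1 0 = -d.δ := by
  have hc := d.cp.ne'
  simp [cr, Dat1.x1, Dat1.y1]
  field_simp
private theorem d07xy1 (d : Dat1) : cr d.x1 d.y1 1 = 0 := by
  simp [cr, Dat1.x1, Dat1.y1]
private theorem d07xy2 (d : Dat1) : cr d.x1 d.y1 2 = 0 := by
  simp [cr, Dat1.x1, Dat1.y1]
private theorem d07xy3 (d : Dat1) : cr d.x1 d.y1 3 = d.δ := by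
  have hc := d.cp.ne'
  simp [cr, Dat1.x1, Dat1.y1]
  field_simp
private theorem d07yz0 (d : Dat1) : cr d.y1 d.z1 0 = (d.u - d.a) * d.δ / d.c := by
  have hc := d.cp.ne'
  simp [cr, Dat1.y1, Dat1.z1]
  ring
private theorem d07yz1 (d : Dat1) : cr d.y1 d.z1 1 = d.a * d.δ / d.c := by
  have hc := d.cp.ne'
  simp [cr, Dat1.y1, Dat1.z1]
  ring
private theorem d07yz2 (d : Dat1) : cr d.y1 d.z1 2 = 0 := by
  simp [cr, Dat1.y1, Dat1.z1]
private theorem d07yz3 (d : Dat1) : cr d.y1 d.z1 3 = -(d.u * d.δ / d.c) := by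
  have hc := d.cp.ne'
  simp [cr, Dat1.y1, Dat1.z1]
  ring
private theorem d07zx0 (d : Dat1) :
    cr d.z1 d.x1 0 = ((d.v - d.a) * d.c ^ 2 - (d.u - d.a) * d.β) / d.c := by
  have hc := d.cp.ne'
  simp [cr, Dat1.x1, Dat1.z1]
  field_simp
  ring
private theorem d07zx1 (d : Dat1) : cr d.z1 d.x1 1 = -(d.a * d.β / d.c) := by
  have hc := d.cp.ne'
  simp [cr, Dat1.x1, Dat1.z1]
  ring
private theorem d07zx2 (d : Dat1) : cr d.z1 d.x1 2 = d.a * d.c := by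
  simp [cr, Dat1.x1, Dat1.z1]
private theorem d07zx3 (d : Dat1) : cr d.z1 d.x1 3 = (d.u * d.β - d.v * d.c ^ 2) / d.c := by
  have hc := d.cp.ne'
  simp [cr, Dat1.x1, Dat1.z1]
  field_simp
  try ring

private theorem d07b (d : Dat1) : d.β ^ 2 + d.δ ^ 2 = d.b ^ 2 * d.c ^ 2 := by
  linear_combination d.hδ

theorem dt_dat1 (d : Dat1) : dt d.x1 d.y1 d.z1 ≠ 0 := by
  have h : dt d.x1 d.y1 d.z1 = d.a * d.δ := by
    have hc := d.cp.ne'
    unfold dt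
    rw [d07yz1, d07zx1, d07xy1]
    simp [Dat1.x1, Dat1.y1, Dat1.z1]
    field_simp
  rw [h]
  exact (mul_pos d.ap d.δp).ne'

theorem star_dat1 (d : Dat1) (h : Star d.x1 d.y1 d.z1) : d.St := by
  intro s G
  have hc := d.cp.ne'
  have hδ0 := d.δp.ne'
  have hb := d07b d
  have n0 : cr d.x1 d.y1 0 ≠ 0 := by rw [d07xy0]; exact neg_ne_zero.2 hδ0
  have n3 : cr d.x1 d.y1 3 ≠ 0 := by rw [d07xy3]; exact hδ0
  have Q3 : QQ d.x1 d.y1 d.z1 3 = d.gL * cr d.x1 d.y1 3 ^ 2 := by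
    unfold QQ Dat1.gL; rw [d07yz3, d07zx3, d07xy3]
    field_simp
    linear_combination d.u ^ 2 * hb
  have Q0 : QQ d.x1 d.y1 d.z1 0 = d.gU * cr d.x1 d.y1 0 ^ 2 := by
    unfold QQ Dat1.gU; rw [d07yz0, d07zx0, d07xy0]
    field_simp
    linear_combination (d.u - d.a) ^ 2 * hb
  have P0 : PP d.x1 d.y1 0 = d.c ^ 2 := by
    simp [PP, ea, eb, Dat1.x1, Dat1.y1]
  have P1 : PP d.x1 d.y1 1 = d.b ^ 2 := by
    simp [PP, ea, eb, Dat1.x1, Dat1.y1]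
    field_simp
    linear_combination hb
  have P3 : PP d.x1 d.y1 3 = d.l ^ 2 := by
    simp [PP, ea, eb, Dat1.x1, Dat1.y1]
    field_simp
    linear_combination hb - d.c ^ 2 * d.hβ
  have P4 : PP d.x1 d.y1 4 = d.c ^ 2 := by
    simp [PP, ea, eb, Dat1.x1, Dat1.y1]
  have P5 : PP d.x1 d.y1 5 = d.b ^ 2 := by
    simp [PP, ea, eb, Dat1.x1, Dat1.y1]
    field_simp
    linear_combination hb
  have N0 : PP d.x1 d.y1 0 ≠ 0 := by rw [P0]; exact pow_ne_zero 2 d.cp.ne'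
  have N1 : PP d.x1 d.y1 1 ≠ 0 := by rw [P1]; exact pow_ne_zero 2 d.bp.ne'
  have N3 : PP d.x1 d.y1 3 ≠ 0 := by rw [P3]; exact pow_ne_zero 2 d.lp.ne'
  have N4 : PP d.x1 d.y1 4 ≠ 0 := by rw [P4]; exact pow_ne_zero 2 d.cp.ne'
  have N5 : PP d.x1 d.y1 5 ≠ 0 := by rw [P5]; exact pow_ne_zero 2 d.bp.ne'
  have Z0 : ZZ d.z1 0 = d.s01 * PP d.x1 d.y1 0 := by
    rw [P0]; simp [ZZ, ea, eb, Dat1.z1, Dat1.s01]; field_simp
  have Z1 : ZZ d.z1 1 = d.s02 * PP d.x1 d.y1 1 := by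
    have := d.bp.ne'
    rw [P1]; simp [ZZ, ea, eb, Dat1.z1, Dat1.s02]; field_simp
  have Z3 : ZZ d.z1 3 = d.s12 * PP d.x1 d.y1 3 := by
    have := d.lp.ne'
    rw [P3]; simp [ZZ, ea, eb, Dat1.z1, Dat1.s12]; field_simp
  have Z4 : ZZ d.z1 4 = d.s13 * PP d.x1 d.y1 4 := by
    rw [P4]; simp [ZZ, ea, eb, Dat1.z1, Dat1.s13]; field_simp
  have Z5 : ZZ d.z1 5 = d.s23 * PP d.x1 d.y1 5 := by
    have := d.bp.ne'
    rw [P5]; simp [ZZ, ea, eb, Dat1.z1, Dat1.s23]; field_simp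
  have e01 : ec 0 = 2 := rfl
  have e02 : ed 0 = 3 := rfl
  have e11 : ec 1 = 1 := rfl
  have e12 : ed 1 = 3 := rfl
  have e21 : ec 2 = 1 := rfl
  have e22 : ed 2 = 2 := rfl
  have e31 : ec 3 = 0 := rfl
  have e32 : ed 3 = 3 := rfl
  have e41 : ec 4 = 0 := rfl
  have e42 : ed 4 = 2 := rfl
  have e51 : ec 5 = 0 := rfl
  have e52 : ed 5 = 1 := rfl
  have T03 : tm d.x1 d.y1 d.z1 s G 3 0 = d.a * ind (d.s01 = s ∧ d.gL = G) d.l1 := by
    refine d07tmL (d07condL n3 Q3 N0 Z0) (fun _ => ?_)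
    rw [gm, qq', e01, e02, d07xy2, d07yz2, d07yz3, d07zx2, d07zx3, Dat1.l1]
    field_simp
    ring
  have T13 : tm d.x1 d.y1 d.z1 s G 3 1 = d.a * ind (d.s02 = s ∧ d.gL = G) d.l2 := by
    refine d07tmL (d07condL n3 Q3 N1 Z1) (fun _ => ?_)
    rw [gm, qq', e11, e12, d07xy1, d07yz1, d07yz3, d07zx1, d07zx3, Dat1.l2]
    field_simp
    linear_combination d.a * d.u * hb
  have T33 : tm d.x1 d.y1 d.z1 s G 3 3 = d.a * ind (d.s12 = s ∧ d.gL = G) d.l3 := by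
    refine d07tmL (d07condL n3 Q3 N3 Z3) (fun hp => ?_)
    rw [← hp.2, gm, qq', e31, e32, d07xy0, d07xy3, d07yz0, d07yz3, d07zx0, d07zx3, Dat1.gL,
      Dat1.l3, Dat1.l1, Dat1.l2]
    field_simp
    linear_combination (-d.u * d.a + d.u ^ 2) * hb
  have T30 : tm d.x1 d.y1 d.z1 s G 0 3 = d.a * ind (d.s12 = s ∧ d.gU = G) d.n3 := by
    refine d07tmL (d07condL n0 Q0 N3 Z3) (fun hp => ?_)
    rw [← hp.2, gm, qq', e31, e32, d07xy0, d07xy3, d07yz0, d07yz3, d07zx0, d07zx3, Dat1.gU,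
      Dat1.n3, Dat1.n1, Dat1.n2]
    field_simp
    linear_combination (-d.u * d.a + d.u ^ 2) * hb
  have T40 : tm d.x1 d.y1 d.z1 s G 0 4 = d.a * ind (d.s13 = s ∧ d.gU = G) d.n1 := by
    refine d07tmL (d07condL n0 Q0 N4 Z4) (fun _ => ?_)
    rw [gm, qq', e41, e42, d07xy2, d07yz0, d07yz2, d07zx0, d07zx2, Dat1.n1]
    field_simp
    ring
  have T50 : tm d.x1 d.y1 d.z1 s G 0 5 = d.a * ind (d.s23 = s ∧ d.gU = G) d.n2 := by
    refine d07tmL (d07condL n0 Q0 N5 Z5) (fun _ => ?_)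
    rw [gm, qq', e51, e52, d07xy1, d07yz0, d07yz1, d07zx0, d07zx1, Dat1.n2]
    field_simp
    linear_combination -d.a * (d.u - d.a) * hb
  have hS := h s G
  rw [Fin.sum_univ_six, e01, e02, e11, e12, e21, e22, e31, e32, e41, e42, e51, e52,
    T03, T13, T33, T30, T40, T50, d07tm0 (d07xy1 d), d07tm0 (d07xy1 d), d07tm0 (d07xy1 d),
    d07tm0 (d07xy2 d), d07tm0 (d07xy2 d), d07tm0 (d07xy2 d)] at hS
  refine mul_left_cancel₀ d.ap.ne' ?_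
  rw [mul_zero, ← hS]
  ring

end Pool.Agent.Helper22.ST
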