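import Pool.Agent.Helper22.ST.D00Sim

/-!
# ST-D08: the solutions are the three families of Goldberg

`hor d.x1 d.y1`: `01, 13`: `c²`; `02, 23`: `b²`; `12`: `l²`; `03`: `0`; heights `0, u, v, a`.
`hor gx gy`: `03`: `0`, all others `3`.  `hor gx gy2`: `03`: `0`, `01, 13`: `3`, `02, 23`: `9/4`, `12`: `3/4`.
`C1` (`b = c = l`), `(u, v) = (a/3, 2a/3)`: `σ = 1`, `t = c/√3`, `k = a/3`; `(2a/3, a/3)`: `σ = swap 1 2`.
`C3` (`b = c = l`): the vertical edge of the third family goes from vertex 0 (height 0) to vertex 3 (height 3/2), the other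
vertices 1, 2 have heights 1, 2.  `(u, v) = (2a/3, 4a/3)`: `σ = 1`, `k = 2a/3`; `(4a/3, 2a/3)`: `σ = swap 1 2`, `k = 2a/3`;
`(a/3, -a/3)`: `σ = swap 0 3`, `k = -2a/3`; `(-a/3, a/3)`: `σ = swap 0 3 * swap 1 2`, `k = -2a/3`; `t = c/√3`.
`C2` (`c = 2 l`, `b² = 3 l²`, `v = a/2`): `u = a/3`: `σ = 1`, `t = c/√3`, `k = a/3`; `u = 2a/3`: `σ = swap 0 3`, `k = -a/3`.
`C2'`: the same with `1, 2` exchanged (`σ` composed with `swap 1 2`), `t = b/√3`.
In each case `fin_cases i; fin_cases j` and `simp`/`ring_nf`/`field_simp` (`√3² = 3`).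
-/

open Real Set
open Pool.Agent.Helper1.Tet

namespace Pool.Agent.Helper22.ST

private theorem d08_hor_comm (x y : Fin 4 → ℝ) (i j : Fin 4) : hor x y i j = hor x y j i := by
  unfold hor; ring

private theorem d08_hor_self (x y : Fin 4 → ℝ) (i : Fin 4) : hor x y i i = 0 := by
  unfold hor; ring

private theorem d08_mk {x y z x' y' z' : Fin 4 → ℝ} (σ : Equiv.Perm (Fin 4)) (t k : ℝ)
    (a0 a1 a2 a3 : Fin 4) (e0 : σ 0 = a0) (e1 : σ 1 = a1) (e2 : σ 2 = a2) (e3 : σ 3 = a3)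
    (ht : 0 < t) (hk : k ≠ 0)
    (h01 : hor x y a0 a1 = t ^ 2 * hor x' y' 0 1) (h02 : hor x y a0 a2 = t ^ 2 * hor x' y' 0 2)
    (h03 : hor x y a0 a3 = t ^ 2 * hor x' y' 0 3) (h12 : hor x y a1 a2 = t ^ 2 * hor x' y' 1 2)
    (h13 : hor x y a1 a3 = t ^ 2 * hor x' y' 1 3) (h23 : hor x y a2 a3 = t ^ 2 * hor x' y' 2 3)
    (z1 : z a1 - z a0 = k * (z' 1 - z' 0)) (z2 : z a2 - z a0 = k * (z' 2 - z' 0))
    (z3 : z a3 - z a0 = k * (z' 3 - z' 0)) : Sim3 x y z x' y' z' := by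
  refine ⟨σ, t, k, ht, hk, ?_⟩
  have H : ∀ i j : Fin 4, hor x y (σ i) (σ j) = t ^ 2 * hor x' y' i j →
      hor x y (σ j) (σ i) = t ^ 2 * hor x' y' j i := by
    intro i j h
    rw [d08_hor_comm, h, d08_hor_comm x' y' i j]
  have Hs : ∀ i : Fin 4, hor x y (σ i) (σ i) = t ^ 2 * hor x' y' i i := by
    intro i
    rw [d08_hor_self, d08_hor_self, mul_zero]
  have g01 : hor x y (σ 0) (σ 1) = t ^ 2 * hor x' y' 0 1 := by rw [e0, e1]; exact h01
  have g02 : hor x y (σ 0) (σ 2) = t ^ 2 * hor x' y' 0 2 := by rw [e0, e2]; exact h02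
  have g03 : hor x y (σ 0) (σ 3) = t ^ 2 * hor x' y' 0 3 := by rw [e0, e3]; exact h03
  have g12 : hor x y (σ 1) (σ 2) = t ^ 2 * hor x' y' 1 2 := by rw [e1, e2]; exact h12
  have g13 : hor x y (σ 1) (σ 3) = t ^ 2 * hor x' y' 1 3 := by rw [e1, e3]; exact h13
  have g23 : hor x y (σ 2) (σ 3) = t ^ 2 * hor x' y' 2 3 := by rw [e2, e3]; exact h23
  have Z : ∀ i : Fin 4, z (σ i) - z (σ 0) = k * (z' i - z' 0) := by
    intro i
    fin_cases i
    · show z (σ 0) - z (σ 0) = k * (z' 0 - z' 0)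
      ring
    · show z (σ 1) - z (σ 0) = k * (z' 1 - z' 0)
      rw [e1, e0]; exact z1
    · show z (σ 2) - z (σ 0) = k * (z' 2 - z' 0)
      rw [e2, e0]; exact z2
    · show z (σ 3) - z (σ 0) = k * (z' 3 - z' 0)
      rw [e3, e0]; exact z3
  intro i j
  refine ⟨?_, by linear_combination Z i - Z j⟩
  fin_cases i <;> fin_cases j
  · exact Hs 0
  · exact g01
  · exact g02
  · exact g03
  · exact H 0 1 g01
  · exact Hs 1
  · exact g12
  · exact g13
  · exact H 0 2 g02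
  · exact H 1 2 g12
  · exact Hs 2
  · exact g23
  · exact H 0 3 g03
  · exact H 1 3 g13
  · exact H 2 3 g23
  · exact Hs 3

section vals

variable (d : Dat1)

private theorem d08_h01 : hor d.x1 d.y1 0 1 = d.c ^ 2 := by
  simp [hor, Dat1.x1, Dat1.y1]

private theorem d08_h02 : hor d.x1 d.y1 0 2 = d.b ^ 2 := by
  have hc := d.cp.ne'
  have h := d.hδ
  simp only [hor, Dat1.x1, Dat1.y1, Matrix.cons_val]
  field_simp
  linear_combination h

private theorem d08_h03 : hor d.x1 d.y1 0 3 = 0 := by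
  simp [hor, Dat1.x1, Dat1.y1]

private theorem d08_h12 : hor d.x1 d.y1 1 2 = d.l ^ 2 := by
  have hc := d.cp.ne'
  have h := d.hδ
  have h' := d.hβ
  simp only [hor, Dat1.x1, Dat1.y1, Matrix.cons_val]
  field_simp
  linear_combination h - d.c ^ 2 * h'

private theorem d08_h13 : hor d.x1 d.y1 1 3 = d.c ^ 2 := by
  simp [hor, Dat1.x1, Dat1.y1]

private theorem d08_h23 : hor d.x1 d.y1 2 3 = d.b ^ 2 := by
  have hc := d.cp.ne'
  have h := d.hδ
  simp only [hor, Dat1.x1, Dat1.y1, Matrix.cons_val]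
  field_simp
  linear_combination h

end vals

private theorem d08_s3 : (√3 : ℝ) ^ 2 = 3 := Real.sq_sqrt (by norm_num)

private theorem d08_g01 : hor gx gy 0 1 = 3 := by
  simp only [hor, gx, gy, Matrix.cons_val]
  linear_combination (1 / 4 : ℝ) * d08_s3

private theorem d08_g02 : hor gx gy 0 2 = 3 := by
  simp only [hor, gx, gy, Matrix.cons_val]
  linear_combination (1 / 4 : ℝ) * d08_s3

private theorem d08_g03 : hor gx gy 0 3 = 0 := by
  simp [hor, gx, gy]

private theorem d08_g12 : hor gx gy 1 2 = 3 := by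
  simp only [hor, gx, gy, Matrix.cons_val]
  linear_combination d08_s3

private theorem d08_g13 : hor gx gy 1 3 = 3 := by
  simp only [hor, gx, gy, Matrix.cons_val]
  linear_combination (1 / 4 : ℝ) * d08_s3

private theorem d08_g23 : hor gx gy 2 3 = 3 := by
  simp only [hor, gx, gy, Matrix.cons_val]
  linear_combination (1 / 4 : ℝ) * d08_s3

private theorem d08_k01 : hor gx gy2 0 1 = 3 := by
  simp only [hor, gx, gy2, Matrix.cons_val]
  linear_combination (1 / 4 : ℝ) * d08_s3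

private theorem d08_k02 : hor gx gy2 0 2 = 9 / 4 := by
  simp only [hor, gx, gy2, Matrix.cons_val]
  norm_num

private theorem d08_k03 : hor gx gy2 0 3 = 0 := by
  simp [hor, gx, gy2]

private theorem d08_k12 : hor gx gy2 1 2 = 3 / 4 := by
  simp only [hor, gx, gy2, Matrix.cons_val]
  linear_combination (1 / 4 : ℝ) * d08_s3

private theorem d08_k13 : hor gx gy2 1 3 = 3 := by
  simp only [hor, gx, gy2, Matrix.cons_val]
  linear_combination (1 / 4 : ℝ) * d08_s3

private theorem d08_k23 : hor gx gy2 2 3 = 9 / 4 := by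
  simp only [hor, gx, gy2, Matrix.cons_val]
  norm_num

private theorem d08_t {r : ℝ} : (r / √3) ^ 2 = r ^ 2 / 3 := by
  rw [div_pow, d08_s3]

theorem gold_C1 (d : Dat1) (h : d.C1) : Gold3 d.x1 d.y1 d.z1 := by
  obtain ⟨hb, hl, h⟩ := h
  left
  have ha := d.ap
  have hb2 : d.b ^ 2 = d.c ^ 2 := by rw [hb]
  have hl2 : d.l ^ 2 = d.c ^ 2 := by rw [hl]
  rcases h with ⟨hu, hv⟩ | ⟨hu, hv⟩
  · refine d08_mk 1 (d.c / √3) (d.a / 3) 0 1 2 3 (by decide) (by decide) (by decide) (by decide)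
      (div_pos d.cp (Real.sqrt_pos.2 (by norm_num))) (by positivity) ?_ ?_ ?_ ?_ ?_ ?_ ?_ ?_ ?_
    · rw [d08_h01, d08_g01, d08_t]; ring
    · rw [d08_h02, d08_g02, d08_t, hb2]; ring
    · rw [d08_h03, d08_g03, d08_t]; ring
    · rw [d08_h12, d08_g12, d08_t, hl2]; ring
    · rw [d08_h13, d08_g13, d08_t]; ring
    · rw [d08_h23, d08_g23, d08_t, hb2]; ring
    · simp only [Dat1.z1, gz1, Matrix.cons_val]; linear_combination hu / 3
    · simp only [Dat1.z1, gz1, Matrix.cons_val]; linear_combination hv / 3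
    · simp only [Dat1.z1, gz1, Matrix.cons_val]; ring
  · refine d08_mk (Equiv.swap 1 2) (d.c / √3) (d.a / 3) 0 2 1 3 (by decide) (by decide)
      (by decide) (by decide)
      (div_pos d.cp (Real.sqrt_pos.2 (by norm_num))) (by positivity) ?_ ?_ ?_ ?_ ?_ ?_ ?_ ?_ ?_
    · rw [d08_h02, d08_g01, d08_t, hb2]; ring
    · rw [d08_h01, d08_g02, d08_t]; ring
    · rw [d08_h03, d08_g03, d08_t]; ring
    · rw [d08_hor_comm, d08_h12, d08_g12, d08_t, hl2]; ring
    · rw [d08_h23, d08_g13, d08_t, hb2]; ring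
    · rw [d08_h13, d08_g23, d08_t]; ring
    · simp only [Dat1.z1, gz1, Matrix.cons_val]; linear_combination hv / 3
    · simp only [Dat1.z1, gz1, Matrix.cons_val]; linear_combination hu / 3
    · simp only [Dat1.z1, gz1, Matrix.cons_val]; ring

theorem gold_C3 (d : Dat1) (h : d.C3) : Gold3 d.x1 d.y1 d.z1 := by
  obtain ⟨hb, hl, h⟩ := h
  right; right
  have ha := d.ap
  have hb2 : d.b ^ 2 = d.c ^ 2 := by rw [hb]
  have hl2 : d.l ^ 2 = d.c ^ 2 := by rw [hl]
  have hk : -(2 * d.a / 3) ≠ 0 := by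
    have : 0 < 2 * d.a / 3 := by positivity
    linarith
  rcases h with ⟨hu, hv⟩ | ⟨hu, hv⟩ | ⟨hu, hv⟩ | ⟨hu, hv⟩
  · -- u = -a/3, v = a/3
    refine d08_mk (Equiv.swap 0 3 * Equiv.swap 1 2) (d.c / √3) (-(2 * d.a / 3)) 3 2 1 0
      (by decide) (by decide) (by decide) (by decide)
      (div_pos d.cp (Real.sqrt_pos.2 (by norm_num))) hk ?_ ?_ ?_ ?_ ?_ ?_ ?_ ?_ ?_
    · rw [d08_hor_comm, d08_h23, d08_g01, d08_t, hb2]; ring
    · rw [d08_hor_comm, d08_h13, d08_g02, d08_t]; ring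
    · rw [d08_hor_comm, d08_h03, d08_g03, d08_t]; ring
    · rw [d08_hor_comm, d08_h12, d08_g12, d08_t, hl2]; ring
    · rw [d08_hor_comm, d08_h02, d08_g13, d08_t, hb2]; ring
    · rw [d08_hor_comm, d08_h01, d08_g23, d08_t]; ring
    · simp only [Dat1.z1, gz3, Matrix.cons_val]; linear_combination hv / 3
    · simp only [Dat1.z1, gz3, Matrix.cons_val]; linear_combination hu / 3
    · simp only [Dat1.z1, gz3, Matrix.cons_val]; ring
  · -- u = a/3, v = -a/3
    refine d08_mk (Equiv.swap 0 3) (d.c / √3) (-(2 * d.a / 3)) 3 1 2 0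
      (by decide) (by decide) (by decide) (by decide)
      (div_pos d.cp (Real.sqrt_pos.2 (by norm_num))) hk ?_ ?_ ?_ ?_ ?_ ?_ ?_ ?_ ?_
    · rw [d08_hor_comm, d08_h13, d08_g01, d08_t]; ring
    · rw [d08_hor_comm, d08_h23, d08_g02, d08_t, hb2]; ring
    · rw [d08_hor_comm, d08_h03, d08_g03, d08_t]; ring
    · rw [d08_h12, d08_g12, d08_t, hl2]; ring
    · rw [d08_hor_comm, d08_h01, d08_g13, d08_t]; ring
    · rw [d08_hor_comm, d08_h02, d08_g23, d08_t, hb2]; ring
    · simp only [Dat1.z1, gz3, Matrix.cons_val]; linear_combination hu / 3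
    · simp only [Dat1.z1, gz3, Matrix.cons_val]; linear_combination hv / 3
    · simp only [Dat1.z1, gz3, Matrix.cons_val]; ring
  · -- u = 4a/3, v = 2a/3
    refine d08_mk (Equiv.swap 1 2) (d.c / √3) (2 * d.a / 3) 0 2 1 3
      (by decide) (by decide) (by decide) (by decide)
      (div_pos d.cp (Real.sqrt_pos.2 (by norm_num))) (by positivity) ?_ ?_ ?_ ?_ ?_ ?_ ?_ ?_ ?_
    · rw [d08_h02, d08_g01, d08_t, hb2]; ring
    · rw [d08_h01, d08_g02, d08_t]; ring
    · rw [d08_h03, d08_g03, d08_t]; ring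
    · rw [d08_hor_comm, d08_h12, d08_g12, d08_t, hl2]; ring
    · rw [d08_h23, d08_g13, d08_t, hb2]; ring
    · rw [d08_h13, d08_g23, d08_t]; ring
    · simp only [Dat1.z1, gz3, Matrix.cons_val]; linear_combination hv / 3
    · simp only [Dat1.z1, gz3, Matrix.cons_val]; linear_combination hu / 3
    · simp only [Dat1.z1, gz3, Matrix.cons_val]; ring
  · -- u = 2a/3, v = 4a/3
    refine d08_mk 1 (d.c / √3) (2 * d.a / 3) 0 1 2 3
      (by decide) (by decide) (by decide) (by decide)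
      (div_pos d.cp (Real.sqrt_pos.2 (by norm_num))) (by positivity) ?_ ?_ ?_ ?_ ?_ ?_ ?_ ?_ ?_
    · rw [d08_h01, d08_g01, d08_t]; ring
    · rw [d08_h02, d08_g02, d08_t, hb2]; ring
    · rw [d08_h03, d08_g03, d08_t]; ring
    · rw [d08_h12, d08_g12, d08_t, hl2]; ring
    · rw [d08_h13, d08_g13, d08_t]; ring
    · rw [d08_h23, d08_g23, d08_t, hb2]; ring
    · simp only [Dat1.z1, gz3, Matrix.cons_val]; linear_combination hu / 3
    · simp only [Dat1.z1, gz3, Matrix.cons_val]; linear_combination hv / 3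
    · simp only [Dat1.z1, gz3, Matrix.cons_val]; ring

theorem gold_C2 (d : Dat1) (h : d.C2) : Gold3 d.x1 d.y1 d.z1 := by
  obtain ⟨hc, hb, hv, h⟩ := h
  right; left
  have ha := d.ap
  have hc2 : d.c ^ 2 = 4 * d.l ^ 2 := by rw [hc]; ring
  have hk : -(d.a / 3) ≠ 0 := by
    have : 0 < d.a / 3 := by positivity
    linarith
  rcases h with hu | hu
  · refine d08_mk 1 (d.c / √3) (d.a / 3) 0 1 2 3
      (by decide) (by decide) (by decide) (by decide)
      (div_pos d.cp (Real.sqrt_pos.2 (by norm_num))) (by positivity) ?_ ?_ ?_ ?_ ?_ ?_ ?_ ?_ ?_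
    · rw [d08_h01, d08_k01, d08_t]; ring
    · rw [d08_h02, d08_k02, d08_t, hb, hc2]; ring
    · rw [d08_h03, d08_k03, d08_t]; ring
    · rw [d08_h12, d08_k12, d08_t, hc2]; ring
    · rw [d08_h13, d08_k13, d08_t]; ring
    · rw [d08_h23, d08_k23, d08_t, hb, hc2]; ring
    · simp only [Dat1.z1, gz2, Matrix.cons_val]; linear_combination hu / 3
    · simp only [Dat1.z1, gz2, Matrix.cons_val]; linear_combination hv / 2
    · simp only [Dat1.z1, gz2, Matrix.cons_val]; ring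
  · refine d08_mk (Equiv.swap 0 3) (d.c / √3) (-(d.a / 3)) 3 1 2 0
      (by decide) (by decide) (by decide) (by decide)
      (div_pos d.cp (Real.sqrt_pos.2 (by norm_num))) hk ?_ ?_ ?_ ?_ ?_ ?_ ?_ ?_ ?_
    · rw [d08_hor_comm, d08_h13, d08_k01, d08_t]; ring
    · rw [d08_hor_comm, d08_h23, d08_k02, d08_t, hb, hc2]; ring
    · rw [d08_hor_comm, d08_h03, d08_k03, d08_t]; ring
    · rw [d08_h12, d08_k12, d08_t, hc2]; ring
    · rw [d08_hor_comm, d08_h01, d08_k13, d08_t]; ring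
    · rw [d08_hor_comm, d08_h02, d08_k23, d08_t, hb, hc2]; ring
    · simp only [Dat1.z1, gz2, Matrix.cons_val]; linear_combination hu / 3
    · simp only [Dat1.z1, gz2, Matrix.cons_val]; linear_combination hv / 2
    · simp only [Dat1.z1, gz2, Matrix.cons_val]; ring

theorem gold_C2' (d : Dat1) (h : d.C2') : Gold3 d.x1 d.y1 d.z1 := by
  obtain ⟨hb, hc, hu, h⟩ := h
  right; left
  have ha := d.ap
  have hb2 : d.b ^ 2 = 4 * d.l ^ 2 := by rw [hb]; ring
  have hk : -(d.a / 3) ≠ 0 := by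
    have : 0 < d.a / 3 := by positivity
    linarith
  rcases h with hv | hv
  · refine d08_mk (Equiv.swap 1 2) (d.b / √3) (d.a / 3) 0 2 1 3
      (by decide) (by decide) (by decide) (by decide)
      (div_pos d.bp (Real.sqrt_pos.2 (by norm_num))) (by positivity) ?_ ?_ ?_ ?_ ?_ ?_ ?_ ?_ ?_
    · rw [d08_h02, d08_k01, d08_t]; ring
    · rw [d08_h01, d08_k02, d08_t, hc, hb2]; ring
    · rw [d08_h03, d08_k03, d08_t]; ring
    · rw [d08_hor_comm, d08_h12, d08_k12, d08_t, hb2]; ring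
    · rw [d08_h23, d08_k13, d08_t]; ring
    · rw [d08_h13, d08_k23, d08_t, hc, hb2]; ring
    · simp only [Dat1.z1, gz2, Matrix.cons_val]; linear_combination hv / 3
    · simp only [Dat1.z1, gz2, Matrix.cons_val]; linear_combination hu / 2
    · simp only [Dat1.z1, gz2, Matrix.cons_val]; ring
  · refine d08_mk (Equiv.swap 0 3 * Equiv.swap 1 2) (d.b / √3) (-(d.a / 3)) 3 2 1 0
      (by decide) (by decide) (by decide) (by decide)
      (div_pos d.bp (Real.sqrt_pos.2 (by norm_num))) hk ?_ ?_ ?_ ?_ ?_ ?_ ?_ ?_ ?_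
    · rw [d08_hor_comm, d08_h23, d08_k01, d08_t]; ring
    · rw [d08_hor_comm, d08_h13, d08_k02, d08_t, hc, hb2]; ring
    · rw [d08_hor_comm, d08_h03, d08_k03, d08_t]; ring
    · rw [d08_hor_comm, d08_h12, d08_k12, d08_t, hb2]; ring
    · rw [d08_hor_comm, d08_h02, d08_k13, d08_t]; ring
    · rw [d08_hor_comm, d08_h01, d08_k23, d08_t, hc, hb2]; ring
    · simp only [Dat1.z1, gz2, Matrix.cons_val]; linear_combination hv / 3
    · simp only [Dat1.z1, gz2, Matrix.cons_val]; linear_combination hu / 2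
    · simp only [Dat1.z1, gz2, Matrix.cons_val]; ring

end Pool.Agent.Helper22.ST
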