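import Pool.Agent.Helper22.ST.A04AlForm

/-!
# ST-A05: the derivative of the angles

With `γ = gm`, `q = qq'`, `P, Z`, `R = √(P + h² Z)`, `d = |dt|`, `f = (γ + h² q)/(h d R)`:
`f' = (h² q P - γ P - 2 γ h² Z) / (d h² R³)`, and by `ZZ_dt`, `PP_dt` (the identity
`(γ + h² q)² + h² d² R² = N_c N_d` with `N_v = cr x y v ^ 2 + h² QQ v`)
`1 + f² = N_c N_d / (h² d² R²)`.  Hence `(arctan f)' = d (h² q P - γ P - 2 γ h² Z) / (R N_c N_d)`, and
`d² (h² q P - γ P - 2 γ h² Z) = (c_c² q - γ Q_c) N_d + (c_d² q - γ Q_d) N_c` (again by `ZZ_dt`, `PP_dt`,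
`γ = c_c c_d`; compare the coefficients of `h^0` and `h^2`), which is `dal`.
The functions agree with `al` on the neighbourhood `Ioi 0` of `h` (`al_form`):
`HasDerivAt.congr_of_eventuallyEq`.
-/

open Real Set
open Pool.Agent.Helper1.Tet

namespace Pool.Agent.Helper22.ST

theorem al_deriv (x y z : Fin 4 → ℝ) (hd : dt x y z ≠ 0) {h : ℝ} (hh : 0 < h) (j : Fin 6) :
    HasDerivAt (fun h => al (len (tet x y z h)) j) (dal x y z h j) h := by
  have hd0 : 0 < |dt x y z| := abs_pos.2 hd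
  have hd2 : |dt x y z| ^ 2 = dt x y z ^ 2 := sq_abs _
  have hE : 0 < PP x y j + h ^ 2 * ZZ z j := edge_pos x y z hd hh j
  have hNc := face_pos x y z hd hh (ec j)
  have hNd := face_pos x y z hd hh (ed j)
  have hZ := ZZ_dt x y z j
  have hP := PP_dt x y z j
  have hg : gm x y j = cr x y (ec j) * cr x y (ed j) := rfl
  obtain ⟨R, hR⟩ : ∃ R : ℝ, R = √(PP x y j + h ^ 2 * ZZ z j) := ⟨_, rfl⟩
  have hR0 : 0 < R := by rw [hR]; exact Real.sqrt_pos.2 hE
  have hR2 : R ^ 2 = PP x y j + h ^ 2 * ZZ z j := by rw [hR]; exact Real.sq_sqrt hE.le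
  obtain ⟨d, hdd⟩ : ∃ d : ℝ, d = |dt x y z| := ⟨_, rfl⟩
  rw [← hdd] at hd0 hd2
  have hs : HasDerivAt (fun h : ℝ => √(PP x y j + h ^ 2 * ZZ z j)) (h * ZZ z j / R) h := by
    have h1 : HasDerivAt (fun h : ℝ => PP x y j + h ^ 2 * ZZ z j) (2 * h * ZZ z j) h := by
      have h2 := ((hasDerivAt_pow 2 h).mul_const (ZZ z j)).const_add (PP x y j)
      simpa using h2
    have h3 := h1.sqrt hE.ne'
    rw [← hR] at h3
    convert h3 using 1
    field_simp
  have hnum : HasDerivAt (fun h : ℝ => gm x y j + h ^ 2 * qq' x y z j)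
      (2 * h * qq' x y z j) h := by
    have h2 := ((hasDerivAt_pow 2 h).mul_const (qq' x y z j)).const_add (gm x y j)
    simpa using h2
  have hden : HasDerivAt (fun h : ℝ => h * d * √(PP x y j + h ^ 2 * ZZ z j))
      (d * R + h * d * (h * ZZ z j / R)) h := by
    have h2 := ((hasDerivAt_id h).mul_const d).mul hs
    rw [← hR] at h2
    refine (h2.congr_of_eventuallyEq (Filter.Eventually.of_forall fun t => rfl)).congr_deriv ?_
    simp
  have hden0 : h * d * √(PP x y j + h ^ 2 * ZZ z j) ≠ 0 := by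
    rw [← hR]
    positivity
  have hf := (hnum.div hden hden0).arctan.const_add (π / 2)
  have hev : (fun h => al (len (tet x y z h)) j) =ᶠ[nhds h] fun h : ℝ => π / 2 +
      arctan ((gm x y j + h ^ 2 * qq' x y z j) / (h * d * √(PP x y j + h ^ 2 * ZZ z j))) := by
    filter_upwards [Ioi_mem_nhds hh] with t ht
    rw [al_form x y z hd ht j, hdd]
  refine (hf.congr_of_eventuallyEq hev).congr_deriv ?_
  rw [← hR]
  unfold dal
  rw [← hR, ← hdd]
  generalize cr x y (ec j) = c at *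
  generalize cr x y (ed j) = c' at *
  generalize QQ x y z (ec j) = Qc at *
  generalize QQ x y z (ed j) = Qd at *
  generalize qq' x y z j = q at *
  generalize gm x y j = γ at *
  generalize PP x y j = P at *
  generalize ZZ z j = Z at *
  rw [← hd2] at hZ hP
  subst hg
  have h1 : 1 + ((c * c' + h ^ 2 * q) / (h * d * R)) ^ 2 =
      (c ^ 2 + h ^ 2 * Qc) * (c' ^ 2 + h ^ 2 * Qd) / (h * d * R) ^ 2 := by
    field_simp
    have : R ^ 2 = P + h ^ 2 * Z := hR2
    linear_combination (h ^ 2 * d ^ 2) * this + h ^ 2 * hP + h ^ 4 * hZ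
  simp only [Pi.div_apply]
  rw [← hR, h1]
  have hR2' : P = R ^ 2 - h ^ 2 * Z := by linear_combination -hR2
  field_simp
  linear_combination (d ^ 2 * h ^ 2 * q - d ^ 2 * c * c') * hR2 + (h ^ 2 * q - c * c') * hP -
    2 * h ^ 2 * c * c' * hZ

end Pool.Agent.Helper22.ST
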