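import Pool.Agent.Helper22.ST.A04AlForm
import Pool.Agent.Helper1.Tet.Analytic

/-!
# ST-A06: analyticity

`len_an`: `len_tet` and `√` is analytic at positive points (`edge_pos`; e.g. `ContDiffAt.sqrt` with `ω`
and `ContDiffAt.analyticAt`, see `Helper1/Tet/Analytic.lean`).
`al_an`: `analyticAt_al (tet_mem_TT ..)` composed with the analytic curve `h ↦ len (tet x y z h)`
(`AnalyticAt.comp'`, `analyticAt_pi_iff`), or directly from `al_form`.
-/

open Real Set
open Pool.Agent.Helper1.Tet
open scoped ContDiff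

namespace Pool.Agent.Helper22.ST

theorem len_an (x y z : Fin 4 → ℝ) (hd : dt x y z ≠ 0) (j : Fin 6) :
    AnalyticOnNhd ℝ (fun h => √(PP x y j + h ^ 2 * ZZ z j)) (Ioi 0) := by
  intro h hh
  have hE : 0 < PP x y j + h ^ 2 * ZZ z j := edge_pos x y z hd hh j
  have h1 : ContDiffAt ℝ ω (fun h : ℝ => PP x y j + h ^ 2 * ZZ z j) h := by fun_prop
  exact (h1.sqrt hE.ne').analyticAt

theorem al_an (x y z : Fin 4 → ℝ) (hd : dt x y z ≠ 0) (j : Fin 6) :
    AnalyticOnNhd ℝ (fun h => al (len (tet x y z h)) j) (Ioi 0) := by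
  intro h hh
  have h1 : AnalyticAt ℝ (fun h => len (tet x y z h)) h := by
    rw [analyticAt_pi_iff]
    intro i
    have h2 : (fun h => len (tet x y z h) i) = fun h => √(PP x y i + h ^ 2 * ZZ z i) := by
      funext h
      exact len_tet x y z h i
    rw [h2]
    exact len_an x y z hd i h hh
  have h3 : AnalyticAt ℝ (fun l : Fin 6 → ℝ => al l j) ((fun h => len (tet x y z h)) h) :=
    analyticAt_al (tet_mem_TT x y z hd hh) j
  exact AnalyticAt.comp (g := fun l : Fin 6 → ℝ => al l j) (f := fun h => len (tet x y z h)) h3 h1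

end Pool.Agent.Helper22.ST
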