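import Pool.Agent.Helper22.ST.A03Indep
import Pool.Agent.Helper13.HT.ConeHull

/-!
# ST-A07: selection of one finite set of relations

For `h ∈ HT x y z` `tiles_cone` (Helper13/HT/ConeHull) gives
`(π / ∑ ..) • len (tet x y z h) ∈ convexHull ℝ {u | HalfNat u ∧ ∑ u j * al .. j = π}`.
A point of a convex hull is in the convex hull of a finite subset (`convexHull_eq_union_convexHull_finite_subsets`
or `mem_convexHull_iff_exists_fintype`/`Finset`), hence in its linear span; the factor `π / ∑` is positive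
(`TT_facts`), so `len ..` is in the span.  `{u : Fin 6 → ℝ | HalfNat u}` is countable (image of
`Fin 6 → ℕ`), so its finite subsets are countably many.  If for every finite set `U` of half-natural
vectors the set of the `h` with this `U` were countable, `HT x y z` would be countable.
-/

open Real Set
open Pool.Agent.Helper1.Tet Pool.Agent.Helper13.HT

namespace Pool.Agent.Helper22.ST

private lemma A07_one (x y z : Fin 4 → ℝ) (hd : dt x y z ≠ 0) {h : ℝ} (hh : h ∈ ST.HT x y z) :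
    ∃ U : Finset (Fin 6 → ℝ), (U : Set (Fin 6 → ℝ)) ⊆ {u | HalfNat u} ∧
      len (tet x y z h) ∈ Submodule.span ℝ (U : Set (Fin 6 → ℝ)) ∧
      ∀ u ∈ U, ∑ j, u j * al (len (tet x y z h)) j = π := by
  obtain ⟨h0, hT⟩ := hh
  have hp := tet_indep x y z hd h0
  have hc := tiles_cone _ hp hT
  rw [convexHull_eq_union_convexHull_finite_subsets] at hc
  obtain ⟨U, hU⟩ := mem_iUnion.1 hc
  obtain ⟨hU1, hU2⟩ := mem_iUnion.1 hU
  refine ⟨U, fun u hu => (hU1 hu).1, ?_, fun u hu => (hU1 hu).2⟩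
  obtain ⟨hl, -, -, -, hal, -⟩ := TT_facts (len_mem_TT _ hp)
  have hs0 : 0 < ∑ j, len (tet x y z h) j * al (len (tet x y z h)) j :=
    Finset.sum_pos (fun j _ => mul_pos (hl j) (hal j).1) ⟨0, Finset.mem_univ _⟩
  have h1 : (π / ∑ j, len (tet x y z h) j * al (len (tet x y z h)) j) • len (tet x y z h) ∈
      Submodule.span ℝ (U : Set (Fin 6 → ℝ)) :=
    convexHull_min Submodule.subset_span (Submodule.span ℝ (U : Set (Fin 6 → ℝ))).convex hU2
  exact (Submodule.smul_mem_iff _ (div_pos pi_pos hs0).ne').1 h1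

private lemma A07_countable : {u : Fin 6 → ℝ | HalfNat u}.Countable := by
  refine (Set.countable_range (fun k : Fin 6 → ℕ => fun i => ((k i : ℕ) : ℝ) / 2)).mono ?_
  intro u hu
  choose k hk using hu
  exact ⟨k, funext fun i => (hk i).symm⟩

private lemma A07_countableF :
    {U : Finset (Fin 6 → ℝ) | (U : Set (Fin 6 → ℝ)) ⊆ {u | HalfNat u}}.Countable := by
  have h1 := Set.countable_ofPred_finite_subset A07_countable
  refine (h1.preimage_of_injOn (f := fun U : Finset (Fin 6 → ℝ) => (U : Set (Fin 6 → ℝ)))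
    Finset.coe_injective.injOn).mono ?_
  intro U hU
  exact ⟨U.finite_toSet, hU⟩

theorem select (x y z : Fin 4 → ℝ) (hd : dt x y z ≠ 0) (hu : ¬ (ST.HT x y z).Countable) :
    ∃ (U : Finset (Fin 6 → ℝ)) (H : Set ℝ), ¬ H.Countable ∧ ∀ h ∈ H, 0 < h ∧
      len (tet x y z h) ∈ Submodule.span ℝ (U : Set (Fin 6 → ℝ)) ∧
      ∀ u ∈ U, ∑ j, u j * al (len (tet x y z h)) j = π := by
  by_contra hcon
  apply hu
  have hc : ∀ U : Finset (Fin 6 → ℝ), {h : ℝ | 0 < h ∧
      len (tet x y z h) ∈ Submodule.span ℝ (U : Set (Fin 6 → ℝ)) ∧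
      ∀ u ∈ U, ∑ j, u j * al (len (tet x y z h)) j = π}.Countable := by
    intro U
    by_contra hU
    exact hcon ⟨U, _, hU, fun h hh => hh⟩
  refine (A07_countableF.biUnion (t := fun (U : Finset (Fin 6 → ℝ)) _ => {h : ℝ | 0 < h ∧
      len (tet x y z h) ∈ Submodule.span ℝ (U : Set (Fin 6 → ℝ)) ∧
      ∀ u ∈ U, ∑ j, u j * al (len (tet x y z h)) j = π}) (fun U _ => hc U)).mono ?_
  intro h hh
  obtain ⟨U, hU1, hU2, hU3⟩ := A07_one x y z hd hh
  exact mem_iUnion₂.2 ⟨U, hU1, hh.1, hU2, hU3⟩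

end Pool.Agent.Helper22.ST
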