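import Mathlib

/-!
# ST-A08: analytic functions with uncountably many zeros (Mathlib only)

If `f` is analytic on `(a, ∞)` and vanishes on an uncountable subset then it vanishes on `(a, ∞)`.
Proof: `AnalyticOnNhd.eqOn_zero_or_eventually_ne_zero_of_preconnected` or: an uncountable set `H` of reals
contains a point `x` which is an accumulation point of `H` (otherwise every point of `H` is isolated in
`H` and `H` is countable, second countability), so `∃ᶠ t in 𝓝[≠] x, f t = 0`, and
`AnalyticOnNhd.eqOn_zero_of_preconnected_of_frequently_eq_zero` (`isPreconnected_Ioi`).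
-/

open Set

namespace Pool.Agent.Helper22.ST

theorem zero_of_unc {f : ℝ → ℝ} {a : ℝ} (hf : AnalyticOnNhd ℝ f (Ioi a)) {H : Set ℝ}
    (hH : ¬ H.Countable) (hs : H ⊆ Ioi a) (h0 : ∀ h ∈ H, f h = 0) : ∀ h, a < h → f h = 0 := by
  have key : ∃ x ∈ H, ∃ᶠ t in nhdsWithin x {x}ᶜ, f t = 0 := by
    by_contra hcon
    push Not at hcon
    apply hH
    have hd : DiscreteTopology H := by
      rw [discreteTopology_subtype_iff]
      intro x hx
      rw [← disjoint_iff, Filter.disjoint_principal_right]
      have h1 := hcon x hx
      filter_upwards [h1] with t ht htH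
      exact ht (h0 t htH)
    have hc : Countable H := TopologicalSpace.separableSpace_iff_countable.1 inferInstance
    exact Set.countable_coe_iff.1 hc
  obtain ⟨x, hx, hfr⟩ := key
  intro h hh
  exact hf.eqOn_zero_of_preconnected_of_frequently_eq_zero isPreconnected_Ioi (hs hx) hfr hh

end Pool.Agent.Helper22.ST
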