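import Pool.Agent.Helper22.ST.A05AlDeriv
import Pool.Agent.Helper22.ST.A06AlAn
import Pool.Agent.Helper22.ST.A07Select
import Pool.Agent.Helper22.ST.A08Unc

/-!
# ST-A09: the orthogonality relation

Take `U, H` from `select`.  For `u ∈ U`: `h ↦ ∑ u j * al .. j - π` is analytic on `Ioi 0` (`al_an`) and
vanishes on `H`, so it vanishes on `Ioi 0` (`zero_of_unc`), and its derivative vanishes:
`∑ u j * dal x y z h j = 0` for `h > 0` (`al_deriv`, `HasDerivAt.sum`/uniqueness of derivatives).
By linearity (`Submodule.span_induction`) `∑ len (tet g) j * dal x y z h j = 0` for `g ∈ H`, `h > 0`.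
For fixed `h` this is analytic in `g` on `Ioi 0` (`len_tet`, `len_an`), so it vanishes for all `g > 0`.
-/

open Real Set
open Pool.Agent.Helper1.Tet

namespace Pool.Agent.Helper22.ST

theorem orth_of_unc (x y z : Fin 4 → ℝ) (hd : dt x y z ≠ 0) (hu : ¬ (HT x y z).Countable) :
    Orth x y z := by
  obtain ⟨U, H, hH, hU⟩ := select x y z hd hu
  have hHs : H ⊆ Ioi 0 := fun h hh => (hU h hh).1
  have h1 : ∀ u ∈ U, ∀ h : ℝ, 0 < h → ∑ j, u j * al (len (tet x y z h)) j - π = 0 := by
    intro u hu'
    have hf : AnalyticOnNhd ℝ (fun h => ∑ j, u j * al (len (tet x y z h)) j - π) (Ioi 0) := by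
      intro h hh
      refine AnalyticAt.sub ?_ analyticAt_const
      exact Finset.analyticAt_fun_sum _
        (fun j _ => analyticAt_const.mul (al_an x y z hd j h hh))
    exact zero_of_unc hf hH hHs (fun h hh => sub_eq_zero.2 ((hU h hh).2.2 u hu'))
  have h2 : ∀ u ∈ U, ∀ h : ℝ, 0 < h → ∑ j, u j * dal x y z h j = 0 := by
    intro u hu' h hh
    have hd1 : HasDerivAt (fun h => ∑ j, u j * al (len (tet x y z h)) j - π)
        (∑ j, u j * dal x y z h j) h := by
      refine HasDerivAt.sub_const _ ?_
      exact HasDerivAt.fun_sum (fun j _ => (al_deriv x y z hd hh j).const_mul (u j))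
    have hd2 : HasDerivAt (fun h => ∑ j, u j * al (len (tet x y z h)) j - π) 0 h := by
      refine (hasDerivAt_const h (0 : ℝ)).congr_of_eventuallyEq ?_
      filter_upwards [Ioi_mem_nhds hh] with t ht
      exact h1 u hu' t ht
    exact hd1.unique hd2
  have h3 : ∀ v ∈ Submodule.span ℝ (U : Set (Fin 6 → ℝ)), ∀ h : ℝ, 0 < h →
      ∑ j, v j * dal x y z h j = 0 := by
    intro v hv h hh
    induction hv using Submodule.span_induction with
    | mem w hw => exact h2 w hw h hh
    | zero => simp
    | add a b _ _ ha hb =>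
      simp only [Pi.add_apply, add_mul, Finset.sum_add_distrib, ha, hb, add_zero]
    | smul c a _ ha =>
      simp only [Pi.smul_apply, smul_eq_mul, mul_assoc]
      rw [← Finset.mul_sum, ha, mul_zero]
  intro g h hg hh
  have hf : AnalyticOnNhd ℝ (fun g => ∑ j, √(PP x y j + g ^ 2 * ZZ z j) * dal x y z h j)
      (Ioi 0) := by
    intro t ht
    exact Finset.analyticAt_fun_sum _
      (fun j _ => (len_an x y z hd j t ht).mul analyticAt_const)
  refine zero_of_unc hf hH hHs (fun t ht => ?_) g hg
  have h4 := h3 _ (hU t ht).2.1 h hh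
  simpa only [len_tet] using h4

end Pool.Agent.Helper22.ST
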