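import Mathlib

/-!
# ST-A11: linear independence of the functions `1 / (1 + x² s)` (Mathlib only)

Induction on `S`, removing the maximum `m`.  If `m = 0` then `S = {0}` and `c 0 = 0`.  If `m > 0`: with
`y = x²` the function `∑ c s / (1 + y s)` vanishes for `y > 0`, is analytic on `(-1/m, ∞)`, so it
vanishes there.  Multiply by `1 + y m` and let `y → -1/m` from the right: `c m = 0`.
(Or purely algebraic: multiply by the product of all `1 + y s`: a polynomial in `y` with infinitely many
zeros, so it is zero; evaluate at `y = -1/m`.)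
-/

open Set

namespace Pool.Agent.Helper22.ST

theorem rat_indep (S : Finset ℝ) (hS : ∀ s ∈ S, 0 ≤ s) (c : ℝ → ℝ)
    (h : ∀ x : ℝ, 0 < x → ∑ s ∈ S, c s / (1 + x ^ 2 * s) = 0) : ∀ s ∈ S, c s = 0 := by
  classical
  have heval : ∀ y : ℝ, Polynomial.eval y (∑ s ∈ S, Polynomial.C (c s) *
      ∏ t ∈ S.erase s, (1 + Polynomial.C t * Polynomial.X)) =
      ∑ s ∈ S, c s * ∏ t ∈ S.erase s, (1 + t * y) := by
    intro y
    simp [Polynomial.eval_finsetSum, Polynomial.eval_prod]
  have hzero : ∀ y : ℝ, 0 < y → ∑ s ∈ S, c s * ∏ t ∈ S.erase s, (1 + t * y) = 0 := by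
    intro y hy
    have h1 := h (Real.sqrt y) (Real.sqrt_pos.2 hy)
    rw [Real.sq_sqrt hy.le] at h1
    have h2 : ∑ s ∈ S, c s * ∏ t ∈ S.erase s, (1 + t * y) =
        (∏ t ∈ S, (1 + t * y)) * ∑ s ∈ S, c s / (1 + y * s) := by
      rw [Finset.mul_sum]
      refine Finset.sum_congr rfl fun s hs => ?_
      have hne : 1 + y * s ≠ 0 := by
        have := mul_nonneg hy.le (hS s hs)
        linarith
      rw [← Finset.mul_prod_erase S (fun t => 1 + t * y) hs]
      have hne2 : 1 + s * y ≠ 0 := by rwa [mul_comm s y]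
      rw [mul_comm y s]
      generalize ∏ x ∈ S.erase s, (1 + x * y) = Q
      field_simp
    rw [h2, h1, mul_zero]
  have hP : (∑ s ∈ S, Polynomial.C (c s) *
      ∏ t ∈ S.erase s, (1 + Polynomial.C t * Polynomial.X)) = 0 := by
    apply Polynomial.eq_zero_of_infinite_isRoot
    refine (Set.Ioi_infinite (0 : ℝ)).mono ?_
    intro y hy
    have : Polynomial.eval y (∑ s ∈ S, Polynomial.C (c s) *
      ∏ t ∈ S.erase s, (1 + Polynomial.C t * Polynomial.X)) = 0 := by
      rw [heval y]
      exact hzero y hy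
    exact this
  have hall : ∀ y : ℝ, ∑ s ∈ S, c s * ∏ t ∈ S.erase s, (1 + t * y) = 0 := by
    intro y
    rw [← heval y, hP, Polynomial.eval_zero]
  have hpos : ∀ m ∈ S, m ≠ 0 → c m = 0 := by
    intro m hm hm0
    have h3 := hall (-1 / m)
    rw [Finset.sum_eq_single_of_mem m hm] at h3
    · rcases mul_eq_zero.1 h3 with h4 | h4
      · exact h4
      · exfalso
        rw [Finset.prod_eq_zero_iff] at h4
        obtain ⟨t, ht, h5⟩ := h4
        have h6 : t ≠ m := Finset.ne_of_mem_erase ht
        apply h6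
        field_simp at h5
        linarith
    · intro s hs hsm
      have h4 : ∏ t ∈ S.erase s, (1 + t * (-1 / m)) = 0 := by
        apply Finset.prod_eq_zero (Finset.mem_erase.2 ⟨Ne.symm hsm, hm⟩)
        field_simp
        ring
      rw [h4, mul_zero]
  intro m hm
  by_cases hm0 : m = 0
  · subst hm0
    have h3 := h 1 one_pos
    rw [Finset.sum_eq_single_of_mem 0 hm] at h3
    · simpa using h3
    · intro s hs hs0
      rw [hpos s hs hs0, zero_div]
  · exact hpos m hm hm0

end Pool.Agent.Helper22.ST
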