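import Pool.Agent.Helper22.ST.DefsII

/-!
# ST-B01: facts about the normal form (one vertical face)

(F1) squares: `(m - y w)² = (1 + w²)(m² + y²) - (m w + y)²`, and `s1 * r1² = t1²`.
(F2) `u1 + p1`: `y13 - y12 = -(m13 - m12) w1` (from `b1`, `a1`); similarly for the others.
`m12_lt`: `m13 (w3 - w1) = m12 (w2 - w1) + m23 (w3 - w2)` and `m12 < m23`.
Signs: `u1_neg`: `u1² - p1² = r1² (GU - G1) ≥ 0` and `u1 + p1 < 0`, so `u1 < 0`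
(if `u1 ≥ 0` then `p1 < -u1 ≤ 0`, so `p1² > u1²`).  `u1_eq_p1`: equal squares and `u1 + p1 ≠ 0`.
-/

open Real Set

namespace Pool.Agent.Helper22.ST.Dat

variable (d : Dat)

theorem s1_mul : d.s1 * d.r1 ^ 2 = d.t1 ^ 2 := by
  have h := d.r1p.ne'
  unfold s1
  rw [div_pow, div_mul_cancel₀ _ (pow_ne_zero 2 h)]
theorem s2_mul : d.s2 * d.r2 ^ 2 = d.t2 ^ 2 := by
  have h := d.r2p.ne'
  unfold s2
  rw [div_pow, div_mul_cancel₀ _ (pow_ne_zero 2 h)]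
theorem s3_mul : d.s3 * d.r3 ^ 2 = d.t3 ^ 2 := by
  have h := d.r3p.ne'
  unfold s3
  rw [div_pow, div_mul_cancel₀ _ (pow_ne_zero 2 h)]

theorem u1_sq : d.u1 ^ 2 = d.r1 ^ 2 * (d.GU - d.s1) := by
  have h := d.s1_mul
  have h1 : d.r1 ^ 2 * (d.GU - d.s1) = d.r1 ^ 2 * d.GU - d.t1 ^ 2 := by
    rw [← h]; ring
  rw [h1, d.r1q, d.b1]
  simp only [u1, GU]
  ring
theorem u3_sq : d.u3 ^ 2 = d.r3 ^ 2 * (d.GU - d.s3) := by
  have h := d.s3_mul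
  have h1 : d.r3 ^ 2 * (d.GU - d.s3) = d.r3 ^ 2 * d.GU - d.t3 ^ 2 := by
    rw [← h]; ring
  rw [h1, d.r3q, d.b3]
  simp only [u3, GU]
  ring
theorem u0_sq : d.u0 ^ 2 = (d.w3 - d.w1) ^ 2 * (d.GU - d.m13 ^ 2) := by
  simp only [u0, GU]; ring
theorem p1_sq : d.p1 ^ 2 = d.r1 ^ 2 * (d.G1 - d.s1) := by
  have h := d.s1_mul
  have h1 : d.r1 ^ 2 * (d.G1 - d.s1) = d.r1 ^ 2 * d.G1 - d.t1 ^ 2 := by
    rw [← h]; ring
  rw [h1, d.r1q, d.a1]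
  simp only [p1, G1]
  ring
theorem p2_sq : d.p2 ^ 2 = d.r2 ^ 2 * (d.G1 - d.s2) := by
  have h := d.s2_mul
  have h1 : d.r2 ^ 2 * (d.G1 - d.s2) = d.r2 ^ 2 * d.G1 - d.t2 ^ 2 := by
    rw [← h]; ring
  rw [h1, d.r2q, d.a2]
  simp only [p2, G1]
  ring
theorem p0_sq : d.p0 ^ 2 = (d.w2 - d.w1) ^ 2 * (d.G1 - d.m12 ^ 2) := by
  simp only [p0, G1]; ring
theorem q2_sq : d.q2 ^ 2 = d.r2 ^ 2 * (d.G2 - d.s2) := by
  have h := d.s2_mul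
  have h1 : d.r2 ^ 2 * (d.G2 - d.s2) = d.r2 ^ 2 * d.G2 - d.t2 ^ 2 := by
    rw [← h]; ring
  rw [h1, d.r2q, d.c2]
  simp only [q2, G2]
  ring
theorem q3_sq : d.q3 ^ 2 = d.r3 ^ 2 * (d.G2 - d.s3) := by
  have h := d.s3_mul
  have h1 : d.r3 ^ 2 * (d.G2 - d.s3) = d.r3 ^ 2 * d.G2 - d.t3 ^ 2 := by
    rw [← h]; ring
  rw [h1, d.r3q, d.c3]
  simp only [q3, G2]
  ring
theorem q0_sq : d.q0 ^ 2 = (d.w3 - d.w2) ^ 2 * (d.G2 - d.m23 ^ 2) := by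
  simp only [q0, G2]; ring

theorem u_sum : d.u1 + d.u3 + d.u0 = 0 := by
  simp only [u1, u3, u0]; ring
theorem p_sum : d.p1 + d.p2 + d.p0 = 0 := by
  simp only [p1, p2, p0]; ring
theorem q_sum : d.q2 + d.q3 + d.q0 = 0 := by
  simp only [q2, q3, q0]; ring

theorem u1_add_p1 : d.u1 + d.p1 = -((d.m13 - d.m12) * d.r1 ^ 2) := by
  have h : d.y13 = d.m12 * d.w1 + d.y12 - d.m13 * d.w1 := by linarith [d.a1, d.b1]
  rw [d.r1q]
  simp only [u1, p1]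
  rw [h]; ring
theorem p2_add_q2 : d.p2 + d.q2 = (d.m23 - d.m12) * d.r2 ^ 2 := by
  have h : d.y23 = d.m12 * d.w2 + d.y12 - d.m23 * d.w2 := by linarith [d.a2, d.c2]
  rw [d.r2q]
  simp only [p2, q2]
  rw [h]; ring
theorem u3_add_q3 : d.u3 + d.q3 = -((d.m23 - d.m13) * d.r3 ^ 2) := by
  have h : d.y23 = d.m13 * d.w3 + d.y13 - d.m23 * d.w3 := by linarith [d.b3, d.c3]
  rw [d.r3q]
  simp only [u3, q3]
  rw [h]; ring

theorem m12_lt : d.m12 < d.m13 := by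
  have h : (d.m13 - d.m12) * (d.w3 - d.w1) = (d.m23 - d.m12) * (d.w3 - d.w2) := by
    linear_combination d.b1 - d.b3 + d.c3 - d.c2 + d.a2 - d.a1
  have h1 : 0 < (d.m23 - d.m12) * (d.w3 - d.w2) :=
    mul_pos (sub_pos.2 d.hm) (sub_pos.2 d.w23)
  have h2 : 0 < d.w3 - d.w1 := sub_pos.2 (d.w12.trans d.w23)
  have h3 : 0 < d.m13 - d.m12 := by
    by_contra h4
    have h5 := mul_nonpos_of_nonpos_of_nonneg (not_lt.1 h4) h2.le
    linarith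
  linarith
theorem m13_lt : d.m13 < d.m23 := by
  have h : (d.m23 - d.m13) * (d.w3 - d.w1) = (d.m23 - d.m12) * (d.w2 - d.w1) := by
    linear_combination d.b3 - d.b1 + d.c2 - d.c3 + d.a1 - d.a2
  have h1 : 0 < (d.m23 - d.m12) * (d.w2 - d.w1) :=
    mul_pos (sub_pos.2 d.hm) (sub_pos.2 d.w12)
  have h2 : 0 < d.w3 - d.w1 := sub_pos.2 (d.w12.trans d.w23)
  have h3 : 0 < d.m23 - d.m13 := by
    by_contra h4
    have h5 := mul_nonpos_of_nonpos_of_nonneg (not_lt.1 h4) h2.le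
    linarith
  linarith

/-- if `x + y < 0` and `y² ≤ x²` then `x < 0` -/
theorem neg_of_sq {x y : ℝ} (h : x + y < 0) (h2 : y ^ 2 ≤ x ^ 2) : x < 0 := by
  by_contra h3
  have h4 : 0 ≤ x := not_lt.1 h3
  have h5 : x < -y := by linarith
  have h6 : x ^ 2 < (-y) ^ 2 := pow_lt_pow_left₀ h5 h4 two_ne_zero
  rw [neg_sq] at h6
  linarith

/-- if `0 < x + y` and `y² ≤ x²` then `0 < x` -/
theorem pos_of_sq {x y : ℝ} (h : 0 < x + y) (h2 : y ^ 2 ≤ x ^ 2) : 0 < x := by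
  have h3 : -x < 0 := neg_of_sq (x := -x) (y := -y) (by linarith) (by rw [neg_sq, neg_sq]; exact h2)
  linarith

/-- if `x + y ≠ 0` and `x² = y²` then `x = y` -/
theorem eq_of_sq {x y : ℝ} (h : x + y ≠ 0) (h2 : x ^ 2 = y ^ 2) : x = y := by
  have h3 : (x + y) * (x - y) = 0 := by linear_combination h2
  rcases mul_eq_zero.1 h3 with h4 | h4
  · exact absurd h4 h
  · linarith

theorem u1p1_neg : d.u1 + d.p1 < 0 := by
  rw [d.u1_add_p1]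
  have h := mul_pos (sub_pos.2 d.m12_lt) (pow_pos d.r1p 2)
  linarith

theorem p2q2_pos : 0 < d.p2 + d.q2 := by
  rw [d.p2_add_q2]
  exact mul_pos (sub_pos.2 d.hm) (pow_pos d.r2p 2)

theorem u3q3_neg : d.u3 + d.q3 < 0 := by
  rw [d.u3_add_q3]
  have h := mul_pos (sub_pos.2 d.m13_lt) (pow_pos d.r3p 2)
  linarith

theorem u1_neg (h : d.G1 ≤ d.GU) : d.u1 < 0 := by
  refine neg_of_sq d.u1p1_neg ?_
  rw [d.u1_sq, d.p1_sq]
  exact mul_le_mul_of_nonneg_left (by linarith) (sq_nonneg _)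
theorem p1_neg (h : d.GU ≤ d.G1) : d.p1 < 0 := by
  refine neg_of_sq (y := d.u1) (by linarith [d.u1p1_neg]) ?_
  rw [d.u1_sq, d.p1_sq]
  exact mul_le_mul_of_nonneg_left (by linarith) (sq_nonneg _)
theorem p2_pos (h : d.G2 ≤ d.G1) : 0 < d.p2 := by
  refine pos_of_sq d.p2q2_pos ?_
  rw [d.q2_sq, d.p2_sq]
  exact mul_le_mul_of_nonneg_left (by linarith) (sq_nonneg _)
theorem q2_pos (h : d.G1 ≤ d.G2) : 0 < d.q2 := by
  refine pos_of_sq (y := d.p2) (by linarith [d.p2q2_pos]) ?_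
  rw [d.q2_sq, d.p2_sq]
  exact mul_le_mul_of_nonneg_left (by linarith) (sq_nonneg _)
theorem u3_neg (h : d.G2 ≤ d.GU) : d.u3 < 0 := by
  refine neg_of_sq d.u3q3_neg ?_
  rw [d.u3_sq, d.q3_sq]
  exact mul_le_mul_of_nonneg_left (by linarith) (sq_nonneg _)
theorem q3_neg (h : d.GU ≤ d.G2) : d.q3 < 0 := by
  refine neg_of_sq (y := d.u3) (by linarith [d.u3q3_neg]) ?_
  rw [d.u3_sq, d.q3_sq]
  exact mul_le_mul_of_nonneg_left (by linarith) (sq_nonneg _)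

theorem u1_eq_p1 (h : d.GU = d.G1) : d.u1 = d.p1 :=
  eq_of_sq d.u1p1_neg.ne (by rw [d.u1_sq, d.p1_sq, h])
theorem p2_eq_q2 (h : d.G1 = d.G2) : d.p2 = d.q2 :=
  eq_of_sq d.p2q2_pos.ne' (by rw [d.p2_sq, d.q2_sq, h])
theorem u3_eq_q3 (h : d.GU = d.G2) : d.u3 = d.q3 :=
  eq_of_sq d.u3q3_neg.ne (by rw [d.u3_sq, d.q3_sq, h])

theorem GU_nonneg : 0 ≤ d.GU :=
  add_nonneg (sq_nonneg _) (sq_nonneg _)
theorem G1_nonneg : 0 ≤ d.G1 :=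
  add_nonneg (sq_nonneg _) (sq_nonneg _)
theorem G2_nonneg : 0 ≤ d.G2 :=
  add_nonneg (sq_nonneg _) (sq_nonneg _)

end Pool.Agent.Helper22.ST.Dat
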