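import Pool.Agent.Helper22.ST.DefsII

/-!
# ST-B02: planar geometry of the normal form (one vertical face)

All from `r_i² = 1 + w_i²`, `r_i > 0`, `w1 < w2 < w3`, and `t_i - t_j = m_ij (w_i - w_j)`.
Triangle inequalities: `|r_i - r_j| < |w_i - w_j|`... precisely `r_i < r_j + (distance)`:
`(r_j + D)² - r_i² = 2 D r_j + D² + w_j² - w_i²` with `D = |w_i - w_j|` and `r_j > |w_j|`.
`face*`: with `s = m²`: `|t_i| = |m| r_i`, `|t_j| = |m| r_j`, `|t_i - t_j| = |m| D`, and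
`|r_i - r_j| < D < r_i + r_j`, so `m = 0` and `t_i = t_j = 0`.
`not_all`: `m12 (w2 - w1) = t2 - t1`, `m23 (w3 - w2) = t3 - t2`.
`y12_L`: `y12 = 0`: `t1 = m12 w1`, `t2 = m12 w2`; `s1 = s2`: `m12² w1² r2² = m12² w2² r1²`; `m12 ≠ 0`
gives `w1² = w2²`.
-/

open Real Set

namespace Pool.Agent.Helper22.ST.Dat

variable (d : Dat)

private theorem aux_abs {w r : ℝ} (hr : 0 < r) (h : r ^ 2 = 1 + w ^ 2) : |w| < r :=
  abs_lt_of_sq_lt_sq (by linarith) hr.le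

private theorem aux_lt {w w' r r' : ℝ} (hr' : 0 < r') (h : r ^ 2 = 1 + w ^ 2)
    (h' : r' ^ 2 = 1 + w' ^ 2) (hw : w ≠ w') : r < r' + |w - w'| := by
  have hD : 0 < |w - w'| := abs_pos.2 (sub_ne_zero.2 hw)
  have h1 := aux_abs hr' h'
  by_contra hcon
  push Not at hcon
  have h2 : (r' + |w - w'|) ^ 2 ≤ r ^ 2 := pow_le_pow_left₀ (by positivity) hcon 2
  have h3 : |w - w'| ^ 2 = (w - w') ^ 2 := sq_abs _
  have h4 : w' * (w - w') ≤ |w'| * |w - w'| := by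
    rw [← abs_mul]
    exact le_abs_self _
  have h5 : |w'| * |w - w'| < r' * |w - w'| := mul_lt_mul_of_pos_right h1 hD
  nlinarith

private theorem aux_face {m ti tj ri rj D : ℝ} (hD : 0 < D) (hi : 0 < ri) (hj : 0 < rj)
    (h1 : ti ^ 2 = m ^ 2 * ri ^ 2) (h2 : tj ^ 2 = m ^ 2 * rj ^ 2) (h3 : tj - ti = m * D)
    (h4 : rj < ri + D) (h5 : ri < rj + D) (h6 : D < ri + rj) : ti = 0 ∧ tj = 0 := by
  have h1' : ti = m * ri ∨ ti = -(m * ri) := sq_eq_sq_iff_eq_or_eq_neg.1 (by rw [h1]; ring)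
  have h2' : tj = m * rj ∨ tj = -(m * rj) := sq_eq_sq_iff_eq_or_eq_neg.1 (by rw [h2]; ring)
  have hm : m = 0 := by
    rcases h1' with h1' | h1' <;> rcases h2' with h2' | h2'
    · have h7 : m * (rj - ri - D) = 0 := by rw [h1', h2'] at h3; linarith
      exact (mul_eq_zero.1 h7).resolve_right (by intro h; linarith)
    · have h7 : m * (rj + ri + D) = 0 := by rw [h1', h2'] at h3; linarith
      exact (mul_eq_zero.1 h7).resolve_right (by positivity)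
    · have h7 : m * (rj + ri - D) = 0 := by rw [h1', h2'] at h3; linarith
      exact (mul_eq_zero.1 h7).resolve_right (by intro h; linarith)
    · have h7 : m * (ri - rj - D) = 0 := by rw [h1', h2'] at h3; linarith
      exact (mul_eq_zero.1 h7).resolve_right (by intro h; linarith)
  subst hm
  refine ⟨?_, ?_⟩
  · rcases h1' with h | h <;> simpa using h
  · rcases h2' with h | h <;> simpa using h

private theorem aux_s {t r s : ℝ} (hr : 0 < r) (h : (t / r) ^ 2 = s) : t ^ 2 = s * r ^ 2 := by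
  rw [← h, div_pow, div_mul_cancel₀ _ (by positivity)]

private theorem w13 : d.w1 < d.w3 := d.w12.trans d.w23

theorem abs_w1 : |d.w1| < d.r1 := aux_abs d.r1p d.r1q
theorem abs_w2 : |d.w2| < d.r2 := aux_abs d.r2p d.r2q
theorem abs_w3 : |d.w3| < d.r3 := aux_abs d.r3p d.r3q

theorem tri13 : d.w3 - d.w1 < d.r1 + d.r3 := by
  have h1 := abs_lt.1 d.abs_w1
  have h3 := abs_lt.1 d.abs_w3
  linarith [h1.1, h3.2]
theorem tri12 : d.w2 - d.w1 < d.r1 + d.r2 := by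
  have h1 := abs_lt.1 d.abs_w1
  have h3 := abs_lt.1 d.abs_w2
  linarith [h1.1, h3.2]
theorem tri23 : d.w3 - d.w2 < d.r2 + d.r3 := by
  have h1 := abs_lt.1 d.abs_w2
  have h3 := abs_lt.1 d.abs_w3
  linarith [h1.1, h3.2]
theorem r1_lt3 : d.r1 < d.r3 + (d.w3 - d.w1) := by
  have h := aux_lt d.r3p d.r1q d.r3q d.w13.ne
  rwa [abs_sub_comm, abs_of_pos (sub_pos.2 d.w13)] at h
theorem r3_lt1 : d.r3 < d.r1 + (d.w3 - d.w1) := by
  have h := aux_lt d.r1p d.r3q d.r1q d.w13.ne'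
  rwa [abs_of_pos (sub_pos.2 d.w13)] at h
theorem r1_lt2 : d.r1 < d.r2 + (d.w2 - d.w1) := by
  have h := aux_lt d.r2p d.r1q d.r2q d.w12.ne
  rwa [abs_sub_comm, abs_of_pos (sub_pos.2 d.w12)] at h
theorem r2_lt1 : d.r2 < d.r1 + (d.w2 - d.w1) := by
  have h := aux_lt d.r1p d.r2q d.r1q d.w12.ne'
  rwa [abs_of_pos (sub_pos.2 d.w12)] at h
theorem r2_lt3 : d.r2 < d.r3 + (d.w3 - d.w2) := by
  have h := aux_lt d.r3p d.r2q d.r3q d.w23.ne
  rwa [abs_sub_comm, abs_of_pos (sub_pos.2 d.w23)] at h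
theorem r3_lt2 : d.r3 < d.r2 + (d.w3 - d.w2) := by
  have h := aux_lt d.r2p d.r3q d.r2q d.w23.ne'
  rwa [abs_of_pos (sub_pos.2 d.w23)] at h
/-- `W2` is between `W1` and `W3` -/
theorem r2_lt : d.r2 < d.r1 ∨ d.r2 < d.r3 := by
  have h12 := d.w12
  have h23 := d.w23
  rcases le_or_gt 0 d.w2 with h | h
  · right
    refine lt_of_pow_lt_pow_left₀ 2 d.r3p.le ?_
    rw [d.r2q, d.r3q]
    nlinarith
  · left
    refine lt_of_pow_lt_pow_left₀ 2 d.r1p.le ?_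
    rw [d.r2q, d.r1q]
    nlinarith
theorem stewart : (d.w3 - d.w2) * d.r1 ^ 2 + (d.w2 - d.w1) * d.r3 ^ 2 =
    (d.w3 - d.w1) * (d.r2 ^ 2 + (d.w2 - d.w1) * (d.w3 - d.w2)) := by
  rw [d.r1q, d.r2q, d.r3q]
  ring

private theorem m_conv : d.m13 * (d.w3 - d.w1) =
    d.m12 * (d.w2 - d.w1) + d.m23 * (d.w3 - d.w2) := by
  linear_combination d.a2 - d.a1 + d.c3 - d.c2 + d.b1 - d.b3

theorem m_sq : ¬ (d.m12 ^ 2 = d.m13 ^ 2 ∧ d.m13 ^ 2 = d.m23 ^ 2) := by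
  rintro ⟨h1, h2⟩
  have hc := d.m_conv
  have hm := d.hm
  have h12 := sub_pos.2 d.w12
  have h23 := sub_pos.2 d.w23
  have h13 := sub_pos.2 d.w13
  have k1 : d.m12 < d.m13 := by
    by_contra hcon
    push Not at hcon
    nlinarith
  have k2 : d.m13 < d.m23 := by
    by_contra hcon
    push Not at hcon
    nlinarith
  rcases sq_eq_sq_iff_eq_or_eq_neg.1 h1 with h | h
  · linarith
  · rcases sq_eq_sq_iff_eq_or_eq_neg.1 h2 with h' | h' <;> linarith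

theorem faceU (h : d.s1 = d.s3) (h' : d.s1 = d.m13 ^ 2) : d.t1 = 0 ∧ d.t3 = 0 :=
  aux_face (sub_pos.2 d.w13) d.r1p d.r3p (aux_s d.r1p h') (aux_s d.r3p (h.symm.trans h'))
    (by linear_combination d.b3 - d.b1) d.r3_lt1 d.r1_lt3 d.tri13
theorem faceL1 (h : d.s1 = d.s2) (h' : d.s1 = d.m12 ^ 2) : d.t1 = 0 ∧ d.t2 = 0 :=
  aux_face (sub_pos.2 d.w12) d.r1p d.r2p (aux_s d.r1p h') (aux_s d.r2p (h.symm.trans h'))
    (by linear_combination d.a2 - d.a1) d.r2_lt1 d.r1_lt2 d.tri12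
theorem faceL2 (h : d.s2 = d.s3) (h' : d.s2 = d.m23 ^ 2) : d.t2 = 0 ∧ d.t3 = 0 :=
  aux_face (sub_pos.2 d.w23) d.r2p d.r3p (aux_s d.r2p h') (aux_s d.r3p (h.symm.trans h'))
    (by linear_combination d.c3 - d.c2) d.r3_lt2 d.r2_lt3 d.tri23

private theorem aux_G {m y w w' : ℝ} (hw : w < w') (h : 0 = m * w + y) (h' : 0 = m * w' + y) :
    m ^ 2 + y ^ 2 = 0 ∧ m = 0 := by
  have h1 : m * (w' - w) = 0 := by linarith
  have hm : m = 0 := (mul_eq_zero.1 h1).resolve_right (by intro h2; linarith)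
  subst hm
  have hy : y = 0 := by linarith
  subst hy
  simp

theorem GU_zero (h1 : d.t1 = 0) (h3 : d.t3 = 0) : d.GU = 0 ∧ d.m13 = 0 :=
  aux_G d.w13 (h1 ▸ d.b1) (h3 ▸ d.b3)
theorem G1_zero (h1 : d.t1 = 0) (h2 : d.t2 = 0) : d.G1 = 0 ∧ d.m12 = 0 :=
  aux_G d.w12 (h1 ▸ d.a1) (h2 ▸ d.a2)
theorem G2_zero (h2 : d.t2 = 0) (h3 : d.t3 = 0) : d.G2 = 0 ∧ d.m23 = 0 :=
  aux_G d.w23 (h2 ▸ d.c2) (h3 ▸ d.c3)

theorem not_all (h1 : d.t1 = 0) (h2 : d.t2 = 0) (h3 : d.t3 = 0) : False := by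
  have h4 := (d.G1_zero h1 h2).2
  have h5 := (d.G2_zero h2 h3).2
  have h6 := d.hm
  rw [h4, h5] at h6
  exact lt_irrefl _ h6

/-- (C) of the memo -/
theorem r1_eq_r2 (h : d.r1 = d.r2) : d.w1 = -d.w2 ∧ 0 < d.w2 ∧ d.r2 < d.r3 ∧
    d.w2 - d.w1 < 2 * d.r3 ∧ d.w3 - d.w2 < d.r3 ∧ d.w3 - d.w1 < 2 * d.r3 := by
  have h12 := d.w12
  have h23 := d.w23
  have h1 : d.w1 ^ 2 = d.w2 ^ 2 := by
    have h2 := d.r1q
    rw [h, d.r2q] at h2
    linarith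
  have h2 : d.w1 = -d.w2 := by
    rcases sq_eq_sq_iff_eq_or_eq_neg.1 h1 with h3 | h3
    · linarith
    · exact h3
  have h3 : 0 < d.w2 := by linarith
  have h4 : d.r2 < d.r3 := by
    refine lt_of_pow_lt_pow_left₀ 2 d.r3p.le ?_
    rw [d.r2q, d.r3q]
    nlinarith
  have h5 := (abs_lt.1 d.abs_w3).2
  refine ⟨h2, h3, h4, ?_, ?_, ?_⟩ <;> linarith

/-- (L) of the memo -/
theorem y12_L (hy : d.y12 = 0) (h : d.s1 = d.s2) : d.r1 = d.r2 ∨ (d.t1 = 0 ∧ d.t2 = 0) := by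
  have h1 : d.t1 = d.m12 * d.w1 := by rw [d.a1, hy, add_zero]
  have h2 : d.t2 = d.m12 * d.w2 := by rw [d.a2, hy, add_zero]
  have h3 : d.t1 ^ 2 * d.r2 ^ 2 = d.t2 ^ 2 * d.r1 ^ 2 := by
    have h4 := aux_s d.r1p h
    have h5 := aux_s d.r2p (show (d.t2 / d.r2) ^ 2 = d.s2 from rfl)
    rw [h4, h5]
    ring
  rw [h1, h2, d.r1q, d.r2q] at h3
  have h4 : d.m12 ^ 2 * (d.w1 ^ 2 - d.w2 ^ 2) = 0 := by linear_combination h3
  rcases mul_eq_zero.1 h4 with h5 | h5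
  · right
    have h6 : d.m12 = 0 := by simpa using h5
    rw [h1, h2, h6, zero_mul, zero_mul]
    exact ⟨rfl, rfl⟩
  · left
    have h6 : d.r1 ^ 2 = d.r2 ^ 2 := by rw [d.r1q, d.r2q]; linarith
    exact (pow_left_inj₀ d.r1p.le d.r2p.le two_ne_zero).1 h6

end Pool.Agent.Helper22.ST.Dat
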