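import Pool.Agent.Helper22.ST.DefsII

/-!
# ST-B03: the mirror image

All fields of `d.mirror` are definitional; `St` at `(s, G)` for the mirror image is `St` for `d` with the
summands permuted (`(-m)² = m²`).
-/

open Real Set

namespace Pool.Agent.Helper22.ST.Dat

variable (d : Dat)

theorem mirror_s1 : d.mirror.s1 = d.s3 := by rfl
theorem mirror_s2 : d.mirror.s2 = d.s2 := by rfl
theorem mirror_s3 : d.mirror.s3 = d.s1 := by rfl
theorem mirror_GU : d.mirror.GU = d.GU := by simp only [mirror, GU, G1, G2, neg_sq]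
theorem mirror_G1 : d.mirror.G1 = d.G2 := by simp only [mirror, GU, G1, G2, neg_sq]
theorem mirror_G2 : d.mirror.G2 = d.G1 := by simp only [mirror, GU, G1, G2, neg_sq]
theorem mirror_u1 : d.mirror.u1 = d.u3 := by simp only [mirror, u1, u3, u0, p1, p2, p0, q2, q3, q0]; ring
theorem mirror_u3 : d.mirror.u3 = d.u1 := by simp only [mirror, u1, u3, u0, p1, p2, p0, q2, q3, q0]; ring
theorem mirror_u0 : d.mirror.u0 = d.u0 := by simp only [mirror, u1, u3, u0, p1, p2, p0, q2, q3, q0]; ring
theorem mirror_p1 : d.mirror.p1 = d.q3 := by simp only [mirror, u1, u3, u0, p1, p2, p0, q2, q3, q0]; ring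
theorem mirror_p2 : d.mirror.p2 = d.q2 := by simp only [mirror, u1, u3, u0, p1, p2, p0, q2, q3, q0]; ring
theorem mirror_p0 : d.mirror.p0 = d.q0 := by simp only [mirror, u1, u3, u0, p1, p2, p0, q2, q3, q0]; ring
theorem mirror_q2 : d.mirror.q2 = d.p2 := by simp only [mirror, u1, u3, u0, p1, p2, p0, q2, q3, q0]; ring
theorem mirror_q3 : d.mirror.q3 = d.p1 := by simp only [mirror, u1, u3, u0, p1, p2, p0, q2, q3, q0]; ring
theorem mirror_q0 : d.mirror.q0 = d.p0 := by simp only [mirror, u1, u3, u0, p1, p2, p0, q2, q3, q0]; ring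
theorem mirror_m12 : d.mirror.m12 ^ 2 = d.m23 ^ 2 := by simp only [mirror, neg_sq]
theorem mirror_m13 : d.mirror.m13 ^ 2 = d.m13 ^ 2 := by simp only [mirror, neg_sq]
theorem mirror_m23 : d.mirror.m23 ^ 2 = d.m12 ^ 2 := by simp only [mirror, neg_sq]

theorem mirror_St (h : d.St) : d.mirror.St := by
  intro s G
  have hh := h s G
  rw [mirror_s1, mirror_s2, mirror_s3, mirror_GU, mirror_G1, mirror_G2, mirror_u1, mirror_u3,
    mirror_u0, mirror_p1, mirror_p2, mirror_p0, mirror_q2, mirror_q3, mirror_q0, mirror_m12,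
    mirror_m13, mirror_m23]
  linarith

end Pool.Agent.Helper22.ST.Dat
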