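import Pool.Agent.Helper22.ST.DefsII

/-!
# ST-B04: a face whose gradient has its own length

`alone3`: by cases on the coincidences of `s1, s2, s3`; if e.g. `s1` differs from both others, `s = s1` gives
`x1 = 0`, so `x3 = -x2`, and if `x2 ≠ 0` then `s2 = s3` (otherwise `s = s2` gives `x2 = 0`).

`alone_face`: apply `alone3` with `x1 = -(m - y wi)`, `x2 = m - y wj`, `x3 = (wj - wi) y` (sum 0).
* all three `0`: `y = 0`, `m = 0`, `ti = tj = 0`.
* `x1 = 0`, `(tj/rj)² = m²`, `x2 ≠ 0`: `x2² = rj² (m² + y²) - tj²= rj² y²` (as `tj² = m² rj²`) and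
  `x2² = x3² = (wj - wi)² y²`, `y ≠ 0`: `rj = wj - wi`; `tj² = m² (wj-wi)² = (tj - ti)²`: `ti = 0` or
  `ti = 2 tj`; `ti = 0` and `m = y wi` give `0 = y (1 + wi²)`, `y = 0`, no; `tj ≠ 0` (otherwise `ti = 0`).
* `x2 = 0`: the same with `i, j` exchanged.
* `x3 = 0`: `y = 0`, `x1 = -m ≠ 0`, `ti = m wi`, `tj = m wj`, `(ti/ri)² = (tj/rj)²`: `wi² = wj²`,
  `wi = -wj` (not equal, and then `wi ≠ 0`).
* all slopes equal: `ti² = m² ri²`, `tj² = m² rj²`, `(ti - tj)² = m² (wi - wj)²` with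
  `|ri - rj| < wj - wi < ri + rj` forces `m = 0`, `ti = tj = 0`.
-/

open Real Set

namespace Pool.Agent.Helper22.ST

theorem alone3 (x1 x2 x3 s1 s2 s3 : ℝ) (hs : x1 + x2 + x3 = 0)
    (h : ∀ s, ind (s1 = s) x1 + ind (s2 = s) x2 + ind (s3 = s) x3 = 0) :
    (x1 = 0 ∧ x2 = 0 ∧ x3 = 0) ∨ (x1 = 0 ∧ s2 = s3 ∧ x2 ≠ 0) ∨ (x2 = 0 ∧ s1 = s3 ∧ x1 ≠ 0) ∨
      (x3 = 0 ∧ s1 = s2 ∧ x1 ≠ 0) ∨ (s1 = s2 ∧ s2 = s3) := by
  by_cases h12 : s1 = s2
  · by_cases h23 : s2 = s3
    · exact Or.inr (Or.inr (Or.inr (Or.inr ⟨h12, h23⟩)))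
    · have h13 : ¬ s1 = s3 := fun e => h23 (h12.symm.trans e)
      have e := h s3
      rw [ind_neg h13, ind_neg h23, ind_pos rfl] at e
      have e3 : x3 = 0 := by linarith
      by_cases h1 : x1 = 0
      · exact Or.inl ⟨h1, by linarith, e3⟩
      · exact Or.inr (Or.inr (Or.inr (Or.inl ⟨e3, h12, h1⟩)))
  · by_cases h23 : s2 = s3
    · have h13 : ¬ s1 = s3 := fun e => h12 (e.trans h23.symm)
      have e := h s1
      rw [ind_pos rfl, ind_neg (fun e => h12 e.symm), ind_neg (fun e => h13 e.symm)] at e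
      have e1 : x1 = 0 := by linarith
      by_cases h2 : x2 = 0
      · exact Or.inl ⟨e1, h2, by linarith⟩
      · exact Or.inr (Or.inl ⟨e1, h23, h2⟩)
    · by_cases h13 : s1 = s3
      · have e := h s2
        rw [ind_neg h12, ind_pos rfl, ind_neg (fun e => h23 e.symm)] at e
        have e2 : x2 = 0 := by linarith
        by_cases h1 : x1 = 0
        · exact Or.inl ⟨h1, e2, by linarith⟩
        · exact Or.inr (Or.inr (Or.inl ⟨e2, h13, h1⟩))
      · have e := h s1
        rw [ind_pos rfl, ind_neg (fun e => h12 e.symm), ind_neg (fun e => h13 e.symm)] at e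
        have e' := h s2
        rw [ind_neg h12, ind_pos rfl, ind_neg (fun e => h23 e.symm)] at e'
        have e1 : x1 = 0 := by linarith
        have e2 : x2 = 0 := by linarith
        exact Or.inl ⟨e1, e2, by linarith⟩

private theorem sqd {t r m : ℝ} (hr : 0 < r) (h : (t / r) ^ 2 = m ^ 2) : t ^ 2 = m ^ 2 * r ^ 2 := by
  rw [div_pow, div_eq_iff (by positivity)] at h
  exact h

private theorem sub_r {a b r y : ℝ} (hy : y ≠ 0) (hab : 0 < b - a) (hr : 0 < r)
    (h : y ^ 2 * (b - a) ^ 2 = y ^ 2 * r ^ 2) : r = b - a := by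
  have h1 : (b - a) ^ 2 = r ^ 2 := mul_left_cancel₀ (pow_ne_zero 2 hy) h
  have h2 := (sq_eq_sq₀ hab.le hr.le).1 h1
  exact h2.symm

theorem alone_face (wi wj ti tj m y ri rj : ℝ) (hw : wi < wj) (hi : ti = m * wi + y)
    (hj : tj = m * wj + y) (rip : 0 < ri) (rjp : 0 < rj) (riq : ri ^ 2 = 1 + wi ^ 2)
    (rjq : rj ^ 2 = 1 + wj ^ 2)
    (h : ∀ s, ind ((ti / ri) ^ 2 = s) (-(m - y * wi)) + ind ((tj / rj) ^ 2 = s) (m - y * wj) +
      ind (m ^ 2 = s) ((wj - wi) * y) = 0) :
    (ti = 0 ∧ tj = 0) ∨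
    (y = 0 ∧ wi = -wj ∧ ti = -tj ∧ ti ≠ 0) ∨
    (m - y * wi = 0 ∧ rj = wj - wi ∧ ti = 2 * tj ∧ tj ≠ 0 ∧ (tj / rj) ^ 2 = m ^ 2) ∨
    (m - y * wj = 0 ∧ ri = wj - wi ∧ tj = 2 * ti ∧ ti ≠ 0 ∧ (ti / ri) ^ 2 = m ^ 2) := by
  have hp : 0 < wj - wi := sub_pos.2 hw
  rcases alone3 (-(m - y * wi)) (m - y * wj) ((wj - wi) * y) ((ti / ri) ^ 2) ((tj / rj) ^ 2)
    (m ^ 2) (by ring) h with ⟨h1, h2, h3⟩ | ⟨h1, h2, h3⟩ | ⟨h1, h2, h3⟩ | ⟨h1, h2, h3⟩ | ⟨h1, h2⟩
  · left
    have hy : y = 0 := (mul_eq_zero.1 h3).resolve_left hp.ne'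
    have hm : m = 0 := by rw [hy] at h2; linarith
    rw [hi, hj, hy, hm]
    simp
  · right; right; left
    have hm : m = y * wi := by linarith
    have hy : y ≠ 0 := by
      intro hy
      apply h3
      rw [hm, hy]; ring
    have ht : tj ^ 2 = m ^ 2 * rj ^ 2 := sqd rjp h2
    have hr : rj = wj - wi := by
      apply sub_r hy hp rjp
      have e1 : (m - y * wj) ^ 2 + tj ^ 2 = (m ^ 2 + y ^ 2) * rj ^ 2 := by rw [hj, rjq]; ring
      have e2 : (m - y * wj) ^ 2 = y ^ 2 * (wj - wi) ^ 2 := by rw [hm]; ring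
      rw [← e2]
      linear_combination e1 - ht
    have hti : ti ≠ 0 := by
      intro e
      have e1 : y * (1 + wi ^ 2) = 0 := by
        have : m * wi + y = 0 := by rw [← hi]; exact e
        rw [hm] at this
        linear_combination this
      rcases mul_eq_zero.1 e1 with e2 | e2
      · exact hy e2
      · nlinarith [sq_nonneg wi]
    have h4 : ti * (ti - 2 * tj) = 0 := by
      have e1 : tj - ti = m * (wj - wi) := by rw [hi, hj]; ring
      have e2 : tj ^ 2 = (tj - ti) ^ 2 := by rw [e1, ht, hr]; ring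
      linear_combination -e2
    have h5 : ti = 2 * tj := by
      rcases mul_eq_zero.1 h4 with e | e
      · exact absurd e hti
      · linarith
    refine ⟨by linarith, hr, h5, ?_, h2⟩
    intro e
    apply hti
    rw [h5, e]; ring
  · right; right; right
    have hm : m = y * wj := by linarith
    have hy : y ≠ 0 := by
      intro hy
      apply h3
      rw [hm, hy]; ring
    have ht : ti ^ 2 = m ^ 2 * ri ^ 2 := sqd rip h2
    have hr : ri = wj - wi := by
      apply sub_r hy hp rip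
      have e1 : (m - y * wi) ^ 2 + ti ^ 2 = (m ^ 2 + y ^ 2) * ri ^ 2 := by rw [hi, riq]; ring
      have e2 : (m - y * wi) ^ 2 = y ^ 2 * (wj - wi) ^ 2 := by rw [hm]; ring
      rw [← e2]
      linear_combination e1 - ht
    have hti : tj ≠ 0 := by
      intro e
      have e1 : y * (1 + wj ^ 2) = 0 := by
        have : m * wj + y = 0 := by rw [← hj]; exact e
        rw [hm] at this
        linear_combination this
      rcases mul_eq_zero.1 e1 with e2 | e2
      · exact hy e2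
      · nlinarith [sq_nonneg wj]
    have h4 : tj * (tj - 2 * ti) = 0 := by
      have e1 : tj - ti = m * (wj - wi) := by rw [hi, hj]; ring
      have e2 : ti ^ 2 = (tj - ti) ^ 2 := by rw [e1, ht, hr]; ring
      linear_combination -e2
    have h5 : tj = 2 * ti := by
      rcases mul_eq_zero.1 h4 with e | e
      · exact absurd e hti
      · linarith
    refine ⟨by linarith, hr, h5, ?_, h2⟩
    intro e
    apply hti
    rw [h5, e]; ring
  · right; left
    have hy : y = 0 := (mul_eq_zero.1 h1).resolve_left hp.ne'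
    have hm : m ≠ 0 := by
      intro e
      apply h3
      rw [e, hy]; ring
    have hi' : ti = m * wi := by rw [hi, hy]; ring
    have hj' : tj = m * wj := by rw [hj, hy]; ring
    have h4 : wi ^ 2 = wj ^ 2 := by
      rw [div_pow, div_pow, div_eq_div_iff (by positivity) (by positivity), hi', hj', riq, rjq] at h2
      have h5 : m ^ 2 * wi ^ 2 = m ^ 2 * wj ^ 2 := by linear_combination h2
      exact mul_left_cancel₀ (pow_ne_zero 2 hm) h5
    have h5 : wi = -wj := by
      rcases sq_eq_sq_iff_eq_or_eq_neg.1 h4 with e | e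
      · exact absurd e hw.ne
      · exact e
    refine ⟨hy, h5, by rw [hi', hj', h5]; ring, ?_⟩
    rw [hi']
    refine mul_ne_zero hm ?_
    intro e
    have : wj = 0 := by linarith
    rw [e, this] at hw
    exact lt_irrefl _ hw
  · left
    have ht2 : tj ^ 2 = m ^ 2 * rj ^ 2 := sqd rjp h2
    have ht1 : ti ^ 2 = m ^ 2 * ri ^ 2 := sqd rip (h1.trans h2)
    have hm : m = 0 := by
      by_contra hm
      have hm2 : 0 < m ^ 2 := by positivity
      have e1 : (ti - tj) ^ 2 = m ^ 2 * (wi - wj) ^ 2 := by rw [hi, hj]; ring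
      have e2 : 2 * (ti * tj) = m ^ 2 * (2 * (1 + wi * wj)) := by
        rw [riq] at ht1
        rw [rjq] at ht2
        linear_combination ht1 + ht2 - e1
      have e3 : (ti * tj) ^ 2 = (m ^ 2) ^ 2 * (ri ^ 2 * rj ^ 2) := by
        rw [mul_pow, ht1, ht2]; ring
      have e4 : ti * tj = m ^ 2 * (1 + wi * wj) := by linarith
      rw [e4, riq, rjq] at e3
      have e5 : (m ^ 2) ^ 2 * (wi - wj) ^ 2 = 0 := by linear_combination -e3
      have e6 : 0 < (m ^ 2) ^ 2 * (wi - wj) ^ 2 := by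
        have : wi - wj ≠ 0 := by
          intro e
          linarith
        positivity
      linarith
    rw [hm] at ht1 ht2
    constructor
    · have : ti ^ 2 = 0 := by rw [ht1]; ring
      exact pow_eq_zero_iff (two_ne_zero) |>.1 this
    · have : tj ^ 2 = 0 := by rw [ht2]; ring
      exact pow_eq_zero_iff (two_ne_zero) |>.1 this

end Pool.Agent.Helper22.ST
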