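import Pool.Agent.Helper22.ST.B02Geo
import Pool.Agent.Helper22.ST.B05AloneD
import Pool.Agent.Helper22.ST.B07Group

/-!
# ST-B08: `G1 = G2 ≠ GU`: first part (memo 4.2, (i), (ii))

`case2_lt`: otherwise `GU > G1 = G2`, `u1 < 0`, `u3 < 0` (`u1_neg`, `u3_neg`), and `aloneU` is impossible:
`t1 = t3 = 0` gives `GU = 0` (`GU_zero`), but `GU > G1 ≥ 0`; `y13 = 0` gives `u0 = 0`, `u1 + u3 = 0` (`u_sum`);
the others say `u1 = 0` or `u3 = 0`.
From now on `p1 < 0` (`p1_neg`), `q3 < 0` (`q3_neg`), `p2 > 0` (`p2_pos`).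
`case2_i`: `s1 = s3 = 0`; `s2 ≠ 0` (otherwise `t2 = 0`, `not_all`), `m12 ≠ 0` (otherwise `t2 = t1 = 0`), `m23 ≠ 0`;
`group12` at `s = 0`: `p1 + q3 = 0`, no.
`case2_ii`: `w1 = -w3`: `r1 = r3`, `s1 = s3`, `w3 > 0`, `r2 < r1` (`|w2| < w3`).  `group12` at `s = s1`, with
`ρ = √(G1 - s1) > 0` (`p1_sq`, `p1 ≠ 0`), `p1 = -(r1 ρ)`, `q3 = -(r1 ρ)` (`len_or`).
If `s2 = s1`: `m12² ≠ s1`, `m23² ≠ s1` (`faceL1`, `faceL2`, `t1 ≠ 0`, `t3 ≠ 0`), `p2 = r2 ρ`: `2 r2 = 2 r1`, no.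
Otherwise `2 r1 ρ = ind .. p0 + ind .. q0 ≤ (w2 - w1) ρ + (w3 - w2) ρ = 2 w3 ρ < 2 r1 ρ` (`p0_sq`, `q0_sq`).
-/

open Real Set

namespace Pool.Agent.Helper22.ST.Dat

variable (d : Dat)

theorem case2_lt (hS : d.St) (h : d.G1 = d.G2) (h' : d.GU ≠ d.G1) : d.GU < d.G1 := by
  by_contra hc
  push Not at hc
  have hlt : d.G1 < d.GU := lt_of_le_of_ne hc (Ne.symm h')
  have hu1 := d.u1_neg hc
  have hu3 := d.u3_neg (h ▸ hc)
  have hs := d.u_sum
  rcases d.aloneU hS h' (h ▸ h') with ⟨e1, e3⟩ | ⟨e, -⟩ | ⟨e, -⟩ | ⟨e, -⟩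
  · have := (d.GU_zero e1 e3).1
    have := d.G1_nonneg
    linarith
  · have h0 : d.u0 = 0 := by
      unfold u0
      rw [e, mul_zero]
    linarith
  · linarith
  · linarith

theorem case2_i (hS : d.St) (h : d.G1 = d.G2) (h' : d.GU ≠ d.G1) (h1 : d.t1 = 0)
    (h3 : d.t3 = 0) : False := by
  have hlt := d.case2_lt hS h h'
  have hp1 := d.p1_neg hlt.le
  have hq3 := d.q3_neg (h ▸ hlt.le)
  have hs1 : d.s1 = 0 := by
    unfold s1
    rw [h1]
    norm_num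
  have hs3 : d.s3 = 0 := by
    unfold s3
    rw [h3]
    norm_num
  have ht2 : d.t2 ≠ 0 := fun h2 => d.not_all h1 h2 h3
  have hs2 : d.s2 ≠ 0 := by
    unfold s2
    exact pow_ne_zero 2 (div_ne_zero ht2 d.r2p.ne')
  have hm12 : d.m12 ^ 2 ≠ 0 := by
    intro hm
    have hm' : d.m12 = 0 := by simpa using hm
    have e1 := d.a1
    have e2 := d.a2
    rw [hm'] at e1 e2
    apply ht2
    linarith
  have hm23 : d.m23 ^ 2 ≠ 0 := by
    intro hm
    have hm' : d.m23 = 0 := by simpa using hm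
    have e1 := d.c2
    have e2 := d.c3
    rw [hm'] at e1 e2
    apply ht2
    linarith
  have hg := d.group12 hS h h' 0
  rw [ind_pos hs1, ind_neg hs2, ind_pos hs3, ind_neg hm12, ind_neg hm23] at hg
  linarith

private theorem ind_le_aux {p : Prop} {x B : ℝ} (hB : 0 ≤ B) (h : p → x ≤ B) : ind p x ≤ B := by
  by_cases hp : p
  · rw [ind_pos hp]
    exact h hp
  · rw [ind_neg hp]
    exact hB

theorem case2_ii (hS : d.St) (h : d.G1 = d.G2) (h' : d.GU ≠ d.G1) (hw : d.w1 = -d.w3)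
    (ht : d.t1 = -d.t3) (h0 : d.t1 ≠ 0) : False := by
  have hlt := d.case2_lt hS h h'
  have hp1 := d.p1_neg hlt.le
  have hq3 := d.q3_neg (h ▸ hlt.le)
  have hp2 := d.p2_pos h.symm.le
  have w12 := d.w12
  have w23 := d.w23
  have hr : d.r1 = d.r3 := by
    have e : d.r1 ^ 2 = d.r3 ^ 2 := by
      rw [d.r1q, d.r3q, hw]
      ring
    rcases sq_eq_sq_iff_eq_or_eq_neg.1 e with e' | e'
    · exact e'
    · have := d.r1p
      have := d.r3p
      linarith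
  have hs13 : d.s1 = d.s3 := by
    unfold s1 s3
    rw [hr, ht]
    ring
  have hw3 : 0 < d.w3 := by linarith
  have hr2 : d.r2 < d.r1 := by
    have e : d.r2 ^ 2 < d.r1 ^ 2 := by
      rw [d.r1q, d.r2q]
      nlinarith
    exact lt_of_pow_lt_pow_left₀ 2 d.r1p.le e
  have hw3r : d.w3 < d.r1 := by
    rw [hr]
    exact lt_of_le_of_lt (le_abs_self _) d.abs_w3
  have hR : 0 < d.G1 - d.s1 := by
    have e := d.p1_sq
    have hpos : 0 < d.p1 ^ 2 := sq_pos_of_neg hp1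
    rw [e] at hpos
    by_contra hc
    push Not at hc
    have : d.r1 ^ 2 * (d.G1 - d.s1) ≤ 0 := mul_nonpos_of_nonneg_of_nonpos (by positivity) hc
    linarith
  set ρ := √(d.G1 - d.s1) with hρ
  have hρp : 0 < ρ := Real.sqrt_pos.2 hR
  have hρq : ρ ^ 2 = d.G1 - d.s1 := Real.sq_sqrt hR.le
  have ep1 : d.p1 = -(d.r1 * ρ) := by
    rcases len_or d.p1_sq d.r1p hR.le with e | e
    · have : 0 < d.r1 * √(d.G1 - d.s1) := mul_pos d.r1p hρp
      linarith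
    · exact e
  have eq3 : d.q3 = -(d.r1 * ρ) := by
    have e0 : d.q3 ^ 2 = d.r1 ^ 2 * (d.G1 - d.s1) := by
      rw [d.q3_sq, ← h, ← hs13, hr]
    rcases len_or e0 d.r1p hR.le with e | e
    · have : 0 < d.r1 * √(d.G1 - d.s1) := mul_pos d.r1p hρp
      linarith
    · exact e
  have hg := d.group12 hS h h' d.s1
  rw [ind_pos rfl, ind_pos hs13.symm] at hg
  by_cases hs2 : d.s2 = d.s1
  · have n12 : ¬ d.m12 ^ 2 = d.s1 := fun e => h0 (d.faceL1 hs2.symm e.symm).1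
    have n23 : ¬ d.m23 ^ 2 = d.s1 := by
      intro e
      have := (d.faceL2 (hs2.trans hs13) (hs2.trans e.symm)).2
      apply h0
      rw [ht, this, neg_zero]
    have ep2 : d.p2 = d.r2 * ρ := by
      have e0 : d.p2 ^ 2 = d.r2 ^ 2 * (d.G1 - d.s1) := by
        rw [d.p2_sq, hs2]
      rcases len_or e0 d.r2p hR.le with e | e
      · exact e
      · have : 0 < d.r2 * √(d.G1 - d.s1) := mul_pos d.r2p hρp
        linarith
    rw [ind_pos hs2, ind_neg n12, ind_neg n23, ep1, eq3, ep2] at hg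
    have : 2 * (d.r1 - d.r2) * ρ = 0 := by linarith
    have h2 : 0 < 2 * (d.r1 - d.r2) * ρ := mul_pos (by linarith) hρp
    linarith
  · rw [ind_neg hs2] at hg
    have b12 : ind (d.m12 ^ 2 = d.s1) d.p0 ≤ (d.w2 - d.w1) * ρ := by
      apply ind_le_aux (mul_nonneg (by linarith) hρp.le)
      intro e
      have e0 := d.p0_sq
      rw [e, ← hρq, ← mul_pow] at e0
      exact abs_le_of_sq_le_sq' e0.le (mul_nonneg (by linarith) hρp.le) |>.2
    have b23 : ind (d.m23 ^ 2 = d.s1) d.q0 ≤ (d.w3 - d.w2) * ρ := by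
      apply ind_le_aux (mul_nonneg (by linarith) hρp.le)
      intro e
      have e0 := d.q0_sq
      rw [e, ← h, ← hρq, ← mul_pow] at e0
      exact abs_le_of_sq_le_sq' e0.le (mul_nonneg (by linarith) hρp.le) |>.2
    rw [ep1, eq3] at hg
    have h2 : d.w3 * ρ < d.r1 * ρ := mul_lt_mul_of_pos_right hw3r hρp
    rw [hw] at b12
    nlinarith

end Pool.Agent.Helper22.ST.Dat
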