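import Pool.Agent.Helper22.ST.B02Geo
import Pool.Agent.Helper22.ST.B05AloneD
import Pool.Agent.Helper22.ST.B07Group

/-!
# ST-B14: `GU = G1 > G2`, base `A3` of the face `L2` (memo 4.4, (iv)), class of `s3`

`b = w3 - w1`, `b1 = w2 - w1`, `b2 = w3 - w2`.  Hypotheses `q3 = 0`, `r2 = b2`, `t3 = 2 t2`, `t2 ≠ 0`, `s2 = m23²`.
As in B13: `G2 = s3` (`q3_sq`), `q2 ≠ 0`, so `s2 < G2 = s3`, `s2 ≠ s3`.
`u1 < 0, u3 < 0, p2 > 0`; `groupU1` at `s3`, `ρ = √(GU - s3) > 0`:
`r3 + [s1 = s3] 2 r1 = ± [m13² = s3] b ± [m12² = s3] b1`.  Conclusions: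
* `m13² = s3` implies `s1 ≠ s3` (`faceU`; `t3 ≠ 0`).
* only `m12²` and `s1 = s3`: `b1 = r3 + 2 r1`, no (`tri13`: `b1 < b < r1 + r3`).  Neither: no.
So exactly one of the three alternatives holds (with `s1 ≠ s3` in each).
-/

open Real Set

namespace Pool.Agent.Helper22.ST.Dat

variable (d : Dat)

theorem case4_iv_cls (hS : d.St) (h : d.GU = d.G1) (h' : d.G2 < d.GU) (hq : d.q3 = 0)
    (hr : d.r2 = d.w3 - d.w2) (ht : d.t3 = 2 * d.t2) (h0 : d.t2 ≠ 0) (hs : d.s2 = d.m23 ^ 2) :
    d.s1 ≠ d.s3 ∧ d.s2 ≠ d.s3 ∧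
    ((d.m13 ^ 2 = d.s3 ∧ d.m12 ^ 2 ≠ d.s3 ∧ d.r3 = d.w3 - d.w1) ∨
     (d.m13 ^ 2 = d.s3 ∧ d.m12 ^ 2 = d.s3) ∨
     (d.m13 ^ 2 ≠ d.s3 ∧ d.m12 ^ 2 = d.s3 ∧ d.w2 - d.w1 = d.r3)) := by
  have hu1 : d.u1 < 0 := d.u1_neg h.ge
  have hu3 : d.u3 < 0 := d.u3_neg h'.le
  have r1p := d.r1p
  have r2p := d.r2p
  have r3p := d.r3p
  have w12 := d.w12
  have w23 := d.w23
  have tri := d.tri13
  have hG2 : d.G2 = d.s3 := by
    have e := d.q3_sq
    rw [hq] at e
    have e2 : d.r3 ^ 2 * (d.G2 - d.s3) = 0 := by linarith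
    rcases mul_eq_zero.1 e2 with e3 | e3
    · exact absurd e3 (pow_pos r3p 2).ne'
    · linarith
  have hq2 : d.q2 ≠ 0 := by
    intro e
    have e1 := d.q_sum
    rw [hq, e] at e1
    have e2 : d.q0 = 0 := by linarith
    have e3 : (d.w3 - d.w2) * d.y23 = 0 := by
      unfold q0 at e2
      linarith
    have e4 : d.y23 = 0 := by
      rcases mul_eq_zero.1 e3 with e4 | e4
      · linarith
      · exact e4
    have e5 : d.m23 = 0 := by
      have e6 := hq
      unfold q3 at e6
      rw [e4] at e6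
      linarith
    apply h0
    rw [d.c2, e4, e5]
    ring
  have h23 : d.s2 < d.s3 := by
    have e := d.q2_sq
    have e1 : 0 < d.q2 ^ 2 := by positivity
    rw [e] at e1
    have e2 := (mul_pos_iff_of_pos_left (pow_pos r2p 2)).1 e1
    linarith
  have ht3 : d.t3 ≠ 0 := by
    rw [ht]
    exact mul_ne_zero two_ne_zero h0
  have hR : 0 < d.GU - d.s3 := by linarith
  have hρ : 0 < √(d.GU - d.s3) := Real.sqrt_pos.2 hR
  have hg := d.groupU1 hS h h'.ne d.s3
  rw [ind_pos (rfl : d.s3 = d.s3), ind_neg (h23.ne : ¬ d.s2 = d.s3), add_zero] at hg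
  have e3 : d.u3 = -(d.r3 * √(d.GU - d.s3)) := by
    rcases len_or d.u3_sq r3p hR.le with e | e
    · exfalso
      have := mul_pos r3p hρ
      linarith
    · exact e
  by_cases h13 : d.m13 ^ 2 = d.s3
  · have h1 : ¬ d.s1 = d.s3 := fun h1 => ht3 (d.faceU h1 (h1.trans h13.symm)).2
    refine ⟨h1, h23.ne, ?_⟩
    by_cases h12 : d.m12 ^ 2 = d.s3
    · exact Or.inr (Or.inl ⟨h13, h12⟩)
    · refine Or.inl ⟨h13, h12, ?_⟩
      rw [ind_neg h1, ind_pos h13, ind_neg h12] at hg
      have e0 := d.u0_sq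
      rw [h13] at e0
      have hb : 0 < d.w3 - d.w1 := by linarith
      rcases len_or e0 hb hR.le with e | e
      · rw [e3, e] at hg
        have h5 : (d.w3 - d.w1 - d.r3) * √(d.GU - d.s3) = 0 := by linarith
        rcases mul_eq_zero.1 h5 with h6 | h6
        · linarith
        · exact absurd h6 hρ.ne'
      · exfalso
        rw [e3, e] at hg
        have h5 := mul_pos r3p hρ
        have h6 := mul_pos hb hρ
        linarith
  · by_cases h12 : d.m12 ^ 2 = d.s3
    · have e0 := d.p0_sq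
      rw [h12, ← h] at e0
      have hb : 0 < d.w2 - d.w1 := by linarith
      by_cases h1 : d.s1 = d.s3
      · exfalso
        have e1' := d.u1_sq
        rw [h1] at e1'
        have e1 : d.u1 = -(d.r1 * √(d.GU - d.s3)) := by
          rcases len_or e1' r1p hR.le with e | e
          · exfalso
            have := mul_pos r1p hρ
            linarith
          · exact e
        rw [ind_pos h1, ind_neg h13, ind_pos h12, e1, e3] at hg
        have h4 := mul_pos r1p hρ
        have h5 := mul_pos r3p hρ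
        have h6 := mul_pos hb hρ
        have hb1 : d.w2 - d.w1 < d.r1 + d.r3 := by linarith
        have h7 : (d.w2 - d.w1) * √(d.GU - d.s3) < (d.r1 + d.r3) * √(d.GU - d.s3) :=
          mul_lt_mul_of_pos_right hb1 hρ
        rcases len_or e0 hb hR.le with e | e
        · rw [e] at hg
          linarith
        · rw [e] at hg
          linarith
      · refine ⟨h1, h23.ne, Or.inr (Or.inr ⟨h13, h12, ?_⟩)⟩
        rw [ind_neg h1, ind_neg h13, ind_pos h12, e3] at hg
        rcases len_or e0 hb hR.le with e | e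
        · rw [e] at hg
          have h5 : (d.w2 - d.w1 - d.r3) * √(d.GU - d.s3) = 0 := by linarith
          rcases mul_eq_zero.1 h5 with h6 | h6
          · linarith
          · exact absurd h6 hρ.ne'
        · exfalso
          rw [e] at hg
          have h5 := mul_pos r3p hρ
          have h6 := mul_pos hb hρ
          linarith
    · exfalso
      rw [ind_neg h13, ind_neg h12] at hg
      by_cases h1 : d.s1 = d.s3
      · rw [ind_pos h1] at hg
        linarith
      · rw [ind_neg h1] at hg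
        linarith

end Pool.Agent.Helper22.ST.Dat
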