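import Pool.Agent.Helper22.ST.B02Geo
import Pool.Agent.Helper22.ST.B07Group

/-!
# ST-B20: three equal gradients: the class relations in terms of lengths (memo 4.6)

`u1 = p1 < 0`, `p2 = q2 > 0`, `u3 = q3 < 0` (`u1_neg`, `p2_pos`, `u3_neg` with equalities).
`G_pos6`: `u1² = r1² (GU - s1) > 0` and `s1 ≥ 0`.  `t12_6` etc.: `G1_zero`, `GU_zero`, `G2_zero`.
`lens`: `e13 = 1` if `0 ≤ y13`, otherwise `-1`; `e12 = 1` if `0 ≤ -y12`, ..; `e23 = 1` if `0 ≤ -y23`, ..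
For a class `s` which contains `s1`, put `ρ = √(GU - s) > 0` (`u1_sq`, `u1 ≠ 0`); then `u1 = -(r1 ρ)`,
`p2 = r2 ρ` if `s2 = s`, `u3 = -(r3 ρ)` if `s3 = s` (`len_or` and the signs), `u0 = (w3 - w1) y13 = e13 (w3 - w1) ρ`
if `m13² = s` (`y13² = ρ²`), `p0 = e12 (w2 - w1) ρ` if `m12² = s`, `q0 = e23 (w3 - w2) ρ` if `m23² = s`.
Divide `groupAll` at `s = s1` by `2 ρ`...(by `ρ`).  Same for `s3` (`u3 ≠ 0`) and `s2` (`p2 ≠ 0`).
-/

open Real Set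

namespace Pool.Agent.Helper22.ST.Dat

variable (d : Dat)

private theorem lt_of_sq_eq {x r G s : ℝ} (h : x ^ 2 = r ^ 2 * (G - s)) (hx : x ≠ 0) : s < G := by
  by_contra hcon
  have h1 : r ^ 2 * (G - s) ≤ 0 :=
    mul_nonpos_of_nonneg_of_nonpos (sq_nonneg r) (by linarith [not_lt.1 hcon])
  have h2 : 0 < x ^ 2 := lt_of_le_of_ne (sq_nonneg x) (pow_ne_zero 2 hx).symm
  linarith

theorem G_pos6 (h : d.GU = d.G1) (h' : d.G1 = d.G2) : 0 < d.G1 := by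
  have hu := d.u1_neg h.symm.le
  have h1 := lt_of_sq_eq d.u1_sq hu.ne
  have h0 : 0 ≤ d.s1 := sq_nonneg _
  linarith
theorem t12_6 (h : d.GU = d.G1) (h' : d.G1 = d.G2) : ¬ (d.t1 = 0 ∧ d.t2 = 0) := by
  rintro ⟨h1, h2⟩
  have h3 := (d.G1_zero h1 h2).1
  linarith [d.G_pos6 h h']
theorem t13_6 (h : d.GU = d.G1) (h' : d.G1 = d.G2) : ¬ (d.t1 = 0 ∧ d.t3 = 0) := by
  rintro ⟨h1, h2⟩
  have h3 := (d.GU_zero h1 h2).1
  linarith [d.G_pos6 h h']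
theorem t23_6 (h : d.GU = d.G1) (h' : d.G1 = d.G2) : ¬ (d.t2 = 0 ∧ d.t3 = 0) := by
  rintro ⟨h1, h2⟩
  have h3 := (d.G2_zero h1 h2).1
  linarith [d.G_pos6 h h']

private theorem pos_len {x L R : ℝ} (h : x ^ 2 = L ^ 2 * R) (hL : 0 < L) (hR : 0 ≤ R)
    (hx : 0 < x) : x = L * √R := by
  have h1 : x ^ 2 = (L * √R) ^ 2 := by rw [mul_pow, Real.sq_sqrt hR, h]
  exact (sq_eq_sq₀ hx.le (by positivity)).1 h1

private theorem neg_len {x L R : ℝ} (h : x ^ 2 = L ^ 2 * R) (hL : 0 < L) (hR : 0 ≤ R)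
    (hx : x < 0) : x = -(L * √R) := by
  have h1 := pos_len (x := -x) (by rw [neg_sq]; exact h) hL hR (by linarith)
  linarith

private theorem sgn_ex (y : ℝ) : ∃ e : ℝ, (e = 1 ∨ e = -1) ∧ y = e * |y| := by
  rcases le_or_gt 0 y with h | h
  · exact ⟨1, Or.inl rfl, by rw [abs_of_nonneg h, one_mul]⟩
  · exact ⟨-1, Or.inr rfl, by rw [abs_of_neg h]; ring⟩

private theorem ind_scale {p : Prop} {a b ρ : ℝ} (h : p → a = b * ρ) : ind p a = ind p b * ρ := by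
  by_cases hp : p
  · rw [ind_pos hp, ind_pos hp, h hp]
  · rw [ind_neg hp, ind_neg hp, zero_mul]

private theorem cls (hS : d.St) (h : d.GU = d.G1) (h' : d.G1 = d.G2) {e13 e12 e23 : ℝ}
    (h13 : d.y13 = e13 * |d.y13|) (h12 : -d.y12 = e12 * |d.y12|) (h23 : -d.y23 = e23 * |d.y23|)
    (s : ℝ) (hs : s < d.GU) :
    -ind (d.s1 = s) (2 * d.r1) + ind (d.s2 = s) (2 * d.r2) - ind (d.s3 = s) (2 * d.r3) +
      ind (d.m13 ^ 2 = s) (e13 * (d.w3 - d.w1)) + ind (d.m12 ^ 2 = s) (e12 * (d.w2 - d.w1)) +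
      ind (d.m23 ^ 2 = s) (e23 * (d.w3 - d.w2)) = 0 := by
  have hρ : 0 < √(d.GU - s) := Real.sqrt_pos.2 (by linarith)
  have hR : 0 ≤ d.GU - s := by linarith
  have g := d.groupAll hS h h' s
  have hu1 := d.u1_neg h.symm.le
  have hp2 := d.p2_pos h'.symm.le
  have hu3 := d.u3_neg (h'.symm.le.trans h.symm.le)
  have k1 : ind (d.s1 = s) (2 * d.u1) = ind (d.s1 = s) (2 * d.r1) * -√(d.GU - s) := by
    refine ind_scale fun hp => ?_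
    have h1 := neg_len d.u1_sq d.r1p (by rw [hp]; exact hR) hu1
    rw [h1, hp]; ring
  have k2 : ind (d.s2 = s) (2 * d.p2) = ind (d.s2 = s) (2 * d.r2) * √(d.GU - s) := by
    refine ind_scale fun hp => ?_
    have h1 := pos_len d.p2_sq d.r2p (by rw [hp, ← h]; exact hR) hp2
    rw [h1, hp, ← h]; ring
  have k3 : ind (d.s3 = s) (2 * d.u3) = ind (d.s3 = s) (2 * d.r3) * -√(d.GU - s) := by
    refine ind_scale fun hp => ?_
    have h1 := neg_len d.u3_sq d.r3p (by rw [hp]; exact hR) hu3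
    rw [h1, hp]; ring
  have k4 : ind (d.m13 ^ 2 = s) d.u0 =
      ind (d.m13 ^ 2 = s) (e13 * (d.w3 - d.w1)) * √(d.GU - s) := by
    refine ind_scale fun hp => ?_
    have h1 : d.GU - s = d.y13 ^ 2 := by rw [← hp]; unfold GU; ring
    rw [h1, Real.sqrt_sq_eq_abs]
    unfold u0
    linear_combination (d.w3 - d.w1) * h13
  have k5 : ind (d.m12 ^ 2 = s) d.p0 =
      ind (d.m12 ^ 2 = s) (e12 * (d.w2 - d.w1)) * √(d.GU - s) := by
    refine ind_scale fun hp => ?_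
    have h1 : d.GU - s = d.y12 ^ 2 := by rw [h, ← hp]; unfold G1; ring
    rw [h1, Real.sqrt_sq_eq_abs]
    unfold p0
    linear_combination (d.w2 - d.w1) * h12
  have k6 : ind (d.m23 ^ 2 = s) d.q0 =
      ind (d.m23 ^ 2 = s) (e23 * (d.w3 - d.w2)) * √(d.GU - s) := by
    refine ind_scale fun hp => ?_
    have h1 : d.GU - s = d.y23 ^ 2 := by rw [h, h', ← hp]; unfold G2; ring
    rw [h1, Real.sqrt_sq_eq_abs]
    unfold q0
    linear_combination (d.w3 - d.w2) * h23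
  rw [k1, k2, k3, k4, k5, k6] at g
  refine (mul_eq_zero.1 ?_).resolve_right hρ.ne'
  linear_combination g

theorem lens (hS : d.St) (h : d.GU = d.G1) (h' : d.G1 = d.G2) : ∃ e13 e12 e23 : ℝ,
    (e13 = 1 ∨ e13 = -1) ∧ (e12 = 1 ∨ e12 = -1) ∧ (e23 = 1 ∨ e23 = -1) ∧
    d.y13 = e13 * |d.y13| ∧ -d.y12 = e12 * |d.y12| ∧ -d.y23 = e23 * |d.y23| ∧
    (2 * d.r1 = ind (d.s2 = d.s1) (2 * d.r2) - ind (d.s3 = d.s1) (2 * d.r3) +
      ind (d.m13 ^ 2 = d.s1) (e13 * (d.w3 - d.w1)) + ind (d.m12 ^ 2 = d.s1) (e12 * (d.w2 - d.w1)) +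
      ind (d.m23 ^ 2 = d.s1) (e23 * (d.w3 - d.w2))) ∧
    (2 * d.r3 = ind (d.s2 = d.s3) (2 * d.r2) - ind (d.s1 = d.s3) (2 * d.r1) +
      ind (d.m13 ^ 2 = d.s3) (e13 * (d.w3 - d.w1)) + ind (d.m12 ^ 2 = d.s3) (e12 * (d.w2 - d.w1)) +
      ind (d.m23 ^ 2 = d.s3) (e23 * (d.w3 - d.w2))) := by
  obtain ⟨e13, he13, h13⟩ := sgn_ex d.y13
  obtain ⟨e12, he12, h12⟩ := sgn_ex (-d.y12)
  obtain ⟨e23, he23, h23⟩ := sgn_ex (-d.y23)
  rw [abs_neg] at h12 h23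
  have hu1 := d.u1_neg h.symm.le
  have hu3 := d.u3_neg (h'.symm.le.trans h.symm.le)
  have g1 := d.cls hS h h' h13 h12 h23 d.s1 (lt_of_sq_eq d.u1_sq hu1.ne)
  have g3 := d.cls hS h h' h13 h12 h23 d.s3 (lt_of_sq_eq d.u3_sq hu3.ne)
  rw [ind_pos (rfl : d.s1 = d.s1)] at g1
  rw [ind_pos (rfl : d.s3 = d.s3)] at g3
  exact ⟨e13, e12, e23, he13, he12, he23, h13, h12, h23, by linarith, by linarith⟩

/-- `groupAll` at `s = m12²`: only the term `p0 = -((w2 - w1) y12)` remains -/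
theorem single12 (hS : d.St) (h : d.GU = d.G1) (h' : d.G1 = d.G2) (a1 : d.m12 ^ 2 ≠ d.s1)
    (a2 : d.m12 ^ 2 ≠ d.s2) (a3 : d.m12 ^ 2 ≠ d.s3) (a4 : d.m12 ^ 2 ≠ d.m13 ^ 2)
    (a5 : d.m12 ^ 2 ≠ d.m23 ^ 2) : d.y12 = 0 := by
  have g := d.groupAll hS h h' (d.m12 ^ 2)
  rw [ind_neg a1.symm, ind_neg a2.symm, ind_neg a3.symm, ind_neg a4.symm, ind_neg a5.symm,
    ind_pos rfl] at g
  have h1 : (d.w2 - d.w1) * d.y12 = 0 := by
    unfold p0 at g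
    linarith
  exact (mul_eq_zero.1 h1).resolve_left (sub_pos.2 d.w12).ne'

theorem single13 (hS : d.St) (h : d.GU = d.G1) (h' : d.G1 = d.G2) (a1 : d.m13 ^ 2 ≠ d.s1)
    (a2 : d.m13 ^ 2 ≠ d.s2) (a3 : d.m13 ^ 2 ≠ d.s3) (a4 : d.m13 ^ 2 ≠ d.m12 ^ 2)
    (a5 : d.m13 ^ 2 ≠ d.m23 ^ 2) : d.y13 = 0 := by
  have g := d.groupAll hS h h' (d.m13 ^ 2)
  rw [ind_neg a1.symm, ind_neg a2.symm, ind_neg a3.symm, ind_neg a4.symm, ind_neg a5.symm,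
    ind_pos rfl] at g
  have h1 : (d.w3 - d.w1) * d.y13 = 0 := by
    unfold u0 at g
    linarith
  exact (mul_eq_zero.1 h1).resolve_left (sub_pos.2 (d.w12.trans d.w23)).ne'

theorem single23 (hS : d.St) (h : d.GU = d.G1) (h' : d.G1 = d.G2) (a1 : d.m23 ^ 2 ≠ d.s1)
    (a2 : d.m23 ^ 2 ≠ d.s2) (a3 : d.m23 ^ 2 ≠ d.s3) (a4 : d.m23 ^ 2 ≠ d.m12 ^ 2)
    (a5 : d.m23 ^ 2 ≠ d.m13 ^ 2) : d.y23 = 0 := by
  have g := d.groupAll hS h h' (d.m23 ^ 2)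
  rw [ind_neg a1.symm, ind_neg a2.symm, ind_neg a3.symm, ind_neg a4.symm, ind_neg a5.symm,
    ind_pos rfl] at g
  have h1 : (d.w3 - d.w2) * d.y23 = 0 := by
    unfold q0 at g
    linarith
  exact (mul_eq_zero.1 h1).resolve_left (sub_pos.2 d.w23).ne'

end Pool.Agent.Helper22.ST.Dat
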