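import Pool.Agent.Helper22.ST.B20Lens

/-!
# ST-B22: the situation `s1 = s2 ≠ s3`, three equal gradients

`n12`: if `m12² = s1 = s2` then `faceL1` gives `t1 = t2 = 0`, against `t12_6`.  `R1, R3` are the relations
of `lens` (`ind_pos` for `s2 = s1`, `ind_neg` for `s3 = s1`, `s2 = s3`, `s1 = s3`, `m12² = s1`).
`y12s, y13s, y23s`: `single12, single13, single23`.
-/

open Real Set

namespace Pool.Agent.Helper22.ST

/-- everything we need in the last case (`s1 = s2 ≠ s3`, equal gradients) -/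
structure Sit (d : Dat) (e13 e12 e23 : ℝ) : Prop where
  GU1 : d.GU = d.G1
  G12 : d.G1 = d.G2
  s12 : d.s1 = d.s2
  s13 : d.s1 ≠ d.s3
  t12 : ¬ (d.t1 = 0 ∧ d.t2 = 0)
  n12 : d.m12 ^ 2 ≠ d.s1
  e13q : e13 = 1 ∨ e13 = -1
  e12q : e12 = 1 ∨ e12 = -1
  e23q : e23 = 1 ∨ e23 = -1
  y13e : d.y13 = e13 * |d.y13|
  y12e : -d.y12 = e12 * |d.y12|
  y23e : -d.y23 = e23 * |d.y23|
  R1 : 2 * (d.r1 - d.r2) = ind (d.m13 ^ 2 = d.s1) (e13 * (d.w3 - d.w1)) +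
    ind (d.m23 ^ 2 = d.s1) (e23 * (d.w3 - d.w2))
  R3 : 2 * d.r3 = ind (d.m13 ^ 2 = d.s3) (e13 * (d.w3 - d.w1)) +
    ind (d.m12 ^ 2 = d.s3) (e12 * (d.w2 - d.w1)) + ind (d.m23 ^ 2 = d.s3) (e23 * (d.w3 - d.w2))
  y12s : d.m12 ^ 2 ≠ d.s3 → d.m12 ^ 2 ≠ d.m13 ^ 2 → d.m12 ^ 2 ≠ d.m23 ^ 2 → d.y12 = 0
  y13s : d.m13 ^ 2 ≠ d.s1 → d.m13 ^ 2 ≠ d.s3 → d.m13 ^ 2 ≠ d.m12 ^ 2 → d.m13 ^ 2 ≠ d.m23 ^ 2 →
    d.y13 = 0
  y23s : d.m23 ^ 2 ≠ d.s1 → d.m23 ^ 2 ≠ d.s3 → d.m23 ^ 2 ≠ d.m12 ^ 2 → d.m23 ^ 2 ≠ d.m13 ^ 2 →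
    d.y23 = 0

theorem Dat.sit (d : Dat) (hS : d.St) (h : d.GU = d.G1) (h' : d.G1 = d.G2) (a : d.s1 = d.s2)
    (a' : d.s1 ≠ d.s3) : ∃ e13 e12 e23 : ℝ, Sit d e13 e12 e23 := by
  obtain ⟨e13, e12, e23, q13, q12, q23, y13, y12, y23, l1, l3⟩ := d.lens hS h h'
  have ht := d.t12_6 h h'
  have n12 : d.m12 ^ 2 ≠ d.s1 := fun hc => ht (d.faceL1 a hc.symm)
  have a3 : d.s2 ≠ d.s3 := fun hc => a' (a.trans hc)
  rw [ind_pos a.symm, ind_neg (Ne.symm a'), ind_neg n12] at l1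
  rw [ind_neg a3, ind_neg a'] at l3
  refine ⟨e13, e12, e23, ?_⟩
  exact
    { GU1 := h
      G12 := h'
      s12 := a
      s13 := a'
      t12 := ht
      n12 := n12
      e13q := q13
      e12q := q12
      e23q := q23
      y13e := y13
      y12e := y12
      y23e := y23
      R1 := by linarith
      R3 := by linarith
      y12s := fun b1 b2 b3 => d.single12 hS h h' n12 (fun hc => n12 (hc.trans a.symm)) b1 b2 b3
      y13s := fun b1 b2 b3 b4 =>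
        d.single13 hS h h' b1 (fun hc => b1 (hc.trans a.symm)) b2 b3 b4
      y23s := fun b1 b2 b3 b4 =>
        d.single23 hS h h' b1 (fun hc => b1 (hc.trans a.symm)) b2 b3 b4 }

end Pool.Agent.Helper22.ST
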