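import Pool.Agent.Helper22.ST.B23C1345

/-!
# ST-B25: the case C2 of memo 4.6 (`s3`: only 12), `D1 = {}` and `D1 = {13, 23}`

`R3`: `2 r3 = e12 (w2 - w1)`, so `w2 - w1 = 2 r3` (`C2_len`).
`C2_none`: `m13² ≠ s1`, `m23² ≠ s1`: `r1 = r2` (`Sit.eq12`), `r1_eq_r2`: `w2 - w1 < 2 r3`, no.
`C2_both`: `m13² = m23² = s1`, `m13 < m23`: `m13 = -m23`, `m23 > 0`; `y13² = y23²` (`GU1`, `G12`).
 `zero`: if `t3 = 0` then `s3 = 0 = m12²`, `m12 = 0`, `t1 = t2` and `s1 = s2` (`t1 ≠ 0` by `t12`) give `r1 = r2`, no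
 (as in `C2_none`).
 `y13 = -y23`: `t3 = m13 w3 + y13 = -(m23 w3 + y23) = -t3`, `t3 = 0`, no.
 `y13 = y23 =: y`: `w3 = 0` (`t3 = m13 w3 + y = m23 w3 + y`), `r3 = 1`, `w2 - w1 = 2`, `t3 = y ≠ 0`.
 Signs: `y = e13 |y|`, `-y = e23 |y|`: `e23 = -e13`; `R1`: `2 (r1 - r2) = e13 ((w3 - w1) - (w3 - w2)) = 2 e13`;
 `w1 < w2 < 0`: `r1 > r2`, so `r1 = r2 + 1`, `w1 = w2 - 2`; `r1² - r2² = w1² - w2²`: `2 r2 + 1 = 4 - 4 w2`,
 `4 r2² = (3 - 4 w2)²`, `4 + 4 w2² = 9 - 24 w2 + 16 w2²`, impossible for `w2 < 0`.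
-/

open Real Set

namespace Pool.Agent.Helper22.ST

variable {d : Dat} {e13 e12 e23 : ℝ}

theorem Sit.C2_len (c : Sit d e13 e12 e23) (h1 : d.m13 ^ 2 ≠ d.s3) (h2 : d.m12 ^ 2 = d.s3)
    (h3 : d.m23 ^ 2 ≠ d.s3) : d.w2 - d.w1 = 2 * d.r3 := by
  have h := c.R3
  rw [ind_neg h1, ind_pos h2, ind_neg h3] at h
  have h12 := d.w12
  have hr := d.r3p
  rcases c.e12q with e | e
  · rw [e] at h
    linarith
  · rw [e] at h
    linarith

private theorem Sit.C2_ne (c : Sit d e13 e12 e23) (h1 : d.m13 ^ 2 ≠ d.s3)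
    (h2 : d.m12 ^ 2 = d.s3) (h3 : d.m23 ^ 2 ≠ d.s3) : d.r1 ≠ d.r2 := by
  intro h
  have h4 := c.C2_len h1 h2 h3
  have h5 := (d.r1_eq_r2 h).2.2.2.1
  linarith

theorem Sit.C2_none (c : Sit d e13 e12 e23) (h1 : d.m13 ^ 2 ≠ d.s3) (h2 : d.m12 ^ 2 = d.s3)
    (h3 : d.m23 ^ 2 ≠ d.s3) (a : d.m13 ^ 2 ≠ d.s1) (b : d.m23 ^ 2 ≠ d.s1) : False :=
  c.C2_ne h1 h2 h3 (c.eq12 a b)

private theorem Sit.C2_t3 (c : Sit d e13 e12 e23) (h1 : d.m13 ^ 2 ≠ d.s3)
    (h2 : d.m12 ^ 2 = d.s3) (h3 : d.m23 ^ 2 ≠ d.s3) : d.t3 ≠ 0 := by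
  intro ht
  have hs3 : d.s3 = 0 := by
    unfold Dat.s3
    rw [ht, zero_div]
    norm_num
  have hm : d.m12 = 0 := by
    rw [hs3] at h2
    exact pow_eq_zero_iff (two_ne_zero) |>.1 h2
  have e1 : d.t1 = d.y12 := by rw [d.a1, hm]; ring
  have e2 : d.t2 = d.y12 := by rw [d.a2, hm]; ring
  have hy : d.y12 ≠ 0 := by
    intro h
    exact c.t12 ⟨e1.trans h, e2.trans h⟩
  have k1 := d.s1_mul
  have k2 := d.s2_mul
  have k0 := c.s12
  rw [e1] at k1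
  rw [e2, ← k0] at k2
  have hs : d.s1 ≠ 0 := by
    intro h
    rw [h, zero_mul] at k1
    exact hy (pow_eq_zero_iff (two_ne_zero) |>.1 k1.symm)
  have k3 : d.r1 ^ 2 = d.r2 ^ 2 := mul_left_cancel₀ hs (k1.trans k2.symm)
  refine c.C2_ne h1 h2 h3 ?_
  rcases sq_eq_sq_iff_eq_or_eq_neg.1 k3 with h | h
  · exact h
  · have := d.r1p
    have := d.r2p
    linarith

theorem Sit.C2_both (c : Sit d e13 e12 e23) (h1 : d.m13 ^ 2 ≠ d.s3) (h2 : d.m12 ^ 2 = d.s3)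
    (h3 : d.m23 ^ 2 ≠ d.s3) (a : d.m13 ^ 2 = d.s1) (b : d.m23 ^ 2 = d.s1) : False := by
  have hlen := c.C2_len h1 h2 h3
  have ht3 := c.C2_t3 h1 h2 h3
  have hlt := d.m13_lt
  have hm : d.m13 = -d.m23 := by
    rcases sq_eq_sq_iff_eq_or_eq_neg.1 (a.trans b.symm) with h | h
    · exact absurd h hlt.ne
    · exact h
  have hpos : 0 < d.m23 := by linarith
  have hy : d.y13 ^ 2 = d.y23 ^ 2 := by
    have h := c.GU1.trans c.G12
    unfold Dat.GU Dat.G2 at h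
    rw [a, b] at h
    linarith
  have b3 := d.b3
  have c3 := d.c3
  rcases sq_eq_sq_iff_eq_or_eq_neg.1 hy with hy | hy
  · rw [hm, hy] at b3
    have hw : d.w3 = 0 := by
      have h : d.m23 * d.w3 = 0 := by linarith
      exact (mul_eq_zero.1 h).resolve_left hpos.ne'
    have hy0 : d.y23 ≠ 0 := by
      intro h
      rw [hw, h] at c3
      exact ht3 (by rw [c3]; ring)
    have hr3 : d.r3 = 1 := by
      have h := d.r3q
      rw [hw] at h
      have h' := d.r3p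
      nlinarith
    have hab : 0 < |d.y23| := abs_pos.2 hy0
    have s1 := c.y13e
    have s2 := c.y23e
    rw [hy] at s1
    have he : e23 = -e13 := by
      have h : (e13 + e23) * |d.y23| = 0 := by linarith
      have h' := (mul_eq_zero.1 h).resolve_right hab.ne'
      linarith
    have hR := c.R1
    rw [ind_pos a, ind_pos b, he] at hR
    have h12 := d.w12
    have h23 := d.w23
    have q1 := d.r1q
    have q2 := d.r2q
    have p1 := d.r1p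
    have p2 := d.r2p
    rw [hr3] at hlen
    rw [hw] at hR h23
    have hR' : d.r1 - d.r2 = e13 := by
      have h : e13 * (d.w2 - d.w1) = e13 * (2 * 1) := by rw [hlen]
      linarith
    have hw1 : d.w1 = d.w2 - 2 := by linarith
    have hr : d.r2 < d.r1 := by
      refine lt_of_pow_lt_pow_left₀ 2 p1.le ?_
      rw [q1, q2]
      nlinarith
    have hr' : d.r1 = d.r2 + 1 := by
      rcases c.e13q with e | e
      · rw [e] at hR'
        linarith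
      · rw [e] at hR'
        linarith
    rw [hr', hw1] at q1
    have k : 2 * d.r2 = 3 - 4 * d.w2 := by nlinarith
    have k2 : (2 * d.r2) ^ 2 = (3 - 4 * d.w2) ^ 2 := by rw [k]
    nlinarith
  · rw [hm, hy] at b3
    exact ht3 (by linarith)

end Pool.Agent.Helper22.ST
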