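import Pool.Agent.Helper22.ST.DefsI

/-!
# ST-C01: facts about the normal form with a vertical edge

Squares: unfold, `hδ`, `hβ` (solve `β`), `field_simp`, `ring`/`linear_combination`.
`s*_mul`: `div_pow`, `field_simp`.
`tri*`: `4 δ² = ((b + c)² - l²) (l² - (b - c)²) > 0`: `l² > (b + c)²` and `l² < (b - c)²` together are
impossible, so `(b - c)² < l² < (b + c)²`.
-/

open Real Set

namespace Pool.Agent.Helper22.ST.Dat1

variable (d : Dat1)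

theorem s01_mul : d.s01 * d.c ^ 2 = d.u ^ 2 := by
  have h := d.cp.ne'
  unfold s01
  rw [div_pow, div_mul_cancel₀ _ (pow_ne_zero 2 h)]
theorem s02_mul : d.s02 * d.b ^ 2 = d.v ^ 2 := by
  have h := d.bp.ne'
  unfold s02
  rw [div_pow, div_mul_cancel₀ _ (pow_ne_zero 2 h)]
theorem s12_mul : d.s12 * d.l ^ 2 = (d.u - d.v) ^ 2 := by
  have h := d.lp.ne'
  unfold s12
  rw [div_pow, div_mul_cancel₀ _ (pow_ne_zero 2 h)]
theorem s13_mul : d.s13 * d.c ^ 2 = (d.u - d.a) ^ 2 := by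
  have h := d.cp.ne'
  unfold s13
  rw [div_pow, div_mul_cancel₀ _ (pow_ne_zero 2 h)]
theorem s23_mul : d.s23 * d.b ^ 2 = (d.v - d.a) ^ 2 := by
  have h := d.bp.ne'
  unfold s23
  rw [div_pow, div_mul_cancel₀ _ (pow_ne_zero 2 h)]

/-- `δ² gL` is a polynomial -/
theorem c01_gL_mul : d.gL * d.δ ^ 2 =
    d.v ^ 2 * d.c ^ 2 + d.u ^ 2 * d.b ^ 2 - 2 * d.u * d.v * d.β := by
  have h := d.δp.ne'
  unfold gL
  rw [div_mul_cancel₀ _ (pow_ne_zero 2 h)]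
/-- `δ² gU` is a polynomial -/
theorem c01_gU_mul : d.gU * d.δ ^ 2 =
    (d.v - d.a) ^ 2 * d.c ^ 2 + (d.u - d.a) ^ 2 * d.b ^ 2 -
      2 * (d.u - d.a) * (d.v - d.a) * d.β := by
  have h := d.δp.ne'
  unfold gU
  rw [div_mul_cancel₀ _ (pow_ne_zero 2 h)]

theorem l1_sq : d.l1 ^ 2 = d.δ ^ 2 * d.c ^ 2 * (d.gL - d.s01) := by
  unfold l1
  linear_combination (-d.c ^ 2) * d.c01_gL_mul + d.δ ^ 2 * d.s01_mul + d.u ^ 2 * d.hδ
theorem l2_sq : d.l2 ^ 2 = d.δ ^ 2 * d.b ^ 2 * (d.gL - d.s02) := by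
  unfold l2
  linear_combination (-d.b ^ 2) * d.c01_gL_mul + d.δ ^ 2 * d.s02_mul + d.v ^ 2 * d.hδ
theorem c01_l_sq_eq : d.l ^ 2 = d.b ^ 2 + d.c ^ 2 - 2 * d.β := by linear_combination d.hβ
theorem l3_sq : d.l3 ^ 2 = d.δ ^ 2 * d.l ^ 2 * (d.gL - d.s12) := by
  unfold l3 l1 l2
  linear_combination (-d.l ^ 2) * d.c01_gL_mul + d.δ ^ 2 * d.s12_mul + (d.u - d.v) ^ 2 * d.hδ -
    (d.v ^ 2 * d.c ^ 2 + d.u ^ 2 * d.b ^ 2 - 2 * d.u * d.v * d.β) * d.c01_l_sq_eq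
theorem n1_sq : d.n1 ^ 2 = d.δ ^ 2 * d.c ^ 2 * (d.gU - d.s13) := by
  unfold n1
  linear_combination (-d.c ^ 2) * d.c01_gU_mul + d.δ ^ 2 * d.s13_mul + (d.u - d.a) ^ 2 * d.hδ
theorem n2_sq : d.n2 ^ 2 = d.δ ^ 2 * d.b ^ 2 * (d.gU - d.s23) := by
  unfold n2
  linear_combination (-d.b ^ 2) * d.c01_gU_mul + d.δ ^ 2 * d.s23_mul + (d.v - d.a) ^ 2 * d.hδ
theorem n3_sq : d.n3 ^ 2 = d.δ ^ 2 * d.l ^ 2 * (d.gU - d.s12) := by
  unfold n3 n1 n2
  linear_combination (-d.l ^ 2) * d.c01_gU_mul + d.δ ^ 2 * d.s12_mul + (d.u - d.v) ^ 2 * d.hδ -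
    ((d.v - d.a) ^ 2 * d.c ^ 2 + (d.u - d.a) ^ 2 * d.b ^ 2 -
      2 * (d.u - d.a) * (d.v - d.a) * d.β) * d.c01_l_sq_eq

theorem l_sum : d.l1 + d.l2 + d.l3 = 0 := by
  unfold l3; ring
theorem n_sum : d.n1 + d.n2 + d.n3 = 0 := by
  unfold n3; ring
theorem l3_add_n3 : d.l3 + d.n3 = -(d.a * d.l ^ 2) := by
  rw [d.c01_l_sq_eq]
  unfold l3 n3 l1 l2 n1 n2
  ring

theorem c01_four_δ : 4 * d.δ ^ 2 = ((d.b + d.c) ^ 2 - d.l ^ 2) * (d.l ^ 2 - (d.b - d.c) ^ 2) := by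
  have h : d.β = (d.b ^ 2 + d.c ^ 2 - d.l ^ 2) / 2 := by linarith [d.hβ]
  rw [d.hδ, h]; ring

theorem c01_tri_aux : d.l ^ 2 < (d.b + d.c) ^ 2 ∧ (d.b - d.c) ^ 2 < d.l ^ 2 := by
  have h := d.c01_four_δ
  have h0 : 0 < d.δ ^ 2 := pow_pos d.δp 2
  have h1 : 0 < ((d.b + d.c) ^ 2 - d.l ^ 2) * (d.l ^ 2 - (d.b - d.c) ^ 2) := by linarith
  have hbc : 0 < d.b * d.c := mul_pos d.bp d.cp
  rcases (mul_pos_iff.1 h1) with ⟨h2, h3⟩ | ⟨h2, h3⟩
  · exact ⟨by linarith, by linarith⟩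
  · exfalso
    nlinarith

theorem tri_b : d.b < d.c + d.l := by
  have h := d.c01_tri_aux.2
  have h1 := abs_lt_of_sq_lt_sq h d.lp.le
  have := (abs_lt.1 h1).2
  linarith
theorem tri_c : d.c < d.b + d.l := by
  have h := d.c01_tri_aux.2
  have h1 := abs_lt_of_sq_lt_sq h d.lp.le
  have := (abs_lt.1 h1).1
  linarith
theorem tri_l : d.l < d.b + d.c := by
  have h := d.c01_tri_aux.1
  have h1 := abs_lt_of_sq_lt_sq h (by linarith [d.bp, d.cp])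
  exact (abs_lt.1 h1).2

/-- three numbers proportional in absolute value to the sides of a nondegenerate triangle -/
theorem c01_tri_zero {b c l u v m : ℝ} (hb : 0 < b) (hc : 0 < c) (hl : 0 < l) (hm : 0 ≤ m)
    (h1 : b < c + l) (h2 : c < b + l) (h3 : l < b + c)
    (hu : u ^ 2 = (c * m) ^ 2) (hv : v ^ 2 = (b * m) ^ 2) (hw : (u - v) ^ 2 = (l * m) ^ 2) :
    m = 0 := by
  by_contra hm0
  have hmp : 0 < m := lt_of_le_of_ne hm (Ne.symm hm0)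
  have e1 : b * m < c * m + l * m := by nlinarith
  have e2 : c * m < b * m + l * m := by nlinarith
  have e3 : l * m < b * m + c * m := by nlinarith
  have p1 : 0 < b * m := mul_pos hb hmp
  have p2 : 0 < c * m := mul_pos hc hmp
  have p3 : 0 < l * m := mul_pos hl hmp
  rcases sq_eq_sq_iff_eq_or_eq_neg.1 hu with a1 | a1 <;>
  rcases sq_eq_sq_iff_eq_or_eq_neg.1 hv with a2 | a2 <;>
  rcases sq_eq_sq_iff_eq_or_eq_neg.1 hw with a3 | a3 <;>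
  linarith

/-- `|u| = c m`, `|v| = b m`, `|u - v| = l m` and the strict triangle inequalities give `m = 0` -/
theorem faceL (h : d.s01 = d.s12) (h' : d.s02 = d.s12) : d.u = 0 ∧ d.v = 0 := by
  have hs : 0 ≤ d.s12 := by unfold s12; exact sq_nonneg _
  have hm : √d.s12 ^ 2 = d.s12 := Real.sq_sqrt hs
  have hu : d.u ^ 2 = (d.c * √d.s12) ^ 2 := by
    rw [← d.s01_mul, h, mul_pow, hm]; ring
  have hv : d.v ^ 2 = (d.b * √d.s12) ^ 2 := by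
    rw [← d.s02_mul, h', mul_pow, hm]; ring
  have hw : (d.u - d.v) ^ 2 = (d.l * √d.s12) ^ 2 := by
    rw [← d.s12_mul, mul_pow, hm]; ring
  have h0 := c01_tri_zero d.bp d.cp d.lp (Real.sqrt_nonneg _) d.tri_b d.tri_c d.tri_l hu hv hw
  rw [h0] at hu hv
  exact ⟨by simpa using hu, by simpa using hv⟩
/-- the same for `u - a`, `v - a` -/
theorem faceU (h : d.s13 = d.s12) (h' : d.s23 = d.s12) : d.u = d.a ∧ d.v = d.a := by
  have hs : 0 ≤ d.s12 := by unfold s12; exact sq_nonneg _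
  have hm : √d.s12 ^ 2 = d.s12 := Real.sq_sqrt hs
  have hu : (d.u - d.a) ^ 2 = (d.c * √d.s12) ^ 2 := by
    rw [← d.s13_mul, h, mul_pow, hm]; ring
  have hv : (d.v - d.a) ^ 2 = (d.b * √d.s12) ^ 2 := by
    rw [← d.s23_mul, h', mul_pow, hm]; ring
  have hw : ((d.u - d.a) - (d.v - d.a)) ^ 2 = (d.l * √d.s12) ^ 2 := by
    have e : (d.u - d.a) - (d.v - d.a) = d.u - d.v := by ring
    rw [e, ← d.s12_mul, mul_pow, hm]; ring
  have h0 := c01_tri_zero d.bp d.cp d.lp (Real.sqrt_nonneg _) d.tri_b d.tri_c d.tri_l hu hv hw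
  rw [h0] at hu hv
  have hu' : d.u - d.a = 0 := by simpa using hu
  have hv' : d.v - d.a = 0 := by simpa using hv
  exact ⟨by linarith, by linarith⟩

end Pool.Agent.Helper22.ST.Dat1
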