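import Pool.Agent.Helper22.ST.DefsI

/-!
# ST-C02: the symmetries `swap` and `flip`

`flip_l1`: `(a - v) c² - (a - u) β = n1`; everything else similar.  `St` for the image is `St` for `d` with the
summands permuted.
-/

open Real Set

namespace Pool.Agent.Helper22.ST.Dat1

variable (d : Dat1)

theorem swap_s01 : d.swap.s01 = d.s02 := by
  rfl
theorem swap_s02 : d.swap.s02 = d.s01 := by
  rfl
theorem swap_s12 : d.swap.s12 = d.s12 := by
  simp only [s12, swap]
  rw [← neg_sub d.u d.v, neg_div, neg_sq]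
theorem swap_s13 : d.swap.s13 = d.s23 := by
  rfl
theorem swap_s23 : d.swap.s23 = d.s13 := by
  rfl
theorem swap_gL : d.swap.gL = d.gL := by
  simp only [gL, swap]
  congr 1
  ring
theorem swap_gU : d.swap.gU = d.gU := by
  simp only [gU, swap]
  congr 1
  ring
theorem swap_l1 : d.swap.l1 = d.l2 := by
  rfl
theorem swap_l2 : d.swap.l2 = d.l1 := by
  rfl
theorem swap_l3 : d.swap.l3 = d.l3 := by
  simp only [l3, swap_l1, swap_l2]
  ring
theorem swap_n1 : d.swap.n1 = d.n2 := by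
  rfl
theorem swap_n2 : d.swap.n2 = d.n1 := by
  rfl
theorem swap_n3 : d.swap.n3 = d.n3 := by
  simp only [n3, swap_n1, swap_n2]
  ring
theorem swap_St (h : d.St) : d.swap.St := by
  intro s G
  have h1 := h s G
  rw [swap_s01, swap_s02, swap_s12, swap_s13, swap_s23, swap_gL, swap_gU, swap_l1, swap_l2,
    swap_l3, swap_n1, swap_n2, swap_n3]
  linarith
theorem swap_C1 (h : d.swap.C1) : d.C1 := by
  obtain ⟨h1, h2, h3⟩ := h
  simp only [swap] at h1 h2 h3
  refine ⟨h1.symm, by rw [h1]; exact h2, ?_⟩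
  rcases h3 with h3 | h3
  · exact Or.inr ⟨h3.2, h3.1⟩
  · exact Or.inl ⟨h3.2, h3.1⟩
theorem swap_C3 (h : d.swap.C3) : d.C3 := by
  obtain ⟨h1, h2, h3⟩ := h
  simp only [swap] at h1 h2 h3
  refine ⟨h1.symm, by rw [h1]; exact h2, ?_⟩
  rcases h3 with h3 | h3 | h3 | h3
  · exact Or.inr (Or.inl ⟨h3.2, h3.1⟩)
  · exact Or.inl ⟨h3.2, h3.1⟩
  · exact Or.inr (Or.inr (Or.inr ⟨h3.2, h3.1⟩))
  · exact Or.inr (Or.inr (Or.inl ⟨h3.2, h3.1⟩))
theorem swap_C2 (h : d.swap.C2) : d.C2' := by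
  exact h
theorem swap_C2' (h : d.swap.C2') : d.C2 := by
  exact h

theorem flip_s01 : d.flip.s01 = d.s13 := by
  simp only [s01, s13, flip]
  rw [← neg_sub d.u d.a, neg_div, neg_sq]
theorem flip_s02 : d.flip.s02 = d.s23 := by
  simp only [s02, s23, flip]
  rw [← neg_sub d.v d.a, neg_div, neg_sq]
theorem flip_s12 : d.flip.s12 = d.s12 := by
  simp only [s12, flip]
  rw [sub_sub_sub_cancel_left, ← neg_sub d.u d.v, neg_div, neg_sq]
theorem flip_s13 : d.flip.s13 = d.s01 := by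
  simp only [s01, s13, flip]
  rw [sub_sub_cancel_left, neg_div, neg_sq]
theorem flip_s23 : d.flip.s23 = d.s02 := by
  simp only [s02, s23, flip]
  rw [sub_sub_cancel_left, neg_div, neg_sq]
theorem flip_gL : d.flip.gL = d.gU := by
  simp only [gL, gU, flip]
  congr 1
  ring
theorem flip_gU : d.flip.gU = d.gL := by
  simp only [gL, gU, flip]
  congr 1
  ring
theorem flip_l1 : d.flip.l1 = d.n1 := by
  simp only [l1, n1, flip]
  ring
theorem flip_l2 : d.flip.l2 = d.n2 := by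
  simp only [l2, n2, flip]
  ring
theorem flip_l3 : d.flip.l3 = d.n3 := by
  simp only [l3, n3, flip_l1, flip_l2]
theorem flip_n1 : d.flip.n1 = d.l1 := by
  simp only [l1, n1, flip]
  ring
theorem flip_n2 : d.flip.n2 = d.l2 := by
  simp only [l2, n2, flip]
  ring
theorem flip_n3 : d.flip.n3 = d.l3 := by
  simp only [l3, n3, flip_n1, flip_n2]
theorem flip_St (h : d.St) : d.flip.St := by
  intro s G
  have h1 := h s G
  rw [flip_s01, flip_s02, flip_s12, flip_s13, flip_s23, flip_gL, flip_gU, flip_l1, flip_l2,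
    flip_l3, flip_n1, flip_n2, flip_n3]
  linarith
theorem flip_C1 (h : d.flip.C1) : d.C1 := by
  obtain ⟨h1, h2, h3⟩ := h
  simp only [flip] at h1 h2 h3
  refine ⟨h1, h2, ?_⟩
  rcases h3 with ⟨h3, h4⟩ | ⟨h3, h4⟩
  · exact Or.inr ⟨by linarith, by linarith⟩
  · exact Or.inl ⟨by linarith, by linarith⟩
theorem flip_C3 (h : d.flip.C3) : d.C3 := by
  obtain ⟨h1, h2, h3⟩ := h
  simp only [flip] at h1 h2 h3
  refine ⟨h1, h2, ?_⟩
  rcases h3 with ⟨h3, h4⟩ | ⟨h3, h4⟩ | ⟨h3, h4⟩ | ⟨h3, h4⟩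
  · exact Or.inr (Or.inr (Or.inl ⟨by linarith, by linarith⟩))
  · exact Or.inr (Or.inr (Or.inr ⟨by linarith, by linarith⟩))
  · exact Or.inl ⟨by linarith, by linarith⟩
  · exact Or.inr (Or.inl ⟨by linarith, by linarith⟩)
theorem flip_C2 (h : d.flip.C2) : d.C2 := by
  obtain ⟨h1, h2, h3, h4⟩ := h
  simp only [flip] at h1 h2 h3 h4
  refine ⟨h1, h2, by linarith, ?_⟩
  rcases h4 with h4 | h4
  · exact Or.inr (by linarith)
  · exact Or.inl (by linarith)
theorem flip_C2' (h : d.flip.C2') : d.C2' := by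
  obtain ⟨h1, h2, h3, h4⟩ := h
  simp only [flip] at h1 h2 h3 h4
  refine ⟨h1, h2, by linarith, ?_⟩
  rcases h4 with h4 | h4
  · exact Or.inr (by linarith)
  · exact Or.inl (by linarith)

end Pool.Agent.Helper22.ST.Dat1
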