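import Pool.Agent.Helper22.ST.C01Facts

/-!
# ST-C05: vertical edge, equal gradients: the class relations (memo 5.2)

`l3_eq`: `l3² = n3²` (`l3_sq`, `n3_sq`, `gL = gU`) and `l3 + n3 = -(a l²) ≠ 0`: `l3 = n3`.
`l3_neg`: `2 l3 = -(a l²)`.  `groupI`: `St` at `(s, gL)`.
`not_L`: all three slopes equal: `faceL` gives `u = v = 0`, so `l1 = l2 = 0`, `l3 = 0`, no.  `not_U` similarly.
`cls12`: `ρ = δ √(gL - s12) > 0`, `l3 = -(l ρ)`; if `s01 = s12` then `l1 = e1 (c ρ)` with `e1 = 1` if `0 ≤ l1`,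
otherwise `-1`, etc.; divide `groupI` at `s12` by `ρ`.
`cls02`: the same for the class of `s02` if `s02 ≠ s12`, `s01 ≠ s02` and `l2 < 0`:
`ρ' = δ √(gL - s02) > 0`, `l2 = -(b ρ')`.
-/

open Real Set

namespace Pool.Agent.Helper22.ST.Dat1

variable (d : Dat1)

theorem pow_pos_of_neg {x : ℝ} (h : x < 0) : 0 < x ^ 2 := by nlinarith

theorem l3_eq (h : d.gL = d.gU) : d.n3 = d.l3 := by
  have h1 := d.l3_sq
  have h2 := d.n3_sq
  have h3 := d.l3_add_n3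
  rw [← h] at h2
  have hne : d.l3 + d.n3 ≠ 0 := by
    intro h4
    have := mul_pos d.ap (pow_pos d.lp 2)
    linarith
  have h4 : (d.n3 - d.l3) * (d.l3 + d.n3) = 0 := by
    linear_combination h2 - h1
  rcases mul_eq_zero.mp h4 with h5 | h5
  · linarith
  · exact absurd h5 hne

theorem l3_neg (h : d.gL = d.gU) : d.l3 < 0 := by
  have h1 := d.l3_eq h
  have h3 := d.l3_add_n3
  have := mul_pos d.ap (pow_pos d.lp 2)
  rw [h1] at h3
  linarith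

theorem ind_mul (p : Prop) (x y : ℝ) : ind p (x * y) = ind p x * y := by
  unfold ind
  split_ifs
  · rfl
  · rw [zero_mul]

theorem groupI (hS : d.St) (h : d.gL = d.gU) (s : ℝ) :
    ind (d.s01 = s) d.l1 + ind (d.s02 = s) d.l2 + ind (d.s12 = s) (2 * d.l3) +
      ind (d.s13 = s) d.n1 + ind (d.s23 = s) d.n2 = 0 := by
  have h1 := hS s d.gL
  have h3 := d.l3_eq h
  rw [← h, h3] at h1
  simp only [and_true] at h1
  have h2 : ind (d.s12 = s) (2 * d.l3) = ind (d.s12 = s) d.l3 + ind (d.s12 = s) d.l3 := by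
    unfold ind
    split_ifs
    · ring
    · ring
  rw [h2]
  linarith

theorem not_L (h : d.gL = d.gU) : ¬ (d.s01 = d.s12 ∧ d.s02 = d.s12) := by
  rintro ⟨h1, h2⟩
  obtain ⟨hu, hv⟩ := d.faceL h1 h2
  have h3 := d.l3_neg h
  have h4 : d.l3 = 0 := by
    unfold l3 l1 l2
    rw [hu, hv]
    ring
  linarith

theorem not_U (h : d.gL = d.gU) : ¬ (d.s13 = d.s12 ∧ d.s23 = d.s12) := by
  rintro ⟨h1, h2⟩
  obtain ⟨hu, hv⟩ := d.faceU h1 h2
  have h3 := d.l3_neg h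
  rw [← d.l3_eq h] at h3
  have h4 : d.n3 = 0 := by
    unfold n3 n1 n2
    rw [hu, hv]
    ring
  linarith

theorem sgn (x : ℝ) : ∃ e : ℝ, (e = 1 ∨ e = -1) ∧ x = e * |x| := by
  rcases le_or_gt 0 x with h | h
  · exact ⟨1, Or.inl rfl, by rw [abs_of_nonneg h]; ring⟩
  · exact ⟨-1, Or.inr rfl, by rw [abs_of_neg h]; ring⟩

/-- `x² = δ² c² (g - s)` with `ρ = δ √(g - s)` gives `|x| = c ρ` -/
theorem abs_eq {x δ c g s t : ℝ} (hδ : 0 < δ) (hc : 0 < c) (h : x ^ 2 = δ ^ 2 * c ^ 2 * (g - t))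
    (hts : t = s) (hs : 0 ≤ g - s) : |x| = c * (δ * √(g - s)) := by
  subst hts
  have h0 : 0 ≤ c * (δ * √(g - t)) := by positivity
  rw [← abs_of_nonneg h0]
  rw [← sq_eq_sq_iff_abs_eq_abs, h]
  have := Real.sq_sqrt hs
  linear_combination (-(δ ^ 2 * c ^ 2)) * this

theorem cls_term {e x c ρ : ℝ} {p : Prop} (hx : x = e * |x|) (h : p → |x| = c * ρ) :
    ind p x = ind p (e * c) * ρ := by
  unfold ind
  split_ifs with hp
  · rw [h hp] at hx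
    rw [hx]
    ring
  · rw [zero_mul]

theorem cls12 (hS : d.St) (h : d.gL = d.gU) : ∃ e1 e2 f1 f2 : ℝ,
    (e1 = 1 ∨ e1 = -1) ∧ (e2 = 1 ∨ e2 = -1) ∧ (f1 = 1 ∨ f1 = -1) ∧ (f2 = 1 ∨ f2 = -1) ∧
    d.l1 = e1 * |d.l1| ∧ d.l2 = e2 * |d.l2| ∧ d.n1 = f1 * |d.n1| ∧ d.n2 = f2 * |d.n2| ∧
    2 * d.l = ind (d.s01 = d.s12) (e1 * d.c) + ind (d.s02 = d.s12) (e2 * d.b) +
      ind (d.s13 = d.s12) (f1 * d.c) + ind (d.s23 = d.s12) (f2 * d.b) := by
  obtain ⟨e1, he1, he1'⟩ := sgn d.l1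
  obtain ⟨e2, he2, he2'⟩ := sgn d.l2
  obtain ⟨f1, hf1, hf1'⟩ := sgn d.n1
  obtain ⟨f2, hf2, hf2'⟩ := sgn d.n2
  refine ⟨e1, e2, f1, f2, he1, he2, hf1, hf2, he1', he2', hf1', hf2', ?_⟩
  have hneg := d.l3_neg h
  have h3 := d.l3_sq
  have hpos : 0 < d.gL - d.s12 := by
    have h4 : 0 < d.l3 ^ 2 := pow_pos_of_neg hneg
    rw [h3] at h4
    have h5 : 0 < d.δ ^ 2 * d.l ^ 2 := by
      have := d.δp
      have := d.lp
      positivity
    exact (pos_iff_pos_of_mul_pos h4).mp h5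
  set ρ := d.δ * √(d.gL - d.s12) with hρ
  have hρ0 : 0 < ρ := mul_pos d.δp (Real.sqrt_pos.mpr hpos)
  have hl3 : d.l3 = -(d.l * ρ) := by
    have h4 := abs_eq d.δp d.lp h3 rfl hpos.le
    rw [abs_of_neg hneg] at h4
    rw [← hρ] at h4
    linarith
  have t1 := cls_term (p := d.s01 = d.s12) (ρ := ρ) he1'
    (fun hp => abs_eq d.δp d.cp d.l1_sq hp hpos.le)
  have t2 := cls_term (p := d.s02 = d.s12) (ρ := ρ) he2'
    (fun hp => abs_eq d.δp d.bp d.l2_sq hp hpos.le)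
  have hn1 := d.n1_sq
  have hn2 := d.n2_sq
  rw [← h] at hn1 hn2
  have t3 := cls_term (p := d.s13 = d.s12) (ρ := ρ) hf1'
    (fun hp => abs_eq d.δp d.cp hn1 hp hpos.le)
  have t4 := cls_term (p := d.s23 = d.s12) (ρ := ρ) hf2'
    (fun hp => abs_eq d.δp d.bp hn2 hp hpos.le)
  have hg := d.groupI hS h d.s12
  rw [t1, t2, t3, t4] at hg
  have h6 : ind (d.s12 = d.s12) (2 * d.l3) = 2 * d.l3 := by
    unfold ind
    rw [if_pos rfl]
  rw [h6, hl3] at hg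
  have h7 : (2 * d.l) * ρ = (ind (d.s01 = d.s12) (e1 * d.c) + ind (d.s02 = d.s12) (e2 * d.b) +
      ind (d.s13 = d.s12) (f1 * d.c) + ind (d.s23 = d.s12) (f2 * d.b)) * ρ := by
    linarith
  exact mul_right_cancel₀ hρ0.ne' h7

theorem cls02 (hS : d.St) (h : d.gL = d.gU) (h1 : d.s02 ≠ d.s12) (h2 : d.s01 ≠ d.s02)
    (h3 : d.l2 < 0) : ∃ f1 f2 : ℝ, (f1 = 1 ∨ f1 = -1) ∧ (f2 = 1 ∨ f2 = -1) ∧
    d.n1 = f1 * |d.n1| ∧ d.n2 = f2 * |d.n2| ∧
    d.b = ind (d.s13 = d.s02) (f1 * d.c) + ind (d.s23 = d.s02) (f2 * d.b) := by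
  obtain ⟨f1, hf1, hf1'⟩ := sgn d.n1
  obtain ⟨f2, hf2, hf2'⟩ := sgn d.n2
  refine ⟨f1, f2, hf1, hf2, hf1', hf2', ?_⟩
  have hl := d.l2_sq
  have hpos : 0 < d.gL - d.s02 := by
    have h4 : 0 < d.l2 ^ 2 := pow_pos_of_neg h3
    rw [hl] at h4
    have h5 : 0 < d.δ ^ 2 * d.b ^ 2 := by
      have := d.δp
      have := d.bp
      positivity
    exact (pos_iff_pos_of_mul_pos h4).mp h5
  set ρ := d.δ * √(d.gL - d.s02) with hρ
  have hρ0 : 0 < ρ := mul_pos d.δp (Real.sqrt_pos.mpr hpos)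
  have hl2 : d.l2 = -(d.b * ρ) := by
    have h4 := abs_eq d.δp d.bp hl rfl hpos.le
    rw [abs_of_neg h3] at h4
    rw [← hρ] at h4
    linarith
  have hn1 := d.n1_sq
  have hn2 := d.n2_sq
  rw [← h] at hn1 hn2
  have t3 := cls_term (p := d.s13 = d.s02) (ρ := ρ) hf1'
    (fun hp => abs_eq d.δp d.cp hn1 hp hpos.le)
  have t4 := cls_term (p := d.s23 = d.s02) (ρ := ρ) hf2'
    (fun hp => abs_eq d.δp d.bp hn2 hp hpos.le)
  have hg := d.groupI hS h d.s02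
  rw [t3, t4] at hg
  have h6 : ind (d.s02 = d.s02) d.l2 = d.l2 := by
    unfold ind
    rw [if_pos rfl]
  have h8 : ind (d.s01 = d.s02) d.l1 = 0 := by
    unfold ind
    rw [if_neg h2]
  have h9 : ind (d.s12 = d.s02) (2 * d.l3) = 0 := by
    unfold ind
    rw [if_neg (fun hh => h1 hh.symm)]
  rw [h6, h8, h9, hl2] at hg
  have h7 : d.b * ρ = (ind (d.s13 = d.s02) (f1 * d.c) + ind (d.s23 = d.s02) (f2 * d.b)) * ρ := by
    linarith
  exact mul_right_cancel₀ hρ0.ne' h7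

end Pool.Agent.Helper22.ST.Dat1
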