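import Pool.Agent.Helper22.ST.D00Sim

/-!
# ST-D02: normal form without vertical edges

`dt_eq`: `dt x y z = ∑_{i=1}^3 (z i - z 0) * cr x y i` (unfold, `ring`).
`line_form`: `cr x y 0 = 0` says that the horizontal parts `P 1, P 2, P 3` are collinear (`cr x y 0 = -(P2 - P1) × (P3 - P1)`).
Let `e = P 3 - P 1 ≠ 0`, `E = |e|² = hor x y 3 1`, `D = (P 1 - P 0) × e = (P 2 - P 0) × e = (P 3 - P 0) × e`.  `D ≠ 0`: otherwise
all `cr x y i = 0` (multiples of `D`) and `dt = 0`.  Put `H = |D| / √E`, `w i = ⟪P i - P 0, e⟫ / |D|`, `t i = z i - z 0`.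
Lagrange: `|P i - P 0|² E = ⟪..⟫² + D²`, so `hor x y 0 i = H² (w i² + 1)`; `P i - P j` is parallel to `e`, so
`hor x y i j E = ⟪P i - P j, e⟫²`, `hor x y i j = H² (w i - w j)²`; `w i ≠ w j` since `hor ≠ 0`.  The permutation is `1`, the factors
are `H` and `1`.  Finally `dt x y z` is a nonzero multiple of
`t1 (w2 - w3) + t2 (w3 - w1) + t3 (w1 - w2) = (t2 - t1)(w3 - w1) - (t3 - t1)(w2 - w1)`
(`cr x y 1 * E = D ⟪P 2 - P 3, e⟫` etc.).
-/

open Real Set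
open Pool.Agent.Helper1.Tet

namespace Pool.Agent.Helper22.ST

private theorem D02_cr0 (f g : Fin 4 → ℝ) : cr f g 0 =
    -(((f 2 - f 0) * (g 3 - g 0) - (g 2 - g 0) * (f 3 - f 0)) +
      ((f 3 - f 0) * (g 1 - g 0) - (g 3 - g 0) * (f 1 - f 0)) +
      ((f 1 - f 0) * (g 2 - g 0) - (g 1 - g 0) * (f 2 - f 0))) := rfl

private theorem D02_cr1 (f g : Fin 4 → ℝ) : cr f g 1 =
    (f 2 - f 0) * (g 3 - g 0) - (g 2 - g 0) * (f 3 - f 0) := rfl

private theorem D02_cr2 (f g : Fin 4 → ℝ) : cr f g 2 =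
    (f 3 - f 0) * (g 1 - g 0) - (g 3 - g 0) * (f 1 - f 0) := rfl

private theorem D02_cr3 (f g : Fin 4 → ℝ) : cr f g 3 =
    (f 1 - f 0) * (g 2 - g 0) - (g 1 - g 0) * (f 2 - f 0) := rfl

theorem dt_eq (x y z : Fin 4 → ℝ) : dt x y z =
    (z 1 - z 0) * cr x y 1 + (z 2 - z 0) * cr x y 2 + (z 3 - z 0) * cr x y 3 := by
  unfold dt
  rw [D02_cr1, D02_cr1, D02_cr1, D02_cr2, D02_cr3]
  ring

theorem line_form (x y z : Fin 4 → ℝ) (hd : dt x y z ≠ 0) (h0 : cr x y 0 = 0)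
    (hne : ∀ j, PP x y j ≠ 0) : ∃ w1 w2 w3 t1 t2 t3 : ℝ, w1 ≠ w2 ∧ w2 ≠ w3 ∧ w1 ≠ w3 ∧
      (t2 - t1) * (w3 - w1) ≠ (t3 - t1) * (w2 - w1) ∧
      Sim3 x y z ![0, w1, w2, w3] yy ![0, t1, t2, t3] := by
  have n13 : (x 1 - x 3) ^ 2 + (y 1 - y 3) ^ 2 ≠ 0 := hne 4
  have n12 : (x 1 - x 2) ^ 2 + (y 1 - y 2) ^ 2 ≠ 0 := hne 3
  have n23 : (x 2 - x 3) ^ 2 + (y 2 - y 3) ^ 2 ≠ 0 := hne 5
  rw [D02_cr0] at h0
  rw [dt_eq, D02_cr1, D02_cr2, D02_cr3] at hd
  obtain ⟨ex, hex⟩ : ∃ ex, ex = x 3 - x 1 := ⟨_, rfl⟩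
  obtain ⟨ey, hey⟩ : ∃ ey, ey = y 3 - y 1 := ⟨_, rfl⟩
  obtain ⟨E, hE⟩ : ∃ E, E = ex ^ 2 + ey ^ 2 := ⟨_, rfl⟩
  obtain ⟨D, hD⟩ : ∃ D, D = (x 1 - x 0) * ey - (y 1 - y 0) * ex := ⟨_, rfl⟩
  have hE0 : E ≠ 0 := by
    rw [hE, hex, hey]
    intro h
    exact n13 (by linear_combination h)
  have hEp : 0 < E := lt_of_le_of_ne (by rw [hE]; positivity) hE0.symm
  have c1 : (x 1 - x 0) * ey - (y 1 - y 0) * ex = D := hD.symm
  have c2 : (x 2 - x 0) * ey - (y 2 - y 0) * ex = D := by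
    rw [hD, hex, hey]
    linear_combination -h0
  have c3 : (x 3 - x 0) * ey - (y 3 - y 0) * ex = D := by
    rw [hD, hex, hey]
    ring
  have k : E * ((z 1 - z 0) * ((x 2 - x 0) * (y 3 - y 0) - (y 2 - y 0) * (x 3 - x 0)) +
      (z 2 - z 0) * ((x 3 - x 0) * (y 1 - y 0) - (y 3 - y 0) * (x 1 - x 0)) +
      (z 3 - z 0) * ((x 1 - x 0) * (y 2 - y 0) - (y 1 - y 0) * (x 2 - x 0))) =
      D * ((z 1 - z 0) * ((x 3 - x 2) * ex + (y 3 - y 2) * ey) +
        (z 2 - z 0) * ((x 1 - x 3) * ex + (y 1 - y 3) * ey) +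
        (z 3 - z 0) * ((x 2 - x 1) * ex + (y 2 - y 1) * ey)) := by
    rw [hE]
    linear_combination (z 1 - z 0) * (c2 * ((x 3 - x 0) * ex + (y 3 - y 0) * ey) -
        c3 * ((x 2 - x 0) * ex + (y 2 - y 0) * ey)) +
      (z 2 - z 0) * (c3 * ((x 1 - x 0) * ex + (y 1 - y 0) * ey) -
        c1 * ((x 3 - x 0) * ex + (y 3 - y 0) * ey)) +
      (z 3 - z 0) * (c1 * ((x 2 - x 0) * ex + (y 2 - y 0) * ey) -
        c2 * ((x 1 - x 0) * ex + (y 1 - y 0) * ey))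
  have hD0 : D ≠ 0 := by
    intro h
    rw [h, zero_mul] at k
    exact hd ((mul_eq_zero.1 k).resolve_left hE0)
  obtain ⟨w1, hw1⟩ : ∃ w, w = ((x 1 - x 0) * ex + (y 1 - y 0) * ey) / D := ⟨_, rfl⟩
  obtain ⟨w2, hw2⟩ : ∃ w, w = ((x 2 - x 0) * ex + (y 2 - y 0) * ey) / D := ⟨_, rfl⟩
  obtain ⟨w3, hw3⟩ : ∃ w, w = ((x 3 - x 0) * ex + (y 3 - y 0) * ey) / D := ⟨_, rfl⟩
  have m1 : D * w1 = (x 1 - x 0) * ex + (y 1 - y 0) * ey := by
    rw [hw1, mul_div_cancel₀ _ hD0]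
  have m2 : D * w2 = (x 2 - x 0) * ex + (y 2 - y 0) * ey := by
    rw [hw2, mul_div_cancel₀ _ hD0]
  have m3 : D * w3 = (x 3 - x 0) * ex + (y 3 - y 0) * ey := by
    rw [hw3, mul_div_cancel₀ _ hD0]
  have key : ∀ i j : Fin 4, E * hor x y i j =
      D ^ 2 * hor ![0, w1, w2, w3] yy i j := by
    have hW : ∀ i : Fin 4, D * (![0, w1, w2, w3] : Fin 4 → ℝ) i =
        (x i - x 0) * ex + (y i - y 0) * ey := by
      intro i
      fin_cases i
      · show D * 0 = (x 0 - x 0) * ex + (y 0 - y 0) * ey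
        ring
      · exact m1
      · exact m2
      · exact m3
    have hY : ∀ i : Fin 4, D * yy i = (x i - x 0) * ey - (y i - y 0) * ex := by
      intro i
      fin_cases i
      · show D * 0 = (x 0 - x 0) * ey - (y 0 - y 0) * ex
        ring
      · show D * 1 = _
        rw [mul_one]
        exact hD
      · show D * 1 = _
        rw [mul_one]
        exact c2.symm
      · show D * 1 = _
        rw [mul_one]
        exact c3.symm
    intro i j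
    unfold hor
    have e1 := hW i
    have e2 := hW j
    have e3 := hY i
    have e4 := hY j
    have e5 : D * (![0, w1, w2, w3] : Fin 4 → ℝ) i - D * (![0, w1, w2, w3] : Fin 4 → ℝ) j =
        (x i - x j) * ex + (y i - y j) * ey := by rw [e1, e2]; ring
    have e6 : D * yy i - D * yy j = (x i - x j) * ey - (y i - y j) * ex := by rw [e3, e4]; ring
    have e7 : D ^ 2 * (((![0, w1, w2, w3] : Fin 4 → ℝ) i - (![0, w1, w2, w3] : Fin 4 → ℝ) j) ^ 2 +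
        (yy i - yy j) ^ 2) = (D * (![0, w1, w2, w3] : Fin 4 → ℝ) i -
          D * (![0, w1, w2, w3] : Fin 4 → ℝ) j) ^ 2 + (D * yy i - D * yy j) ^ 2 := by ring
    rw [e7, e5, e6, hE]
    ring
  have p12 : (x 2 - x 1) * ey - (y 2 - y 1) * ex = 0 := by linear_combination c2 - c1
  have q12 : (x 2 - x 1) * ex + (y 2 - y 1) * ey ≠ 0 := by
    intro h
    have h2 : ((x 1 - x 2) ^ 2 + (y 1 - y 2) ^ 2) * E = 0 := by
      rw [hE]
      linear_combination ((x 2 - x 1) * ex + (y 2 - y 1) * ey) * h +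
        ((x 2 - x 1) * ey - (y 2 - y 1) * ex) * p12
    rcases mul_eq_zero.1 h2 with h3 | h3
    · exact n12 h3
    · exact hE0 h3
  have p23 : (x 3 - x 2) * ey - (y 3 - y 2) * ex = 0 := by linear_combination c3 - c2
  have q23 : (x 3 - x 2) * ex + (y 3 - y 2) * ey ≠ 0 := by
    intro h
    have h2 : ((x 2 - x 3) ^ 2 + (y 2 - y 3) ^ 2) * E = 0 := by
      rw [hE]
      linear_combination ((x 3 - x 2) * ex + (y 3 - y 2) * ey) * h +
        ((x 3 - x 2) * ey - (y 3 - y 2) * ex) * p23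
    rcases mul_eq_zero.1 h2 with h3 | h3
    · exact n23 h3
    · exact hE0 h3
  have hx : (x 3 - x 1) * ex + (y 3 - y 1) * ey = E := by rw [hE, ← hex, ← hey]; ring
  refine ⟨w1, w2, w3, z 1 - z 0, z 2 - z 0, z 3 - z 0, ?_, ?_, ?_, ?_, ?_⟩
  · intro h
    apply q12
    rw [h] at m1
    linear_combination m1 - m2
  · intro h
    apply q23
    rw [h] at m2
    linear_combination m2 - m3
  · intro h
    apply hE0
    rw [h] at m1
    rw [← hx]
    linear_combination m1 - m3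
  · intro h
    apply hd
    have h3 : E * ((z 1 - z 0) * ((x 2 - x 0) * (y 3 - y 0) - (y 2 - y 0) * (x 3 - x 0)) +
      (z 2 - z 0) * ((x 3 - x 0) * (y 1 - y 0) - (y 3 - y 0) * (x 1 - x 0)) +
      (z 3 - z 0) * ((x 1 - x 0) * (y 2 - y 0) - (y 1 - y 0) * (x 2 - x 0))) = 0 := by
      rw [k]
      linear_combination -D ^ 2 * h + D * ((z 1 - z 0) * (m2 - m3) + (z 2 - z 0) * (m3 - m1) +
        (z 3 - z 0) * (m1 - m2))
    exact (mul_eq_zero.1 h3).resolve_left hE0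
  · refine ⟨Equiv.refl _, |D| / √E, 1, by positivity, one_ne_zero, ?_⟩
    intro i j
    constructor
    · rw [div_pow, sq_abs, Real.sq_sqrt hEp.le]
      show hor x y i j = _
      rw [div_mul_eq_mul_div, ← key i j, mul_div_cancel_left₀ _ hE0]
    · show z i - z j = 1 * (_ - _)
      have hT : ∀ i : Fin 4, (![0, z 1 - z 0, z 2 - z 0, z 3 - z 0] : Fin 4 → ℝ) i =
          z i - z 0 := by
        intro i
        fin_cases i
        · show (0 : ℝ) = z 0 - z 0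
          ring
        · rfl
        · rfl
        · rfl
      rw [hT i, hT j]
      ring

end Pool.Agent.Helper22.ST
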