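import Pool.Agent.Helper22.ST.A09Orth
import Pool.Agent.Helper22.ST.A13Star
import Pool.Agent.Helper22.ST.A15Pattern
import Pool.Agent.Helper22.ST.B29Final
import Pool.Agent.Helper22.ST.C08Final
import Pool.Agent.Helper22.ST.D01HT
import Pool.Agent.Helper22.ST.D04NormII
import Pool.Agent.Helper22.ST.D05NormI
import Pool.Agent.Helper22.ST.D06StarII
import Pool.Agent.Helper22.ST.D07StarI
import Pool.Agent.Helper22.ST.D08GoldC

/-!
# ST-D09: the hard direction in coordinates
-/

open Real Set
open Pool.Agent.Helper1.Tet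

namespace Pool.Agent.Helper22.ST

theorem main_coord (x y z : Fin 4 → ℝ) (hd : dt x y z ≠ 0) (hu : ¬ (HT x y z).Countable) :
    Gold3 x y z := by
  obtain ⟨v, hv⟩ := exists_vert x y z hd (orth_of_unc x y z hd hu)
  by_cases hne : ∀ j, PP x y j ≠ 0
  · exfalso
    obtain ⟨d, hs⟩ := normII x y z hd v hv hne
    have hd' := dt_dat d
    have h1 := HT_sim_unc hd hd' hs hu
    exact d.no_one_vert (star_dat d (star_of_orth _ _ _ hd' (orth_of_unc _ _ _ hd' h1)))
  · push Not at hne
    obtain ⟨j, hj⟩ := hne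
    obtain ⟨d, hs⟩ := normI x y z hd j hj
    have hd' := dt_dat1 d
    have h1 := HT_sim_unc hd hd' hs hu
    refine Gold3.of_sim hs ?_
    rcases d.classify (star_dat1 d (star_of_orth _ _ _ hd' (orth_of_unc _ _ _ hd' h1))) with
      h | h | h | h
    · exact gold_C1 d h
    · exact gold_C3 d h
    · exact gold_C2 d h
    · exact gold_C2' d h

end Pool.Agent.Helper22.ST
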