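import Pool.Agent.Helper1.Tet.Defs
import Pool.Agent.Helper13.HT.Defs

/-!
# ST: stretching tetrahedra (MP_8ae016_co) — definitions

`tet x y z h` is the tetrahedron with horizontal coordinates `x, y` and heights `h * z`.
All quantities below are polynomials in the coordinates.  `cr x y v` is (up to sign) twice the area of
the vertical projection of the face opposite to `v`; it vanishes iff this face is vertical.
-/

open Real Set
open Pool.Agent.Helper1.Tet

namespace Pool.Agent.Helper22.ST

/-- the tetrahedron with horizontal coordinates `x, y` and heights `h * z` -/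
noncomputable def tet (x y z : Fin 4 → ℝ) (h : ℝ) : Fin 4 → E3 := fun i => !₂[x i, y i, h * z i]

/-- the stretch factors for which the tetrahedron tiles space -/
def HT (x y z : Fin 4 → ℝ) : Set ℝ := {h | 0 < h ∧ TilesSpace (convexHull ℝ (range (tet x y z h)))}

/-- squared horizontal length of the edge `j` -/
def PP (x y : Fin 4 → ℝ) (j : Fin 6) : ℝ := (x (ea j) - x (eb j)) ^ 2 + (y (ea j) - y (eb j)) ^ 2

/-- squared vertical length of the edge `j` (for `h = 1`) -/
def ZZ (z : Fin 4 → ℝ) (j : Fin 6) : ℝ := (z (ea j) - z (eb j)) ^ 2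

/-- components of the (not normalized) inward normals: with `e_i = p_i - p_0` the normals are
`N_1 = e_2 × e_3`, `N_2 = e_3 × e_1`, `N_3 = e_1 × e_2`, `N_0 = -(N_1 + N_2 + N_3)`, and
`N_v = (cr y z v, cr z x v, cr x y v)`. -/
def cr (f g : Fin 4 → ℝ) : Fin 4 → ℝ :=
  ![-(((f 2 - f 0) * (g 3 - g 0) - (g 2 - g 0) * (f 3 - f 0)) +
      ((f 3 - f 0) * (g 1 - g 0) - (g 3 - g 0) * (f 1 - f 0)) +
      ((f 1 - f 0) * (g 2 - g 0) - (g 1 - g 0) * (f 2 - f 0))),
    (f 2 - f 0) * (g 3 - g 0) - (g 2 - g 0) * (f 3 - f 0),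
    (f 3 - f 0) * (g 1 - g 0) - (g 3 - g 0) * (f 1 - f 0),
    (f 1 - f 0) * (g 2 - g 0) - (g 1 - g 0) * (f 2 - f 0)]

/-- the determinant of the edge vectors from the vertex `0` -/
def dt (x y z : Fin 4 → ℝ) : ℝ :=
  (x 1 - x 0) * cr y z 1 + (y 1 - y 0) * cr z x 1 + (z 1 - z 0) * cr x y 1

/-- squared horizontal part of the normal of the face opposite to `v` -/
def QQ (x y z : Fin 4 → ℝ) (v : Fin 4) : ℝ := cr y z v ^ 2 + cr z x v ^ 2

/-- horizontal part of the inner product of the normals of the faces at the edge `j` -/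
def qq' (x y z : Fin 4 → ℝ) (j : Fin 6) : ℝ :=
  cr y z (ec j) * cr y z (ed j) + cr z x (ec j) * cr z x (ed j)

/-- vertical part of the inner product of the normals of the faces at the edge `j` -/
def gm (x y : Fin 4 → ℝ) (j : Fin 6) : ℝ := cr x y (ec j) * cr x y (ed j)

/-- the derivative of the dihedral angle at the edge `j` with respect to the stretch factor -/
noncomputable def dal (x y z : Fin 4 → ℝ) (h : ℝ) (j : Fin 6) : ℝ :=
  ((cr x y (ec j) ^ 2 * qq' x y z j - gm x y j * QQ x y z (ec j)) /
      (cr x y (ec j) ^ 2 + h ^ 2 * QQ x y z (ec j)) +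
    (cr x y (ed j) ^ 2 * qq' x y z j - gm x y j * QQ x y z (ed j)) /
      (cr x y (ed j) ^ 2 + h ^ 2 * QQ x y z (ed j))) / (|dt x y z| * √(PP x y j + h ^ 2 * ZZ z j))

/-- `a` if `p` holds, otherwise `0` -/
noncomputable def ind (p : Prop) (a : ℝ) : ℝ := by
  classical
  exact if p then a else 0

theorem ind_pos {p : Prop} (h : p) (a : ℝ) : ind p a = a := by
  unfold ind
  exact if_pos h

theorem ind_neg {p : Prop} (h : ¬ p) (a : ℝ) : ind p a = 0 := by
  unfold ind
  exact if_neg h

theorem ind_congr {p q : Prop} (h : p ↔ q) (a : ℝ) : ind p a = ind q a := by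
  by_cases hp : p
  · rw [ind_pos hp, ind_pos (h.1 hp)]
  · rw [ind_neg hp, ind_neg (fun hq => hp (h.2 hq))]

theorem ind_mul (p : Prop) (k a : ℝ) : ind p (k * a) = k * ind p a := by
  by_cases hp : p
  · rw [ind_pos hp, ind_pos hp]
  · rw [ind_neg hp, ind_neg hp, mul_zero]

/-- one summand of the star relation: the face opposite to `v` at the edge `j`, if this face is not
vertical, has squared gradient `G`, and the edge has squared slope `s` -/
noncomputable def tm (x y z : Fin 4 → ℝ) (s G : ℝ) (v : Fin 4) (j : Fin 6) : ℝ :=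
  ind (cr x y v ≠ 0 ∧ ZZ z j = s * PP x y j ∧ QQ x y z v = G * cr x y v ^ 2)
    (gm x y j * G - qq' x y z j)

/-- the star relations `(★)`: for every squared slope `s` and every squared gradient `G` -/
def Star (x y z : Fin 4 → ℝ) : Prop :=
  ∀ s G : ℝ, ∑ j, (tm x y z s G (ec j) j + tm x y z s G (ed j) j) = 0

/-- the two-variable identity from which everything follows: the edge lengths of one stretched
tetrahedron are orthogonal to the derivatives of the angles of any other -/
def Orth (x y z : Fin 4 → ℝ) : Prop :=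
  ∀ g h : ℝ, 0 < g → 0 < h → ∑ j, √(PP x y j + g ^ 2 * ZZ z j) * dal x y z h j = 0

end Pool.Agent.Helper22.ST
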