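import Pool.Agent.Helper22.ST.Defs

/-!
# ST: the case of exactly one vertical face — definitions

Normal form: the vertex `0` is the apex `A` at height `0` over the origin, the vertices `1, 2, 3` are
over the points `(w_i, 1)` of a line, at heights `t_i`, `w_1 < w_2 < w_3`.  The plane of the face
`A i j` is `height = m_ij * (first coordinate) + y_ij * (second coordinate)`.
The names of the faces: `U = A13` (opposite to the vertex 2), `L1 = A12`, `L2 = A23`.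
`r_i` is the horizontal length of the edge `A i`.
-/

open Real Set

namespace Pool.Agent.Helper22.ST

/-- data of a tetrahedron with exactly one vertical face, in normal form -/
structure Dat where
  w1 : ℝ
  w2 : ℝ
  w3 : ℝ
  t1 : ℝ
  t2 : ℝ
  t3 : ℝ
  m12 : ℝ
  m13 : ℝ
  m23 : ℝ
  y12 : ℝ
  y13 : ℝ
  y23 : ℝ
  r1 : ℝ
  r2 : ℝ
  r3 : ℝ
  w12 : w1 < w2
  w23 : w2 < w3
  a1 : t1 = m12 * w1 + y12
  a2 : t2 = m12 * w2 + y12
  b1 : t1 = m13 * w1 + y13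
  b3 : t3 = m13 * w3 + y13
  c2 : t2 = m23 * w2 + y23
  c3 : t3 = m23 * w3 + y23
  hm : m12 < m23
  r1p : 0 < r1
  r2p : 0 < r2
  r3p : 0 < r3
  r1q : r1 ^ 2 = 1 + w1 ^ 2
  r2q : r2 ^ 2 = 1 + w2 ^ 2
  r3q : r3 ^ 2 = 1 + w3 ^ 2

namespace Dat

variable (d : Dat)

/-- squared slope of the edge `A1` -/
noncomputable def s1 : ℝ := (d.t1 / d.r1) ^ 2
/-- squared slope of the edge `A2` -/
noncomputable def s2 : ℝ := (d.t2 / d.r2) ^ 2
/-- squared slope of the edge `A3` -/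
noncomputable def s3 : ℝ := (d.t3 / d.r3) ^ 2
/-- squared gradient of the face `U` -/
def GU : ℝ := d.m13 ^ 2 + d.y13 ^ 2
/-- squared gradient of the face `L1` -/
def G1 : ℝ := d.m12 ^ 2 + d.y12 ^ 2
/-- squared gradient of the face `L2` -/
def G2 : ℝ := d.m23 ^ 2 + d.y23 ^ 2
/-- face `U`, edge `A1` -/
def u1 : ℝ := -(d.m13 - d.y13 * d.w1)
/-- face `U`, edge `A3` -/
def u3 : ℝ := d.m13 - d.y13 * d.w3
/-- face `U`, edge `13` -/
def u0 : ℝ := (d.w3 - d.w1) * d.y13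
/-- face `L1`, edge `A1` -/
def p1 : ℝ := d.m12 - d.y12 * d.w1
/-- face `L1`, edge `A2` -/
def p2 : ℝ := -(d.m12 - d.y12 * d.w2)
/-- face `L1`, edge `12` -/
def p0 : ℝ := -((d.w2 - d.w1) * d.y12)
/-- face `L2`, edge `A2` -/
def q2 : ℝ := d.m23 - d.y23 * d.w2
/-- face `L2`, edge `A3` -/
def q3 : ℝ := -(d.m23 - d.y23 * d.w3)
/-- face `L2`, edge `23` -/
def q0 : ℝ := -((d.w3 - d.w2) * d.y23)

/-- the star relations in the normal form -/
def St : Prop := ∀ s G : ℝ,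
  ind (d.s1 = s ∧ d.GU = G) d.u1 + ind (d.s3 = s ∧ d.GU = G) d.u3 +
    ind (d.m13 ^ 2 = s ∧ d.GU = G) d.u0 +
  ind (d.s1 = s ∧ d.G1 = G) d.p1 + ind (d.s2 = s ∧ d.G1 = G) d.p2 +
    ind (d.m12 ^ 2 = s ∧ d.G1 = G) d.p0 +
  ind (d.s2 = s ∧ d.G2 = G) d.q2 + ind (d.s3 = s ∧ d.G2 = G) d.q3 +
    ind (d.m23 ^ 2 = s ∧ d.G2 = G) d.q0 = 0

/-- the mirror image (`w ↦ -w`): the vertices `1` and `3` are exchanged -/
def mirror : Dat where
  w1 := -d.w3
  w2 := -d.w2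
  w3 := -d.w1
  t1 := d.t3
  t2 := d.t2
  t3 := d.t1
  m12 := -d.m23
  m13 := -d.m13
  m23 := -d.m12
  y12 := d.y23
  y13 := d.y13
  y23 := d.y12
  r1 := d.r3
  r2 := d.r2
  r3 := d.r1
  w12 := neg_lt_neg d.w23
  w23 := neg_lt_neg d.w12
  a1 := by rw [neg_mul_neg]; exact d.c3
  a2 := by rw [neg_mul_neg]; exact d.c2
  b1 := by rw [neg_mul_neg]; exact d.b3
  b3 := by rw [neg_mul_neg]; exact d.b1
  c2 := by rw [neg_mul_neg]; exact d.a2
  c3 := by rw [neg_mul_neg]; exact d.a1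
  hm := neg_lt_neg d.hm
  r1p := d.r3p
  r2p := d.r2p
  r3p := d.r1p
  r1q := by rw [neg_sq]; exact d.r3q
  r2q := by rw [neg_sq]; exact d.r2q
  r3q := by rw [neg_sq]; exact d.r1q

/-- horizontal coordinates of the tetrahedron -/
def xx : Fin 4 → ℝ := ![0, d.w1, d.w2, d.w3]
/-- heights of the tetrahedron -/
def zz : Fin 4 → ℝ := ![0, d.t1, d.t2, d.t3]

end Dat

/-- second horizontal coordinates of the normal form -/
def yy : Fin 4 → ℝ := ![0, 1, 1, 1]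

end Pool.Agent.Helper22.ST
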