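import Pool.Agent.Helper1.Tet.Defs

/-!
# ST-E00: axial tilings — definitions and formal properties

`u` is a unit vector; the height of a point `x` is `⟪u, x⟫`.  `stretch u h x = x + ((h - 1) ⟪u, x⟫) • u`:
`⟪u, stretch u h x⟫ = h ⟪u, x⟫`, `stretch u h (stretch u k x) = stretch u (h k) x`, `stretch u 1 x = x`,
`‖stretch u h x - stretch u h y‖² = ‖x - y‖² + (h² - 1) ⟪u, x - y⟫²`.
-/

open Real Set
open scoped RealInnerProductSpace
open Pool.Agent.Helper1.Tet

namespace Pool.Agent.Helper22.ST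

/-- the stretching by the factor `h` in the direction of the unit vector `u` -/
noncomputable def stretch (u : E3) (h : ℝ) (x : E3) : E3 := x + ((h - 1) * ⟪u, x⟫) • u

/-- the isometry preserves the absolute height differences -/
def Axial (u : E3) (g : E3 ≃ᵢ E3) : Prop := ∀ x y, |⟪u, g x - g y⟫| = |⟪u, x - y⟫|

/-- a tiling by images under axial isometries -/
def AxT (u : E3) (T : Set E3) : Prop :=
  ∃ 𝒯 : Set (Set E3), (∀ S ∈ 𝒯, ∃ g : E3 ≃ᵢ E3, Axial u g ∧ S = g '' T) ∧ ⋃₀ 𝒯 = univ ∧
    𝒯.Pairwise fun S S' => Disjoint (interior S) (interior S')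

private theorem E00Ax_uu (u : E3) (hu : ‖u‖ = 1) : ⟪u, u⟫ = 1 := by
  rw [real_inner_self_eq_norm_sq, hu, one_pow]

theorem inner_stretch (u : E3) (hu : ‖u‖ = 1) (h : ℝ) (x : E3) : ⟪u, stretch u h x⟫ = h * ⟪u, x⟫ := by
  unfold stretch
  rw [inner_add_right, inner_smul_right, E00Ax_uu u hu]
  ring

theorem stretch_stretch (u : E3) (hu : ‖u‖ = 1) (h k : ℝ) (x : E3) :
    stretch u h (stretch u k x) = stretch u (h * k) x := by
  have h1 := inner_stretch u hu k x
  unfold stretch at h1 ⊢
  rw [h1, add_assoc, ← add_smul]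
  congr 2
  ring

theorem stretch_one (u : E3) (x : E3) : stretch u 1 x = x := by
  unfold stretch
  rw [sub_self, zero_mul, zero_smul, add_zero]

private theorem E00Ax_sub (u : E3) (h : ℝ) (x y : E3) :
    stretch u h x - stretch u h y = (x - y) + ((h - 1) * ⟪u, x - y⟫) • u := by
  unfold stretch
  rw [inner_sub_right, mul_sub, sub_smul]
  abel

theorem dist_stretch (u : E3) (hu : ‖u‖ = 1) (h : ℝ) (x y : E3) :
    dist (stretch u h x) (stretch u h y) ^ 2 = dist x y ^ 2 + (h ^ 2 - 1) * ⟪u, x - y⟫ ^ 2 := by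
  rw [dist_eq_norm, dist_eq_norm, E00Ax_sub, norm_add_sq_real, inner_smul_right,
    real_inner_comm u (x - y), norm_smul, hu, mul_one, Real.norm_eq_abs, sq_abs]
  ring

/-- the stretching as a homeomorphism -/
private noncomputable def E00Ax_homeo (u : E3) (hu : ‖u‖ = 1) (h : ℝ) (hh : 0 < h) : E3 ≃ₜ E3 where
  toFun := stretch u h
  invFun := stretch u h⁻¹
  left_inv x := by rw [stretch_stretch u hu, inv_mul_cancel₀ hh.ne', stretch_one]
  right_inv x := by rw [stretch_stretch u hu, mul_inv_cancel₀ hh.ne', stretch_one]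
  continuous_toFun := by
    unfold stretch
    fun_prop
  continuous_invFun := by
    unfold stretch
    fun_prop

/-- `stretch u h` is a homeomorphism (inverse `stretch u h⁻¹`), so it commutes with interiors -/
theorem interior_stretch (u : E3) (hu : ‖u‖ = 1) {h : ℝ} (hh : 0 < h) (T : Set E3) :
    interior (stretch u h '' T) = stretch u h '' interior T :=
  ((E00Ax_homeo u hu h hh).image_interior T).symm

private theorem E00Ax_conj (u : E3) (hu : ‖u‖ = 1) (h : ℝ) (hh : 0 < h) (g : E3 ≃ᵢ E3)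
    (hg : Axial u g) : ∃ g' : E3 ≃ᵢ E3, Axial u g' ∧
      ∀ x, g' (stretch u h x) = stretch u h (g x) := by
  have hri : ∀ x, stretch u h (stretch u h⁻¹ x) = x := fun x => by
    rw [stretch_stretch u hu, mul_inv_cancel₀ hh.ne', stretch_one]
  have hli : ∀ x, stretch u h⁻¹ (stretch u h x) = x := fun x => by
    rw [stretch_stretch u hu, inv_mul_cancel₀ hh.ne', stretch_one]
  have key : ∀ a b, dist (stretch u h (g a)) (stretch u h (g b)) =
      dist (stretch u h a) (stretch u h b) := by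
    intro a b
    have h1 : dist (stretch u h (g a)) (stretch u h (g b)) ^ 2 =
        dist (stretch u h a) (stretch u h b) ^ 2 := by
      rw [dist_stretch u hu, dist_stretch u hu, g.dist_eq, ← sq_abs ⟪u, g a - g b⟫, hg a b, sq_abs]
    exact (sq_eq_sq₀ dist_nonneg dist_nonneg).1 h1
  let e : E3 ≃ E3 :=
    { toFun := fun x => stretch u h (g (stretch u h⁻¹ x))
      invFun := fun x => stretch u h (g.symm (stretch u h⁻¹ x))
      left_inv := fun x => by
        show stretch u h (g.symm (stretch u h⁻¹ (stretch u h (g (stretch u h⁻¹ x))))) = x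
        rw [hli, g.symm_apply_apply, hri]
      right_inv := fun x => by
        show stretch u h (g (stretch u h⁻¹ (stretch u h (g.symm (stretch u h⁻¹ x))))) = x
        rw [hli, g.apply_symm_apply, hri] }
  have hiso : Isometry e := by
    refine Isometry.of_dist_eq fun x y => ?_
    show dist (stretch u h (g (stretch u h⁻¹ x))) (stretch u h (g (stretch u h⁻¹ y))) = dist x y
    rw [key, hri, hri]
  refine ⟨⟨e, hiso⟩, ?_, ?_⟩
  · intro x y
    show |⟪u, stretch u h (g (stretch u h⁻¹ x)) - stretch u h (g (stretch u h⁻¹ y))⟫| = |⟪u, x - y⟫|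
    rw [inner_sub_right, inner_stretch u hu, inner_stretch u hu, ← mul_sub, ← inner_sub_right,
      abs_mul, hg, ← abs_mul, inner_sub_right, mul_sub, ← inner_stretch u hu,
      ← inner_stretch u hu, hri, hri, ← inner_sub_right]
  · intro x
    show stretch u h (g (stretch u h⁻¹ (stretch u h x))) = stretch u h (g x)
    rw [hli]

/-- conjugation with the stretching: `stretch u h ∘ g ∘ stretch u h⁻¹` is an isometry by `dist_stretch`
and `Axial`; it is axial by `inner_stretch`.  The union and the disjointness are clear from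
`interior_stretch` (bijection). -/
theorem AxT.stretch {u : E3} (hu : ‖u‖ = 1) {T : Set E3} (hT : AxT u T) {h : ℝ} (hh : 0 < h) :
    AxT u (ST.stretch u h '' T) := by
  obtain ⟨F, hF, hU, hD⟩ := hT
  have hinj : Function.Injective (ST.stretch u h) := (E00Ax_homeo u hu h hh).injective
  have hsurj : Function.Surjective (ST.stretch u h) := (E00Ax_homeo u hu h hh).surjective
  refine ⟨(fun S => ST.stretch u h '' S) '' F, ?_, ?_, ?_⟩
  · rintro S ⟨S₀, hS₀, rfl⟩
    obtain ⟨g, hg, rfl⟩ := hF S₀ hS₀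
    obtain ⟨g', hg', hgg⟩ := E00Ax_conj u hu h hh g hg
    refine ⟨g', hg', ?_⟩
    show ST.stretch u h '' (g '' T) = g' '' (ST.stretch u h '' T)
    rw [image_image, image_image]
    exact image_congr fun x _ => (hgg x).symm
  · rw [eq_univ_iff_forall]
    intro y
    obtain ⟨x, rfl⟩ := hsurj y
    have hx : x ∈ ⋃₀ F := by
      rw [hU]
      exact mem_univ x
    obtain ⟨S, hS, hxS⟩ := hx
    exact ⟨ST.stretch u h '' S, ⟨S, hS, rfl⟩, x, hxS, rfl⟩
  · rintro A ⟨A₀, hA₀, rfl⟩ B ⟨B₀, hB₀, rfl⟩ hne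
    have hne0 : A₀ ≠ B₀ := by
      rintro rfl
      exact hne rfl
    show Disjoint (interior (ST.stretch u h '' A₀)) (interior (ST.stretch u h '' B₀))
    rw [interior_stretch u hu hh, interior_stretch u hu hh, disjoint_image_iff hinj]
    exact hD hA₀ hB₀ hne0

theorem AxT.tiles {u : E3} {T : Set E3} (hT : AxT u T) : TilesSpace T := by
  obtain ⟨F, hF, hU, hD⟩ := hT
  refine ⟨F, fun S hS => ?_, hU, hD⟩
  obtain ⟨g, _, hg⟩ := hF S hS
  exact ⟨g, hg⟩

/-- the same family; `S = g₁ '' T = (g₁ ∘ g⁻¹) '' (g '' T)`, and `g⁻¹` is axial -/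
theorem AxT.image {u : E3} {T : Set E3} (hT : AxT u T) (g : E3 ≃ᵢ E3) (hg : Axial u g) :
    AxT u (g '' T) := by
  obtain ⟨F, hF, hU, hD⟩ := hT
  refine ⟨F, fun S hS => ?_, hU, hD⟩
  obtain ⟨g₁, hg₁, rfl⟩ := hF S hS
  refine ⟨g.symm.trans g₁, ?_, ?_⟩
  · intro x y
    have h1 := hg (g.symm x) (g.symm y)
    rw [g.apply_symm_apply, g.apply_symm_apply] at h1
    show |⟪u, g₁ (g.symm x) - g₁ (g.symm y)⟫| = |⟪u, x - y⟫|
    rw [hg₁, h1]
  · rw [image_image]
    apply image_congr
    intro x _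
    show g₁ x = g₁ (g.symm (g x))
    rw [g.symm_apply_apply]

end Pool.Agent.Helper22.ST
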