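import Pool.Agent.Helper22.ST.E00Ax

/-!
# ST-E01: axial tilings — scaling, coordinates, halves

`AxT.smul`: conjugate with the homothety (compare `TilesSpace.smul` in Helper1/Tet/Lower.lean).
`AxT.coord`: if `Φ` is a linear isometry with `⟪w, Φ x⟫ = ⟪u, x⟫`, a family for `Φ '' T` is pulled back:
`{Φ ⁻¹' S | S ∈ 𝒯}`, isometries `Φ⁻¹ g Φ`.
`AxT.half`: `T = A ∪ ρ '' A`.  For every `S ∈ 𝒯` choose an axial `g S` with `S = g S '' (A ∪ ρ '' A)`; the new family consists of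
`g S '' A` and `g S '' (ρ '' A) = (g S ∘ ρ) '' A`.  It covers.  Two different members which belong to the same `S` are `g S '' A` and
`g S '' (ρ '' A)`, with disjoint interiors; members which belong to `S ≠ S'` are contained in `S`, `S'`.
-/

open Real Set
open scoped RealInnerProductSpace Pointwise
open Pool.Agent.Helper1.Tet

namespace Pool.Agent.Helper22.ST

/-- conjugation of an isometry with a homothety -/
private noncomputable def e01_conj (c : ℝ) (hc : 0 < c) (φ : E3 ≃ᵢ E3) : E3 ≃ᵢ E3 where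
  toFun x := c • φ (c⁻¹ • x)
  invFun x := c • φ.symm (c⁻¹ • x)
  left_inv x := by
    show c • φ.symm (c⁻¹ • (c • φ (c⁻¹ • x))) = x
    rw [smul_smul, inv_mul_cancel₀ hc.ne', one_smul, φ.symm_apply_apply, smul_smul,
      mul_inv_cancel₀ hc.ne', one_smul]
  right_inv x := by
    show c • φ (c⁻¹ • (c • φ.symm (c⁻¹ • x))) = x
    rw [smul_smul, inv_mul_cancel₀ hc.ne', one_smul, φ.apply_symm_apply, smul_smul,
      mul_inv_cancel₀ hc.ne', one_smul]
  isometry_toFun := by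
    refine Isometry.of_dist_eq fun x y => ?_
    show dist (c • φ (c⁻¹ • x)) (c • φ (c⁻¹ • y)) = dist x y
    rw [dist_smul₀, φ.dist_eq, dist_smul₀, ← mul_assoc, ← norm_mul, mul_inv_cancel₀ hc.ne',
      norm_one, one_mul]

private theorem e01_conj_apply (c : ℝ) (hc : 0 < c) (φ : E3 ≃ᵢ E3) (x : E3) :
    e01_conj c hc φ x = c • φ (c⁻¹ • x) := rfl

private theorem e01_axial_conj {u : E3} {c : ℝ} (hc : 0 < c) {φ : E3 ≃ᵢ E3} (h : Axial u φ) :
    Axial u (e01_conj c hc φ) := by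
  intro x y
  have h1 := h (c⁻¹ • x) (c⁻¹ • y)
  rw [e01_conj_apply, e01_conj_apply, ← smul_sub, real_inner_smul_right, abs_mul, h1, ← smul_sub,
    real_inner_smul_right, abs_mul, ← mul_assoc, ← abs_mul, mul_inv_cancel₀ hc.ne', abs_one,
    one_mul]

theorem AxT.smul {u : E3} {T : Set E3} (hT : AxT u T) {c : ℝ} (hc : 0 < c) :
    AxT u ((fun x : E3 => c • x) '' T) := by
  obtain ⟨𝒯, h1, h2, h3⟩ := hT
  refine ⟨(fun S : Set E3 => c • S) '' 𝒯, ?_, ?_, ?_⟩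
  · rintro _ ⟨S, hS, rfl⟩
    obtain ⟨φ, hφ, rfl⟩ := h1 S hS
    refine ⟨e01_conj c hc φ, e01_axial_conj hc hφ, ?_⟩
    ext x
    constructor
    · rintro ⟨_, ⟨t, ht, rfl⟩, rfl⟩
      refine ⟨c • t, ⟨t, ht, rfl⟩, ?_⟩
      show c • φ (c⁻¹ • (c • t)) = c • φ t
      rw [smul_smul, inv_mul_cancel₀ hc.ne', one_smul]
    · rintro ⟨_, ⟨t, ht, rfl⟩, rfl⟩
      refine ⟨φ t, ⟨t, ht, rfl⟩, ?_⟩
      show c • φ t = c • φ (c⁻¹ • (c • t))
      rw [smul_smul, inv_mul_cancel₀ hc.ne', one_smul]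
  · refine eq_univ_of_forall fun x => ?_
    have hx : c⁻¹ • x ∈ ⋃₀ 𝒯 := by rw [h2]; exact mem_univ _
    obtain ⟨S, hS, hxS⟩ := hx
    exact ⟨c • S, ⟨S, hS, rfl⟩, ⟨c⁻¹ • x, hxS, by
      show c • (c⁻¹ • x) = x
      rw [smul_smul, mul_inv_cancel₀ hc.ne', one_smul]⟩⟩
  · rintro _ ⟨S, hS, rfl⟩ _ ⟨S', hS', rfl⟩ hne
    have hSS : S ≠ S' := fun h => hne (by rw [h])
    show Disjoint (interior (c • S)) (interior (c • S'))
    rw [interior_smul₀ hc.ne', interior_smul₀ hc.ne']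
    rw [Set.disjoint_left]
    rintro _ ⟨x, hx, rfl⟩ ⟨y, hy, hxy⟩
    have : y = x := by
      have := congrArg (fun z => c⁻¹ • z) hxy
      simpa [smul_smul, inv_mul_cancel₀ hc.ne'] using this
    subst this
    exact (Set.disjoint_left.1 (h3 hS hS' hSS)) hx hy

theorem AxT.coord {u w : E3} (Φ : E3 ≃ₗᵢ[ℝ] E3) (hΦ : ∀ x, ⟪w, Φ x⟫ = ⟪u, x⟫) {T : Set E3}
    (hT : AxT w (Φ '' T)) : AxT u T := by
  obtain ⟨𝒯, h1, h2, h3⟩ := hT
  refine ⟨(fun S : Set E3 => Φ ⁻¹' S) '' 𝒯, ?_, ?_, ?_⟩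
  · rintro _ ⟨S, hS, rfl⟩
    obtain ⟨g, hg, rfl⟩ := h1 S hS
    refine ⟨(Φ.toIsometryEquiv.trans g).trans Φ.toIsometryEquiv.symm, ?_, ?_⟩
    · intro x y
      have e : ∀ z, ((Φ.toIsometryEquiv.trans g).trans Φ.toIsometryEquiv.symm) z =
          Φ.symm (g (Φ z)) := fun z => rfl
      rw [e, e, ← map_sub, ← hΦ, Φ.apply_symm_apply, hg, ← map_sub, hΦ]
    · ext x
      constructor
      · rintro ⟨_, ⟨t, ht, rfl⟩, hx⟩
        refine ⟨t, ht, ?_⟩
        show Φ.symm (g (Φ t)) = x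
        rw [hx, Φ.symm_apply_apply]
      · rintro ⟨t, ht, rfl⟩
        refine ⟨Φ t, ⟨t, ht, rfl⟩, ?_⟩
        show g (Φ t) = Φ (Φ.symm (g (Φ t)))
        rw [Φ.apply_symm_apply]
  · refine eq_univ_of_forall fun x => ?_
    have hx : Φ x ∈ ⋃₀ 𝒯 := by rw [h2]; exact mem_univ _
    obtain ⟨S, hS, hxS⟩ := hx
    exact ⟨Φ ⁻¹' S, ⟨S, hS, rfl⟩, hxS⟩
  · rintro _ ⟨S, hS, rfl⟩ _ ⟨S', hS', rfl⟩ hne
    have hSS : S ≠ S' := fun h => hne (by rw [h])
    show Disjoint (interior (Φ ⁻¹' S)) (interior (Φ ⁻¹' S'))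
    have e : ∀ s : Set E3, interior (Φ ⁻¹' s) = Φ ⁻¹' interior s :=
      fun s => (Φ.toHomeomorph.preimage_interior s).symm
    rw [e, e]
    exact (h3 hS hS' hSS).preimage _

private theorem e01_interior (g : E3 ≃ᵢ E3) (s : Set E3) : interior (g '' s) = g '' interior s :=
  (g.toHomeomorph.image_interior s).symm

theorem AxT.half {u : E3} {A : Set E3} (ρ : E3 ≃ᵢ E3) (hρ : Axial u ρ) (hT : AxT u (A ∪ ρ '' A))
    (hd : Disjoint (interior A) (interior (ρ '' A))) : AxT u A := by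
  classical
  obtain ⟨𝒯, h1, h2, h3⟩ := hT
  choose! g hg hS using h1
  have key : ∀ S ∈ 𝒯, Disjoint (interior (g S '' A)) (interior (g S '' (ρ '' A))) := by
    intro S _
    rw [e01_interior, e01_interior]
    exact (Set.disjoint_image_iff (g S).injective).2 hd
  have sub1 : ∀ S ∈ 𝒯, g S '' A ⊆ S := by
    intro S hm
    conv_rhs => rw [hS S hm]
    exact image_mono subset_union_left
  have sub2 : ∀ S ∈ 𝒯, g S '' (ρ '' A) ⊆ S := by
    intro S hm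
    conv_rhs => rw [hS S hm]
    exact image_mono subset_union_right
  refine ⟨(fun S => g S '' A) '' 𝒯 ∪ (fun S => g S '' (ρ '' A)) '' 𝒯, ?_, ?_, ?_⟩
  · rintro _ (⟨S, hm, rfl⟩ | ⟨S, hm, rfl⟩)
    · exact ⟨g S, hg S hm, rfl⟩
    · refine ⟨ρ.trans (g S), ?_, ?_⟩
      · intro x y
        show |⟪u, g S (ρ x) - g S (ρ y)⟫| = |⟪u, x - y⟫|
        rw [hg S hm, hρ]
      · show g S '' (ρ '' A) = (fun x => g S (ρ x)) '' A
        rw [image_image]
  · refine eq_univ_of_forall fun x => ?_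
    have hx : x ∈ ⋃₀ 𝒯 := by rw [h2]; exact mem_univ _
    obtain ⟨S, hm, hxS⟩ := hx
    rw [hS S hm] at hxS
    obtain ⟨t, ht | ht, rfl⟩ := hxS
    · exact ⟨g S '' A, Or.inl ⟨S, hm, rfl⟩, ⟨t, ht, rfl⟩⟩
    · exact ⟨g S '' (ρ '' A), Or.inr ⟨S, hm, rfl⟩, ⟨t, ht, rfl⟩⟩
  · rintro _ (⟨S, hm, rfl⟩ | ⟨S, hm, rfl⟩) _ (⟨S', hm', rfl⟩ | ⟨S', hm', rfl⟩) hne
    · have hSS : S ≠ S' := fun h => hne (by rw [h])
      exact (h3 hm hm' hSS).mono (interior_mono (sub1 S hm)) (interior_mono (sub1 S' hm'))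
    · by_cases hSS : S = S'
      · subst hSS
        exact key S hm
      · exact (h3 hm hm' hSS).mono (interior_mono (sub1 S hm)) (interior_mono (sub2 S' hm'))
    · by_cases hSS : S = S'
      · subst hSS
        exact (key S hm).symm
      · exact (h3 hm hm' hSS).mono (interior_mono (sub2 S hm)) (interior_mono (sub1 S' hm'))
    · have hSS : S ≠ S' := fun h => hne (by rw [h])
      exact (h3 hm hm' hSS).mono (interior_mono (sub2 S hm)) (interior_mono (sub2 S' hm'))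

end Pool.Agent.Helper22.ST
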