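import Pool.Agent.Helper22.ST.E00Ax
import Pool.Agent.Helper1.Tet.Goldberg

/-!
# ST-E02: the tiling by Hill tetrahedra is axial

Copy the proof of `gold_tiles` (end of Helper1/Tet/Goldberg.lean): the isometries are
`(Ψ h b n1 n2 k).symm`, and `(Ψ h b n1 n2 k q) 2 = q 2 - k h` (`Rk_spec`, `Xk_spec`, `Ψ_spec`), so
they preserve the differences of the third coordinates.
-/

open Real Set
open scoped RealInnerProductSpace
open Pool.Agent.Helper1.Tet

namespace Pool.Agent.Helper22.ST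

/-- the third unit vector -/
noncomputable def e3 : E3 := EuclideanSpace.single 2 (1 : ℝ)

theorem inner_e3 (x : E3) : ⟪e3, x⟫ = x 2 := by
  unfold e3
  rw [EuclideanSpace.inner_single_left]
  simp

theorem norm_e3 : ‖e3‖ = 1 := by
  unfold e3
  rw [EuclideanSpace.norm_single]
  simp

open Gold in
private theorem E02Gold1_axial (h : ℝ) (b : Bool) (n1 n2 k : ℤ) :
    Axial e3 (Ψ h b n1 n2 k).symm := by
  have hc : ∀ q : E3, (Ψ h b n1 n2 k q) 2 = q 2 - k * h := by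
    intro q
    have hΨ : Ψ h b n1 n2 k q = Rk h k (Xk b n1 n2 q) := rfl
    obtain ⟨_, _, a3⟩ := Rk_spec h k (Xk b n1 n2 q)
    obtain ⟨_, _, _, c3⟩ := Xk_spec b n1 n2 q
    rw [hΨ, a3, c3]
  intro x y
  rw [inner_e3, inner_e3]
  have h1 := hc ((Ψ h b n1 n2 k).symm x)
  have h2 := hc ((Ψ h b n1 n2 k).symm y)
  rw [IsometryEquiv.apply_symm_apply] at h1 h2
  congr 1
  rw [PiLp.sub_apply, PiLp.sub_apply, h1, h2]
  ring

open Gold in
theorem gold_ax (h : ℝ) (hh : 0 < h) : AxT e3 (convexHull ℝ (range (gold h))) := by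
  rw [hull_eq h hh]
  refine ⟨{S | ∃ (b : Bool) (n1 n2 k : ℤ), S = Ψ h b n1 n2 k ⁻¹' T h}, ?_, ?_, ?_⟩
  · rintro S ⟨b, n1, n2, k, rfl⟩
    refine ⟨(Ψ h b n1 n2 k).symm, E02Gold1_axial h b n1 n2 k, ?_⟩
    exact ((Ψ h b n1 n2 k).toEquiv.image_symm_eq_preimage _).symm
  · rw [eq_univ_iff_forall]
    intro q
    obtain ⟨b, n1, n2, k, hq⟩ := exists_cover h hh q
    exact mem_sUnion.2 ⟨_, ⟨b, n1, n2, k, rfl⟩, hq⟩
  · rintro S ⟨b, n1, n2, k, rfl⟩ S' ⟨b', n1', n2', k', rfl⟩ hne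
    rw [Set.disjoint_left]
    intro q hq hq'
    apply hne
    have strict : ∀ {b : Bool} {n1 n2 k : ℤ}, q ∈ interior (Ψ h b n1 n2 k ⁻¹' T h) →
        0 < vv b n1 n2 q (k + 1) ∧ 0 < vv b n1 n2 q (k + 2) ∧
        0 < q 2 - LL h b n1 n2 q k ∧ 0 < LL h b n1 n2 q (k + 1) - q 2 := by
      intro b n1 n2 k hq
      have h1 : q ∈ (Ψ h b n1 n2 k).toHomeomorph ⁻¹' interior (T h) := by
        rw [Homeomorph.preimage_interior]; exact hq
      have h2 : Ψ h b n1 n2 k q ∈ interior (T h) := h1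
      have h3 := interior_T h hh h2
      obtain ⟨a1, a2, a3, a4⟩ := Ψ_spec h b n1 n2 k q
      rwa [a3, a4, a1, a2] at h3
    obtain ⟨rfl, rfl, rfl, rfl⟩ := eq_of_strict h hh (strict hq) (strict hq')
    rfl

end Pool.Agent.Helper22.ST
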