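import Pool.Agent.Helper1.Tet.Defs
import Pool.Agent.Helper1.Tet.Dual

/-!
# ST-E03: cutting a tetrahedron through the midpoint of an edge

`split_hull`: `⊇`: the midpoint is in the hull (`convexHull_min`).  `⊆`: a point `∑ w i • p i` (`w ≥ 0`, sum 1; e.g.
`convexHull_range_eq_exists_affineCombination` or `mem_convexHull_iff_exists_fintype`, or `Finset.centerMass`) with
`w a ≤ w b` is `2 w a • m + (w b - w a) • p b + (rest)`, a point of the hull of `update p a m`; if `w b ≤ w a` use `update p b m`.
`split_disj`: let `f` be an affine function with `f (p a) = -1`, `f (p b) = 1`, `f (p i) = 0` otherwise (from the affine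
basis `p`: difference of two barycentric coordinates; `AffineBasis.coord`, `t1Basis` in Helper1/Tet/Dual.lean).  The first hull is in
`{0 ≤ f}`, the second in `{f ≤ 0}`.  A point in both interiors has `f = 0` and a neighbourhood contained in `{0 ≤ f} ∩ {f ≤ 0}`,
so `f` would be constant (an affine function which vanishes on a nonempty open set is zero).
(There is similar material in Helper13/HT or Helper1/Tet; search for `interior` and `coord`.)
-/

open Real Set
open scoped RealInnerProductSpace
open Pool.Agent.Helper1.Tet

namespace Pool.Agent.Helper22.ST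

private theorem e03_repr (p : Fin 4 → E3) (x : E3) (hx : x ∈ convexHull ℝ (range p)) :
    ∃ w : Fin 4 → ℝ, (∀ i, 0 ≤ w i) ∧ ∑ i, w i = 1 ∧ ∑ i, w i • p i = x := by
  have h1 : range p = (Fintype.linearCombination ℝ p : (Fin 4 → ℝ) →ₗ[ℝ] E3) ''
      (range fun i j : Fin 4 => if i = j then (1 : ℝ) else 0) := by
    rw [← range_comp]
    congr 1
    funext i
    simp [Fintype.linearCombination_apply]
  rw [h1, ← LinearMap.image_convexHull, convexHull_basis_eq_stdSimplex] at hx
  obtain ⟨w, hw, rfl⟩ := hx
  exact ⟨w, hw.1, hw.2, by rw [Fintype.linearCombination_apply]⟩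

private theorem e03_mem (p : Fin 4 → E3) (a b : Fin 4) (hab : a ≠ b) (m : E3)
    (hm : m = (1 / 2 : ℝ) • (p a + p b)) (w : Fin 4 → ℝ) (h0 : ∀ i, 0 ≤ w i) (h1 : ∑ i, w i = 1)
    (hle : w a ≤ w b) : ∑ i, w i • p i ∈ convexHull ℝ (range (Function.update p a m)) := by
  set w' : Fin 4 → ℝ := fun i => if i = a then 2 * w a else if i = b then w b - w a else w i with hw'
  have ha : w' a = 2 * w a := by rw [hw']; simp
  have hb : w' b = w b - w a := by rw [hw']; simp [hab.symm]
  have ho : ∀ i, i ≠ a ∧ i ≠ b → w' i = w i := by
    intro i hi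
    rw [hw']
    simp [hi.1, hi.2]
  have hs : ∑ i, (w' i - w i) = 0 := by
    rw [Fintype.sum_eq_add a b hab (fun i hi => by rw [ho i hi, sub_self]), ha, hb]
    ring
  have hs' : ∑ i, w' i = 1 := by
    rw [Finset.sum_sub_distrib, h1] at hs
    linarith
  have hv : ∑ i, (w' i • Function.update p a m i - w i • p i) = 0 := by
    rw [Fintype.sum_eq_add a b hab (fun i hi => by
      rw [ho i hi, Function.update_of_ne hi.1, sub_self]), ha, hb, Function.update_self,
      Function.update_of_ne hab.symm, hm]
    module
  have hv' : ∑ i, w i • p i = ∑ i, w' i • Function.update p a m i := by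
    rw [Finset.sum_sub_distrib] at hv
    exact (sub_eq_zero.1 hv).symm
  rw [hv']
  refine (convex_convexHull ℝ _).sum_mem (fun i _ => ?_) hs' (fun i _ =>
    subset_convexHull ℝ _ (mem_range_self i))
  by_cases hia : i = a
  · rw [hia, ha]
    linarith [h0 a]
  · by_cases hib : i = b
    · rw [hib, hb]
      linarith
    · rw [ho i ⟨hia, hib⟩]
      exact h0 i

private theorem e03_sub (p : Fin 4 → E3) (a b : Fin 4) (m : E3)
    (hm : m = (1 / 2 : ℝ) • (p a + p b)) :
    convexHull ℝ (range (Function.update p a m)) ⊆ convexHull ℝ (range p) := by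
  refine convexHull_min ?_ (convex_convexHull ℝ _)
  rintro _ ⟨i, rfl⟩
  by_cases hi : i = a
  · rw [hi, Function.update_self, hm, smul_add]
    exact (convex_convexHull ℝ (range p)) (subset_convexHull ℝ _ (mem_range_self a))
      (subset_convexHull ℝ _ (mem_range_self b)) (by norm_num) (by norm_num) (by norm_num)
  · rw [Function.update_of_ne hi]
    exact subset_convexHull ℝ _ (mem_range_self i)

theorem split_hull (p : Fin 4 → E3) (a b : Fin 4) (hab : a ≠ b) (m : E3)
    (hm : m = (1 / 2 : ℝ) • (p a + p b)) : convexHull ℝ (range p) =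
      convexHull ℝ (range (Function.update p a m)) ∪ convexHull ℝ (range (Function.update p b m)) := by
  have hm' : m = (1 / 2 : ℝ) • (p b + p a) := by rw [hm, add_comm]
  apply Subset.antisymm
  · intro x hx
    obtain ⟨w, h0, h1, rfl⟩ := e03_repr p x hx
    rcases le_total (w a) (w b) with h | h
    · exact Or.inl (e03_mem p a b hab m hm w h0 h1 h)
    · exact Or.inr (e03_mem p b a hab.symm m hm' w h0 h1 h)
  · exact union_subset (e03_sub p a b m hm) (e03_sub p b a m hm')

private theorem e03_half (p : Fin 4 → E3) (hp : AffineIndependent ℝ p) (a b : Fin 4) (hab : a ≠ b)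
    (m : E3) (hm : m = (1 / 2 : ℝ) • (p a + p b)) (x : E3)
    (hx : x ∈ convexHull ℝ (range (Function.update p a m))) :
    (t1Basis p hp).coord a x ≤ (t1Basis p hp).coord b x := by
  have hcoord : ∀ i j, (t1Basis p hp).coord i (p j) = if i = j then 1 else 0 := by
    intro i j
    rw [← t1Basis_apply p hp j, AffineBasis.coord_apply]
  have hconv : Convex ℝ {y : E3 | (t1Basis p hp).coord a y ≤ (t1Basis p hp).coord b y} := by
    intro y hy z hz s t hs ht hst
    simp only [mem_ofPred_eq] at hy hz ⊢
    rw [Convex.combo_affine_apply hst, Convex.combo_affine_apply hst]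
    simp only [smul_eq_mul]
    nlinarith [mul_le_mul_of_nonneg_left hy hs, mul_le_mul_of_nonneg_left hz ht]
  refine convexHull_min ?_ hconv hx
  rintro _ ⟨i, rfl⟩
  simp only [mem_ofPred_eq]
  by_cases hi : i = a
  · rw [hi, Function.update_self, hm, smul_add, Convex.combo_affine_apply (by norm_num),
      Convex.combo_affine_apply (by norm_num), hcoord, hcoord, hcoord, hcoord]
    simp [hab, hab.symm]
  · rw [Function.update_of_ne hi, hcoord, hcoord, if_neg (fun h => hi h.symm)]
    split_ifs <;> norm_num

theorem split_disj (p : Fin 4 → E3) (hp : AffineIndependent ℝ p) (a b : Fin 4) (hab : a ≠ b) (m : E3)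
    (hm : m = (1 / 2 : ℝ) • (p a + p b)) :
    Disjoint (interior (convexHull ℝ (range (Function.update p a m))))
      (interior (convexHull ℝ (range (Function.update p b m)))) := by
  have hm' : m = (1 / 2 : ℝ) • (p b + p a) := by rw [hm, add_comm]
  rw [Set.disjoint_left]
  intro x hx hy
  have hf : ∀ y ∈ interior (convexHull ℝ (range (Function.update p a m))) ∩
      interior (convexHull ℝ (range (Function.update p b m))),
      (t1Basis p hp).coord a y = (t1Basis p hp).coord b y := fun y hy =>
    le_antisymm (e03_half p hp a b hab m hm y (interior_subset hy.1))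
      (e03_half p hp b a hab.symm m hm' y (interior_subset hy.2))
  have hU : interior (convexHull ℝ (range (Function.update p a m))) ∩
      interior (convexHull ℝ (range (Function.update p b m))) ∈ nhds x :=
    (isOpen_interior.inter isOpen_interior).mem_nhds ⟨hx, hy⟩
  have hc : Filter.Tendsto (fun t : ℝ => x + t • (p b - p a)) (nhds 0) (nhds x) := by
    have h : Continuous fun t : ℝ => x + t • (p b - p a) := by fun_prop
    have h2 := h.tendsto 0
    simpa using h2
  have he := hc.eventually hU
  rw [Metric.eventually_nhds_iff] at he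
  obtain ⟨ε, hε, he⟩ := he
  have h1 := hf _ (he (y := ε / 2) (by rw [dist_zero_right, Real.norm_eq_abs, abs_of_pos (by linarith)]; linarith))
  have h0 := hf x ⟨hx, hy⟩
  have h2 : ∀ i, (t1Basis p hp).coord i (x + (ε / 2) • (p b - p a)) =
      (ε / 2) * ((if i = b then 1 else 0) - (if i = a then 1 else 0)) + (t1Basis p hp).coord i x := by
    intro i
    have h3 := ((t1Basis p hp).coord i).map_vadd x ((ε / 2) • (p b - p a))
    rw [vadd_eq_add, vadd_eq_add, map_smul, t1_coord_sub, smul_eq_mul] at h3
    rw [add_comm x]
    exact h3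
  rw [h2, h2, h0] at h1
  simp only [if_true, if_neg hab, if_neg hab.symm] at h1
  linarith

end Pool.Agent.Helper22.ST
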