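import Pool.Agent.Helper22.ST.D00Sim
import Pool.Agent.Helper22.ST.E01AxMore
import Pool.Agent.Helper22.ST.E02Gold1
import Pool.Agent.Helper22.ST.E03Split

/-!
# ST-E04: the three families tile axially

`halfTurn`: `(x, y, z) ↦ (x, -y, 3 - z)`, an involutive isometry (`IsometryEquiv.mk'`), axial.  It exchanges the points
`gold 1 0 = (1,0,0)` and `gold 1 3 = (1,0,3)`, and `gold 1 1 = (-1/2, √3/2, 1)` and `gold 1 2 = (-1/2, -√3/2, 2)`, and fixes
`M = (1,0,3/2)` and `N = (-1/2,0,3/2)`.
`ax_g1`: `tet gx gy gz1 1 = gold 1`, `gold_ax`.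
`ax_g3`: `tet gx gy gz3 1 = update (gold 1) 3 M`; `split_hull` for the vertices `3, 0` (`m = M`): the other half is the hull of
`update (gold 1) 0 M`, whose range is the image of the range of `update (gold 1) 3 M` under the half-turn; an isometry maps convex hulls to
convex hulls (see `congr_tiles` in Helper13/HT/Congr.lean: `toRealAffineIsometryEquiv`, `AffineMap.image_convexHull`).  `AxT.half`, `split_disj`
(`gold_indep`).
`ax_g2`: `tet gx gy2 gz2 1 = update (gold 1) 2 N`, the vertices `2, 1`, `m = N`.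
-/

open Real Set
open scoped RealInnerProductSpace
open Pool.Agent.Helper1.Tet

namespace Pool.Agent.Helper22.ST

private theorem e04_isom : Isometry fun x : E3 => (!₂[x 0, -(x 1), 3 - x 2] : E3) := by
  apply Isometry.of_dist_eq
  intro x y
  rw [EuclideanSpace.dist_eq, EuclideanSpace.dist_eq, Fin.sum_univ_three, Fin.sum_univ_three]
  congr 1
  simp only [Real.dist_eq, sq_abs]
  show (x 0 - y 0) ^ 2 + (-(x 1) - -(y 1)) ^ 2 + (3 - x 2 - (3 - y 2)) ^ 2 =
    (x 0 - y 0) ^ 2 + (x 1 - y 1) ^ 2 + (x 2 - y 2) ^ 2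
  ring

theorem exists_halfTurn : ∃ ρ : E3 ≃ᵢ E3, Axial e3 ρ ∧
    ∀ x : E3, ρ x = !₂[x 0, -(x 1), 3 - x 2] := by
  refine ⟨IsometryEquiv.mk' (fun x : E3 => (!₂[x 0, -(x 1), 3 - x 2] : E3))
    (fun x : E3 => (!₂[x 0, -(x 1), 3 - x 2] : E3)) (fun x => ?_) e04_isom, ?_, fun x => rfl⟩
  · ext i
    fin_cases i
    · rfl
    · show -(-(x 1)) = x 1
      ring
    · show 3 - (3 - x 2) = x 2
      ring
  · intro x y
    rw [inner_e3, inner_e3]
    show |(3 - x 2) - (3 - y 2)| = |x 2 - y 2|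
    rw [show (3 - x 2) - (3 - y 2) = -(x 2 - y 2) by ring, abs_neg]

private theorem e04_hull (g : E3 ≃ᵢ E3) (p : Fin 4 → E3) :
    g '' convexHull ℝ (range p) = convexHull ℝ (range (g ∘ p)) := by
  obtain ⟨a, ha⟩ : ∃ a : E3 ≃ᵃ[ℝ] E3, ∀ x, a x = g x :=
    ⟨g.toRealAffineIsometryEquiv.toAffineEquiv, fun x => rfl⟩
  have e1 : range (g ∘ p) = a.toAffineMap '' range p := by
    rw [← range_comp]
    congr 1
    funext i
    exact (ha (p i)).symm
  rw [e1, ← AffineMap.image_convexHull]
  ext y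
  constructor
  · rintro ⟨x, hx, rfl⟩
    exact ⟨x, hx, ha x⟩
  · rintro ⟨x, hx, rfl⟩
    exact ⟨x, hx, (ha x).symm⟩

private theorem e04_half (ρ : E3 ≃ᵢ E3) (hρ : Axial e3 ρ) (a b : Fin 4) (hab : a ≠ b) (m : E3)
    (hm : m = (1 / 2 : ℝ) • (gold 1 a + gold 1 b))
    (hr : ρ ∘ Function.update (gold 1) a m = Function.update (gold 1) b m ∘ Fin.rev) :
    AxT e3 (convexHull ℝ (range (Function.update (gold 1) a m))) := by
  have himg : ρ '' convexHull ℝ (range (Function.update (gold 1) a m)) =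
      convexHull ℝ (range (Function.update (gold 1) b m)) := by
    rw [e04_hull, hr, Fin.rev_involutive.surjective.range_comp]
  refine AxT.half ρ hρ ?_ ?_
  · rw [himg, ← split_hull (gold 1) a b hab m hm]
    exact gold_ax 1 one_pos
  · rw [himg]
    exact split_disj (gold 1) (gold_indep 1 one_pos) a b hab m hm

theorem ax_g1 : AxT e3 (convexHull ℝ (range (tet gx gy gz1 1))) := by
  have h : tet gx gy gz1 1 = gold 1 := by
    funext i
    ext j
    fin_cases i <;> fin_cases j <;> simp [tet, gold, gx, gy, gz1]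
  rw [h]
  exact gold_ax 1 one_pos

theorem ax_g3 : AxT e3 (convexHull ℝ (range (tet gx gy gz3 1))) := by
  obtain ⟨ρ, hρ, hρx⟩ := exists_halfTurn
  have h : tet gx gy gz3 1 = Function.update (gold 1) 3 !₂[1, 0, 3 / 2] := by
    funext i
    ext j
    fin_cases i <;> fin_cases j <;> simp [tet, gold, gx, gy, gz3, Function.update]
  rw [h]
  refine e04_half ρ hρ 3 0 (by decide) _ ?_ ?_
  · ext j
    fin_cases j <;> simp [gold] <;> norm_num
  · funext i
    rw [Function.comp_apply, Function.comp_apply, hρx]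
    ext j
    fin_cases i <;> fin_cases j <;> simp [gold, Function.update, Fin.rev] <;> norm_num <;> ring

theorem ax_g2 : AxT e3 (convexHull ℝ (range (tet gx gy2 gz2 1))) := by
  obtain ⟨ρ, hρ, hρx⟩ := exists_halfTurn
  have h : tet gx gy2 gz2 1 = Function.update (gold 1) 2 !₂[-1 / 2, 0, 3 / 2] := by
    funext i
    ext j
    fin_cases i <;> fin_cases j <;> simp [tet, gold, gx, gy2, gz2, Function.update]
  rw [h]
  refine e04_half ρ hρ 2 1 (by decide) _ ?_ ?_
  · ext j
    fin_cases j <;> simp [gold] <;> norm_num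
    ring
  · funext i
    rw [Function.comp_apply, Function.comp_apply, hρx]
    ext j
    fin_cases i <;> fin_cases j <;> simp [gold, Function.update, Fin.rev] <;> norm_num
    ring

end Pool.Agent.Helper22.ST
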