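import Pool.Agent.Helper22.ST.D01HT
import Pool.Agent.Helper22.ST.E04Gold23
import Pool.Agent.Helper22.FF.Isom

/-!
# ST-E05: transfer of axial tilings

`ax_points`: `ψ` is affine (`toRealAffineIsometryEquiv`), so `x ↦ (ψ x) 2 - ε * x 2` is an affine function; it takes the same value at
the four points `q i`, which span the space affinely (`q` affinely independent, four points in dimension three), so it is constant.
`tet_stretch`: `stretch e3 h (tet x y z s i) = tet x y z (h * s) i` (`inner_e3`; compare coordinates).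
`ax_sim`: let `σ, t, k` be the data of `Sim3`, `s = t / |k|`.  By `dist_sim` (with `s |k| / t = 1`) the tuples `tet x y z s ∘ σ` and
`t • tet x' y' z' 1` have the same distances; `exists_isometry` (Helper22/FF/Isom.lean; the tuple `t • tet x' y' z' 1` is affinely
independent) gives `ψ` with `tet x y z s ∘ σ = ψ ∘ (t • tet x' y' z' 1)`.  Heights: `s (z (σ i) - z (σ j)) = s k (z' i - z' j) = ± t (z' i - z' j)`:
`ax_points` with `ε = ±1` (sign of `k`), so `ψ` is axial.  `AxT.smul`, `AxT.image`: the hull of `tet x y z s ∘ σ` (same range as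
`tet x y z s`) has `AxT`; apply `AxT.stretch` with the factor `1/s` and `tet_stretch` (`stretch e3 h` is linear, so it maps the convex hull to the
convex hull of the image: `LinearMap.image_convexHull` or `IsLinearMap`, or `AffineMap.image_convexHull`).
`ax_gold3`: the three alternatives, `ax_g1, ax_g2, ax_g3`, `dt_g1, dt_g2, dt_g3`.
-/

open Real Set
open scoped RealInnerProductSpace
open Pool.Agent.Helper1.Tet

namespace Pool.Agent.Helper22.ST

theorem ax_points (ψ : E3 ≃ᵢ E3) (q : Fin 4 → E3) (hq : AffineIndependent ℝ q) (ε : ℝ)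
    (hε : ε = 1 ∨ ε = -1) (h : ∀ i j, (ψ (q i)) 2 - (ψ (q j)) 2 = ε * ((q i) 2 - (q j) 2)) :
    Axial e3 ψ := by
  classical
  have hli : LinearIndependent ℝ (fun i : Fin 3 => q i.succ - q 0) := by
    have h1 := (affineIndependent_iff_linearIndependent_vsub ℝ q 0).1 hq
    exact h1.comp (fun i : Fin 3 => (⟨i.succ, Fin.succ_ne_zero i⟩ : {x : Fin 4 // x ≠ 0}))
      (by intro i j hij; simpa using hij)
  have hcard : Fintype.card (Fin 3) = Module.finrank ℝ E3 := by simp
  obtain ⟨B, hB⟩ : ∃ B : Module.Basis (Fin 3) ℝ E3, ∀ i : Fin 3, B i = q i.succ - q 0 :=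
    ⟨basisOfLinearIndependentOfCardEqFinrank hli hcard, fun i => by simp⟩
  obtain ⟨L, hL⟩ : ∃ L : E3 →ₗ[ℝ] E3, ∀ x y, L (x - y) = ψ x - ψ y := by
    refine ⟨ψ.toRealAffineIsometryEquiv.linearIsometryEquiv.toLinearEquiv.toLinearMap,
      fun x y => ?_⟩
    have h1 := ψ.toRealAffineIsometryEquiv.map_vsub x y
    simpa using h1
  have hfg : ∀ v : E3, (L v) 2 = ε * v 2 := by
    let f : E3 →ₗ[ℝ] ℝ := (EuclideanSpace.proj (2 : Fin 3) : E3 →L[ℝ] ℝ).toLinearMap ∘ₗ L
    let g : E3 →ₗ[ℝ] ℝ := ε • (EuclideanSpace.proj (2 : Fin 3) : E3 →L[ℝ] ℝ).toLinearMap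
    have hfg : f = g := B.ext fun i => by
      rw [hB]
      show (L (q i.succ - q 0)) 2 = ε * (q i.succ - q 0) 2
      rw [hL]
      exact h i.succ 0
    intro v
    exact congrArg (fun l : E3 →ₗ[ℝ] ℝ => l v) hfg
  intro x y
  rw [inner_e3, inner_e3, ← hL, hfg, abs_mul]
  rcases hε with rfl | rfl
  · rw [abs_one, one_mul]
  · rw [abs_neg, abs_one, one_mul]

theorem tet_stretch (x y z : Fin 4 → ℝ) (h s : ℝ) (i : Fin 4) :
    stretch e3 h (tet x y z s i) = tet x y z (h * s) i := by
  unfold stretch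
  rw [inner_e3]
  ext j
  fin_cases j
  · simp [tet, e3]
  · simp [tet, e3]
  · simp [tet, e3]
    ring

/-- `stretch u h` is linear -/
theorem stretch_hull (u : E3) (h : ℝ) (p : Fin 4 → E3) :
    stretch u h '' convexHull ℝ (range p) = convexHull ℝ (range fun i => stretch u h (p i)) := by
  obtain ⟨L, hL⟩ : ∃ L : E3 →ₗ[ℝ] E3, ∀ x, L x = stretch u h x := by
    refine ⟨{ toFun := stretch u h, map_add' := fun x y => ?_, map_smul' := fun c x => ?_ },
      fun x => rfl⟩
    · unfold stretch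
      rw [inner_add_right, mul_add, add_smul]
      abel
    · unfold stretch
      rw [inner_smul_right, RingHom.id_apply, smul_add, smul_smul]
      congr 2
      ring
  have e1 : (range fun i => stretch u h (p i)) = L '' range p := by
    rw [← range_comp]
    congr 1
    funext i
    exact (hL (p i)).symm
  rw [e1, ← LinearMap.image_convexHull]
  exact image_congr fun x _ => (hL x).symm

private theorem E05Transfer_hull (g : E3 ≃ᵢ E3) (p : Fin 4 → E3) :
    g '' convexHull ℝ (range p) = convexHull ℝ (range (g ∘ p)) := by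
  obtain ⟨a, ha⟩ : ∃ a : E3 ≃ᵃ[ℝ] E3, ∀ x, a x = g x :=
    ⟨g.toRealAffineIsometryEquiv.toAffineEquiv, fun x => rfl⟩
  have e1 : range (g ∘ p) = a.toAffineMap '' range p := by
    rw [← range_comp]
    congr 1
    funext i
    exact (ha (p i)).symm
  rw [e1, ← AffineMap.image_convexHull]
  ext y
  constructor
  · rintro ⟨x, hx, rfl⟩
    exact ⟨x, hx, ha x⟩
  · rintro ⟨x, hx, rfl⟩
    exact ⟨x, hx, (ha x).symm⟩

private theorem E05Transfer_smul_hull (c : ℝ) (p : Fin 4 → E3) :
    (fun x : E3 => c • x) '' convexHull ℝ (range p) = convexHull ℝ (range fun i => c • p i) := by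
  obtain ⟨L, hL⟩ : ∃ L : E3 →ₗ[ℝ] E3, ∀ x, L x = c • x :=
    ⟨LinearMap.lsmul ℝ E3 c, fun x => rfl⟩
  have e1 : (range fun i => c • p i) = L '' range p := by
    rw [← range_comp]
    congr 1
    funext i
    exact (hL (p i)).symm
  rw [e1, ← LinearMap.image_convexHull]
  exact image_congr fun x _ => (hL x).symm

theorem ax_sim {x y z x' y' z' : Fin 4 → ℝ} (hd : dt x y z ≠ 0) (hd' : dt x' y' z' ≠ 0)
    (h : Sim3 x y z x' y' z') (hT : AxT e3 (convexHull ℝ (range (tet x' y' z' 1)))) :
    AxT e3 (convexHull ℝ (range (tet x y z 1))) := by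
  obtain ⟨σ, t, k, ht, hk, h⟩ := h
  have hk' : 0 < |k| := abs_pos.2 hk
  obtain ⟨s, hs⟩ : ∃ s : ℝ, s = t / |k| := ⟨_, rfl⟩
  have hs0 : 0 < s := by
    rw [hs]
    exact div_pos ht hk'
  have hs1 : s * |k| / t = 1 := by
    rw [hs]
    field_simp
  have hp : AffineIndependent ℝ (fun i => t • tet x' y' z' 1 i) :=
    indep_smul ht (tet_indep x' y' z' hd' one_pos)
  obtain ⟨ψ, hψ⟩ := Pool.Agent.Helper22.FF.exists_isometry (fun i => t • tet x' y' z' 1 i)
    (tet x y z s ∘ σ) hp (by
      intro i j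
      have h1 := dist_sim σ t k ht h s i j
      rw [hs1] at h1
      show dist (t • tet x' y' z' 1 i) (t • tet x' y' z' 1 j) =
        dist (tet x y z s (σ i)) (tet x y z s (σ j))
      rw [h1, dist_smul₀, Real.norm_of_nonneg ht.le])
  have hax : Axial e3 ψ := by
    refine ax_points ψ (fun i => t • tet x' y' z' 1 i) hp (k / |k|) ?_ ?_
    · rcases lt_or_gt_of_ne hk with h0 | h0
      · right
        rw [abs_of_neg h0, div_neg, div_self hk]
      · left
        rw [abs_of_pos h0, div_self hk]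
    · intro i j
      have e1 : ∀ i, ψ (t • tet x' y' z' 1 i) = tet x y z s (σ i) := fun i =>
        (congrFun hψ i).symm
      show (ψ (t • tet x' y' z' 1 i)) 2 - (ψ (t • tet x' y' z' 1 j)) 2 =
        k / |k| * ((t • tet x' y' z' 1 i) 2 - (t • tet x' y' z' 1 j) 2)
      rw [e1, e1]
      have e2 : ∀ i, (tet x y z s (σ i)) 2 = s * z (σ i) := fun i => by simp [tet]
      have e3 : ∀ i, (t • tet x' y' z' 1 i) 2 = t * z' i := fun i => by simp [tet]
      rw [e2, e2, e3, e3, ← mul_sub, (h i j).2, hs]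
      field_simp
  have h1 := (hT.smul ht).image ψ hax
  rw [E05Transfer_smul_hull, E05Transfer_hull, ← hψ, σ.surjective.range_comp] at h1
  have h2 := AxT.stretch norm_e3 h1 (inv_pos.2 hs0)
  rw [stretch_hull] at h2
  have e4 : (fun i => ST.stretch e3 s⁻¹ (tet x y z s i)) = tet x y z 1 := by
    funext i
    rw [tet_stretch, inv_mul_cancel₀ hs0.ne']
  rwa [e4] at h2

theorem ax_gold3 {x y z : Fin 4 → ℝ} (hd : dt x y z ≠ 0) (h : Gold3 x y z) :
    AxT e3 (convexHull ℝ (range (tet x y z 1))) := by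
  rcases h with h | h | h
  · exact ax_sim hd dt_g1 h ax_g1
  · exact ax_sim hd dt_g2 h ax_g2
  · exact ax_sim hd dt_g3 h ax_g3

end Pool.Agent.Helper22.ST
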